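import Pool.Agent.H525R3.Hom

/-!
# All conjugates of the nodes of a graph
-/

namespace Pool.Agent.H525C

open FirstOrder FirstOrder.Language
open Pool.Agent.Helper672 Pool.Agent.Helper672.ZFA Pool.Agent.Helper672.ZFA.H635
open Pool.Agent.Helper672.Plain (LSet)
open Pool.Agent.H525Emb

universe u

set_option synthInstance.maxSize 2000
set_option linter.unusedSectionVars false

section

variable {M : Type u} [L.Structure M] [hM : IsModel M]
variable {α : Type u} [ITy M α] {E : α → PC M → α → Prop}

variable (E) in
/-- The graph of all conjugates of the nodes. -/
def bgE (x : GC M × α) (s : PC M) (y : GC M × α) : Prop := x.1 = y.1 ∧ tw y.1 E x.2 s y.2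

variable (E) in
/-- The relation of being a child, up to conjugation. -/
def Ch (x y : GC M × α) : Prop := ∃ s, E x.2 s y.2

theorem int_bgE' (hE : IG M E) :
    Int M (fun q : ((GC M × α) × PC M) × (GC M × α) => bgE E q.1.1 q.1.2 q.2) := by
  have hE' : Int M (fun q : (α × PC M) × α => E q.1.1 q.1.2 q.2) := hE
  unfold bgE tw
  (repeat' (first | with_reducible exact IntF.id | with_reducible exact IntF.fst' | with_reducible exact IntF.snd' | with_reducible exact IntF.const _ | with_reducible exact Int.const _ | assumption | with_reducible apply ZFA.Int.and | with_reducible apply ZFA.Int.or | with_reducible apply ZFA.Int.not | with_reducible apply Int.imp | with_reducible apply Int.iff | with_reducible apply Int.ne | with_reducible apply Int.eq | with_reducible apply Int.mem | with_reducible apply Int.subset | with_reducible apply Int.ltN | with_reducible apply Int.leN | with_reducible_and_instances apply ZFA.Int.le | with_reducible_and_instances apply ZFA.Int.lt | with_reducible apply Int.all | with_reducible apply Int.ex | with_reducible apply IntF.fst | with_reducible apply IntF.snd | with_reducible apply IntF.app | with_reducible apply IntF.inl |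 with_reducible apply IntF.inr | with_reducible_and_instances apply IntF.mul | with_reducible_and_instances apply IntF.inv | with_reducible_and_instances apply IntF.add | with_reducible_and_instances apply IntF.sub | with_reducible_and_instances apply IntF.neg | with_reducible_and_instances apply IntF.smul | with_reducible apply IntF.succ | (with_reducible refine Int.comp ?_ ?_; assumption) | (with_reducible refine Int.comp₂ ?_ ?_ ?_; assumption) | (with_reducible refine Int.comp₃ ?_ ?_ ?_ ?_; assumption) | (with_reducible refine Int.comp₄ ?_ ?_ ?_ ?_ ?_; assumption) | (with_reducible refine IntF.comp ?_ ?_; assumption) | (with_reducible refine IntF.comp₂ ?_ ?_ ?_; assumption) | (with_reducible refine IntF.comp₃ ?_ ?_ ?_ ?_; assumption) | with_reducible apply IntF.val | with_reducible apply IntF.pair))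

theorem IG.bg (hE : IG M E) : IG M (bgE E) := int_bgE' hE

theorem int_ch (hE : IG M E) : Int M (fun q : (GC M × α) × (GC M × α) => Ch E q.1 q.2) := by
  have hE' : Int M (fun q : (α × PC M) × α => E q.1.1 q.1.2 q.2) := hE
  unfold Ch
  (repeat' (first | with_reducible exact IntF.id | with_reducible exact IntF.fst' | with_reducible exact IntF.snd' | with_reducible exact IntF.const _ | with_reducible exact Int.const _ | assumption | with_reducible apply ZFA.Int.and | with_reducible apply ZFA.Int.or | with_reducible apply ZFA.Int.not | with_reducible apply Int.imp | with_reducible apply Int.iff | with_reducible apply Int.ne | with_reducible apply Int.eq | with_reducible apply Int.mem | with_reducible apply Int.subset | with_reducible apply Int.ltN | with_reducible apply Int.leN | with_reducible_and_instances apply ZFA.Int.le | with_reducible_and_instances apply ZFA.Int.lt | with_reducible apply Int.all | with_reducible apply Int.ex | with_reducible apply IntF.fst | with_reducible apply IntF.snd | with_reducible apply IntF.app | with_reducible apply IntF.inl | with_reducible apply IntF.inr | with_reducible_and_instances apply IntF.mul | with_reducible_and_instances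 apply IntF.inv | with_reducible_and_instances apply IntF.add | with_reducible_and_instances apply IntF.sub | with_reducible_and_instances apply IntF.neg | with_reducible_and_instances apply IntF.smul | with_reducible apply IntF.succ | (with_reducible refine Int.comp ?_ ?_; assumption) | (with_reducible refine Int.comp₂ ?_ ?_ ?_; assumption) | (with_reducible refine Int.comp₃ ?_ ?_ ?_ ?_; assumption) | (with_reducible refine Int.comp₄ ?_ ?_ ?_ ?_ ?_; assumption) | (with_reducible refine IntF.comp ?_ ?_; assumption) | (with_reducible refine IntF.comp₂ ?_ ?_ ?_; assumption) | (with_reducible refine IntF.comp₃ ?_ ?_ ?_ ?_; assumption) | with_reducible apply IntF.val | with_reducible apply IntF.pair))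

theorem feq_bg (σ : GC M) (a : α) (p : PC M) : FEq M (tw σ E) (bgE E) p a (σ, a) := by
  refine feq_of_map (θ := fun a => (σ, a)) (by (repeat' (first | with_reducible exact IntF.id | with_reducible exact IntF.fst' | with_reducible exact IntF.snd' | with_reducible exact IntF.const _ | with_reducible exact Int.const _ | assumption | with_reducible apply ZFA.Int.and | with_reducible apply ZFA.Int.or | with_reducible apply ZFA.Int.not | with_reducible apply Int.imp | with_reducible apply Int.iff | with_reducible apply Int.ne | with_reducible apply Int.eq | with_reducible apply Int.mem | with_reducible apply Int.subset | with_reducible apply Int.ltN | with_reducible apply Int.leN | with_reducible_and_instances apply ZFA.Int.le | with_reducible_and_instances apply ZFA.Int.lt | with_reducible apply Int.all | with_reducible apply Int.ex | with_reducible apply IntF.fst | with_reducible apply IntF.snd | with_reducible apply IntF.app | with_reducible apply IntF.inl | with_reducible apply IntF.inr | with_reducible_and_instances apply IntF.mul | with_reducible_and_instances apply IntF.inv | with_reducible_and_instances apply IntF.add | with_reducible_and_instances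 apply IntF.sub | with_reducible_and_instances apply IntF.neg | with_reducible_and_instances apply IntF.smul | with_reducible apply IntF.succ | (with_reducible refine Int.comp ?_ ?_; assumption) | (with_reducible refine Int.comp₂ ?_ ?_ ?_; assumption) | (with_reducible refine Int.comp₃ ?_ ?_ ?_ ?_; assumption) | (with_reducible refine Int.comp₄ ?_ ?_ ?_ ?_ ?_; assumption) | (with_reducible refine IntF.comp ?_ ?_; assumption) | (with_reducible refine IntF.comp₂ ?_ ?_ ?_; assumption) | (with_reducible refine IntF.comp₃ ?_ ?_ ?_ ?_; assumption) | with_reducible apply IntF.val | with_reducible apply IntF.pair))) ?_ p a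
  rintro a ⟨σ', a'⟩ s
  constructor
  · rintro ⟨h1, h2⟩
    exact ⟨a', Prod.ext h1.symm rfl, h2⟩
  · rintro ⟨a'', h1, h2⟩
    obtain ⟨rfl, rfl⟩ := Prod.mk.inj h1
    exact ⟨rfl, h2⟩

theorem feq_tw_bg (ρ : GC M) (x : GC M × α) (p : PC M) :
    FEq M (tw ρ (bgE E)) (bgE E) p x (ρ * x.1, x.2) := by
  refine feq_of_map (θ := fun x : GC M × α => (ρ * x.1, x.2)) (by (repeat' (first | with_reducible exact IntF.id | with_reducible exact IntF.fst' | with_reducible exact IntF.snd' | with_reducible exact IntF.const _ | with_reducible exact Int.const _ | assumption | with_reducible apply ZFA.Int.and | with_reducible apply ZFA.Int.or | with_reducible apply ZFA.Int.not | with_reducible apply Int.imp | with_reducible apply Int.iff | with_reducible apply Int.ne | with_reducible apply Int.eq | with_reducible apply Int.mem | with_reducible apply Int.subset | with_reducible apply Int.ltN | with_reducible apply Int.leN | with_reducible_and_instances apply ZFA.Int.le | with_reducible_and_instances apply ZFA.Int.lt | with_reducible apply Int.all | with_reducible apply Int.ex | with_reducible apply IntF.fst | with_reducible apply IntF.snd | with_reducible apply IntF.app |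 with_reducible apply IntF.inl | with_reducible apply IntF.inr | with_reducible_and_instances apply IntF.mul | with_reducible_and_instances apply IntF.inv | with_reducible_and_instances apply IntF.add | with_reducible_and_instances apply IntF.sub | with_reducible_and_instances apply IntF.neg | with_reducible_and_instances apply IntF.smul | with_reducible apply IntF.succ | (with_reducible refine Int.comp ?_ ?_; assumption) | (with_reducible refine Int.comp₂ ?_ ?_ ?_; assumption) | (with_reducible refine Int.comp₃ ?_ ?_ ?_ ?_; assumption) | (with_reducible refine Int.comp₄ ?_ ?_ ?_ ?_ ?_; assumption) | (with_reducible refine IntF.comp ?_ ?_; assumption) | (with_reducible refine IntF.comp₂ ?_ ?_ ?_; assumption) | (with_reducible refine IntF.comp₃ ?_ ?_ ?_ ?_; assumption) | with_reducible apply IntF.val | with_reducible apply IntF.pair))) ?_ p x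
  rintro ⟨σ, a⟩ ⟨σ', a'⟩ s
  constructor
  · rintro ⟨h1, h2⟩
    refine ⟨(σ, a'), Prod.ext h1.symm rfl, rfl, ?_⟩
    change E a' (σ⁻¹ • ρ⁻¹ • s) a
    rw [← mul_smul, ← mul_inv_rev]
    exact h2
  · rintro ⟨⟨σ'', a''⟩, h1, h2, h3⟩
    obtain ⟨rfl, rfl⟩ := Prod.mk.inj h1
    obtain rfl : σ'' = σ := h2
    refine ⟨rfl, ?_⟩
    change E a'' ((ρ * σ'')⁻¹ • s) a
    rw [mul_inv_rev, mul_smul]
    exact h3

theorem good_bg (h : Good (SC M) E) : Good (SC M) (bgE E) := by
  refine ⟨IG.bg h.int, ?_, ?_⟩
  · rintro s ⟨⟨σ, a⟩, ha⟩
    have h1 : Int M (fun a : α => (σ, a) ∈ s) := by (repeat' (first | with_reducible exact IntF.id | with_reducible exact IntF.fst' | with_reducible exact IntF.snd' | with_reducible exact IntF.const _ | with_reducible exact Int.const _ | assumption | with_reducible apply ZFA.Int.and | with_reducible apply ZFA.Int.or | with_reducible apply ZFA.Int.not | with_reducible apply Int.imp | with_reducible apply Int.iff | with_reducible apply Int.ne | with_reducible apply Int.eq | with_reducible apply Int.mem | with_reducible apply Int.subset | with_reducible apply Int.ltN | with_reducible apply Int.leN | with_reducible_and_instances apply ZFA.Int.le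 | with_reducible_and_instances apply ZFA.Int.lt | with_reducible apply Int.all | with_reducible apply Int.ex | with_reducible apply IntF.fst | with_reducible apply IntF.snd | with_reducible apply IntF.app | with_reducible apply IntF.inl | with_reducible apply IntF.inr | with_reducible_and_instances apply IntF.mul | with_reducible_and_instances apply IntF.inv | with_reducible_and_instances apply IntF.add | with_reducible_and_instances apply IntF.sub | with_reducible_and_instances apply IntF.neg | with_reducible_and_instances apply IntF.smul | with_reducible apply IntF.succ | (with_reducible refine Int.comp ?_ ?_; assumption) | (with_reducible refine Int.comp₂ ?_ ?_ ?_; assumption) | (with_reducible refine Int.comp₃ ?_ ?_ ?_ ?_; assumption) | (with_reducible refine Int.comp₄ ?_ ?_ ?_ ?_ ?_; assumption) | (with_reducible refine IntF.comp ?_ ?_; assumption) | (with_reducible refine IntF.comp₂ ?_ ?_ ?_; assumption) | (with_reducible refine IntF.comp₃ ?_ ?_ ?_ ?_; assumption) | with_reducible apply IntF.val | with_reducible apply IntF.pair))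
    obtain ⟨b, h2, h3⟩ := h.wf (sep M fun a => (σ, a) ∈ s) ⟨a, (mem_sep h1).2 ha⟩
    refine ⟨(σ, b), (mem_sep h1).1 h2, ?_⟩
    rintro ⟨σ', c⟩ q hc ⟨h4, h5⟩
    obtain rfl : σ' = σ := h4
    exact h3 c _ ((mem_sep h1).2 hc) h5
  · rintro ⟨σ, a⟩
    obtain ⟨l, hl⟩ := h.sym a
    obtain ⟨l', hl'⟩ := (SC M).conj σ l
    exact ⟨l', (hl.tw (SC M) σ hl').congr (SC M) (h.int.tw σ) (IG.bg h.int) fun p => feq_bg σ a p⟩

/-- Being moved by `ρ`, for nodes. -/
def Mv (E : α → PC M → α → Prop) (ρ : GC M) (x y : GC M × α) : Prop :=
  x.2 = y.2 ∧ ∀ q, FEq M (bgE E) (bgE E) q (ρ * x.1, x.2) y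

theorem int_mv (hE : IG M E) (ρ : GC M) :
    Int M (fun q : (GC M × α) × (GC M × α) => Mv E ρ q.1 q.2) := by
  unfold Mv
  have hI := (IG.bg hE).feq (IG.bg hE)
  refine Int.and (by (repeat' (first | with_reducible exact IntF.id | with_reducible exact IntF.fst' | with_reducible exact IntF.snd' | with_reducible exact IntF.const _ | with_reducible exact Int.const _ | assumption | with_reducible apply ZFA.Int.and | with_reducible apply ZFA.Int.or | with_reducible apply ZFA.Int.not | with_reducible apply Int.imp | with_reducible apply Int.iff | with_reducible apply Int.ne | with_reducible apply Int.eq | with_reducible apply Int.mem | with_reducible apply Int.subset | with_reducible apply Int.ltN | with_reducible apply Int.leN | with_reducible_and_instances apply ZFA.Int.le | with_reducible_and_instances apply ZFA.Int.lt | with_reducible apply Int.all | with_reducible apply Int.ex | with_reducible apply IntF.fst | with_reducible apply IntF.snd | with_reducible apply IntF.app | with_reducible apply IntF.inl | with_reducible apply IntF.inr | with_reducible_and_instances apply IntF.mul | with_reducible_and_instances apply IntF.inv | with_reducible_and_instances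 apply IntF.add | with_reducible_and_instances apply IntF.sub | with_reducible_and_instances apply IntF.neg | with_reducible_and_instances apply IntF.smul | with_reducible apply IntF.succ | (with_reducible refine Int.comp ?_ ?_; assumption) | (with_reducible refine Int.comp₂ ?_ ?_ ?_; assumption) | (with_reducible refine Int.comp₃ ?_ ?_ ?_ ?_; assumption) | (with_reducible refine Int.comp₄ ?_ ?_ ?_ ?_ ?_; assumption) | (with_reducible refine IntF.comp ?_ ?_; assumption) | (with_reducible refine IntF.comp₂ ?_ ?_ ?_; assumption) | (with_reducible refine IntF.comp₃ ?_ ?_ ?_ ?_; assumption) | with_reducible apply IntF.val | with_reducible apply IntF.pair))) (Int.all ?_)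
  refine Int.comp₃ (p := fun p a b => FEq M (bgE E) (bgE E) p a b) hI ?_ ?_ ?_
  all_goals (repeat' (first | with_reducible exact IntF.id | with_reducible exact IntF.fst' | with_reducible exact IntF.snd' | with_reducible exact IntF.const _ | with_reducible exact Int.const _ | assumption | with_reducible apply ZFA.Int.and | with_reducible apply ZFA.Int.or | with_reducible apply ZFA.Int.not | with_reducible apply Int.imp | with_reducible apply Int.iff | with_reducible apply Int.ne | with_reducible apply Int.eq | with_reducible apply Int.mem | with_reducible apply Int.subset | with_reducible apply Int.ltN | with_reducible apply Int.leN | with_reducible_and_instances apply ZFA.Int.le | with_reducible_and_instances apply ZFA.Int.lt | with_reducible apply Int.all | with_reducible apply Int.ex | with_reducible apply IntF.fst | with_reducible apply IntF.snd | with_reducible apply IntF.app | with_reducible apply IntF.inl | with_reducible apply IntF.inr | with_reducible_and_instances apply IntF.mul | with_reducible_and_instances apply IntF.inv | with_reducible_and_instances apply IntF.add | with_reducible_and_instances apply IntF.sub | with_reducible_and_instances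 apply IntF.neg | with_reducible_and_instances apply IntF.smul | with_reducible apply IntF.succ | (with_reducible refine Int.comp ?_ ?_; assumption) | (with_reducible refine Int.comp₂ ?_ ?_ ?_; assumption) | (with_reducible refine Int.comp₃ ?_ ?_ ?_ ?_; assumption) | (with_reducible refine Int.comp₄ ?_ ?_ ?_ ?_ ?_; assumption) | (with_reducible refine IntF.comp ?_ ?_; assumption) | (with_reducible refine IntF.comp₂ ?_ ?_ ?_; assumption) | (with_reducible refine IntF.comp₃ ?_ ?_ ?_ ?_; assumption) | with_reducible apply IntF.val | with_reducible apply IntF.pair))

theorem mv_self (ρ : GC M) (x : GC M × α) : Mv E ρ x (ρ * x.1, x.2) :=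
  ⟨rfl, fun _ => FEq.refl _ _⟩

theorem mv_of_sy (h : Good (SC M) E) {n : INat M} {x : GC M × α} (hx : Sy (SC M) (bgE E) n x)
    {ρ : GC M} (hρ : (SC M).U n ρ) : Mv E ρ x x := by
  refine ⟨rfl, fun q => ?_⟩
  exact ((feq_tw_bg ρ x q).symm ((IG.bg h.int).tw ρ) (IG.bg h.int)).trans (IG.bg h.int)
    ((IG.bg h.int).tw ρ) (IG.bg h.int) (hx ρ hρ q)

end

end Pool.Agent.H525C
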