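import Pool.Agent.H635R2.Fam

/-!
# Families that are equivariant under a subgroup
-/

namespace Pool.Agent.H525C

open FirstOrder FirstOrder.Language
open Pool.Agent.Helper672 Pool.Agent.Helper672.ZFA Pool.Agent.Helper672.ZFA.H635
open Pool.Agent.Helper672.Plain (LSet)

universe u

set_option synthInstance.maxSize 2000
set_option linter.unusedSectionVars false

section

variable {M : Type u} [L.Structure M] [hM : IsModel M]
variable {P Γ : Type u} [ITy M P] [Preorder P] [ILE M P] [ITy M Γ] [Group Γ] [IMul M Γ]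
  [IInv M Γ] [MulAction Γ P] [ISMul M Γ P]
variable {Λ : Type u} [ITy M Λ] {S : SymSys M P Γ Λ}
variable {α β ε : Type u} [ITy M α] [ITy M β] [ITy M ε]
variable {G : Set P} (hG : IsGen M G)

theorem nn_isPair {p x y : NN S hG} : Plain.IsPair p x y ↔ p = up x y := by
  constructor
  · exact fun h => nn_eq_up hG h
  · rintro rfl w
    exact mem_up (x := x) (y := y) (z := w)

theorem nn_isOrdPair {p x y : NN S hG} : Plain.IsOrdPair p x y ↔ p = ZFA.op x y := by
  constructor
  · rintro ⟨s, d, h1, h2, h3⟩
    rw [nn_isPair] at h1 h2 h3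
    subst h1 h2
    exact h3
  · rintro rfl
    exact ⟨up x x, up x y, (nn_isPair hG).2 rfl, (nn_isPair hG).2 rfl, (nn_isPair hG).2 rfl⟩

variable (S) in
/-- Equivariance of new nodes under a subgroup. -/
def EquivU (l₀ : Λ) (E : α → P → α → Prop) (Q : α → P → β → Prop) (act : Γ → β → β) : Prop :=
  ∀ π, S.U l₀ π → ∀ b x r, Q x r b → ∀ q, q ≤ π • r → ∃ q', q' ≤ q ∧ ∃ x' r', Q x' r' (act π b) ∧
    q' ≤ r' ∧ FEq M (tw π E) E q' x x'

theorem feq_equivU {l₀ : Λ} {E : α → P → α → Prop} {Q : α → P → β → Prop} (hE : IG M E)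
    (hQ : Int M (fun q : (α × P) × β => Q q.1.1 q.1.2 q.2)) {act : Γ → β → β}
    (hact : ∀ π b, act π⁻¹ (act π b) = b) (h : EquivU S l₀ E Q act) {π : Γ} (hπ : S.U l₀ π)
    (p : P) (b : β) :
    FEq M (tw π (extG E Q)) (extG E Q) p (Sum.inr b) (Sum.inr (act π b)) := by
  have hI := ig_extG hE hQ
  refine (feq_iff (hI.tw π) hI).2 ⟨?_, ?_⟩
  · intro x r hx q _ hr q1 hq1
    obtain ⟨a, rfl, h1⟩ := (extG_inr E Q x _ b).1 hx
    have h2 : q1 ≤ π • π⁻¹ • r := by
      rw [smul_inv_smul]
      exact hq1.trans hr
    obtain ⟨q', h3, a', r', h4, h5, h6⟩ := h π hπ b a (π⁻¹ • r) h1 q1 h2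
    refine ⟨q', h3, Sum.inl a', r', (extG_inr E Q _ _ _).2 ⟨a', rfl, h4⟩, h5, ?_⟩
    have h7 := feq_inl (M := M) E Q q' a'
    have h8 := feq_tw_inl (M := M) π E Q q' a
    exact ((h8.symm (hE.tw π) (hI.tw π)).trans (hI.tw π) (hE.tw π) hE h6).trans
      (hI.tw π) hE hI h7
  · intro x r hx q _ hr q1 hq1
    obtain ⟨a, rfl, h1⟩ := (extG_inr E Q x _ _).1 hx
    have h2 : π⁻¹ • q1 ≤ π⁻¹ • r := S.smul_le _ (hq1.trans hr)
    obtain ⟨q', h3, a', r', h4, h5, h6⟩ := h π⁻¹ (S.inv _ _ hπ) (act π b) a r h1 (π⁻¹ • q1) h2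
    rw [hact] at h4
    have h6' := feq_tw S π h6
    rw [tw_tw_inv] at h6'
    refine ⟨π • q', ?_, Sum.inl a', π • r', ?_, S.smul_le π h5, ?_⟩
    · have := S.smul_le π h3
      rwa [smul_inv_smul] at this
    · rw [tw_smul]
      exact (extG_inr E Q _ _ b).2 ⟨a', rfl, h4⟩
    · have h7 := feq_inl (M := M) E Q (π • q') a
      have h8 := feq_tw_inl (M := M) π E Q (π • q') a'
      exact ((h7.symm hE hI).trans hI hE (hE.tw π) h6').trans
        hI (hE.tw π) (hI.tw π) h8

/-- Families that are equivariant under a subgroup. -/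
def FamU (l₀ : Λ) (act : Γ → ε → ε) (f : ε → NN S hG) : Prop :=
  ∃ (α : Type u) (_ : ITy M α) (E : α → P → α → Prop) (h : Good S E) (g : ε → α), IntF M g ∧
    (∀ c, f c = nd hG h (g c)) ∧ ∀ π, S.U l₀ π → ∀ p c, FEq M (tw π E) E p (g c) (g (act π c))

variable {hG}

theorem FamU.set {l₀ : Λ} {act : Γ → ε → ε} {f : ε → NN S hG} (hf : FamU hG l₀ act f)
    {Z : ε → Prop} (hZ : Int M Z) (hs : ∀ π, S.U l₀ π → ∀ c, Z c → Z (act π c)) :
    ∃ z : NN S hG, ∀ w, Plain.Mem w z ↔ ∃ c, Z c ∧ w = f c := by
  obtain ⟨α, _, E, h, g, hg, h1, h2⟩ := hf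
  obtain ⟨z, hz⟩ := exists_set hG h (Q := fun x _ => ∃ c, Z c ∧ x = g c) (by (repeat' (first | with_reducible exact IntF.id | with_reducible exact IntF.fst' | with_reducible exact IntF.snd' | with_reducible exact IntF.const _ | with_reducible exact Int.const _ | assumption | with_reducible apply ZFA.Int.and | with_reducible apply ZFA.Int.or | with_reducible apply ZFA.Int.not | with_reducible apply Int.imp | with_reducible apply Int.iff | with_reducible apply Int.ne | with_reducible apply Int.eq | with_reducible apply Int.mem | with_reducible apply Int.subset | with_reducible apply Int.ltN | with_reducible apply Int.leN | with_reducible_and_instances apply ZFA.Int.le | with_reducible_and_instances apply ZFA.Int.lt | with_reducible apply Int.all | with_reducible apply Int.ex | with_reducible apply IntF.fst | with_reducible apply IntF.snd | with_reducible apply IntF.app | with_reducible apply IntF.inl | with_reducible apply IntF.inr | with_reducible_and_instances apply IntF.mul | with_reducible_and_instances apply IntF.inv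 | with_reducible_and_instances apply IntF.add | with_reducible_and_instances apply IntF.sub | with_reducible_and_instances apply IntF.neg | with_reducible_and_instances apply IntF.smul | with_reducible apply IntF.succ | with_reducible apply IntF.val | with_reducible apply IntF.mk | (with_reducible refine Int.comp ?_ ?_; assumption) | (with_reducible refine Int.comp₂ ?_ ?_ ?_; assumption) | (with_reducible refine Int.comp₃ ?_ ?_ ?_ ?_; assumption) | (with_reducible refine Int.comp₄ ?_ ?_ ?_ ?_ ?_; assumption) | (with_reducible refine IntF.comp ?_ ?_; assumption) | (with_reducible refine IntF.comp₂ ?_ ?_ ?_; assumption) | (with_reducible refine IntF.comp₃ ?_ ?_ ?_ ?_; assumption) | with_reducible apply IntF.pair))) ⟨l₀, by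
    rintro π hπ _ r ⟨c, hc, rfl⟩ q hq
    exact ⟨q, le_rfl, g (act π c), q, ⟨_, hs π hπ c hc, rfl⟩, le_rfl, h2 π hπ q c⟩⟩
  refine ⟨z, fun w => (hz w).trans ?_⟩
  constructor
  · rintro ⟨_, s, _, ⟨c, hc, rfl⟩, rfl⟩
    exact ⟨c, hc, (h1 c).symm⟩
  · rintro ⟨c, hc, rfl⟩
    obtain ⟨p, hp⟩ := hG.ne
    exact ⟨g c, p, hp, ⟨c, hc, rfl⟩, h1 c⟩

theorem FamU.up {l₀ : Λ} {act : Γ → ε → ε} (hact : ∀ π b, act π⁻¹ (act π b) = b)
    {f f' : ε → NN S hG} (hf : FamU hG l₀ act f) (hf' : FamU hG l₀ act f') :
    FamU hG l₀ act (fun c => ZFA.up (f c) (f' c)) := by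
  obtain ⟨α, _, E, h0, g, hg, h1, h2⟩ := hf
  obtain ⟨α', _, E', h0', g', hg', h1', h2'⟩ := hf'
  have hF := good_sumG h0 h0'
  have hQ : Int M (fun q : ((α ⊕ α') × P) × ε => q.1.1 = Sum.inl (g q.2) ∨
      q.1.1 = Sum.inr (g' q.2)) := by (repeat' (first | with_reducible exact IntF.id | with_reducible exact IntF.fst' | with_reducible exact IntF.snd' | with_reducible exact IntF.const _ | with_reducible exact Int.const _ | assumption | with_reducible apply ZFA.Int.and | with_reducible apply ZFA.Int.or | with_reducible apply ZFA.Int.not | with_reducible apply Int.imp | with_reducible apply Int.iff | with_reducible apply Int.ne | with_reducible apply Int.eq | with_reducible apply Int.mem | with_reducible apply Int.subset | with_reducible apply Int.ltN | with_reducible apply Int.leN | with_reducible_and_instances apply ZFA.Int.le | with_reducible_and_instances apply ZFA.Int.lt | with_reducible apply Int.all | with_reducible apply Int.ex | with_reducible apply IntF.fst | with_reducible apply IntF.snd | with_reducible apply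 IntF.app | with_reducible apply IntF.inl | with_reducible apply IntF.inr | with_reducible_and_instances apply IntF.mul | with_reducible_and_instances apply IntF.inv | with_reducible_and_instances apply IntF.add | with_reducible_and_instances apply IntF.sub | with_reducible_and_instances apply IntF.neg | with_reducible_and_instances apply IntF.smul | with_reducible apply IntF.succ | with_reducible apply IntF.val | with_reducible apply IntF.mk | (with_reducible refine Int.comp ?_ ?_; assumption) | (with_reducible refine Int.comp₂ ?_ ?_ ?_; assumption) | (with_reducible refine Int.comp₃ ?_ ?_ ?_ ?_; assumption) | (with_reducible refine Int.comp₄ ?_ ?_ ?_ ?_ ?_; assumption) | (with_reducible refine IntF.comp ?_ ?_; assumption) | (with_reducible refine IntF.comp₂ ?_ ?_ ?_; assumption) | (with_reducible refine IntF.comp₃ ?_ ?_ ?_ ?_; assumption) | with_reducible apply IntF.pair))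
  have e1 : ∀ p c, FEq M E (sumG E E') p c (Sum.inl c) := fun p c =>
    feq_of_map IntF.inl' (fun a' x s => sumG_inl E E' x s a') p c
  have e2 : ∀ p c, FEq M E' (sumG E E') p c (Sum.inr c) := fun p c =>
    feq_of_map IntF.inr' (fun a' x s => sumG_inr E E' x s a') p c
  have e1' : ∀ (π : Γ) p c, FEq M (tw π E) (tw π (sumG E E')) p c (Sum.inl c) := fun π p c => by
    have := feq_tw S π (e1 (π⁻¹ • p) c)
    rwa [smul_inv_smul] at this
  have e2' : ∀ (π : Γ) p c, FEq M (tw π E') (tw π (sumG E E')) p c (Sum.inr c) := fun π p c => by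
    have := feq_tw S π (e2 (π⁻¹ • p) c)
    rwa [smul_inv_smul] at this
  have k1 : ∀ (π : Γ), S.U l₀ π → ∀ p c, FEq M (tw π (sumG E E')) (sumG E E') p (Sum.inl (g c))
      (Sum.inl (g (act π c))) := fun π hπ p c =>
    (((e1' π p (g c)).symm (h0.int.tw π) (hF.int.tw π)).trans (hF.int.tw π) (h0.int.tw π) h0.int
      (h2 π hπ p c)).trans (hF.int.tw π) h0.int hF.int (e1 p _)
  have k2 : ∀ (π : Γ), S.U l₀ π → ∀ p c, FEq M (tw π (sumG E E')) (sumG E E') p (Sum.inr (g' c))
      (Sum.inr (g' (act π c))) := fun π hπ p c =>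
    (((e2' π p (g' c)).symm (h0'.int.tw π) (hF.int.tw π)).trans (hF.int.tw π) (h0'.int.tw π)
      h0'.int (h2' π hπ p c)).trans (hF.int.tw π) h0'.int hF.int (e2 p _)
  have hext : Good S (extG (sumG E E') (fun x _ c => x = Sum.inl (g c) ∨ x = Sum.inr (g' c))) := by
    refine good_extG hF hQ fun c => ?_
    obtain ⟨l, hl⟩ := hF.sym (Sum.inl (g c))
    obtain ⟨l', hl'⟩ := hF.sym (Sum.inr (g' c))
    obtain ⟨l'', h3⟩ := S.dir l l'
    refine ⟨l'', ?_⟩
    rintro π hπ x r (rfl | rfl) q hq
    · exact ⟨q, le_rfl, _, q, Or.inl rfl, le_rfl, hl π (h3 π hπ).1 q⟩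
    · exact ⟨q, le_rfl, _, q, Or.inr rfl, le_rfl, hl' π (h3 π hπ).2 q⟩
  refine ⟨_, _, _, hext, fun c => Sum.inr c, by (repeat' (first | with_reducible exact IntF.id | with_reducible exact IntF.fst' | with_reducible exact IntF.snd' | with_reducible exact IntF.const _ | with_reducible exact Int.const _ | assumption | with_reducible apply ZFA.Int.and | with_reducible apply ZFA.Int.or | with_reducible apply ZFA.Int.not | with_reducible apply Int.imp | with_reducible apply Int.iff | with_reducible apply Int.ne | with_reducible apply Int.eq | with_reducible apply Int.mem | with_reducible apply Int.subset | with_reducible apply Int.ltN | with_reducible apply Int.leN | with_reducible_and_instances apply ZFA.Int.le | with_reducible_and_instances apply ZFA.Int.lt | with_reducible apply Int.all | with_reducible apply Int.ex | with_reducible apply IntF.fst | with_reducible apply IntF.snd | with_reducible apply IntF.app | with_reducible apply IntF.inl | with_reducible apply IntF.inr | with_reducible_and_instances apply IntF.mul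 | with_reducible_and_instances apply IntF.inv | with_reducible_and_instances apply IntF.add | with_reducible_and_instances apply IntF.sub | with_reducible_and_instances apply IntF.neg | with_reducible_and_instances apply IntF.smul | with_reducible apply IntF.succ | with_reducible apply IntF.val | with_reducible apply IntF.mk | (with_reducible refine Int.comp ?_ ?_; assumption) | (with_reducible refine Int.comp₂ ?_ ?_ ?_; assumption) | (with_reducible refine Int.comp₃ ?_ ?_ ?_ ?_; assumption) | (with_reducible refine Int.comp₄ ?_ ?_ ?_ ?_ ?_; assumption) | (with_reducible refine IntF.comp ?_ ?_; assumption) | (with_reducible refine IntF.comp₂ ?_ ?_ ?_; assumption) | (with_reducible refine IntF.comp₃ ?_ ?_ ?_ ?_; assumption) | with_reducible apply IntF.pair)), ?_, ?_⟩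
  · intro c
    refine (nn_eq_up hG fun w => ?_).symm
    rw [mem_nd_inr hG hF hext]
    constructor
    · rintro ⟨a, s, -, rfl | rfl, rfl⟩
      · rw [nd_sum_inl hG h0 h0', h1]
        exact Or.inl rfl
      · rw [nd_sum_inr hG h0 h0', h1']
        exact Or.inr rfl
    · obtain ⟨p, hp⟩ := hG.ne
      rintro (rfl | rfl)
      · exact ⟨_, p, hp, Or.inl rfl, by rw [nd_sum_inl hG h0 h0', h1]⟩
      · exact ⟨_, p, hp, Or.inr rfl, by rw [nd_sum_inr hG h0 h0', h1']⟩
  · intro π hπ p c
    refine feq_equivU (S := S) (l₀ := l₀) hF.int hQ hact ?_ hπ p c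
    rintro π hπ b x r (rfl | rfl) q hq
    · exact ⟨q, le_rfl, _, q, Or.inl rfl, le_rfl, k1 π hπ q b⟩
    · exact ⟨q, le_rfl, _, q, Or.inr rfl, le_rfl, k2 π hπ q b⟩

theorem FamU.op {l₀ : Λ} {act : Γ → ε → ε} (hact : ∀ π b, act π⁻¹ (act π b) = b)
    {f f' : ε → NN S hG} (hf : FamU hG l₀ act f) (hf' : FamU hG l₀ act f') :
    FamU hG l₀ act (fun c => ZFA.op (f c) (f' c)) :=
  (hf.up hact hf).up hact (hf.up hact hf')

end

end Pool.Agent.H525C
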