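import Pool.Agent.H525R3.Lang
import Pool.Agent.H635R2.Ext

/-!
# ZF is invariant under isomorphism
-/

namespace Pool.Agent.H525C

open FirstOrder FirstOrder.Language
open Pool.Agent.Helper672 Pool.Agent.Helper672.ZFA Pool.Agent.Helper672.ZFA.H635
open Pool.Agent.Helper672.Plain (LSet)
open Pool.Agent.H635Amen (ZF)

universe u

section

variable {A B : Type u} [LSet.Structure A] [LSet.Structure B]

theorem definable_of_formula {k n : ℕ} (φ : LSet.Formula (Fin k ⊕ Fin n)) (a : Fin k → A) :
    (Set.univ : Set A).Definable LSet {v : Fin n → A | φ.Realize (Sum.elim a v)} := by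
  rw [Set.definable_iff_exists_formula_sum]
  refine ⟨φ.relabel (Sum.map (fun i => (⟨a i, Set.mem_univ _⟩ : (Set.univ : Set A))) id), ?_⟩
  ext v
  simp only [Set.mem_ofPred_eq, Formula.realize_relabel]
  refine iff_of_eq (congrArg φ.Realize ?_)
  funext i
  rcases i with i | i <;> rfl

theorem definable_pre (e : A ≃[LSet] B) {n : ℕ} {s : Set (Fin n → B)}
    (h : (Set.univ : Set B).Definable LSet s) :
    (Set.univ : Set A).Definable LSet {v : Fin n → A | (fun i => e (v i)) ∈ s} := by
  obtain ⟨k, φ, a, ha⟩ := exists_formula h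
  have h1 := definable_of_formula φ fun i => e.symm (a i)
  refine Eq.mp (congrArg ((Set.univ : Set A).Definable LSet) ?_) h1
  ext v
  change _ ↔ (fun i => e (v i)) ∈ s
  rw [ha]
  have h2 : (Sum.elim a (fun i => e (v i)) : Fin k ⊕ Fin n → B) =
      e ∘ Sum.elim (fun i => e.symm (a i)) v := by
    funext i
    rcases i with i | i
    · exact (e.apply_symm_apply (a i)).symm
    · rfl
  rw [h2]
  exact (StrongHomClass.realize_formula e φ).symm

theorem mem_equiv (e : A ≃[LSet] B) {x y : A} : Plain.Mem (e x) (e y) ↔ Plain.Mem x y := by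
  unfold Plain.Mem
  rw [← StrongHomClass.map_rel e]
  refine iff_of_eq (congrArg _ ?_)
  funext i
  fin_cases i <;> rfl

theorem zf_of_equiv (e : A ≃[LSet] B) (h : ZF A) : ZF B where
  ext x y hxy := by
    have h1 : e.symm x = e.symm y := h.ext _ _ fun z => by
      have h2 := hxy (e z)
      rw [← e.apply_symm_apply x, ← e.apply_symm_apply y, mem_equiv, mem_equiv] at h2
      exact h2
    rw [← e.apply_symm_apply x, h1, e.apply_symm_apply]
  pairing x y := by
    obtain ⟨p, hp⟩ := h.pairing (e.symm x) (e.symm y)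
    refine ⟨e p, fun z => ?_⟩
    rw [← e.apply_symm_apply z, mem_equiv, hp]
    simp
  union x := by
    obtain ⟨p, hp⟩ := h.union (e.symm x)
    refine ⟨e p, fun z => ?_⟩
    rw [← e.apply_symm_apply z, mem_equiv, hp]
    constructor
    · rintro ⟨y, h1, h2⟩
      rw [← mem_equiv e, e.apply_symm_apply] at h1
      exact ⟨e y, h1, (mem_equiv e).2 h2⟩
    · rintro ⟨y, h1, h2⟩
      rw [← e.apply_symm_apply y, mem_equiv] at h2
      exact ⟨e.symm y, by rwa [← mem_equiv e, e.apply_symm_apply, e.apply_symm_apply], h2⟩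
  power x := by
    obtain ⟨p, hp⟩ := h.power (e.symm x)
    refine ⟨e p, fun z => ?_⟩
    rw [← e.apply_symm_apply z, mem_equiv, hp]
    constructor
    · intro h1 w hw
      rw [← e.apply_symm_apply w, mem_equiv] at hw
      have h2 := h1 _ hw
      rwa [← mem_equiv e, e.apply_symm_apply, e.apply_symm_apply] at h2
    · intro h1 w hw
      rw [← mem_equiv e, e.apply_symm_apply]
      exact h1 _ ((mem_equiv e).2 hw)
  infinity := by
    obtain ⟨i, ⟨o, h1, h2⟩, h3⟩ := h.infinity
    refine ⟨e i, ⟨e o, (mem_equiv e).2 h1, fun z hz => ?_⟩, fun n hn => ?_⟩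
    · rw [← e.apply_symm_apply z, mem_equiv] at hz
      exact h2 _ hz
    · rw [← e.apply_symm_apply n, mem_equiv] at hn
      obtain ⟨s, h4, h5⟩ := h3 _ hn
      refine ⟨e s, (mem_equiv e).2 h4, fun z => ?_⟩
      rw [← e.apply_symm_apply z, mem_equiv, h5, ← mem_equiv e, e.apply_symm_apply,
        e.apply_symm_apply]
      simp
  separation S hS x := by
    have h1 := definable_pre e hS
    obtain ⟨y, hy⟩ := h.separation {z | e z ∈ S} h1 (e.symm x)
    refine ⟨e y, fun z => ?_⟩
    rw [← e.apply_symm_apply z, mem_equiv, hy, ← mem_equiv e, e.apply_symm_apply,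
      e.apply_symm_apply]
    change _ ∧ e (e.symm z) ∈ S ↔ _
    rw [e.apply_symm_apply]
  foundation x := by
    rintro ⟨y, hy⟩
    obtain ⟨z, h1, h2⟩ := h.foundation (e.symm x) ⟨e.symm y, by
      rwa [← mem_equiv e, e.apply_symm_apply, e.apply_symm_apply]⟩
    refine ⟨e z, ?_, fun w hw hwz => ?_⟩
    · rwa [← mem_equiv e, e.apply_symm_apply] at h1
    · rw [← e.apply_symm_apply w, mem_equiv] at hwz
      refine h2 _ ?_ hwz
      rwa [← mem_equiv e, e.apply_symm_apply, e.apply_symm_apply]
  replacement F hF a hu := by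
    have h1 := definable_pre e hF
    obtain ⟨b, hb⟩ := h.replacement {q | (e q.1, e q.2) ∈ F} h1 (e.symm a) (fun x hx => by
      rw [← mem_equiv e, e.apply_symm_apply] at hx
      obtain ⟨y, hy, hy'⟩ := hu _ hx
      refine ⟨e.symm y, ?_, fun z hz => ?_⟩
      · change (e x, e (e.symm y)) ∈ F
        rwa [e.apply_symm_apply]
      · have h2 := hy' (e z) hz
        rw [← h2, e.symm_apply_apply])
    refine ⟨e b, fun y => ?_⟩
    rw [← e.apply_symm_apply y, mem_equiv, hb]
    constructor
    · rintro ⟨x, hx, hxy⟩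
      rw [← mem_equiv e, e.apply_symm_apply] at hx
      exact ⟨e x, hx, hxy⟩
    · rintro ⟨x, hx, hxy⟩
      refine ⟨e.symm x, ?_, ?_⟩
      · rwa [← mem_equiv e, e.apply_symm_apply, e.apply_symm_apply]
      · change (e (e.symm x), e (e.symm y)) ∈ F
        rwa [e.apply_symm_apply]

end

end Pool.Agent.H525C
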