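import Pool.Agent.H525R3.NGr
import Pool.Agent.H525R3.FamU
import Pool.Agent.H525R3.Iso

/-!
# The extension is a forcing extension of the smaller one
-/

namespace Pool.Agent.H525C

open FirstOrder FirstOrder.Language
open Pool.Agent.Helper672 Pool.Agent.Helper672.ZFA Pool.Agent.Helper672.ZFA.H635
open Pool.Agent.Helper672.Plain (LSet)
open Pool.Agent.H525Emb
open Pool.Agent.H635Amen (ZF)

universe u

set_option synthInstance.maxSize 2000
set_option linter.unusedSectionVars false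

section

variable {M : Type u} [L.Structure M] [hM : IsModel M] (hg : Gr M)
variable {G : Set (PC M)} (hG : IsGen M G)

/-! ### The inclusion -/

theorem mem_emV {y : NN (SC M) (isGen_GV hG)} {w : NN (SC M) hG} :
    Plain.Mem w (emV hG y) ↔ ∃ x, Plain.Mem x y ∧ w = emV hG x := by
  constructor
  · intro h
    obtain ⟨x, rfl⟩ := emV_trans hG h
    exact ⟨x, (emV_mem hG).1 h, rfl⟩
  · rintro ⟨x, h, rfl⟩
    exact (emV_mem hG).2 h

theorem emV_isPair {p x y : NN (SC M) (isGen_GV hG)} (h : Plain.IsPair p x y) :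
    Plain.IsPair (emV hG p) (emV hG x) (emV hG y) := by
  intro w
  rw [mem_emV]
  constructor
  · rintro ⟨z, h1, rfl⟩
    rcases (h z).1 h1 with rfl | rfl
    · exact Or.inl rfl
    · exact Or.inr rfl
  · rintro (rfl | rfl)
    · exact ⟨x, (h x).2 (Or.inl rfl), rfl⟩
    · exact ⟨y, (h y).2 (Or.inr rfl), rfl⟩

theorem emV_isOrdPair {p x y : NN (SC M) (isGen_GV hG)} (h : Plain.IsOrdPair p x y) :
    Plain.IsOrdPair (emV hG p) (emV hG x) (emV hG y) := by
  obtain ⟨s, d, h1, h2, h3⟩ := h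
  exact ⟨_, _, emV_isPair hG h1, emV_isPair hG h2, emV_isPair hG h3⟩

theorem emV_chk (x : M) : emV hG (chk hg (isGen_GV hG) x) = chk hg hG x :=
  emV_nd hG (good_chE hg.found (tc hg x)) _

/-- The condition as an element of the extension. -/
noncomputable def cN (c : C0 M) : NN (SC M) hG := chk hg hG (code c)

theorem cN_inj {c c' : C0 M} : cN hg hG c = cN hg hG c' ↔ c = c' := by
  unfold cN
  rw [chk_inj]
  exact ⟨fun h => ITy.inj h, fun h => h ▸ rfl⟩

/-- A transitive set that contains the conditions. -/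
noncomputable def tC : M := tc hg (dom M (C0 M))

theorem trans_tC : Trans (tC hg) := trans_tc hg _

theorem code_mem_tC (c : C0 M) : Mem (code c) (tC hg) :=
  trans_tC hg _ _ (mem_tc hg _) (code_mem_dom c)

/-! ### The generic filter as an element -/

theorem exists_GN : ∃ g : NN (SC M) hG, ∀ w, Plain.Mem w g ↔ ∃ c, c ∈ G0 G ∧ w = cN hg hG c := by
  have h1 : Int M (fun q : El (tC hg) × C0 M => IsCd q.1 q.2) := int_isCd
  have h2 : IntF M (hd (M := M)) := int_hd
  obtain ⟨g, h⟩ := exists_set hG (good_chE (S := SC M) hg.found (tC hg))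
    (Q := fun a s => ∃ c : C0 M, IsCd a c ∧ hd s ≤ c) (by (repeat' (first | with_reducible exact IntF.id | with_reducible exact IntF.fst' | with_reducible exact IntF.snd' | with_reducible exact IntF.const _ | with_reducible exact Int.const _ | assumption | with_reducible apply ZFA.Int.and | with_reducible apply ZFA.Int.or | with_reducible apply ZFA.Int.not | with_reducible apply Int.imp | with_reducible apply Int.iff | with_reducible apply Int.ne | with_reducible apply Int.eq | with_reducible apply Int.mem | with_reducible apply Int.subset | with_reducible apply Int.ltN | with_reducible apply Int.leN | with_reducible_and_instances apply ZFA.Int.le | with_reducible_and_instances apply ZFA.Int.lt | with_reducible apply Int.all | with_reducible apply Int.ex | with_reducible apply IntF.fst | with_reducible apply IntF.snd | with_reducible apply IntF.app | with_reducible apply IntF.inl | with_reducible apply IntF.inr | with_reducible_and_instances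 apply IntF.mul | with_reducible_and_instances apply IntF.inv | with_reducible_and_instances apply IntF.add | with_reducible_and_instances apply IntF.sub | with_reducible_and_instances apply IntF.neg | with_reducible_and_instances apply IntF.smul | with_reducible apply IntF.succ | (with_reducible refine Int.comp ?_ ?_; assumption) | (with_reducible refine Int.comp₂ ?_ ?_ ?_; assumption) | (with_reducible refine Int.comp₃ ?_ ?_ ?_ ?_; assumption) | (with_reducible refine Int.comp₄ ?_ ?_ ?_ ?_ ?_; assumption) | (with_reducible refine IntF.comp ?_ ?_; assumption) | (with_reducible refine IntF.comp₂ ?_ ?_ ?_; assumption) | (with_reducible refine IntF.comp₃ ?_ ?_ ?_ ?_; assumption) | with_reducible apply IntF.val | with_reducible apply IntF.pair))) ⟨INat.succ 0, by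
      rintro π hπ a r ⟨c, hc, hr⟩ q hq
      obtain ⟨ρ, rfl⟩ := exists_lf (U_one_iff.1 hπ)
      refine ⟨q, le_rfl, a, q, ⟨c, hc, ?_⟩, le_rfl, FEq.refl _ _⟩
      have h3 := (le_iff_cases.1 hq).2
      rw [hd_lf] at h3
      exact h3.trans hr⟩
  refine ⟨g, fun w => (h w).trans ?_⟩
  constructor
  · rintro ⟨a, s, hs, ⟨c, hc, hsc⟩, rfl⟩
    refine ⟨c, hG.up _ _ hs (le_am.2 ⟨le_top1 _, hsc⟩), ?_⟩
    have h3 := chk_eq hg hG (S := SC M) (trans_tC hg) a.2
    have h4 : cN hg hG c = chk hg hG a.1 := congrArg (chk hg hG) (show a.1 = code c from hc).symm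
    exact h3.symm.trans h4.symm
  · rintro ⟨c, hc, rfl⟩
    exact ⟨⟨code c, code_mem_tC hg c⟩, am top1 c, hc, ⟨c, rfl, by rw [hd_am]⟩,
      chk_eq hg hG (trans_tC hg) _⟩

/-- The generic filter of the first column. -/
noncomputable def GN : NN (SC M) hG := (exists_GN hg hG).choose

theorem mem_GN {w : NN (SC M) hG} : Plain.Mem w (GN hg hG) ↔ ∃ c, c ∈ G0 G ∧ w = cN hg hG c :=
  (exists_GN hg hG).choose_spec w

/-- The notion of forcing. -/
noncomputable def PN : NN (SC M) hG := chk hg hG (dom M (C0 M))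

theorem mem_PN {w : NN (SC M) hG} : Plain.Mem w (PN hg hG) ↔ ∃ c, w = cN hg hG c := by
  unfold PN cN
  rw [mem_chk]
  constructor
  · rintro ⟨x, hx, rfl⟩
    obtain ⟨c, rfl⟩ := mem_dom.1 hx
    exact ⟨c, rfl⟩
  · rintro ⟨c, rfl⟩
    exact ⟨_, code_mem_dom c, rfl⟩

/-- The order. -/
noncomputable def leN : NN (SC M) hG := chk hg hG (LEc M (C0 M))

theorem pmem_leN {c c' : C0 M} : PMem (cN hg hG c) (cN hg hG c') (leN hg hG) ↔ c ≤ c' := by
  unfold PMem leN cN
  constructor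
  · rintro ⟨q, h1, h2⟩
    obtain ⟨z, h3, rfl⟩ := (mem_chk hg hG).1 h2
    have h4 := (nn_isOrdPair hG).1 h1
    have h5 := (nn_isOrdPair hG).1 (isOrdPair_chk (S := SC M) hg hG (code c) (code c'))
    rw [← h4, chk_inj] at h5
    rw [← h5] at h3
    obtain ⟨p', q', h6, h7, h8⟩ := mem_LEc.1 h3
    rw [ITy.inj h6, ITy.inj h7]
    exact h8
  · intro h
    exact ⟨_, isOrdPair_chk hg hG _ _, (mem_chk_chk hg hG).2 (mem_LEc.2 ⟨_, _, rfl, rfl, h⟩)⟩

/-! ### Names -/

variable {α : Type u} [ITy M α] {E : α → PC M → α → Prop} (h : Good (SC M) E)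

/-- The nodes of the graph of names in the smaller extension. -/
noncomputable def vn (v : NT M α (tC hg)) : NN (SC M) (isGen_GV hG) :=
  nd (isGen_GV hG) (good_nG h hg.found) v

theorem vn_K (k : El (tC hg)) : vn hg hG h (nK k) = chk hg (isGen_GV hG) k.1 := by
  have h1 := chk_eq hg (isGen_GV hG) (S := SC M) (trans_tC hg) k.2
  refine Eq.trans ?_ h1.symm
  refine (nd_eq_of (isGen_GV hG) _ _ fun p => ?_).symm
  refine feq_of_map (θ := nK) int_nK (fun a b' s => ?_) p _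
  rw [nG_K]
  constructor
  · rintro ⟨k', rfl, h2⟩
    exact ⟨k', rfl, h2⟩
  · rintro ⟨k', rfl, h2⟩
    exact ⟨k', rfl, h2⟩

theorem isPair_S (x : GC M × α) :
    Plain.IsPair (vn hg hG h (nS x)) (vn hg hG h (nT x)) (vn hg hG h (nT x)) := by
  intro w
  obtain ⟨s, hs⟩ := (isGen_GV hG).ne
  unfold vn
  rw [mem_nd]
  constructor
  · rintro ⟨a, s, -, h1, rfl⟩
    obtain rfl := nG_S.1 h1
    exact Or.inl rfl
  · rintro (rfl | rfl)
    · exact ⟨nT x, s, hs, nG_S.2 rfl, rfl⟩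
    · exact ⟨nT x, s, hs, nG_S.2 rfl, rfl⟩

theorem isPair_D (x : GC M × α) (c : C0 M) :
    Plain.IsPair (vn hg hG h (nD (x, c))) (vn hg hG h (nT x)) (chk hg (isGen_GV hG) (code c)) := by
  have h2 := vn_K hg hG h ⟨code c, code_mem_tC hg c⟩
  rw [← h2]
  intro w
  obtain ⟨s, hs⟩ := (isGen_GV hG).ne
  unfold vn
  rw [mem_nd]
  constructor
  · rintro ⟨a, s, -, h1, rfl⟩
    rcases nG_D.1 h1 with rfl | ⟨k, rfl, h3⟩
    · exact Or.inl rfl
    · refine Or.inr ?_
      have h4 : k = ⟨code c, code_mem_tC hg c⟩ := Subtype.ext h3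
      rw [h4]
  · rintro (rfl | rfl)
    · exact ⟨nT x, s, hs, nG_D.2 (Or.inl rfl), rfl⟩
    · exact ⟨nK ⟨code c, code_mem_tC hg c⟩, s, hs,
        nG_D.2 (Or.inr ⟨⟨code c, code_mem_tC hg c⟩, rfl, rfl⟩), rfl⟩

theorem isPair_O (x : GC M × α) (c : C0 M) :
    Plain.IsPair (vn hg hG h (nO (x, c))) (vn hg hG h (nS x)) (vn hg hG h (nD (x, c))) := by
  intro w
  obtain ⟨s, hs⟩ := (isGen_GV hG).ne
  unfold vn
  rw [mem_nd]
  constructor
  · rintro ⟨a, s, -, h1, rfl⟩
    rcases nG_O.1 h1 with rfl | rfl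
    · exact Or.inl rfl
    · exact Or.inr rfl
  · rintro (rfl | rfl)
    · exact ⟨nS x, s, hs, nG_O.2 (Or.inl rfl), rfl⟩
    · exact ⟨nD (x, c), s, hs, nG_O.2 (Or.inr rfl), rfl⟩

/-- The name of a node. -/
noncomputable def nm (x : GC M × α) : NN (SC M) hG := emV hG (vn hg hG h (nT x))

theorem isOrdPair_O (x : GC M × α) (c : C0 M) :
    Plain.IsOrdPair (emV hG (vn hg hG h (nO (x, c)))) (nm hg hG h x) (cN hg hG c) := by
  unfold cN
  rw [← emV_chk]
  exact emV_isOrdPair hG ⟨_, _, isPair_S hg hG h x, isPair_D hg hG h x c, isPair_O hg hG h x c⟩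

theorem pmem_nm {x : GC M × α} {r p : NN (SC M) hG} : PMem r p (nm hg hG h x) ↔
    ∃ y c, (∃ q, q ∈ GV G ∧ NQ E y c q x) ∧ r = nm hg hG h y ∧ p = cN hg hG c := by
  constructor
  · rintro ⟨q, h1, h2⟩
    obtain ⟨z, h3, rfl⟩ := (mem_emV hG).1 h2
    obtain ⟨a, s, hs, h4, rfl⟩ := (mem_nd (isGen_GV hG) _).1 h3
    obtain ⟨y, c, rfl, h5⟩ := nG_T.1 h4
    have h6 := (nn_isOrdPair hG).1 h1
    have h7 := (nn_isOrdPair hG).1 (isOrdPair_O hg hG h y c)
    obtain ⟨h8, h9⟩ := op_inj (h6.symm.trans h7)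
    exact ⟨y, c, ⟨s, hs, h5⟩, h8, h9⟩
  · rintro ⟨y, c, ⟨q, hq, h1⟩, rfl, rfl⟩
    refine ⟨_, isOrdPair_O hg hG h y c, (emV_mem hG).2 ((mem_nd (isGen_GV hG) _).2
      ⟨_, q, hq, nG_T.2 ⟨y, c, rfl, h1⟩, rfl⟩)⟩

/-- The value of a node. -/
noncomputable def va (x : GC M × α) : NN (SC M) hG := nd hG (good_bg h) x

theorem act_aux (π : GC M) (b : GC M × α) :
    (π⁻¹ * (π * b.1, b.2).1, (π * b.1, b.2).2) = b := by
  refine Prod.ext ?_ rfl
  exact inv_mul_cancel_left _ _

theorem exists_R : ∃ R : NN (SC M) hG, ∀ w, Plain.Mem w R ↔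
    ∃ x, w = ZFA.op (nm hg hG h x) (va hG h x) := by
  have h1 : FamU hG (INat.succ 0) (fun (π : GC M) (x : GC M × α) => (π * x.1, x.2))
      (nm hg hG h) := by
    refine ⟨_, _, _, good_LE (good_nG (t := tC hg) h hg.found), nT, int_nT, fun x => ?_,
      fun π hπ p x => ?_⟩
    · exact emV_nd hG _ _
    · obtain ⟨ρ, rfl⟩ := exists_lf (U_one_iff.1 hπ)
      rw [tw_lf_LE]
      exact feq_LE ((int_nG h.int).tw ρ) (int_nG h.int)
        (feq_mw h.int (Or.inl ⟨_, _, rfl, rfl, mv_self _ _⟩) _)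
  have h2 : FamU hG (INat.succ 0) (fun (π : GC M) (x : GC M × α) => (π * x.1, x.2))
      (va hG h) :=
    ⟨_, _, _, good_bg h, fun x => x, IntF.id, fun x => rfl, fun π _ p x => feq_tw_bg π x p⟩
  obtain ⟨R, hR⟩ := (h1.op act_aux h2).set (Z := fun _ => True) (Int.const _) fun _ _ _ _ => trivial
  refine ⟨R, fun w => (hR w).trans ?_⟩
  exact ⟨fun ⟨x, _, h3⟩ => ⟨x, h3⟩, fun ⟨x, h3⟩ => ⟨x, trivial, h3⟩⟩

theorem isValue_nm (x : GC M × α) : IsValue (GN hg hG) (nm hg hG h x) (va hG h x) := by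
  obtain ⟨R, hR⟩ := exists_R hg hG h
  have hR' : ∀ r y, PMem r y R ↔ ∃ x, r = nm hg hG h x ∧ y = va hG h x := by
    intro r y
    constructor
    · rintro ⟨q, h1, h2⟩
      obtain ⟨x, h3⟩ := (hR q).1 h2
      have h4 := (nn_isOrdPair hG).1 h1
      exact ⟨x, op_inj (h4.symm.trans h3)⟩
    · rintro ⟨x, rfl, rfl⟩
      exact ⟨_, (nn_isOrdPair hG).2 rfl, (hR _).2 ⟨x, rfl⟩⟩
  refine ⟨R, ?_, (hR' _ _).2 ⟨x, rfl, rfl⟩⟩
  intro σ y hy
  obtain ⟨x, rfl, rfl⟩ := (hR' _ _).1 hy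
  constructor
  · intro z hz
    obtain ⟨y, s, hs, h1, rfl⟩ := (mem_nd hG (good_bg h)).1 hz
    obtain ⟨h2, h3⟩ := (mem_iff_split hG).1 hs
    refine ⟨nm hg hG h y, cN hg hG (hd s), (pmem_nm hg hG h).2 ⟨y, hd s, ⟨tl s, h2, ⟨_, h1.2⟩,
      ?_⟩, rfl, rfl⟩, (mem_GN hg hG).2 ⟨_, h3, rfl⟩, (hR' _ _).2 ⟨y, rfl, rfl⟩⟩
    rw [am_tl_hd]
    exact FMem.of_edge h1 le_rfl
  · intro r p h1 h2
    obtain ⟨y, c, ⟨q, hq, -, h3⟩, rfl, rfl⟩ := (pmem_nm hg hG h).1 h1
    obtain ⟨c', hc', h4⟩ := (mem_GN hg hG).1 h2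
    rw [cN_inj] at h4
    subst h4
    exact ⟨va hG h y, (mem_nd_nd hG _ _).2 ⟨_, (am_mem hG).2 ⟨hq, hc'⟩, h3⟩,
      (hR' _ _).2 ⟨y, rfl, rfl⟩⟩

theorem exists_name (x : NN (SC M) hG) :
    ∃ τ : NN (SC M) (isGen_GV hG), IsValue (GN hg hG) (emV hG τ) x := by
  obtain ⟨n, rfl⟩ := exists_mk hG x
  refine ⟨vn hg hG n.good (nT (1, n.root)), ?_⟩
  have h1 := isValue_nm hg hG n.good (1, n.root)
  have h2 : va hG n.good (1, n.root) = NN.mk hG n := by
    rw [mk_eq_nd]
    refine (nd_eq_of hG _ _ fun p => ?_).symm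
    have h3 := feq_bg (E := n.E) 1 n.root p
    rwa [tw_one] at h3
  rw [h2] at h1
  exact h1

end

end Pool.Agent.H525C
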