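import Pool.Agent.H525R3.Ev

/-!
# Genericity, nontriviality, and the conclusion
-/

namespace Pool.Agent.H525C

open FirstOrder FirstOrder.Language
open Pool.Agent.Helper672 Pool.Agent.Helper672.ZFA Pool.Agent.Helper672.ZFA.H635
open Pool.Agent.Helper672.Plain (LSet)
open Pool.Agent.H525Emb
open Pool.Agent.H635Amen (ZF)

universe u

set_option synthInstance.maxSize 2000
set_option linter.unusedSectionVars false

section

variable {M : Type u} [L.Structure M] [hM : IsModel M] (hg : Gr M)
variable {G : Set (PC M)} (hG : IsGen M G)

theorem cN_mem_emV {x : Nm (SC M)} {c : C0 M} :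
    Plain.Mem (cN hg hG c) (emV hG (NN.mk (isGen_GV hG) x)) ↔
      ∃ p, p ∈ GV G ∧ ∃ k : El (tC hg), IsCd k c ∧ FMem M (chE (PC M) (tC hg)) x.E p k x.root := by
  have h1 : cN hg hG c = emV hG (chk hg (isGen_GV hG) (code c)) := (emV_chk hg hG _).symm
  have h2 := chk_eq hg (isGen_GV hG) (S := SC M) (trans_tC hg) (code_mem_tC hg c)
  rw [h1, emV_mem, h2, mk_eq_nd, mem_nd_nd]
  constructor
  · rintro ⟨p, hp, h3⟩
    exact ⟨p, hp, ⟨code c, code_mem_tC hg c⟩, rfl, h3⟩
  · rintro ⟨p, hp, k, hk, h3⟩
    have h4 : k = toEl (code_mem_tC hg c) := Subtype.ext hk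
    rw [h4] at h3
    exact ⟨p, hp, h3⟩

/-- The first column is generic over the extension given by the other columns. -/
theorem generic_aux (d : NN (SC M) (isGen_GV hG))
    (hd' : ∀ c₀, ∃ c, c ≤ c₀ ∧ Plain.Mem (cN hg hG c) (emV hG d)) :
    ∃ c, c ∈ G0 G ∧ Plain.Mem (cN hg hG c) (emV hG d) := by
  obtain ⟨x, rfl⟩ := exists_mk _ d
  have hI : Int M (fun q : C0 M × PC M => ∃ k : El (tC hg), IsCd k q.1 ∧
      FMem M (chE (PC M) (tC hg)) x.E q.2 k x.root) := by
    have h1 : Int M (fun q : El (tC hg) × C0 M => IsCd q.1 q.2) := int_isCd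
    have h2 := (ig_chE (P := PC M) (tC hg)).fmem x.int
    refine Int.ex (Int.and (by (repeat' (first | with_reducible exact IntF.id | with_reducible exact IntF.fst' | with_reducible exact IntF.snd' | with_reducible exact IntF.const _ | with_reducible exact Int.const _ | assumption | with_reducible apply ZFA.Int.and | with_reducible apply ZFA.Int.or | with_reducible apply ZFA.Int.not | with_reducible apply Int.imp | with_reducible apply Int.iff | with_reducible apply Int.ne | with_reducible apply Int.eq | with_reducible apply Int.mem | with_reducible apply Int.subset | with_reducible apply Int.ltN | with_reducible apply Int.leN | with_reducible_and_instances apply ZFA.Int.le | with_reducible_and_instances apply ZFA.Int.lt | with_reducible apply Int.all | with_reducible apply Int.ex | with_reducible apply IntF.fst | with_reducible apply IntF.snd | with_reducible apply IntF.app | with_reducible apply IntF.inl | with_reducible apply IntF.inr | with_reducible_and_instances apply IntF.mul | with_reducible_and_instances apply IntF.inv | with_reducible_and_instances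 apply IntF.add | with_reducible_and_instances apply IntF.sub | with_reducible_and_instances apply IntF.neg | with_reducible_and_instances apply IntF.smul | with_reducible apply IntF.succ | (with_reducible refine Int.comp ?_ ?_; assumption) | (with_reducible refine Int.comp₂ ?_ ?_ ?_; assumption) | (with_reducible refine Int.comp₃ ?_ ?_ ?_ ?_; assumption) | (with_reducible refine Int.comp₄ ?_ ?_ ?_ ?_ ?_; assumption) | (with_reducible refine IntF.comp ?_ ?_; assumption) | (with_reducible refine IntF.comp₂ ?_ ?_ ?_; assumption) | (with_reducible refine IntF.comp₃ ?_ ?_ ?_ ?_; assumption) | with_reducible apply IntF.val | with_reducible apply IntF.pair))) ?_)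
    refine Int.comp₃ (p := fun p a b => FMem M (chE (PC M) (tC hg)) x.E p a b) h2 ?_ ?_ ?_
    all_goals (repeat' (first | with_reducible exact IntF.id | with_reducible exact IntF.fst' | with_reducible exact IntF.snd' | with_reducible exact IntF.const _ | with_reducible exact Int.const _ | assumption | with_reducible apply ZFA.Int.and | with_reducible apply ZFA.Int.or | with_reducible apply ZFA.Int.not | with_reducible apply Int.imp | with_reducible apply Int.iff | with_reducible apply Int.ne | with_reducible apply Int.eq | with_reducible apply Int.mem | with_reducible apply Int.subset | with_reducible apply Int.ltN | with_reducible apply Int.leN | with_reducible_and_instances apply ZFA.Int.le | with_reducible_and_instances apply ZFA.Int.lt | with_reducible apply Int.all | with_reducible apply Int.ex | with_reducible apply IntF.fst | with_reducible apply IntF.snd | with_reducible apply IntF.app | with_reducible apply IntF.inl | with_reducible apply IntF.inr | with_reducible_and_instances apply IntF.mul | with_reducible_and_instances apply IntF.inv | with_reducible_and_instances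 apply IntF.add | with_reducible_and_instances apply IntF.sub | with_reducible_and_instances apply IntF.neg | with_reducible_and_instances apply IntF.smul | with_reducible apply IntF.succ | (with_reducible refine Int.comp ?_ ?_; assumption) | (with_reducible refine Int.comp₂ ?_ ?_ ?_; assumption) | (with_reducible refine Int.comp₃ ?_ ?_ ?_ ?_; assumption) | (with_reducible refine Int.comp₄ ?_ ?_ ?_ ?_ ?_; assumption) | (with_reducible refine IntF.comp ?_ ?_; assumption) | (with_reducible refine IntF.comp₂ ?_ ?_ ?_; assumption) | (with_reducible refine IntF.comp₃ ?_ ?_ ?_ ?_; assumption) | with_reducible apply IntF.val | with_reducible apply IntF.pair))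
  set FM : C0 M → PC M → Prop := fun c p => ∃ k : El (tC hg), IsCd k c ∧
      FMem M (chE (PC M) (tC hg)) x.E p k x.root with hFM
  have hI' : Int M (fun q : C0 M × PC M => FM q.1 q.2) := hI
  have h1 : IntF M (tl (M := M)) := int_tl
  have h2 : IntF M (hd (M := M)) := int_hd
  have hmono : ∀ c p q, FM c p → q ≤ p → FM c q := by
    rintro c p q ⟨k, hk, h3⟩ hq
    exact ⟨k, hk, h3.mono hq⟩
  clear_value FM
  obtain ⟨s, hs, h3⟩ := hG.dense (fun s => (∃ c, hd s ≤ c ∧ FM c (tl s)) ∨
    ∃ c₀, ∀ c, c ≤ c₀ → ∀ p, p ≤ tl s → ¬ FM c p) (by (repeat' (first | with_reducible exact IntF.id | with_reducible exact IntF.fst' | with_reducible exact IntF.snd' | with_reducible exact IntF.const _ | with_reducible exact Int.const _ | assumption | with_reducible apply ZFA.Int.and | with_reducible apply ZFA.Int.or | with_reducible apply ZFA.Int.not | with_reducible apply Int.imp | with_reducible apply Int.iff | with_reducible apply Int.ne | with_reducible apply Int.eq | with_reducible apply Int.mem | with_reducible apply Int.subset | with_reducible apply Int.ltN | with_reducible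 apply Int.leN | with_reducible_and_instances apply ZFA.Int.le | with_reducible_and_instances apply ZFA.Int.lt | with_reducible apply Int.all | with_reducible apply Int.ex | with_reducible apply IntF.fst | with_reducible apply IntF.snd | with_reducible apply IntF.app | with_reducible apply IntF.inl | with_reducible apply IntF.inr | with_reducible_and_instances apply IntF.mul | with_reducible_and_instances apply IntF.inv | with_reducible_and_instances apply IntF.add | with_reducible_and_instances apply IntF.sub | with_reducible_and_instances apply IntF.neg | with_reducible_and_instances apply IntF.smul | with_reducible apply IntF.succ | (with_reducible refine Int.comp ?_ ?_; assumption) | (with_reducible refine Int.comp₂ ?_ ?_ ?_; assumption) | (with_reducible refine Int.comp₃ ?_ ?_ ?_ ?_; assumption) | (with_reducible refine Int.comp₄ ?_ ?_ ?_ ?_ ?_; assumption) | (with_reducible refine IntF.comp ?_ ?_; assumption) | (with_reducible refine IntF.comp₂ ?_ ?_ ?_; assumption) | (with_reducible refine IntF.comp₃ ?_ ?_ ?_ ?_; assumption) | with_reducible apply IntF.val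 | with_reducible apply IntF.pair))) fun s => by
      by_cases h : ∃ c, c ≤ hd s ∧ ∃ p, p ≤ tl s ∧ FM c p
      · obtain ⟨c, hc, p, hp, h4⟩ := h
        refine ⟨am p c, le_iff_cases.2 ⟨by rwa [tl_am], by rwa [hd_am]⟩, Or.inl ⟨c, ?_, ?_⟩⟩
        · rw [hd_am]
        · rwa [tl_am]
      · push Not at h
        exact ⟨s, le_rfl, Or.inr ⟨hd s, fun c hc p hp => h c hc p hp⟩⟩
  obtain ⟨h4, h5⟩ := (mem_iff_split hG).1 hs
  rcases h3 with ⟨c, hc, h6⟩ | ⟨c₀, h6⟩
  · refine ⟨c, hG.up _ _ hs (le_am.2 ⟨le_top1 _, hc⟩), ?_⟩
    rw [cN_mem_emV]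
    rw [hFM] at h6
    exact ⟨tl s, h4, h6⟩
  · obtain ⟨c, hc, h7⟩ := hd' c₀
    rw [cN_mem_emV] at h7
    obtain ⟨p, hp, h8⟩ := h7
    obtain ⟨r, _, h9, h10⟩ := (isGen_GV hG).dir p (tl s) hp h4
    refine absurd ?_ (h6 c hc r h10)
    refine hmono c p r ?_ h9
    rw [hFM]
    exact h8

/-- Every condition has incompatible extensions. -/
theorem exists_incomp (c : C0 M) : ∃ c1 c2, c1 ≤ c ∧ c2 ≤ c ∧ ¬ ∃ r, r ≤ c1 ∧ r ≤ c2 := by
  obtain ⟨hd0, n, hn⟩ := c.2
  have h1 : ∀ k, k ∈ c.1.1 → k ≠ n := fun k hk h => absurd (hn k (Or.inl hk)) (h ▸ lt_irrefl _)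
  have h2 : ∀ k, k ∈ c.1.2 → k ≠ n := fun k hk h => absurd (hn k (Or.inr hk)) (h ▸ lt_irrefl _)
  have hb : ∀ k, (k ∈ c.1.1 ∨ k ∈ c.1.2 ∨ k = n) → k < n.succ := by
    rintro k (h | h | h)
    · exact (hn k (Or.inl h)).trans (INat.lt_succ_self _)
    · exact (hn k (Or.inr h)).trans (INat.lt_succ_self _)
    · exact h ▸ INat.lt_succ_self _
  refine ⟨mkC0 (fun k => k ∈ c.1.1 ∨ k = n) (fun k => k ∈ c.1.2) (by (repeat' (first | with_reducible exact IntF.id | with_reducible exact IntF.fst' | with_reducible exact IntF.snd' | with_reducible exact IntF.const _ | with_reducible exact Int.const _ | assumption | with_reducible apply ZFA.Int.and | with_reducible apply ZFA.Int.or | with_reducible apply ZFA.Int.not | with_reducible apply Int.imp | with_reducible apply Int.iff | with_reducible apply Int.ne | with_reducible apply Int.eq | with_reducible apply Int.mem | with_reducible apply Int.subset | with_reducible apply Int.ltN | with_reducible apply Int.leN | with_reducible_and_instances apply ZFA.Int.le | with_reducible_and_instances apply ZFA.Int.lt | with_reducible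 apply Int.all | with_reducible apply Int.ex | with_reducible apply IntF.fst | with_reducible apply IntF.snd | with_reducible apply IntF.app | with_reducible apply IntF.inl | with_reducible apply IntF.inr | with_reducible_and_instances apply IntF.mul | with_reducible_and_instances apply IntF.inv | with_reducible_and_instances apply IntF.add | with_reducible_and_instances apply IntF.sub | with_reducible_and_instances apply IntF.neg | with_reducible_and_instances apply IntF.smul | with_reducible apply IntF.succ | (with_reducible refine Int.comp ?_ ?_; assumption) | (with_reducible refine Int.comp₂ ?_ ?_ ?_; assumption) | (with_reducible refine Int.comp₃ ?_ ?_ ?_ ?_; assumption) | (with_reducible refine Int.comp₄ ?_ ?_ ?_ ?_ ?_; assumption) | (with_reducible refine IntF.comp ?_ ?_; assumption) | (with_reducible refine IntF.comp₂ ?_ ?_ ?_; assumption) | (with_reducible refine IntF.comp₃ ?_ ?_ ?_ ?_; assumption) | with_reducible apply IntF.val | with_reducible apply IntF.pair))) (by (repeat' (first | with_reducible exact IntF.id | with_reducible exact IntF.fst'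 | with_reducible exact IntF.snd' | with_reducible exact IntF.const _ | with_reducible exact Int.const _ | assumption | with_reducible apply ZFA.Int.and | with_reducible apply ZFA.Int.or | with_reducible apply ZFA.Int.not | with_reducible apply Int.imp | with_reducible apply Int.iff | with_reducible apply Int.ne | with_reducible apply Int.eq | with_reducible apply Int.mem | with_reducible apply Int.subset | with_reducible apply Int.ltN | with_reducible apply Int.leN | with_reducible_and_instances apply ZFA.Int.le | with_reducible_and_instances apply ZFA.Int.lt | with_reducible apply Int.all | with_reducible apply Int.ex | with_reducible apply IntF.fst | with_reducible apply IntF.snd | with_reducible apply IntF.app | with_reducible apply IntF.inl | with_reducible apply IntF.inr | with_reducible_and_instances apply IntF.mul | with_reducible_and_instances apply IntF.inv | with_reducible_and_instances apply IntF.add | with_reducible_and_instances apply IntF.sub | with_reducible_and_instances apply IntF.neg | with_reducible_and_instances apply IntF.smul | with_reducible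 apply IntF.succ | (with_reducible refine Int.comp ?_ ?_; assumption) | (with_reducible refine Int.comp₂ ?_ ?_ ?_; assumption) | (with_reducible refine Int.comp₃ ?_ ?_ ?_ ?_; assumption) | (with_reducible refine Int.comp₄ ?_ ?_ ?_ ?_ ?_; assumption) | (with_reducible refine IntF.comp ?_ ?_; assumption) | (with_reducible refine IntF.comp₂ ?_ ?_ ?_; assumption) | (with_reducible refine IntF.comp₃ ?_ ?_ ?_ ?_; assumption) | with_reducible apply IntF.val | with_reducible apply IntF.pair))) ?_
    ⟨n.succ, fun k hk => hb k (by tauto)⟩,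
    mkC0 (fun k => k ∈ c.1.1) (fun k => k ∈ c.1.2 ∨ k = n) (by (repeat' (first | with_reducible exact IntF.id | with_reducible exact IntF.fst' | with_reducible exact IntF.snd' | with_reducible exact IntF.const _ | with_reducible exact Int.const _ | assumption | with_reducible apply ZFA.Int.and | with_reducible apply ZFA.Int.or | with_reducible apply ZFA.Int.not | with_reducible apply Int.imp | with_reducible apply Int.iff | with_reducible apply Int.ne | with_reducible apply Int.eq | with_reducible apply Int.mem | with_reducible apply Int.subset | with_reducible apply Int.ltN | with_reducible apply Int.leN | with_reducible_and_instances apply ZFA.Int.le | with_reducible_and_instances apply ZFA.Int.lt | with_reducible apply Int.all | with_reducible apply Int.ex | with_reducible apply IntF.fst | with_reducible apply IntF.snd | with_reducible apply IntF.app | with_reducible apply IntF.inl | with_reducible apply IntF.inr | with_reducible_and_instances apply IntF.mul | with_reducible_and_instances apply IntF.inv | with_reducible_and_instances apply IntF.add | with_reducible_and_instances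 apply IntF.sub | with_reducible_and_instances apply IntF.neg | with_reducible_and_instances apply IntF.smul | with_reducible apply IntF.succ | (with_reducible refine Int.comp ?_ ?_; assumption) | (with_reducible refine Int.comp₂ ?_ ?_ ?_; assumption) | (with_reducible refine Int.comp₃ ?_ ?_ ?_ ?_; assumption) | (with_reducible refine Int.comp₄ ?_ ?_ ?_ ?_ ?_; assumption) | (with_reducible refine IntF.comp ?_ ?_; assumption) | (with_reducible refine IntF.comp₂ ?_ ?_ ?_; assumption) | (with_reducible refine IntF.comp₃ ?_ ?_ ?_ ?_; assumption) | with_reducible apply IntF.val | with_reducible apply IntF.pair))) (by (repeat' (first | with_reducible exact IntF.id | with_reducible exact IntF.fst' | with_reducible exact IntF.snd' | with_reducible exact IntF.const _ | with_reducible exact Int.const _ | assumption | with_reducible apply ZFA.Int.and | with_reducible apply ZFA.Int.or | with_reducible apply ZFA.Int.not | with_reducible apply Int.imp | with_reducible apply Int.iff | with_reducible apply Int.ne | with_reducible apply Int.eq | with_reducible apply Int.mem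 | with_reducible apply Int.subset | with_reducible apply Int.ltN | with_reducible apply Int.leN | with_reducible_and_instances apply ZFA.Int.le | with_reducible_and_instances apply ZFA.Int.lt | with_reducible apply Int.all | with_reducible apply Int.ex | with_reducible apply IntF.fst | with_reducible apply IntF.snd | with_reducible apply IntF.app | with_reducible apply IntF.inl | with_reducible apply IntF.inr | with_reducible_and_instances apply IntF.mul | with_reducible_and_instances apply IntF.inv | with_reducible_and_instances apply IntF.add | with_reducible_and_instances apply IntF.sub | with_reducible_and_instances apply IntF.neg | with_reducible_and_instances apply IntF.smul | with_reducible apply IntF.succ | (with_reducible refine Int.comp ?_ ?_; assumption) | (with_reducible refine Int.comp₂ ?_ ?_ ?_; assumption) | (with_reducible refine Int.comp₃ ?_ ?_ ?_ ?_; assumption) | (with_reducible refine Int.comp₄ ?_ ?_ ?_ ?_ ?_; assumption) | (with_reducible refine IntF.comp ?_ ?_; assumption) | (with_reducible refine IntF.comp₂ ?_ ?_ ?_; assumption) | (with_reducible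 refine IntF.comp₃ ?_ ?_ ?_ ?_; assumption) | with_reducible apply IntF.val | with_reducible apply IntF.pair))) ?_
    ⟨n.succ, fun k hk => hb k (by tauto)⟩, ?_, ?_, ?_⟩
  · rintro k (h | h) h'
    · exact hd0 k h h'
    · exact h2 k h' h
  · rintro k h (h' | h')
    · exact hd0 k h h'
    · exact h1 k h h'
  · exact fun k => ⟨fun h => mem_mkC0_fst.2 (Or.inl h), fun h => mem_mkC0_snd.2 h⟩
  · exact fun k => ⟨fun h => mem_mkC0_fst.2 h, fun h => mem_mkC0_snd.2 (Or.inl h)⟩
  · rintro ⟨r, h3, h4⟩
    exact r.2.1 n ((h3 n).1 (mem_mkC0_fst.2 (Or.inr rfl))) ((h4 n).2 (mem_mkC0_snd.2 (Or.inr rfl)))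

/-! ### The substructure -/

/-- The smaller extension as a substructure. -/
def subV : LSet.Substructure (NN (SC M) hG) := ⟨Set.range (emV hG), fun f => Empty.elim f⟩

theorem mem_subV {y : NN (SC M) hG} : y ∈ subV hG ↔ ∃ x, emV hG x = y := Iff.rfl

theorem rel_mem {N : Type u} [LSet.Structure N] (v : Fin 2 → N) :
    Structure.RelMap (L := LSet) (Plain.Sym.mem : LSet.Relations 2) v ↔ Plain.Mem (v 0) (v 1) := by
  unfold Plain.Mem
  refine iff_of_eq (congrArg _ ?_)
  funext i
  fin_cases i <;> rfl

/-- The isomorphism with the substructure. -/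
noncomputable def eV : NN (SC M) (isGen_GV hG) ≃[LSet] subV hG where
  toEquiv := Equiv.ofInjective (emV hG) (emV_inj hG)
  map_fun' := fun f => Empty.elim f
  map_rel' := by
    intro n r x
    cases r
    have h1 := rel_mem x
    have h2 := rel_mem (N := NN (SC M) hG) (fun i => emV hG (x i))
    rw [emV_mem] at h2
    exact h2.trans h1.symm

theorem eV_apply (x : NN (SC M) (isGen_GV hG)) : ((eV hG x : subV hG) : NN (SC M) hG) = emV hG x :=
  rfl

theorem isTrans_subV : IsTrans (subV hG) := by
  rintro x y hxy ⟨z, rfl⟩
  obtain ⟨w, rfl⟩ := emV_trans hG hxy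
  exact ⟨w, rfl⟩

/-- The embedding. -/
noncomputable def jV : subV hG ↪ₑ[LSet] NN (SC M) hG :=
  (jE hG).comp (eV hG).symm.toElementaryEmbedding

theorem jV_apply (x : NN (SC M) (isGen_GV hG)) : jV hG (eV hG x) = jF hG x := by
  change jF hG ((eV hG).symm (eV hG x)) = _
  rw [(eV hG).symm_apply_apply]

theorem graph_jV (y z : NN (SC M) hG) :
    (∃ x : subV hG, (x : NN (SC M) hG) = y ∧ jV hG x = z) ↔ (JC M).holds hG y z := by
  rw [holds_iff]
  constructor
  · rintro ⟨x, rfl, rfl⟩
    refine ⟨(eV hG).symm x, ?_, ?_⟩
    · rw [← eV_apply, (eV hG).apply_symm_apply]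
    · rw [← jV_apply, (eV hG).apply_symm_apply]
  · rintro ⟨x, rfl, rfl⟩
    exact ⟨eV hG x, eV_apply hG x, jV_apply hG x⟩

theorem chk_mem_subV (x : M) : chk hg hG x ∈ subV hG := ⟨_, emV_chk hg hG x⟩

include hg in
theorem isForcingExtension : IsForcingExtension (subV hG) := by
  refine ⟨PN hg hG, leN hg hG, GN hg hG, ⟨chk_mem_subV hg hG _, chk_mem_subV hg hG _, ?_, ?_⟩,
    ⟨?_, ?_, ?_, ?_, ?_⟩, ?_⟩
  · intro p hp
    obtain ⟨c, rfl⟩ := (mem_PN hg hG).1 hp
    exact (pmem_leN hg hG).2 le_rfl
  · intro p q r hp hq hr h1 h2
    obtain ⟨c, rfl⟩ := (mem_PN hg hG).1 hp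
    obtain ⟨c', rfl⟩ := (mem_PN hg hG).1 hq
    obtain ⟨c'', rfl⟩ := (mem_PN hg hG).1 hr
    rw [pmem_leN] at h1 h2 ⊢
    exact h1.trans h2
  · intro p hp
    obtain ⟨c, -, rfl⟩ := (mem_GN hg hG).1 hp
    exact (mem_PN hg hG).2 ⟨c, rfl⟩
  · obtain ⟨s, hs⟩ := hG.ne
    exact ⟨_, (mem_GN hg hG).2 ⟨hd s, mem_G0_of hG hs, rfl⟩⟩
  · intro p q hp hq h1
    obtain ⟨c, hc, rfl⟩ := (mem_GN hg hG).1 hp
    obtain ⟨c', rfl⟩ := (mem_PN hg hG).1 hq
    rw [pmem_leN] at h1
    exact (mem_GN hg hG).2 ⟨c', hG.up _ _ hc (am_le.2 ⟨le_rfl, h1⟩), rfl⟩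
  · intro p q hp hq
    obtain ⟨c, hc, rfl⟩ := (mem_GN hg hG).1 hp
    obtain ⟨c', hc', rfl⟩ := (mem_GN hg hG).1 hq
    obtain ⟨s, hs, h1, h2⟩ := hG.dir _ _ hc hc'
    refine ⟨cN hg hG (hd s), (mem_GN hg hG).2 ⟨hd s, mem_G0_of hG hs, rfl⟩, ?_, ?_⟩
    · exact (pmem_leN hg hG).2 (le_am.1 h1).2
    · exact (pmem_leN hg hG).2 (le_am.1 h2).2
  · rintro D ⟨d, rfl⟩ h1 h2
    obtain ⟨c, hc, h3⟩ := generic_aux hg hG d fun c₀ => by
      obtain ⟨w, h3, h4⟩ := h2 (cN hg hG c₀) ((mem_PN hg hG).2 ⟨c₀, rfl⟩)
      obtain ⟨c, rfl⟩ := (mem_PN hg hG).1 (h1 w h3)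
      exact ⟨c, (pmem_leN hg hG).1 h4, h3⟩
    exact ⟨cN hg hG c, h3, (mem_GN hg hG).2 ⟨c, hc, rfl⟩⟩
  · intro x
    obtain ⟨τ, hτ⟩ := exists_name hg hG x
    exact ⟨emV hG τ, ⟨τ, rfl⟩, hτ⟩

/-- The generic filter is not in the smaller extension. -/
theorem not_mem_subV : ¬ GN hg hG ∈ subV hG := by
  rintro ⟨g, h1⟩
  have hS : (Set.univ : Set (NN (SC M) (isGen_GV hG))).Definable₁ LSet {w | ¬ Plain.Mem w g} := by
    have h3 : D (fun v : Fin 1 → NN (SC M) (isGen_GV hG) => ¬ Mem (v 0) g) :=
      D.not (D.memf (DF.var _) (DF.const _))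
    exact definable_of_toL h3
  obtain ⟨d, hd'⟩ := (nn_zermelo (isGen_GV hG)).separation _ hS
    (chk hg (isGen_GV hG) (dom M (C0 M)))
  have h2 : ∀ c, Plain.Mem (cN hg hG c) (emV hG d) ↔ ¬ c ∈ G0 G := by
    intro c
    have h3 : cN hg hG c = emV hG (chk hg (isGen_GV hG) (code c)) := (emV_chk hg hG _).symm
    have h4 : Plain.Mem (chk hg (isGen_GV hG) (code c)) g ↔ c ∈ G0 G := by
      rw [← emV_mem hG, ← h3, h1, mem_GN]
      constructor
      · rintro ⟨c', hc', h5⟩
        rwa [(cN_inj hg hG).1 h5]
      · exact fun h => ⟨c, h, rfl⟩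
    rw [h3, emV_mem, hd']
    change _ ∧ ¬ _ ↔ _
    rw [h4]
    exact and_iff_right ((mem_chk_chk hg (isGen_GV hG)).2 (code_mem_dom c))
  obtain ⟨c, hc, h3⟩ := generic_aux hg hG d fun c₀ => by
    obtain ⟨c1, c2, h3, h4, h5⟩ := exists_incomp c₀
    by_cases h6 : c1 ∈ G0 G
    · refine ⟨c2, h4, (h2 c2).2 fun h7 => h5 ?_⟩
      obtain ⟨s, -, h8, h9⟩ := hG.dir _ _ h6 h7
      exact ⟨hd s, (le_am.1 h8).2, (le_am.1 h9).2⟩
    · exact ⟨c1, h3, (h2 c1).2 h6⟩
  exact (h2 c).1 h3 hc

/-- The formula saying that all subsets of the first variable are elements of the second. -/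
def powF : LSet.Formula (Fin 2) :=
  BoundedFormula.all (BoundedFormula.imp
    (BoundedFormula.all (BoundedFormula.imp
      (Relations.boundedFormula₂ (Plain.Sym.mem : LSet.Relations 2)
        (Term.var (Sum.inr 1)) (Term.var (Sum.inr 0)))
      (Relations.boundedFormula₂ (Plain.Sym.mem : LSet.Relations 2)
        (Term.var (Sum.inr 1)) (Term.var (Sum.inl 0)))))
    (Relations.boundedFormula₂ (Plain.Sym.mem : LSet.Relations 2)
      (Term.var (Sum.inr 0)) (Term.var (Sum.inl 1))))

theorem realize_powF {N : Type u} [LSet.Structure N] (v : Fin 2 → N) :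
    powF.Realize v ↔ ∀ w, (∀ z, Plain.Mem z w → Plain.Mem z (v 0)) → Plain.Mem w (v 1) := by
  unfold powF Formula.Realize
  simp only [BoundedFormula.realize_all, BoundedFormula.realize_imp, BoundedFormula.realize_rel₂,
    Term.realize_var, Sum.elim_inl, Sum.elim_inr]
  rfl

include hg in
theorem exists_moved : ∃ x : subV hG, jV hG x ≠ x := by
  by_contra h
  push Not at h
  have h1 : ∀ x, jF hG x = emV hG x := fun x => by
    have h2 := h (eV hG x)
    rwa [jV_apply, eV_apply] at h2
  obtain ⟨q, hq⟩ := (nn_zermelo (S := SC M) (isGen_GV hG)).power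
    (chk hg (isGen_GV hG) (dom M (C0 M)))
  have h2 : powF.Realize ![chk hg (isGen_GV hG) (dom M (C0 M)), q] := by
    rw [realize_powF]
    exact fun w hw => (hq w).2 hw
  rw [← (jE hG).map_formula, realize_powF] at h2
  have h3 := h2 (GN hg hG) fun z hz => by
    obtain ⟨c, -, rfl⟩ := (mem_GN hg hG).1 hz
    change Plain.Mem (cN hg hG c) (jF hG (chk hg (isGen_GV hG) (dom M (C0 M))))
    rw [h1, emV_chk]
    exact (mem_PN hg hG).2 ⟨c, rfl⟩
  change Plain.Mem _ (jF hG q) at h3
  rw [h1] at h3
  obtain ⟨g, h4⟩ := emV_trans hG h3
  exact not_mem_subV hg hG ⟨g, h4⟩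

end

end Pool.Agent.H525C
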