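import Pool.Agent.H525R3.Main

/-!
# The embedding fixes the elements of the ground model
-/

namespace Pool.Agent.H525C

open FirstOrder FirstOrder.Language
open Pool.Agent.Helper672 Pool.Agent.Helper672.ZFA Pool.Agent.Helper672.ZFA.H635
open Pool.Agent.Helper672.Plain (LSet)
open Pool.Agent.H525Emb
open Pool.Agent.H635Amen (ZF)

universe u

set_option synthInstance.maxSize 2000
set_option linter.unusedSectionVars false

section

variable {M : Type u} [L.Structure M] [hM : IsModel M] (hg : Gr M)
variable {G : Set (PC M)} (hG : IsGen M G)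

theorem jF_chk (x : M) : jF hG (chk hg (isGen_GV hG) x) = chk hg hG x := by
  have h1 : chk (S := SC M) hg (isGen_GV hG) x =
      NN.mk (isGen_GV hG) (mkNm (good_chE (S := SC M) hg.found (tc hg x)) (toEl (mem_tc hg x))) :=
    rfl
  have h2 : chk (S := SC M) hg hG x =
      NN.mk hG (mkNm (good_chE (S := SC M) hg.found (tc hg x)) (toEl (mem_tc hg x))) :=
    rfl
  obtain ⟨n, hn⟩ := exists_syN (mkNm (good_chE (S := SC M) hg.found (tc hg x)) (toEl (mem_tc hg x)))
  rw [h1, jF_mk hG hn, h2]
  refine mk_congr hG fun p => ?_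
  have h3 := feq_mkNm (good_chE (S := SC M) hg.found (tc hg x)) (toEl (mem_tc hg x)) p
  have h4 := feq_actN (cyc n)
    (mkNm (good_chE (S := SC M) hg.found (tc hg x)) (toEl (mem_tc hg x))) p
  have h5 := feq_tw (SC M) (cyc n) (feq_mkNm (good_chE (S := SC M) hg.found (tc hg x))
    (toEl (mem_tc hg x)) ((cyc n)⁻¹ • p))
  rw [smul_inv_smul] at h5
  have h6 : tw (cyc n) (chE (PC M) (tc hg x)) = chE (PC M) (tc hg x) := rfl
  rw [h6] at h5
  generalize mkNm (good_chE (S := SC M) hg.found (tc hg x)) (toEl (mem_tc hg x)) = y at *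
  exact (h4.symm (y.int.tw _) (actN _ y).int).trans (actN _ y).int (y.int.tw _) y.int
    ((h5.symm (ig_chE _) (y.int.tw _)).trans (y.int.tw _) (ig_chE _) y.int h3)

end

end Pool.Agent.H525C
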