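import Pool.Agent.H525R3.GDef

/-!
# Ground model definability: the abstract argument
-/

namespace Pool.Agent.H525Ground

open FirstOrder FirstOrder.Language
open Pool.Agent.Helper672.Plain (LSet Mem IsPair IsOrdPair Sym)
open Pool.Agent.H635Amen (ZF)
open Pool.Agent.H525Emb

universe u

set_option linter.unusedVariables false

/-! ### Uniform formulas -/

/-- `S` is given by a formula, uniformly in the structure. -/
def Uf {ι : Type u} (S : ∀ (K : Type u) [LSet.Structure K], (ι → K) → Prop) : Prop :=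
  ∃ φ : LSet.Formula ι, ∀ (K : Type u) [LSet.Structure K] (v : ι → K), φ.Realize v ↔ S K v

section

variable {ι κ : Type u} {S T : ∀ (K : Type u) [LSet.Structure K], (ι → K) → Prop}

theorem Uf.mem (i j : ι) : Uf (fun K _ v => Mem (v i) (v j)) :=
  ⟨Relations.formula₂ (Sym.mem : LSet.Relations 2) (Term.var i) (Term.var j), fun K _ v =>
    Iff.trans Formula.realize_rel₂ Iff.rfl⟩

theorem Uf.eq (i j : ι) : Uf (fun K _ v => v i = v j) :=
  ⟨Term.equal (Term.var i) (Term.var j), fun K _ v => by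
    rw [Formula.realize_equal]
    rfl⟩

theorem Uf.not (h : Uf S) : Uf (fun K _ v => ¬ S K v) := by
  obtain ⟨φ, h⟩ := h
  exact ⟨φ.not, fun K _ v => by rw [Formula.realize_not, h]⟩

theorem Uf.imp (h : Uf S) (h' : Uf T) : Uf (fun K _ v => S K v → T K v) := by
  obtain ⟨φ, h⟩ := h
  obtain ⟨ψ, h'⟩ := h'
  exact ⟨φ.imp ψ, fun K _ v => by rw [Formula.realize_imp, h, h']⟩

theorem Uf.and (h : Uf S) (h' : Uf T) : Uf (fun K _ v => S K v ∧ T K v) := by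
  obtain ⟨φ, h⟩ := h
  obtain ⟨ψ, h'⟩ := h'
  exact ⟨φ ⊓ ψ, fun K _ v => by rw [Formula.realize_inf, h, h']⟩

theorem Uf.or (h : Uf S) (h' : Uf T) : Uf (fun K _ v => S K v ∨ T K v) := by
  obtain ⟨φ, h⟩ := h
  obtain ⟨ψ, h'⟩ := h'
  exact ⟨φ ⊔ ψ, fun K _ v => by rw [Formula.realize_sup, h, h']⟩

theorem Uf.iff (h : Uf S) (h' : Uf T) : Uf (fun K _ v => S K v ↔ T K v) := by
  obtain ⟨φ, h⟩ := h
  obtain ⟨ψ, h'⟩ := h'
  exact ⟨φ.iff ψ, fun K _ v => by rw [Formula.realize_iff, h, h']⟩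

theorem Uf.comp {S : ∀ (K : Type u) [LSet.Structure K], (κ → K) → Prop} (h : Uf S) (g : κ → ι) :
    Uf (fun K _ v => S K (fun k => v (g k))) := by
  obtain ⟨φ, h⟩ := h
  exact ⟨φ.relabel g, fun K _ v => by rw [Formula.realize_relabel, h]; rfl⟩

theorem Uf.all {S : ∀ (K : Type u) [LSet.Structure K], (ι → K) → K → Prop}
    (h : Uf (ι := ι ⊕ PUnit.{u + 1}) (fun K _ v => S K (fun i => v (Sum.inl i)) (v (Sum.inr ⟨⟩)))) :
    Uf (fun K _ v => ∀ x, S K v x) := by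
  obtain ⟨φ, h⟩ := h
  refine ⟨φ.iAlls PUnit.{u + 1}, fun K _ v => ?_⟩
  rw [Formula.realize_iAlls]
  constructor
  · intro h1 x
    exact (h K _).1 (h1 fun _ => x)
  · intro h1 x
    exact (h K _).2 (h1 (x ⟨⟩))

theorem Uf.ex {S : ∀ (K : Type u) [LSet.Structure K], (ι → K) → K → Prop}
    (h : Uf (ι := ι ⊕ PUnit.{u + 1}) (fun K _ v => S K (fun i => v (Sum.inl i)) (v (Sum.inr ⟨⟩)))) :
    Uf (fun K _ v => ∃ x, S K v x) := by
  obtain ⟨φ, h⟩ := h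
  refine ⟨φ.iExs PUnit.{u + 1}, fun K _ v => ?_⟩
  rw [Formula.realize_iExs]
  constructor
  · rintro ⟨x, h1⟩
    exact ⟨x ⟨⟩, (h K _).1 h1⟩
  · rintro ⟨x, h1⟩
    exact ⟨fun _ => x, (h K _).2 h1⟩

theorem Uf.pmem (i j k : ι) : Uf (fun K _ v => PMem (v i) (v j) (v k)) := by
  unfold PMem IsOrdPair IsPair
  refine Uf.ex (Uf.and (Uf.ex (Uf.ex (Uf.and (Uf.all ?_) (Uf.and (Uf.all ?_) (Uf.all ?_))))) ?_)
  · exact Uf.iff (Uf.mem _ _) (Uf.or (Uf.eq _ _) (Uf.eq _ _))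
  · exact Uf.iff (Uf.mem _ _) (Uf.or (Uf.eq _ _) (Uf.eq _ _))
  · exact Uf.iff (Uf.mem _ _) (Uf.or (Uf.eq _ _) (Uf.eq _ _))
  · exact Uf.mem _ _

theorem Uf.transitive (i : ι) : Uf (fun K _ v => Transitive (v i)) :=
  Uf.all (Uf.all (Uf.imp (Uf.mem _ _) (Uf.imp (Uf.mem _ _) (Uf.mem _ _))))

theorem Uf.ord (i : ι) : Uf (fun K _ v => IsOrdinal (v i)) :=
  Uf.and (Uf.transitive i) (Uf.all (Uf.imp (Uf.mem _ _) (Uf.transitive _)))

theorem Uf.transfer (h : Uf S) {V N : Type u} [LSet.Structure V] [LSet.Structure N]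
    (j : V ↪ₑ[LSet] N) (v : ι → V) : S V v ↔ S N (fun i => j (v i)) := by
  obtain ⟨φ, h⟩ := h
  rw [← h, ← h]
  exact (j.map_formula φ v).symm

end

/-! ### Sets fixed by the embedding -/

section

variable {N : Type u} [LSet.Structure N] {V : LSet.Substructure N} {j : V ↪ₑ[LSet] N}

/-- `z` is in `V` and fixed by the embedding. -/
def Fx (j : V ↪ₑ[LSet] N) (z : N) : Prop := ∃ x : V, (x : N) = z ∧ j x = z

theorem mem_coe {x y : V} : Mem x y ↔ Mem (x : N) (y : N) := by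
  have h : Mem x y ↔ Structure.RelMap (L := LSet) (Sym.mem : LSet.Relations 2)
    (fun i => ((![x, y] i : V) : N)) := Iff.rfl
  rw [h]
  unfold Mem
  refine iff_of_eq (congrArg _ ?_)
  funext i
  fin_cases i <;> rfl

theorem mem_j {x y : V} : Mem (j x) (j y) ↔ Mem (x : N) (y : N) := by
  rw [← mem_coe]
  exact ((Uf.mem (ι := ULift.{u} Bool) ⟨false⟩ ⟨true⟩).transfer j
    (fun i => if i.down then y else x)).symm

theorem isPair_coe (hT : IsTrans V) {p x y : V} : IsPair p x y ↔ IsPair (p : N) x y := by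
  constructor
  · intro h w
    constructor
    · intro h1
      have h2 : w ∈ V := hT _ _ h1 p.2
      rcases (h ⟨w, h2⟩).1 (mem_coe.2 h1) with h3 | h3
      · exact Or.inl (congrArg Subtype.val h3)
      · exact Or.inr (congrArg Subtype.val h3)
    · rintro (rfl | rfl)
      · exact mem_coe.1 ((h x).2 (Or.inl rfl))
      · exact mem_coe.1 ((h y).2 (Or.inr rfl))
  · intro h w
    rw [mem_coe, h]
    exact or_congr Subtype.coe_inj Subtype.coe_inj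

theorem pmem_coe (hT : IsTrans V) {x y s : V} : PMem x y s ↔ PMem (x : N) y s := by
  constructor
  · rintro ⟨q, ⟨a, b, h1, h2, h3⟩, h4⟩
    exact ⟨q, ⟨a, b, (isPair_coe hT).1 h1, (isPair_coe hT).1 h2, (isPair_coe hT).1 h3⟩,
      mem_coe.1 h4⟩
  · rintro ⟨q, ⟨a, b, h1, h2, h3⟩, h4⟩
    have h5 : q ∈ V := hT _ _ h4 s.2
    have h6 : a ∈ V := hT _ _ ((h3 a).2 (Or.inl rfl)) h5
    have h7 : b ∈ V := hT _ _ ((h3 b).2 (Or.inr rfl)) h5
    exact ⟨⟨q, h5⟩, ⟨⟨a, h6⟩, ⟨b, h7⟩, (isPair_coe hT (p := ⟨a, h6⟩)).2 h1,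
      (isPair_coe hT (p := ⟨b, h7⟩)).2 h2,
      (isPair_coe hT (p := ⟨q, h5⟩) (x := ⟨a, h6⟩) (y := ⟨b, h7⟩)).2 h3⟩, mem_coe.2 h4⟩

theorem transitive_coe (hT : IsTrans V) {x : V} : Transitive x ↔ Transitive (x : N) := by
  constructor
  · intro h y z hy hz
    have h1 : y ∈ V := hT _ _ hy x.2
    have h2 : z ∈ V := hT _ _ hz h1
    exact mem_coe.1 (h ⟨y, h1⟩ ⟨z, h2⟩ (mem_coe.2 hy) (mem_coe.2 hz))
  · intro h y z hy hz
    exact mem_coe.2 (h y z (mem_coe.1 hy) (mem_coe.1 hz))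

theorem ord_coe (hT : IsTrans V) {x : V} : IsOrdinal x ↔ IsOrdinal (x : N) := by
  constructor
  · rintro ⟨h1, h2⟩
    refine ⟨(transitive_coe hT).1 h1, fun y hy => ?_⟩
    have h3 : y ∈ V := hT _ _ hy x.2
    exact (transitive_coe hT (x := ⟨y, h3⟩)).1 (h2 ⟨y, h3⟩ (mem_coe.2 hy))
  · rintro ⟨h1, h2⟩
    exact ⟨(transitive_coe hT).2 h1, fun y hy => (transitive_coe hT).2 (h2 y (mem_coe.1 hy))⟩

/-- Two variables. -/
def w2 {K : Type u} (x y : K) : ULift.{u} (Fin 2) → K := fun i => ![x, y] i.down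

/-- Three variables. -/
def w3 {K : Type u} (x y z : K) : ULift.{u} (Fin 3) → K := fun i => ![x, y, z] i.down

theorem j_w2 (x y : V) : (fun i => j (w2 x y i)) = w2 (j x) (j y) := by
  funext i
  obtain ⟨i⟩ := i
  fin_cases i <;> rfl

theorem j_w3 (x y z : V) : (fun i => j (w3 x y z i)) = w3 (j x) (j y) (j z) := by
  funext i
  obtain ⟨i⟩ := i
  fin_cases i <;> rfl

/-- If the elements of `x` and of `j x` are fixed, then `x` is. -/
theorem fx_of (hN : ZF N) {x : V} (h1 : ∀ z, Mem z (x : N) → Fx j z)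
    (h2 : ∀ z, Mem z (j x) → Fx j z) : j x = x := by
  refine hN.ext _ _ fun z => ⟨fun h => ?_, fun h => ?_⟩
  · obtain ⟨y, h3, h4⟩ := h2 z h
    rw [← h4, mem_j] at h
    rwa [← h3]
  · obtain ⟨y, h3, h4⟩ := h1 z h
    rw [← h3] at h
    rwa [← h4, mem_j]

/-- Sets of ordinals are fixed. -/
theorem fx_ord (hN : ZF N) (hT : IsTrans V) (hO : ∀ z : N, IsOrdinal z → Fx j z) {b : V}
    (hb : ∀ z, Mem z (b : N) → IsOrdinal z) : j b = b := by
  refine fx_of hN (fun z hz => hO z (hb z hz)) fun z hz => hO z ?_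
  have h1 : Uf (ι := ULift.{u} (Fin 2)) (fun K _ v => ∀ z, Mem z (v ⟨0⟩) → IsOrdinal z) :=
    Uf.all (Uf.imp (Uf.mem _ _) (Uf.ord _))
  have h2 := h1.transfer j (w2 b b)
  rw [j_w2] at h2
  exact h2.1 (fun z hz => (ord_coe hT).2 (hb z (mem_coe.1 hz))) z hz

/-- Subsets of a fixed set with fixed elements are fixed. -/
theorem fx_sub (hN : ZF N) (hT : IsTrans V) {P w : V} (hP : j P = P)
    (hP' : ∀ z, Mem z (P : N) → Fx j z) (hw : ∀ z, Mem z (w : N) → Mem z (P : N)) : j w = w := by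
  refine fx_of hN (fun z hz => hP' z (hw z hz)) fun z hz => hP' z ?_
  have h1 : Uf (ι := ULift.{u} (Fin 2)) (fun K _ v => ∀ z, Mem z (v ⟨0⟩) → Mem z (v ⟨1⟩)) :=
    Uf.all (Uf.imp (Uf.mem _ _) (Uf.mem _ _))
  have h2 := h1.transfer j (w2 w P)
  rw [j_w2] at h2
  have h3 := h2.1 (fun z hz => mem_coe.2 (hw z (mem_coe.1 hz))) z hz
  rw [← hP]
  exact h3

theorem mem_uu {K : Type u} [LSet.Structure K] {q x y s u1 u2 : K} (h : IsOrdPair q x y)
    (hq : Mem q s) (h1 : ∀ z, Mem z u1 ↔ ∃ y, Mem y s ∧ Mem z y)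
    (h2 : ∀ z, Mem z u2 ↔ ∃ y, Mem y u1 ∧ Mem z y) : Mem y u2 := by
  obtain ⟨a, b, -, h4, h5⟩ := h
  exact (h2 y).2 ⟨b, (h1 b).2 ⟨q, hq, (h5 b).2 (Or.inr rfl)⟩, (h4 y).2 (Or.inr rfl)⟩

/-- A subset of `t` with fixed elements is fixed, if `f` is an injection of `t` to the ordinals. -/
theorem fx_inj (hN : ZF N) (hV : ZF V) (hT : IsTrans V) (hO : ∀ z : N, IsOrdinal z → Fx j z)
    {x t f : V} (hf : ∀ x, Mem x (t : N) → ∃ α, IsOrdinal α ∧ PMem x α (f : N))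
    (hf' : ∀ x y α, PMem x α (f : N) → PMem y α (f : N) → x = y)
    (hxt : ∀ z, Mem z (x : N) → Mem z (t : N)) (hx : ∀ z, Mem z (x : N) → Fx j z) : j x = x := by
  obtain ⟨u1, hu1⟩ := hV.union f
  obtain ⟨u2, hu2⟩ := hV.union u1
  have hU : Uf (ι := ULift.{u} (Fin 3)) (fun K _ v => IsOrdinal (v ⟨2⟩) ∧
      ∃ y, Mem y (v ⟨0⟩) ∧ PMem y (v ⟨2⟩) (v ⟨1⟩)) :=
    Uf.and (Uf.ord _) (Uf.ex (Uf.and (Uf.mem _ _) (Uf.pmem _ _ _)))
  have hD : (Set.univ : Set V).Definable₁ LSet {γ : V | IsOrdinal γ ∧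
      ∃ y, Mem y x ∧ PMem y γ f} := by
    obtain ⟨φ, hφ⟩ := hU
    refine Set.definable_iff_exists_formula_sum.2 ⟨φ.relabel (fun i =>
      (![Sum.inl (⟨x, trivial⟩ : (Set.univ : Set V)), Sum.inl (⟨f, trivial⟩ : (Set.univ : Set V)),
        Sum.inr (0 : Fin 1)] : Fin 3 → (Set.univ : Set V) ⊕ Fin 1) i.down), ?_⟩
    ext v
    change _ ↔ Formula.Realize _ _
    rw [Formula.realize_relabel, hφ]
    rfl
  obtain ⟨b, hb⟩ := hV.separation _ hD u2
  have hbj : j b = b := by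
    refine fx_ord hN hT hO fun z hz => ?_
    have h1 : z ∈ V := hT _ _ hz b.2
    exact (ord_coe hT (x := ⟨z, h1⟩)).1 ((hb ⟨z, h1⟩).1 (mem_coe.2 hz)).2.1
  have h1 : Uf (ι := ULift.{u} (Fin 3)) (fun K _ v => ∀ y, Mem y (v ⟨0⟩) →
      ∃ γ, Mem γ (v ⟨1⟩) ∧ PMem y γ (v ⟨2⟩)) :=
    Uf.all (Uf.imp (Uf.mem _ _) (Uf.ex (Uf.and (Uf.mem _ _) (Uf.pmem _ _ _))))
  have h2 := h1.transfer j (w3 x b f)
  rw [j_w3] at h2
  have h3 : Uf (ι := ULift.{u} (Fin 3)) (fun K _ v => ∀ x y α, PMem x α (v ⟨2⟩) →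
      PMem y α (v ⟨2⟩) → x = y) :=
    Uf.all (Uf.all (Uf.all (Uf.imp (Uf.pmem _ _ _) (Uf.imp (Uf.pmem _ _ _) (Uf.eq _ _)))))
  have h4 := h3.transfer j (w3 x b f)
  rw [j_w3] at h4
  have h5 := h4.1 fun x y α hx hy =>
    Subtype.ext (hf' x y α ((pmem_coe hT).1 hx) ((pmem_coe hT).1 hy))
  have h6 := h2.1 fun y hy => by
    obtain ⟨γ, h7, q, h8, h9⟩ := hf y (hxt y (mem_coe.1 hy))
    have h10 : q ∈ V := hT _ _ h9 f.2
    have h11 : γ ∈ V := by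
      obtain ⟨a, b, -, h4, h5⟩ := h8
      exact hT _ _ ((h4 γ).2 (Or.inr rfl)) (hT _ _ ((h5 b).2 (Or.inr rfl)) h10)
    have h12 : PMem y ⟨γ, h11⟩ f := (pmem_coe hT).2 ⟨q, h8, h9⟩
    refine ⟨⟨γ, h11⟩, (hb _).2 ⟨?_, (ord_coe hT).2 h7, y, hy, h12⟩, h12⟩
    obtain ⟨q', h13, h14⟩ := h12
    exact mem_uu h13 h14 hu1 hu2
  refine hN.ext _ _ fun z => ⟨fun h => ?_, fun h => ?_⟩
  · obtain ⟨γ, h7, h8⟩ := h6 z h
    change Mem γ (j b) at h7
    change PMem z γ (j f) at h8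
    rw [hbj] at h7
    have h9 : γ ∈ V := hT _ _ h7 b.2
    obtain ⟨h10, y, h11, h12⟩ := ((hb ⟨γ, h9⟩).1 (mem_coe.2 h7)).2
    have h13 : j y = y := by
      obtain ⟨y', h14, h15⟩ := hx y (mem_coe.1 h11)
      have h16 : y' = y := Subtype.ext h14
      rw [← h16] at h15 ⊢
      exact h15
    have h14 : j ⟨γ, h9⟩ = γ := by
      obtain ⟨y', h14, h15⟩ := hO γ ((ord_coe hT).1 h10)
      have h16 : y' = ⟨γ, h9⟩ := Subtype.ext h14
      rw [← h16]
      exact h15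
    have h15 : PMem (j y) (j ⟨γ, h9⟩) (j f) := by
      have h16 := (Uf.pmem (ι := ULift.{u} (Fin 3)) ⟨0⟩ ⟨1⟩ ⟨2⟩).transfer j (w3 y ⟨γ, h9⟩ f)
      rw [j_w3] at h16
      exact h16.1 h12
    rw [h14] at h15
    have h16 := h5 z (j y) γ h8 h15
    rw [h16, h13]
    exact mem_coe.1 h11
  · obtain ⟨y, h3, h4⟩ := hx z h
    rw [← h3] at h
    rwa [← h4, mem_j]

/-- Parameters with a well-orderable transitive closure are fixed. -/
theorem fx_herWO (hN : ZF N) (hV : ZF V) (hT : IsTrans V)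
    (hJ : ZFJ N (fun y z => ∃ x : V, (x : N) = y ∧ j x = z))
    (hO : ∀ z : N, IsOrdinal z → Fx j z) {p : N} (hp : HerWO V p) : Fx j p := by
  obtain ⟨hpV, t, f, ht, hf, htt, hpt, hf1, hf2⟩ := hp
  let _ := strJ (N := N) (fun y z => ∃ x : V, (x : N) = y ∧ j x = z)
  have hD : (Set.univ : Set N).Definable₁ LJ {z : N | ¬ Fx j z} := by
    refine Set.Definable.mono (Set.empty_definable_iff.2 ⟨(Relations.formula₂
      (SymJ.jj : LJ.Relations 2) (Term.var 0) (Term.var 0)).not, ?_⟩) (Set.empty_subset _)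
    ext v
    change _ ↔ Formula.Realize _ _
    rw [Formula.realize_not]
    have h0 : (Relations.formula₂ (SymJ.jj : LJ.Relations 2) (Term.var 0) (Term.var 0) :
        LJ.Formula (Fin 1)).Realize v ↔
        Structure.RelMap (L := LJ) (SymJ.jj : LJ.Relations 2) ![v 0, v 0] :=
      Formula.realize_rel₂
    exact not_congr (Iff.trans Iff.rfl h0.symm)
  obtain ⟨s, hs⟩ := hJ.separation _ hD t
  have h1 : ∀ z, Mem z t → Fx j z := by
    by_contra hcon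
    push Not at hcon
    obtain ⟨z, hz, hz'⟩ := hcon
    obtain ⟨y, hy, hy'⟩ := hN.foundation s ⟨z, (hs z).2 ⟨hz, hz'⟩⟩
    obtain ⟨h2, h3⟩ := (hs y).1 hy
    have h4 : y ∈ V := hT _ _ h2 ht
    refine h3 ⟨⟨y, h4⟩, rfl, ?_⟩
    refine fx_inj hN hV hT hO (x := ⟨y, h4⟩) (t := ⟨t, ht⟩) (f := ⟨f, hf⟩) hf1 hf2
      (fun z hz => htt y z h2 hz) fun z hz => ?_
    by_contra h5
    exact hy' z ((hs z).2 ⟨htt y z h2 hz, h5⟩) hz
  exact ⟨⟨p, hpV⟩, rfl, fx_inj hN hV hT hO (x := ⟨p, hpV⟩) (t := ⟨t, ht⟩) (f := ⟨f, hf⟩) hf1 hf2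
    hpt fun z hz => h1 z (hpt z hz)⟩

/-- The substructure is not definable with fixed parameters. -/
theorem not_definable (hN : ZF N) (hT : IsTrans V) {A : Set N} (hA : ∀ a ∈ A, Fx j a) {P : V}
    (hP : j P = P) (hP' : ∀ z, Mem z (P : N) → Fx j z) {g : N}
    (hg : ∀ z, Mem z g → Mem z (P : N)) (hgV : ¬ g ∈ V) : ¬ A.Definable₁ LSet {x | x ∈ V} := by
  intro hD
  obtain ⟨φ, hφ⟩ := Set.definable_iff_exists_formula_sum.1 hD
  have h1 : ∀ x : N, φ.Realize (Sum.elim (fun a : A => (a : N)) (fun _ : Fin 1 => x)) ↔ x ∈ V := by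
    intro x
    have h2 : (fun _ : Fin 1 => x) ∈ {x : Fin 1 → N | x 0 ∈ {x | x ∈ V}} ↔
      (fun _ : Fin 1 => x) ∈ {v : Fin 1 → N | φ.Realize (Sum.elim (fun a : A => (a : N)) v)} := by
      rw [hφ]
    exact h2.symm
  choose a ha ha' using hA
  have hU : Uf (ι := A ⊕ PUnit.{u + 1}) (fun K _ v => ∀ w, (∀ z, Mem z w → Mem z (v (Sum.inr ⟨⟩))) →
      φ.Realize (Sum.elim (fun a : A => v (Sum.inl a)) (fun _ : Fin 1 => w))) := by
    refine Uf.all (Uf.imp (Uf.all (Uf.imp (Uf.mem _ _) (Uf.mem _ _))) ?_)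
    refine ⟨φ.relabel (Sum.elim (fun a : A => Sum.inl (Sum.inl a)) (fun _ : Fin 1 => Sum.inr ⟨⟩)),
      fun K _ v => ?_⟩
    rw [Formula.realize_relabel]
    refine iff_of_eq (congrArg _ ?_)
    funext i
    rcases i with i | i <;> rfl
  have h2 := hU.transfer j (Sum.elim (fun x : A => a x.1 x.2) (fun _ => P))
  have h3 := h2.1 ?_ g ?_
  · have h4 : (Sum.elim (fun x : A => j (a x.1 x.2)) (fun _ : Fin 1 => g) : A ⊕ Fin 1 → N) =
        Sum.elim (fun a : A => (a : N)) (fun _ : Fin 1 => g) := by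
      funext i
      rcases i with i | i
      · exact ha' i.1 i.2
      · rfl
    refine hgV ((h1 g).1 ?_)
    rw [← h4]
    exact h3
  · intro w hw
    have h4 : j w = w := fx_sub hN hT hP hP' fun z hz => by
      have h5 : z ∈ V := hT _ _ hz w.2
      exact mem_coe.1 (hw ⟨z, h5⟩ (mem_coe.2 hz))
    rw [← j.map_formula]
    have h5 : (j ∘ Sum.elim (fun x : A => a x.1 x.2) (fun _ : Fin 1 => w) : A ⊕ Fin 1 → N) =
        Sum.elim (fun a : A => (a : N)) (fun _ : Fin 1 => (w : N)) := by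
      funext i
      rcases i with i | i
      · exact ha' i.1 i.2
      · exact h4
    exact (congrArg _ h5).mpr ((h1 w).2 w.2)
  · intro z hz
    change Mem z (j P)
    rw [hP]
    exact hg z hz

end

end Pool.Agent.H525Ground
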