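import Pool.Agent.H525R3.Lang

/-!
# Ground model definability: the parameters

`LSet` is the first order language of set theory, `Mem` is membership in a structure for it and
`ZF N` says that `N` is a model of ZF. For a substructure `V` of `N`, `IsTrans V` says that `V` is
transitive and `IsForcingExtension V` says that `N` is a set-generic extension of `V`; these are
from the imported file, as is `PMem x y s`, which says that the ordered pair of `x` and `y` is an
element of `s`.
-/

namespace Pool.Agent.H525Ground

open FirstOrder FirstOrder.Language
open Pool.Agent.Helper672.Plain (LSet Mem IsOrdPair)
open Pool.Agent.H525Emb (PMem)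

universe u

variable {N : Type u} [LSet.Structure N]

/-- The set `x` is transitive. -/
def Transitive (x : N) : Prop := ∀ y z, Mem y x → Mem z y → Mem z x

/-- The set `x` is an ordinal: a transitive set of transitive sets. -/
def IsOrdinal (x : N) : Prop := Transitive x ∧ ∀ y, Mem y x → Transitive y

/-- The parameter `p` is in `V`, and its transitive closure can be well-ordered in `V`: in `V`
there are a transitive set `t` that contains all elements of `p` and a relation `f` that assigns to
every element of `t` an ordinal, and does not assign the same ordinal to distinct sets. -/
def HerWO (V : LSet.Substructure N) (p : N) : Prop :=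
  p ∈ V ∧ ∃ t f : N, t ∈ V ∧ f ∈ V ∧ Transitive t ∧ (∀ x, Mem x p → Mem x t) ∧
    (∀ x, Mem x t → ∃ α, IsOrdinal α ∧ PMem x α f) ∧
    ∀ x y α, PMem x α f → PMem y α f → x = y

end Pool.Agent.H525Ground
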