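import Pool.Agent.H525R3.Main

/-!
# The ordinals of the extension are ordinals of the ground model
-/

namespace Pool.Agent.H525C

open FirstOrder FirstOrder.Language
open Pool.Agent.Helper672 Pool.Agent.Helper672.ZFA Pool.Agent.Helper672.ZFA.H635
open Pool.Agent.Helper672.Plain (LSet)
open Pool.Agent.H525Emb
open Pool.Agent.H635Amen (ZF)

universe u

set_option synthInstance.maxSize 2000
set_option linter.unusedSectionVars false

section

variable {M : Type u} [L.Structure M] [hM : IsModel M]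

/-- Ordinals: transitive sets of transitive sets. -/
def IsO (x : M) : Prop := H635.Trans x ∧ ∀ y, Mem y x → H635.Trans y

theorem IsO.mem {x y : M} (h : IsO x) (hy : Mem y x) : IsO y :=
  ⟨h.2 y hy, fun z hz => h.2 z (h.1 y z hy hz)⟩

theorem D.isO {ι : Type} {f : (ι → M) → M} (hf : DF f) : D (fun v => IsO (f v)) := by
  unfold IsO H635.Trans
  exact D.and (D.all (D.all (D.imp (D.memf (DF.var _) hf.lift.lift)
    (D.imp (D.memf (DF.var _) (DF.var _)) (D.memf (DF.var _) hf.lift.lift)))))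
    (D.all (D.imp (D.memf (DF.var _) hf.lift) (D.all (D.all (D.imp (D.memf (DF.var _) (DF.var _))
      (D.imp (D.memf (DF.var _) (DF.var _)) (D.memf (DF.var _) (DF.var _))))))))

theorem ord_comp (hS : ∀ x : M, IsSet x) (hR : ReplL M) (hF : FoundL M) (x y : M) :
    IsO x → IsO y → Mem x y ∨ x = y ∨ Mem y x := by
  refine mem_ind hS hR hF (S := fun x => ∀ y, IsO x → IsO y → Mem x y ∨ x = y ∨ Mem y x) ?_ ?_ x y
  · exact D.all (D.imp (D.isO (DF.var _)) (D.imp (D.isO (DF.var _)) (D.or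
      (D.memf (DF.var _) (DF.var _)) (D.or (D.eqf (DF.var _) (DF.var _))
        (D.memf (DF.var _) (DF.var _))))))
  · intro x ih y hx
    refine mem_ind hS hR hF (S := fun y => IsO y → Mem x y ∨ x = y ∨ Mem y x) ?_ ?_ y
    · exact D.imp (D.isO (DF.var _)) (D.or (D.memf (DF.const _) (DF.var _))
        (D.or (D.eqf (DF.const _) (DF.var _)) (D.memf (DF.var _) (DF.const _))))
    · intro y ih' hy
      by_cases h1 : ∃ y', Mem y' y ∧ (Mem x y' ∨ x = y')
      · obtain ⟨y', h2, h3 | rfl⟩ := h1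
        · exact Or.inl (hy.1 y' x h2 h3)
        · exact Or.inl h2
      · by_cases h2 : ∃ x', Mem x' x ∧ (x' = y ∨ Mem y x')
        · obtain ⟨x', h3, rfl | h4⟩ := h2
          · exact Or.inr (Or.inr h3)
          · exact Or.inr (Or.inr (hx.1 x' y h3 h4))
        · push Not at h1 h2
          refine Or.inr (Or.inl (ext_of_isSet hS fun z => ⟨fun hz => ?_, fun hz => ?_⟩))
          · rcases ih z hz y (hx.mem hz) hy with h | h | h
            · exact h
            · exact absurd h (h2 z hz).1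
            · exact absurd h (h2 z hz).2
          · rcases ih' z hz (hy.mem hz) with h | h | h
            · exact absurd h (h1 z hz).1
            · exact absurd h (h1 z hz).2
            · exact h

/-- Codes of names of elements of the ground model. -/
def CN (DP y : M) : Prop := (∀ z w, Mem z (Tn y) → Mem w z → Mem w (Tn y)) ∧ Mem (rn y) (Tn y) ∧
  ∀ a p b, Mem a (Tn y) → Mem p DP → Mem b (Tn y) → (Mem (op (op a p) b) (En y) ↔ Mem a b)

/-- The node and the condition coded by `c` make the node equal to `x`. -/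
def OR (le act one DP bb c x : M) : Prop := ∃ y a q, c = op a q ∧ CN DP y ∧ rn y = x ∧
  FEqM le act one bb a y (rn y) q ∧ Mem a (Tn bb) ∧ Mem q DP

theorem D.or₀ : D (fun v : Fin 7 → M => OR (v 0) (v 1) (v 2) (v 3) (v 4) (v 5) (v 6)) := by
  unfold OR CN Tn En rn
  (repeat' (first | with_reducible apply D.feqM | with_reducible exact DF.var _ | with_reducible exact DF.const _ | assumption | with_reducible apply D.and | with_reducible apply D.or | with_reducible apply D.not | with_reducible apply D.imp | with_reducible apply D.iff | with_reducible apply D.eqf | with_reducible apply D.memf | with_reducible apply D.all | with_reducible apply D.ex | with_reducible apply DF.op | with_reducible apply DF.up | with_reducible apply DF.fst | with_reducible apply DF.snd))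

theorem D.orr {ι : Type} (a0 a1 a2 a3 a4 : M) {c x : (ι → M) → M} (hc : DF c) (hx : DF x) :
    D (fun v => OR a0 a1 a2 a3 a4 (c v) (x v)) := by
  have h := D.subst (f := ![fun _ => a0, fun _ => a1, fun _ => a2, fun _ => a3, fun _ => a4, c, x])
    (D.or₀ (M := M)) (by
    intro k
    fin_cases k
    · exact DF.const _
    · exact DF.const _
    · exact DF.const _
    · exact DF.const _
    · exact DF.const _
    · exact hc
    · exact hx)
  exact h

end

section

variable {M : Type u} [L.Structure M] [hM : IsModel M] (hg : Gr M) (hC : CollL M)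
variable {P Γ : Type u} [ITy M P] [Preorder P] [ILE M P] [ITy M Γ] [Group Γ] [IMul M Γ]
  [IInv M Γ] [MulAction Γ P] [ISMul M Γ P]
variable {Λ : Type u} [ITy M Λ] {S : SymSys M P Γ Λ}
variable {G : Set P} (hG : IsGen M G)

theorem ed_of_CN {y : M} (h : CN (dom M P) y) : ed P y = chE P (Tn y) := by
  funext a p b
  exact propext (h.2.2 a.1 (code p) b.1 a.2 (code_mem_dom p) b.2)

include hC in
/-- The ordinals of the extension are ordinals of the ground model. -/
theorem exists_chk_of_ord {β : NN S hG} (h : IsO β) : ∃ x : M, β = chk hg hG x := by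
  by_contra hcon
  have hRN : ReplL (NN S hG) := fun F hD a h1 =>
    (nn_zf hG hC).replacement {p | F p.1 p.2} (definable_of_toL hD) a h1
  have hFN : FoundL (NN S hG) := (nn_zf hG hC).foundation
  have h1 : ∀ x : M, IsO x → Plain.Mem (chk hg hG x) β := by
    intro x hx
    have h2 : IsO (chk (S := S) hg hG x) := by
      refine ⟨fun z w hz hw => ?_, fun y hy z w hz hw => ?_⟩
      · obtain ⟨z', h3, rfl⟩ := (mem_chk hg hG).1 hz
        obtain ⟨w', h4, rfl⟩ := (mem_chk hg hG).1 hw
        exact (mem_chk_chk hg hG).2 (hx.1 _ _ h3 h4)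
      · obtain ⟨y', h3, rfl⟩ := (mem_chk hg hG).1 hy
        obtain ⟨z', h4, rfl⟩ := (mem_chk hg hG).1 hz
        obtain ⟨w', h5, rfl⟩ := (mem_chk hg hG).1 hw
        exact (mem_chk_chk hg hG).2 (hx.2 _ h3 _ _ h4 h5)
    rcases ord_comp (fun x => isSet_toL x) hRN hFN _ _ h2 h with h3 | h3 | h3
    · exact h3
    · exact absurd ⟨x, h3.symm⟩ hcon
    · obtain ⟨y, -, h4⟩ := (mem_chk hg hG).1 h3
      exact absurd ⟨y, h4⟩ hcon
  obtain ⟨b, rfl⟩ := exists_mk hG β
  rw [mk_eq_nd] at h1
  have h2 : ∀ c x x', OR (LEc M P) (ACTc M P Γ) (code (1 : Γ)) (dom M P) b.1 c x →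
      OR (LEc M P) (ACTc M P Γ) (code (1 : Γ)) (dom M P) b.1 c x' → x = x' := by
    rintro c x x' ⟨y, a, q, h3, h4, h5, h6, h7, h8⟩ ⟨y', a', q', h3', h4', h5', h6', h7', h8'⟩
    obtain ⟨h9, h10⟩ := op_inj (h3.symm.trans h3')
    subst h9 h10 h5 h5'
    obtain ⟨p, rfl⟩ := mem_dom.1 h8
    have h11 := (feqM_iff (g := (1 : Γ)) (a := (⟨a, h7⟩ : El (Tn b.1)))
      (b := (⟨rn y, h4.2.1⟩ : El (Tn y))) (p := p)).1 h6
    have h12 := (feqM_iff (g := (1 : Γ)) (a := (⟨a, h7⟩ : El (Tn b.1)))
      (b := (⟨rn y', h4'.2.1⟩ : El (Tn y'))) (p := p)).1 h6'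
    rw [tw_one, ed_of_CN h4] at h11
    rw [tw_one, ed_of_CN h4'] at h12
    have h13 := (h11.symm b.int (ig_chE _)).trans (ig_chE _) b.int (ig_chE _) h12
    exact eq_of_feq hg.set hg.found h4.1 h4'.1 h13
  obtain ⟨B, hB⟩ := hg.repl (fun c x =>
      OR (LEc M P) (ACTc M P Γ) (code (1 : Γ)) (dom M P) b.1 c x ∨
      ((¬ ∃ z, OR (LEc M P) (ACTc M P Γ) (code (1 : Γ)) (dom M P) b.1 c z) ∧ x = b.1))
    (D.or (D.orr _ _ _ _ _ (DF.var _) (DF.var _)) (D.and (D.not (D.ex
      (D.orr _ _ _ _ _ (DF.var _) (DF.var _)))) (D.eqf (DF.var _) (DF.const _))))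
    (dom M (El (Tn b.1) × P)) (by
      intro c _
      by_cases h3 : ∃ z, OR (LEc M P) (ACTc M P Γ) (code (1 : Γ)) (dom M P) b.1 c z
      · obtain ⟨z, hz⟩ := h3
        refine ⟨z, Or.inl hz, ?_⟩
        rintro z' (h4 | ⟨h4, -⟩)
        · exact h2 c _ _ h4 hz
        · exact absurd ⟨z, hz⟩ h4
      · refine ⟨b.1, Or.inr ⟨h3, rfl⟩, ?_⟩
        rintro z' (h4 | ⟨-, h4⟩)
        · exact absurd ⟨z', h4⟩ h3
        · exact h4)
  have h3 : ∀ x : M, IsO x → Mem x B := by
    intro x hx
    obtain ⟨a, s, -, -, h5⟩ := (mem_nd hG b.good).1 (h1 x hx)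
    obtain ⟨q, -, h6⟩ := (nd_eq hG _ _).1 h5.symm
    refine (hB x).2 ⟨op a.1 (code q), mem_dom.2 ⟨(a, q), rfl⟩, Or.inl ?_⟩
    have hT : Tn (op (tc hg x) (op (gr (ig_chE (P := P) (tc hg x))) x)) = tc hg x := by
      simp [Tn]
    have hE : En (op (tc hg x) (op (gr (ig_chE (P := P) (tc hg x))) x)) =
        gr (ig_chE (P := P) (tc hg x)) := by
      simp [En]
    have hr : rn (op (tc hg x) (op (gr (ig_chE (P := P) (tc hg x))) x)) = x := by
      simp [rn]
    generalize (op (tc hg x) (op (gr (ig_chE (P := P) (tc hg x))) x)) = y at hT hE hr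
    have h7 : CN (dom M P) y := by
      refine ⟨?_, ?_, ?_⟩
      · rw [hT]
        exact trans_tc hg x
      · rw [hT, hr]
        exact mem_tc hg x
      · intro a' p b' h7 h8 h9
        rw [hT] at h7 h9
        rw [hE]
        obtain ⟨p', rfl⟩ := mem_dom.1 h8
        exact code_mem_gr (ig_chE (P := P) (tc hg x)) (a := (((⟨a', h7⟩ : El (tc hg x)), p'),
          (⟨b', h9⟩ : El (tc hg x))))
    refine ⟨y, a.1, code q, rfl, h7, hr, ?_, a.2, code_mem_dom q⟩
    refine (feqM_iff (g := (1 : Γ)) (a := a) (b := (⟨rn y, h7.2.1⟩ : El (Tn y))) (p := q)).2 ?_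
    rw [tw_one, ed_of_CN h7]
    refine h6.trans b.int (ig_chE _) (ig_chE _) ?_
    exact feq_chE (trans_tc hg x) h7.1 q hr.symm
  have h4 := small_sep (S := {x : M | IsO x}) (D.isO (DF.var _)) B
  have h5 : IsO h4.elt := by
    refine ⟨fun z w hz hw => ?_, fun y hy => ?_⟩
    · have h6 : IsO w := (h4.mem.1 hz).2.mem hw
      exact h4.mem.2 ⟨h3 w h6, h6⟩
    · exact (h4.mem.1 hy).2.1
  have h6 : Mem h4.elt h4.elt := h4.mem.2 ⟨h3 _ h5, h5⟩
  obtain ⟨y, h7, h8⟩ := hg.found (up h4.elt h4.elt) ⟨_, mem_up.2 (Or.inl rfl)⟩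
  have h9 : y = h4.elt := (mem_up.1 h7).elim id id
  subst h9
  exact h8 _ (mem_up.2 (Or.inl rfl)) h6

end

end Pool.Agent.H525C
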