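import Pool.Agent.H525R3.GAbs
import Pool.Agent.H525R3.GOrd
import Pool.Agent.H525R3.FixJ

/-!
# Ground model definability: the example
-/

namespace Pool.Agent.H525Ground

open FirstOrder FirstOrder.Language
open Pool.Agent.Helper672 Pool.Agent.Helper672.ZFA Pool.Agent.Helper672.ZFA.H635
open Pool.Agent.Helper672.Plain (LSet)
open Pool.Agent.H525Emb Pool.Agent.H525C
open Pool.Agent.H635Amen (ZF)

universe u

set_option synthInstance.maxSize 2000
set_option linter.unusedSectionVars false

section

variable {M : Type u} [L.Structure M] [hM : IsModel M] (hg : Gr M)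
variable {G : Set (PC M)} (hG : IsGen M G)

theorem fx_chk (x : M) : Fx (jV hG) (chk hg hG x) :=
  ⟨eV hG (chk hg (isGen_GV hG) x), emV_chk hg hG x, (jV_apply hG _).trans (jF_chk hg hG x)⟩

end

/-- The example, for countable models of Collection. -/
theorem ground_coll (M : Type u) [L.Structure M] [IsModel M] [Countable M] (hC : CollL M)
    (hg : Gr M) : ∃ (N : Type u) (_ : LSet.Structure N) (V : LSet.Substructure N),
      ZF N ∧ ZF V ∧ IsTrans V ∧ V ≠ ⊤ ∧ IsForcingExtension V ∧
      ¬ {p : N | HerWO V p}.Definable₁ LSet {x : N | x ∈ V} := by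
  obtain ⟨G, hG⟩ := exists_gen (M := M) (top1 : PC M)
  have hN : ZF (NN (SC M) hG) := nn_zf hG hC
  have hV : ZF (subV hG) := zf_of_equiv (eV hG) (nn_zf (isGen_GV hG) hC)
  have hT : IsTrans (subV hG) := isTrans_subV hG
  refine ⟨NN (SC M) hG, inferInstance, subV hG, hN, hV, hT, ?_, isForcingExtension hg hG, ?_⟩
  · intro h
    refine not_mem_subV hg hG ?_
    rw [h]
    exact Substructure.mem_top _
  · have h1 := nn_zfj hG (JC M) hC
    have h2 : (JC M).holds hG = fun y z => ∃ x : subV hG, (x : NN (SC M) hG) = y ∧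
        jV hG x = z := by
      funext y z
      exact propext (graph_jV hG y z).symm
    rw [h2] at h1
    have hO : ∀ z : NN (SC M) hG, IsOrdinal z → Fx (jV hG) z := by
      intro z hz
      obtain ⟨x, rfl⟩ := exists_chk_of_ord hg hC hG hz
      exact fx_chk hg hG x
    obtain ⟨P, hP1, hP2⟩ := fx_chk hg hG (dom M (C0 M))
    refine not_definable (P := P) (g := GN hg hG) hN hT
      (fun p hp => fx_herWO hN hV hT h1 hO hp) ?_ ?_ ?_ (not_mem_subV hg hG)
    · rw [hP2, hP1]
    · intro z hz
      rw [hP1] at hz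
      obtain ⟨x, -, rfl⟩ := (mem_chk hg hG).1 hz
      exact fx_chk hg hG x
    · intro z hz
      obtain ⟨c, -, rfl⟩ := (mem_GN hg hG).1 hz
      rw [hP1]
      exact (mem_PN hg hG).2 ⟨c, rfl⟩

section

attribute [local instance] toL

/-- The example, for countable models of ZF. -/
theorem ground_countable (M : Type u) [LSet.Structure M] [Countable M] (h : ZF M) :
    ∃ (N : Type u) (_ : LSet.Structure N) (V : LSet.Substructure N),
      ZF N ∧ ZF V ∧ IsTrans V ∧ V ≠ ⊤ ∧ IsForcingExtension V ∧
      ¬ {p : N | HerWO V p}.Definable₁ LSet {x : N | x ∈ V} := by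
  have hM : IsModel M := isModel_of_zermelo h.toZermelo
  exact ground_coll M (coll_of_zf h) ⟨fun _ => trivial,
    fun F hD a h1 => h.replacement {p | F p.1 p.2} (definable_of_toL hD) a h1, h.foundation⟩

/-- The example. -/
theorem ground (M : Type u) [LSet.Structure M] (h : ZF M) :
    ∃ (N : Type u) (_ : LSet.Structure N) (V : LSet.Substructure N),
      ZF N ∧ ZF V ∧ IsTrans V ∧ V ≠ ⊤ ∧ IsForcingExtension V ∧
      ¬ {p : N | HerWO V p}.Definable₁ LSet {x : N | x ∈ V} := by
  obtain ⟨M₀, _, h₀⟩ := exists_countable_sub M h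
  exact ground_countable M₀ h₀

end

end Pool.Agent.H525Ground
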