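import Pool.Agent.H525R3.Hom
import Pool.Agent.H635R2.Ext

/-!
# Ground model sets in the extension
-/

namespace Pool.Agent.H525C

open FirstOrder FirstOrder.Language
open Pool.Agent.Helper672 Pool.Agent.Helper672.ZFA Pool.Agent.Helper672.ZFA.H635
open Pool.Agent.Helper672.Plain (LSet)
open Pool.Agent.H525Emb

universe u

set_option synthInstance.maxSize 2000
set_option linter.unusedSectionVars false

/-- The hypotheses on the ground model. -/
structure Gr (M : Type u) [L.Structure M] [IsModel M] : Prop where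
  set : ∀ x : M, IsSet x
  repl : ReplL M
  found : FoundL M

section

variable {M : Type u} [L.Structure M] [hM : IsModel M] (hg : Gr M)

include hg in
theorem exists_tc (x : M) : ∃ t, Trans t ∧ Mem x t := by
  obtain ⟨t, h1, h2⟩ := exists_trans hg.set hg.repl (up x x)
  exact ⟨t, h2, h1 x (mem_up.2 (Or.inl rfl))⟩

/-- A transitive set that contains `x`. -/
noncomputable def tc (x : M) : M := (exists_tc hg x).choose

theorem trans_tc (x : M) : Trans (tc hg x) := (exists_tc hg x).choose_spec.1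

theorem mem_tc (x : M) : Mem x (tc hg x) := (exists_tc hg x).choose_spec.2

variable {P Γ : Type u} [ITy M P] [Preorder P] [ILE M P] [ITy M Γ] [Group Γ] [IMul M Γ]
  [IInv M Γ] [MulAction Γ P] [ISMul M Γ P]
variable {Λ : Type u} [ITy M Λ] {S : SymSys M P Γ Λ}
variable {G : Set P} (hG : IsGen M G)

/-- The element `x` of the ground model in the extension. -/
noncomputable def chk (x : M) : NN S hG :=
  nd hG (good_chE hg.found (tc hg x)) (toEl (mem_tc hg x))

theorem chk_eq {x t : M} (ht : Trans t) (hx : Mem x t) :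
    chk hg hG x = nd (S := S) hG (good_chE hg.found t) (toEl hx) :=
  nd_eq_of hG _ _ fun p => feq_chE (trans_tc hg x) ht p rfl

theorem chk_inj {x y : M} : chk (S := S) hg hG x = chk hg hG y ↔ x = y := by
  refine ⟨fun h => ?_, fun h => h ▸ rfl⟩
  obtain ⟨p, -, h3⟩ := (nd_eq hG _ _).1 h
  exact eq_of_feq hg.set hg.found (trans_tc hg x) (trans_tc hg y) h3

theorem mem_chk {y : M} {w : NN S hG} : Plain.Mem w (chk hg hG y) ↔
    ∃ x, Mem x y ∧ w = chk hg hG x := by
  unfold chk
  rw [mem_nd]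
  constructor
  · rintro ⟨a, s, -, h2, rfl⟩
    exact ⟨a.1, h2, (chk_eq hg hG (trans_tc hg y) a.2).symm⟩
  · rintro ⟨x, h2, rfl⟩
    obtain ⟨s, hs⟩ := hG.ne
    exact ⟨toEl (trans_tc hg y _ _ (mem_tc hg y) h2), s, hs, h2,
      chk_eq hg hG (trans_tc hg y) _⟩

theorem mem_chk_chk {x y : M} : Plain.Mem (chk (S := S) hg hG x) (chk hg hG y) ↔ Mem x y := by
  rw [mem_chk]
  constructor
  · rintro ⟨z, h1, h2⟩
    rwa [(chk_inj hg hG).1 h2]
  · exact fun h => ⟨x, h, rfl⟩

theorem isPair_chk {p x y : M} : Plain.IsPair (chk (S := S) hg hG p) (chk hg hG x) (chk hg hG y) ↔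
    p = up x y := by
  constructor
  · intro h
    refine eq_up.2 ⟨hg.set _, fun z => ?_⟩
    rw [← mem_chk_chk (S := S) hg hG, h, chk_inj, chk_inj]
  · rintro rfl w
    rw [mem_chk]
    constructor
    · rintro ⟨z, h1, rfl⟩
      rwa [chk_inj, chk_inj, ← mem_up]
    · rintro (rfl | rfl)
      · exact ⟨x, mem_up.2 (Or.inl rfl), rfl⟩
      · exact ⟨y, mem_up.2 (Or.inr rfl), rfl⟩

theorem isOrdPair_chk (x y : M) :
    Plain.IsOrdPair (chk (S := S) hg hG (op x y)) (chk hg hG x) (chk hg hG y) :=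
  ⟨chk hg hG (up x x), chk hg hG (up x y), (isPair_chk hg hG).2 rfl, (isPair_chk hg hG).2 rfl,
    (isPair_chk hg hG).2 rfl⟩

end

end Pool.Agent.H525C
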