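import Pool.Agent.H525R3.JRel

/-!
# Homogeneity and elementarity
-/

namespace Pool.Agent.H525C

open FirstOrder FirstOrder.Language
open Pool.Agent.Helper672 Pool.Agent.Helper672.ZFA Pool.Agent.Helper672.ZFA.H635
open Pool.Agent.Helper672.Plain (LSet)
open Pool.Agent.H525Emb

universe u

set_option synthInstance.maxSize 2000
set_option linter.unusedSectionVars false

section

variable {M : Type u} [L.Structure M] [hM : IsModel M]

open Classical in
/-- Transposition. -/
noncomputable def trf (a b i : INat M) : INat M := if i = a then b else if i = b then a else i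

theorem trf_left (a b : INat M) : trf a b a = b := if_pos rfl

theorem trf_right (a b : INat M) : trf a b b = a := by
  unfold trf
  by_cases h : b = a
  · rw [if_pos h, h]
  · rw [if_neg h, if_pos rfl]

theorem trf_ne {a b i : INat M} (h : i ≠ a) (h' : i ≠ b) : trf a b i = i := by
  unfold trf
  rw [if_neg h, if_neg h']

theorem trf_trf (a b i : INat M) : trf a b (trf a b i) = i := by
  by_cases h : i = a
  · rw [h, trf_left, trf_right]
  · by_cases h' : i = b
    · rw [h', trf_right, trf_left]
    · rw [trf_ne h h', trf_ne h h']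

theorem int_trf (a b : INat M) : IntF M (trf a b) := by
  refine IntF.of_rel (r := fun i j => (i = a ∧ j = b) ∨ (¬ i = a ∧ i = b ∧ j = a) ∨
    (¬ i = a ∧ ¬ i = b ∧ j = i)) (by (repeat' (first | with_reducible exact IntF.id | with_reducible exact IntF.fst' | with_reducible exact IntF.snd' | with_reducible exact IntF.const _ | with_reducible exact Int.const _ | assumption | with_reducible apply ZFA.Int.and | with_reducible apply ZFA.Int.or | with_reducible apply ZFA.Int.not | with_reducible apply Int.imp | with_reducible apply Int.iff | with_reducible apply Int.ne | with_reducible apply Int.eq | with_reducible apply Int.mem | with_reducible apply Int.subset | with_reducible apply Int.ltN | with_reducible apply Int.leN | with_reducible_and_instances apply ZFA.Int.le | with_reducible_and_instances apply ZFA.Int.lt | with_reducible apply Int.all | with_reducible apply Int.ex | with_reducible apply IntF.fst | with_reducible apply IntF.snd | with_reducible apply IntF.app | with_reducible apply IntF.inl | with_reducible apply IntF.inr | with_reducible_and_instances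 apply IntF.mul | with_reducible_and_instances apply IntF.inv | with_reducible_and_instances apply IntF.add | with_reducible_and_instances apply IntF.sub | with_reducible_and_instances apply IntF.neg | with_reducible_and_instances apply IntF.smul | with_reducible apply IntF.succ | (with_reducible refine Int.comp ?_ ?_; assumption) | (with_reducible refine Int.comp₂ ?_ ?_ ?_; assumption) | (with_reducible refine Int.comp₃ ?_ ?_ ?_ ?_; assumption) | (with_reducible refine Int.comp₄ ?_ ?_ ?_ ?_ ?_; assumption) | (with_reducible refine IntF.comp ?_ ?_; assumption) | (with_reducible refine IntF.comp₂ ?_ ?_ ?_; assumption) | (with_reducible refine IntF.comp₃ ?_ ?_ ?_ ?_; assumption) | with_reducible apply IntF.val | with_reducible apply IntF.pair))) fun i j => ?_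
  by_cases h : i = a
  · subst h
    rw [trf_left]
    constructor
    · rintro (h1 | h1 | h1)
      · exact h1.2.symm
      · exact absurd rfl h1.1
      · exact absurd rfl h1.1
    · exact fun h1 => Or.inl ⟨rfl, h1.symm⟩
  · by_cases h' : i = b
    · subst h'
      rw [trf_right]
      constructor
      · rintro (h1 | h1 | h1)
        · exact absurd h1.1 h
        · exact h1.2.2.symm
        · exact absurd rfl h1.2.1
      · exact fun h1 => Or.inr (Or.inl ⟨h, rfl, h1.symm⟩)
    · rw [trf_ne h h']
      constructor
      · rintro (h1 | h1 | h1)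
        · exact absurd h1.1 h
        · exact absurd h1.2.1 h'
        · exact h1.2.2.symm
      · exact fun h1 => Or.inr (Or.inr ⟨h, h', h1.symm⟩)

/-- A transposition. -/
noncomputable def tr (a b : INat M) : GC M := IPerm.ofInv (trf a b) (int_trf a b) (trf_trf a b)

theorem pa_tr (a b i : INat M) : pa (tr a b) i = trf a b i := rfl

/-- There are permutations that move a block away. -/
theorem exists_move (n L k : INat M) :
    ∃ π : GC M, (∀ i, i < n → pa π i = i) ∧ ∀ i, n ≤ i → i < k → L ≤ pa π i := by
  have hI : IntF M (fun q : GC M × INat M => pa q.1 q.2) := int_pa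
  refine INat.ind (p := fun k => ∃ π : GC M, (∀ i, i < n → pa π i = i) ∧
    ∀ i, n ≤ i → i < k → L ≤ pa π i) (by (repeat' (first | with_reducible exact IntF.id | with_reducible exact IntF.fst' | with_reducible exact IntF.snd' | with_reducible exact IntF.const _ | with_reducible exact Int.const _ | assumption | with_reducible apply ZFA.Int.and | with_reducible apply ZFA.Int.or | with_reducible apply ZFA.Int.not | with_reducible apply Int.imp | with_reducible apply Int.iff | with_reducible apply Int.ne | with_reducible apply Int.eq | with_reducible apply Int.mem | with_reducible apply Int.subset | with_reducible apply Int.ltN | with_reducible apply Int.leN | with_reducible_and_instances apply ZFA.Int.le | with_reducible_and_instances apply ZFA.Int.lt | with_reducible apply Int.all | with_reducible apply Int.ex | with_reducible apply IntF.fst | with_reducible apply IntF.snd | with_reducible apply IntF.app | with_reducible apply IntF.inl | with_reducible apply IntF.inr | with_reducible_and_instances apply IntF.mul | with_reducible_and_instances apply IntF.inv | with_reducible_and_instances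 apply IntF.add | with_reducible_and_instances apply IntF.sub | with_reducible_and_instances apply IntF.neg | with_reducible_and_instances apply IntF.smul | with_reducible apply IntF.succ | (with_reducible refine Int.comp ?_ ?_; assumption) | (with_reducible refine Int.comp₂ ?_ ?_ ?_; assumption) | (with_reducible refine Int.comp₃ ?_ ?_ ?_ ?_; assumption) | (with_reducible refine Int.comp₄ ?_ ?_ ?_ ?_ ?_; assumption) | (with_reducible refine IntF.comp ?_ ?_; assumption) | (with_reducible refine IntF.comp₂ ?_ ?_ ?_; assumption) | (with_reducible refine IntF.comp₃ ?_ ?_ ?_ ?_; assumption) | with_reducible apply IntF.val | with_reducible apply IntF.pair))) ?_ ?_ k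
  · exact ⟨1, fun i _ => pa_one i, fun i _ hi => absurd hi INat.not_lt_zero⟩
  · rintro k ⟨π, h1, h2⟩
    by_cases hk : L ≤ pa π k ∨ k < n
    · refine ⟨π, h1, fun i hi hik => ?_⟩
      rcases INat.lt_succ_iff'.1 hik with h3 | rfl
      · exact h2 i hi h3
      · rcases hk with hk | hk
        · exact hk
        · exact absurd hi hk.not_ge
    · push Not at hk
      obtain ⟨hk1, hk2⟩ := hk
      obtain ⟨m, hm⟩ := bound_img π k.succ
      have hm' : ∀ i, i < k.succ → pa π i ≠ max m L := fun i hi h =>
        absurd (hm i hi) (h ▸ (le_max_left m L)).not_gt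
      refine ⟨tr (pa π k) (max m L) * π, fun i hi => ?_, fun i hi hik => ?_⟩
      · rw [pa_mul, pa_tr, trf_ne, h1 i hi]
        · exact fun h => absurd (pa_inj π h) (lt_of_lt_of_le hi hk2).ne
        · exact hm' i (lt_of_lt_of_le hi (hk2.trans (INat.le_succ_self _)))
      · rw [pa_mul, pa_tr]
        rcases INat.lt_succ_iff'.1 hik with h3 | rfl
        · rw [trf_ne]
          · exact h2 i hi h3
          · exact fun h => absurd (pa_inj π h) h3.ne
          · exact hm' i hik
        · rw [trf_left]
          exact le_max_right _ _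

theorem exists_union {p q : PC M} (h1 : ∀ c, c ∈ p.1.1 → ¬ c ∈ q.1.2)
    (h2 : ∀ c, c ∈ p.1.2 → ¬ c ∈ q.1.1) : ∃ r, r ≤ p ∧ r ≤ q := by
  refine ⟨mkC (fun c => c ∈ p.1.1 ∨ c ∈ q.1.1) (fun c => c ∈ p.1.2 ∨ c ∈ q.1.2) (by (repeat' (first | with_reducible exact IntF.id | with_reducible exact IntF.fst' | with_reducible exact IntF.snd' | with_reducible exact IntF.const _ | with_reducible exact Int.const _ | assumption | with_reducible apply ZFA.Int.and | with_reducible apply ZFA.Int.or | with_reducible apply ZFA.Int.not | with_reducible apply Int.imp | with_reducible apply Int.iff | with_reducible apply Int.ne | with_reducible apply Int.eq | with_reducible apply Int.mem | with_reducible apply Int.subset | with_reducible apply Int.ltN | with_reducible apply Int.leN | with_reducible_and_instances apply ZFA.Int.le | with_reducible_and_instances apply ZFA.Int.lt | with_reducible apply Int.all | with_reducible apply Int.ex | with_reducible apply IntF.fst | with_reducible apply IntF.snd | with_reducible apply IntF.app | with_reducible apply IntF.inl | with_reducible apply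 IntF.inr | with_reducible_and_instances apply IntF.mul | with_reducible_and_instances apply IntF.inv | with_reducible_and_instances apply IntF.add | with_reducible_and_instances apply IntF.sub | with_reducible_and_instances apply IntF.neg | with_reducible_and_instances apply IntF.smul | with_reducible apply IntF.succ | (with_reducible refine Int.comp ?_ ?_; assumption) | (with_reducible refine Int.comp₂ ?_ ?_ ?_; assumption) | (with_reducible refine Int.comp₃ ?_ ?_ ?_ ?_; assumption) | (with_reducible refine Int.comp₄ ?_ ?_ ?_ ?_ ?_; assumption) | (with_reducible refine IntF.comp ?_ ?_; assumption) | (with_reducible refine IntF.comp₂ ?_ ?_ ?_; assumption) | (with_reducible refine IntF.comp₃ ?_ ?_ ?_ ?_; assumption) | with_reducible apply IntF.val | with_reducible apply IntF.pair)))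
    (by (repeat' (first | with_reducible exact IntF.id | with_reducible exact IntF.fst' | with_reducible exact IntF.snd' | with_reducible exact IntF.const _ | with_reducible exact Int.const _ | assumption | with_reducible apply ZFA.Int.and | with_reducible apply ZFA.Int.or | with_reducible apply ZFA.Int.not | with_reducible apply Int.imp | with_reducible apply Int.iff | with_reducible apply Int.ne | with_reducible apply Int.eq | with_reducible apply Int.mem | with_reducible apply Int.subset | with_reducible apply Int.ltN | with_reducible apply Int.leN | with_reducible_and_instances apply ZFA.Int.le | with_reducible_and_instances apply ZFA.Int.lt | with_reducible apply Int.all | with_reducible apply Int.ex | with_reducible apply IntF.fst | with_reducible apply IntF.snd | with_reducible apply IntF.app | with_reducible apply IntF.inl | with_reducible apply IntF.inr | with_reducible_and_instances apply IntF.mul | with_reducible_and_instances apply IntF.inv | with_reducible_and_instances apply IntF.add | with_reducible_and_instances apply IntF.sub | with_reducible_and_instances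 apply IntF.neg | with_reducible_and_instances apply IntF.smul | with_reducible apply IntF.succ | (with_reducible refine Int.comp ?_ ?_; assumption) | (with_reducible refine Int.comp₂ ?_ ?_ ?_; assumption) | (with_reducible refine Int.comp₃ ?_ ?_ ?_ ?_; assumption) | (with_reducible refine Int.comp₄ ?_ ?_ ?_ ?_ ?_; assumption) | (with_reducible refine IntF.comp ?_ ?_; assumption) | (with_reducible refine IntF.comp₂ ?_ ?_ ?_; assumption) | (with_reducible refine IntF.comp₃ ?_ ?_ ?_ ?_; assumption) | with_reducible apply IntF.val | with_reducible apply IntF.pair))) ?_ ?_, ?_, ?_⟩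
  · rintro c (h | h) (h' | h')
    · exact p.2.1 c h h'
    · exact h1 c h h'
    · exact h2 c h' h
    · exact q.2.1 c h h'
  · obtain ⟨n, hn⟩ := p.2.2
    obtain ⟨m, hm⟩ := q.2.2
    refine ⟨max n m, fun c hc => ?_⟩
    have h3 : (c ∈ p.1.1 ∨ c ∈ p.1.2) ∨ (c ∈ q.1.1 ∨ c ∈ q.1.2) := by
      rcases hc with (h | h) | (h | h)
      · exact Or.inl (Or.inl h)
      · exact Or.inr (Or.inl h)
      · exact Or.inl (Or.inr h)
      · exact Or.inr (Or.inr h)
    rcases h3 with h | h
    · obtain ⟨h4, h5⟩ := hn c h
      exact ⟨lt_of_lt_of_le h4 (le_max_left _ _), lt_of_lt_of_le h5 (le_max_left _ _)⟩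
    · obtain ⟨h4, h5⟩ := hm c h
      exact ⟨lt_of_lt_of_le h4 (le_max_right _ _), lt_of_lt_of_le h5 (le_max_right _ _)⟩
  · exact fun c => ⟨fun h => mem_mkC_fst.2 (Or.inl h), fun h => mem_mkC_snd.2 (Or.inl h)⟩
  · exact fun c => ⟨fun h => mem_mkC_fst.2 (Or.inr h), fun h => mem_mkC_snd.2 (Or.inr h)⟩

theorem exists_compat {n : INat M} {p q : PC M} (hq : q ≤ rs n p) :
    ∃ π : GC M, (SC M).U n π ∧ ∃ r, r ≤ π • p ∧ r ≤ q := by
  obtain ⟨k, hk⟩ := p.2.2
  obtain ⟨l, hl⟩ := q.2.2
  obtain ⟨π, h1, h2⟩ := exists_move n l k
  refine ⟨π, h1, exists_union ?_ ?_⟩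
  · rintro ⟨c, d⟩ hc hc'
    rw [mem_smul1] at hc
    have h3 := (hk _ (Or.inl hc)).1
    rcases lt_or_ge (pi' π c) n with h4 | h4
    · have h5 := (hq _).1 (mem_rs1.2 ⟨h4, hc⟩)
      have h6 := h1 _ h4
      rw [pa_pi'] at h6
      simp only at h5
      rw [← h6] at h5
      exact q.2.1 _ h5 hc'
    · have h5 := h2 _ h4 h3
      rw [pa_pi'] at h5
      exact absurd (hl _ (Or.inr hc')).1 h5.not_gt
  · rintro ⟨c, d⟩ hc hc'
    rw [mem_smul2] at hc
    have h3 := (hk _ (Or.inr hc)).1
    rcases lt_or_ge (pi' π c) n with h4 | h4
    · have h5 := (hq _).2 (mem_rs2.2 ⟨h4, hc⟩)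
      have h6 := h1 _ h4
      rw [pa_pi'] at h6
      simp only at h5
      rw [← h6] at h5
      exact q.2.1 _ hc' h5
    · have h5 := h2 _ h4 h3
      rw [pa_pi'] at h5
      exact absurd (hl _ (Or.inl hc')).1 h5.not_gt

/-- The forcing relation for names with support `n` only depends on the columns below `n`. -/
theorem force_rs {ι : Type} {m : ℕ} {φ : LSet.BoundedFormula ι m} {v : ι → Nm (SC M)}
    {xs : Fin m → Nm (SC M)} {n : INat M} {p : PC M} (hv : ∀ i, SyN n (v i))
    (hx : ∀ i, SyN n (xs i)) (h : Force φ v xs p) : Force φ v xs (rs n p) := by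
  refine Force.of_dense fun q hq => ?_
  obtain ⟨π, hπ, r, h1, h2⟩ := exists_compat hq
  refine ⟨r, h2, ?_⟩
  have h3 := ((Force.act_iff π).2 h).mono h1
  exact (Force.congr_aux (fun i => (hv i).act hπ r) (fun i => (hx i).act hπ r)).1 h3

variable {G : Set (PC M)} (hG : IsGen M G)

theorem elem_aux {ι : Type} {m : ℕ} (φ : LSet.BoundedFormula ι m) (v : ι → Nm (SC M))
    (xs : Fin m → Nm (SC M)) {n : INat M} (hv : ∀ i, SyN n (v i)) (hx : ∀ i, SyN n (xs i)) :
    φ.Realize (fun i => NN.mk (isGen_GV hG) (v i)) (fun i => NN.mk (isGen_GV hG) (xs i)) ↔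
      φ.Realize (fun i => NN.mk hG (actN (cyc n) (v i)))
        (fun i => NN.mk hG (actN (cyc n) (xs i))) := by
  rw [truth, truth]
  constructor
  · rintro ⟨p, hp, h⟩
    have h1 := (Force.act_iff (cyc n)).2 (force_rs hv hx h)
    rw [cyc_smul_rs] at h1
    exact ⟨_, (isGen_GV hG).up _ _ hp (le_rs n p), h1⟩
  · rintro ⟨s, hs, h⟩
    have h1 : Force φ v xs ((cyc n)⁻¹ • s) := by
      rw [← Force.act_iff (cyc n), smul_inv_smul]
      exact h
    have h2 := force_rs hv hx h1
    rw [rs_cyc_inv] at h2
    exact ⟨_, (isGen_GV hG).up _ _ (mem_GV_of hG hs) (le_rs n _), h2⟩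

theorem mk_congr {x y : Nm (SC M)} (h : ∀ p, FEqN p x y) : NN.mk hG x = NN.mk hG y := by
  obtain ⟨p, hp⟩ := hG.ne
  exact (mk_eq hG).2 ⟨p, hp, h p⟩

theorem mk_cyc {x : Nm (SC M)} {n m : INat M} (h : SyN n x) (hn : n ≤ m) :
    NN.mk hG (actN (cyc m) x) = NN.mk hG (actN (cyc n) x) :=
  mk_congr hG fun p => h.indep (cyc_U hn le_rfl) p

theorem mk_eq_iff {x y : Nm (SC M)} {n : INat M} (hx : SyN n x) (hy : SyN n y) :
    NN.mk (isGen_GV hG) x = NN.mk (isGen_GV hG) y ↔
      NN.mk hG (actN (cyc n) x) = NN.mk hG (actN (cyc n) y) := by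
  have h := elem_aux hG (ι := Fin 2) (m := 0) (BoundedFormula.equal (Term.var (Sum.inl 0))
    (Term.var (Sum.inl 1))) ![x, y] Fin.elim0 (n := n) (by
      intro i
      fin_cases i
      · exact hx
      · exact hy) (fun i => i.elim0)
  exact h

/-- The embedding. -/
noncomputable def jF (x : NN (SC M) (isGen_GV hG)) : NN (SC M) hG :=
  NN.mk hG (actN (cyc (exists_syN (exists_mk _ x).choose).choose) (exists_mk _ x).choose)

theorem jF_mk {x : Nm (SC M)} {n : INat M} (h : SyN n x) :
    jF hG (NN.mk (isGen_GV hG) x) = NN.mk hG (actN (cyc n) x) := by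
  have h1 := (exists_mk _ (NN.mk (isGen_GV hG) x)).choose_spec
  have h2 := (exists_syN (exists_mk _ (NN.mk (isGen_GV hG) x)).choose).choose_spec
  unfold jF
  generalize (exists_syN (exists_mk _ (NN.mk (isGen_GV hG) x)).choose).choose = m at h2 ⊢
  generalize (exists_mk _ (NN.mk (isGen_GV hG) x)).choose = y at h1 h2 ⊢
  rw [← mk_cyc hG h2 (le_max_left m n), ← mk_cyc hG h (le_max_right m n)]
  exact (mk_eq_iff hG (h2.mono (le_max_left m n)) (h.mono (le_max_right m n))).1 h1

theorem exists_common' {k : ℕ} (v : Fin k → Nm (SC M)) : ∃ n, ∀ i, SyN n (v i) := by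
  obtain ⟨n, hn⟩ := exists_common v
  exact ⟨n, fun i => syN_of (hn i)⟩

/-- The embedding is elementary. -/
noncomputable def jE : NN (SC M) (isGen_GV hG) ↪ₑ[LSet] NN (SC M) hG where
  toFun := jF hG
  map_formula' {k} φ x := by
    choose v hv using fun i => exists_mk (isGen_GV hG) (x i)
    obtain ⟨n, hn⟩ := exists_common' v
    have h1 := elem_aux hG φ v (Fin.elim0 : Fin 0 → Nm (SC M)) hn fun i => i.elim0
    have h2 : (jF hG ∘ x : Fin k → NN (SC M) hG) = fun i => NN.mk hG (actN (cyc n) (v i)) := by
      funext i
      rw [Function.comp_apply, ← hv, jF_mk hG (hn i)]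
    have h3 : x = fun i => NN.mk (isGen_GV hG) (v i) := funext fun i => (hv i).symm
    rw [h2, h3]
    unfold Formula.Realize
    rw [Unique.eq_default (fun i => NN.mk (isGen_GV hG) ((Fin.elim0 : Fin 0 → Nm (SC M)) i)),
      Unique.eq_default (fun i => NN.mk hG (actN (cyc n) ((Fin.elim0 : Fin 0 → Nm (SC M)) i)))] at h1
    exact h1.symm

/-- The class `J` is the graph of the embedding. -/
theorem holds_iff {y z : NN (SC M) hG} :
    (JC M).holds hG y z ↔ ∃ x, emV hG x = y ∧ jF hG x = z := by
  obtain ⟨y, rfl⟩ := exists_mk hG y
  obtain ⟨z, rfl⟩ := exists_mk hG z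
  rw [holds_mk]
  constructor
  · rintro ⟨p, hp, h⟩
    obtain ⟨q, hq, h1⟩ := hG.dense (fun q => (q ≤ p ∧ ∃ x n, JW x n y z q) ∨ ¬ ∃ r, r ≤ q ∧ r ≤ p) (by
      have h1 := int_jW y z
      (repeat' (first | with_reducible exact IntF.id | with_reducible exact IntF.fst' | with_reducible exact IntF.snd' | with_reducible exact IntF.const _ | with_reducible exact Int.const _ | assumption | with_reducible apply ZFA.Int.and | with_reducible apply ZFA.Int.or | with_reducible apply ZFA.Int.not | with_reducible apply Int.imp | with_reducible apply Int.iff | with_reducible apply Int.ne | with_reducible apply Int.eq | with_reducible apply Int.mem | with_reducible apply Int.subset | with_reducible apply Int.ltN | with_reducible apply Int.leN | with_reducible_and_instances apply ZFA.Int.le | with_reducible_and_instances apply ZFA.Int.lt | with_reducible apply Int.all | with_reducible apply Int.ex | with_reducible apply IntF.fst | with_reducible apply IntF.snd | with_reducible apply IntF.app | with_reducible apply IntF.inl | with_reducible apply IntF.inr | with_reducible_and_instances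 apply IntF.mul | with_reducible_and_instances apply IntF.inv | with_reducible_and_instances apply IntF.add | with_reducible_and_instances apply IntF.sub | with_reducible_and_instances apply IntF.neg | with_reducible_and_instances apply IntF.smul | with_reducible apply IntF.succ | (with_reducible refine Int.comp ?_ ?_; assumption) | (with_reducible refine Int.comp₂ ?_ ?_ ?_; assumption) | (with_reducible refine Int.comp₃ ?_ ?_ ?_ ?_; assumption) | (with_reducible refine Int.comp₄ ?_ ?_ ?_ ?_ ?_; assumption) | (with_reducible refine IntF.comp ?_ ?_; assumption) | (with_reducible refine IntF.comp₂ ?_ ?_ ?_; assumption) | (with_reducible refine IntF.comp₃ ?_ ?_ ?_ ?_; assumption) | with_reducible apply IntF.val | with_reducible apply IntF.pair))) fun q => by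
        by_cases h1 : ∃ r, r ≤ q ∧ r ≤ p
        · obtain ⟨r, h2, h3⟩ := h1
          obtain ⟨r', h4, h5⟩ := h r h3
          exact ⟨r', h4.trans h2, Or.inl ⟨h4.trans h3, h5⟩⟩
        · exact ⟨q, le_rfl, Or.inr h1⟩
    rcases h1 with ⟨-, x, n, h1⟩ | h1
    · obtain ⟨h2, h3, h4⟩ := jW_iff.1 h1
      refine ⟨NN.mk _ x, ?_, ?_⟩
      · rw [emV_mk]
        exact (mk_eq hG).2 ⟨q, hq, h3⟩
      · rw [jF_mk hG h2]
        exact (mk_eq hG).2 ⟨q, hq, h4⟩
    · obtain ⟨r, _, h2, h3⟩ := hG.dir p q hp hq
      exact absurd ⟨r, h3, h2⟩ h1
  · rintro ⟨x, h1, h2⟩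
    obtain ⟨x, rfl⟩ := exists_mk _ x
    obtain ⟨n, hn⟩ := exists_syN x
    rw [emV_mk] at h1
    rw [jF_mk hG hn] at h2
    obtain ⟨p, hp, h3⟩ := (mk_eq hG (x := liN x)).1 h1
    obtain ⟨q, hq, h4⟩ := (mk_eq hG).1 h2
    obtain ⟨r, hr, h5, h6⟩ := hG.dir p q hp hq
    exact ⟨r, hr, JR.of_JW (jW_iff.2 ⟨hn, h3.mono h5, h4.mono h6⟩)⟩

end

end Pool.Agent.H525C
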