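import Pool.Agent.H635R2.Statement

/-!
# The language with a predicate for the embedding
-/

namespace Pool.Agent.H525Emb

open FirstOrder FirstOrder.Language
open Pool.Agent.Helper672.Plain (LSet Mem IsOrdPair)
open Pool.Agent.H635Amen (ZF)

universe u

/-- The relation symbols of the language of set theory with a predicate for the embedding:
membership, and a binary relation symbol `jj`. -/
inductive SymJ : ℕ → Type
  | mem : SymJ 2
  | jj : SymJ 2

/-- The language of set theory with a binary predicate for the graph of the embedding. -/
def LJ : FirstOrder.Language.{0, 0} := ⟨fun _ => Empty, SymJ⟩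

/-- The structure for `LJ` in which membership is the given one and `jj` is interpreted by the
relation `J`. -/
@[reducible] def strJ {N : Type u} [LSet.Structure N] (J : N → N → Prop) : LJ.Structure N where
  funMap := fun f => Empty.elim f
  RelMap := fun {_} r v => match r, v with
    | SymJ.mem, v => Mem (v 0) (v 1)
    | SymJ.jj, v => J (v 0) (v 1)

/-- The class `J` satisfies the axioms of ZF with a predicate for it: `N` is a model of ZF, and
the schemas of Separation and Replacement hold for all classes that are first order definable
with parameters from membership and `J`. -/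
structure ZFJ (N : Type u) [LSet.Structure N] (J : N → N → Prop) : Prop where
  zf : ZF N
  separation : letI := strJ J; ∀ S : Set N, (Set.univ : Set N).Definable₁ LJ S →
    ∀ x : N, ∃ y, ∀ z, Mem z y ↔ Mem z x ∧ z ∈ S
  replacement : letI := strJ J; ∀ F : Set (N × N), (Set.univ : Set N).Definable₂ LJ F →
    ∀ a : N, (∀ x, Mem x a → ∃! y, (x, y) ∈ F) → ∃ b, ∀ y, Mem y b ↔ ∃ x, Mem x a ∧ (x, y) ∈ F

section forcing

variable {N : Type u} [LSet.Structure N]

/-- The ordered pair `(x, y)` is an element of `s`. -/
def PMem (x y s : N) : Prop := ∃ q, IsOrdPair q x y ∧ Mem q s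

/-- The substructure `V` is transitive. -/
def IsTrans (V : LSet.Substructure N) : Prop := ∀ x y : N, Mem x y → y ∈ V → x ∈ V

/-- `(P, le)` is a notion of forcing in `V`: a set `P` in `V` with a preorder `le` in `V`. -/
structure IsForcing (V : LSet.Substructure N) (P le : N) : Prop where
  memP : P ∈ V
  memLe : le ∈ V
  refl : ∀ p, Mem p P → PMem p p le
  trans : ∀ p q r, Mem p P → Mem q P → Mem r P → PMem p q le → PMem q r le → PMem p r le

/-- `G` is a filter on the notion of forcing `(P, le)` that meets every dense subset in `V`. -/
structure IsGenericFilter (V : LSet.Substructure N) (P le G : N) : Prop where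
  sub : ∀ p, Mem p G → Mem p P
  nonempty : ∃ p, Mem p G
  upward : ∀ p q, Mem p G → Mem q P → PMem p q le → Mem q G
  directed : ∀ p q, Mem p G → Mem q G → ∃ r, Mem r G ∧ PMem r p le ∧ PMem r q le
  generic : ∀ D : N, D ∈ V → (∀ d, Mem d D → Mem d P) →
    (∀ p, Mem p P → ∃ d, Mem d D ∧ PMem d p le) → ∃ d, Mem d D ∧ Mem d G

/-- The set `R` of ordered pairs is closed under the evaluation of names by `G`: if `(σ, y)` is
in `R`, then the elements of `y` are the `z` with `(ρ, z)` in `R` for some `(ρ, p)` in `σ` with
`p` in `G`, and every `ρ` with `(ρ, p)` in `σ` for some `p` in `G` has such a `z`. -/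
def IsEval (G R : N) : Prop := ∀ σ y, PMem σ y R →
  (∀ z, Mem z y → ∃ ρ p, PMem ρ p σ ∧ Mem p G ∧ PMem ρ z R) ∧
  (∀ ρ p, PMem ρ p σ → Mem p G → ∃ z, Mem z y ∧ PMem ρ z R)

/-- `x` is the value of the name `τ` by `G`. -/
def IsValue (G τ x : N) : Prop := ∃ R, IsEval G R ∧ PMem τ x R

/-- The structure `N` is a set-generic extension of its substructure `V`: there are a notion of
forcing in `V` and a generic filter `G` in `N` such that every element of `N` is the value by `G`
of a name in `V`. -/
def IsForcingExtension (V : LSet.Substructure N) : Prop :=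
  ∃ P le G : N, IsForcing V P le ∧ IsGenericFilter V P le G ∧ ∀ x : N, ∃ τ, τ ∈ V ∧ IsValue G τ x

end forcing

end Pool.Agent.H525Emb
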