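import Pool.Agent.H635R2.Fam
import Pool.Agent.H635R2.Coll
import Pool.Agent.H525R3.Lang

/-!
# Forcing for the language with an additional predicate
-/

namespace Pool.Agent.H525C

open FirstOrder FirstOrder.Language
open Pool.Agent.Helper672 Pool.Agent.Helper672.ZFA Pool.Agent.Helper672.ZFA.H635
open Pool.Agent.Helper672.Plain (LSet)
open Pool.Agent.H525Emb

universe u

set_option synthInstance.maxSize 2000
set_option linter.unusedSectionVars false

section formulas

variable {N : Type u} [LJ.Structure N]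

theorem exists_formulaJ {n : ℕ} {s : Set (Fin n → N)} (h : (Set.univ : Set N).Definable LJ s) :
    ∃ (k : ℕ) (φ : LJ.Formula (Fin k ⊕ Fin n)) (a : Fin k → N),
      ∀ v, v ∈ s ↔ φ.Realize (Sum.elim a v) := by
  obtain ⟨A₀, -, h1⟩ := Set.definable_iff_finitely_definable.1 h
  obtain ⟨φ, hφ⟩ := Set.definable_iff_exists_formula_sum.1 h1
  obtain ⟨k, ⟨e⟩⟩ := Finite.exists_equiv_fin (A₀ : Set N)
  refine ⟨k, φ.relabel (Sum.map e id), fun i => (e.symm i : N), fun v => ?_⟩
  rw [hφ, Formula.realize_relabel]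
  simp only [Set.mem_ofPred_eq]
  refine iff_of_eq (congrArg φ.Realize ?_)
  funext i
  rcases i with i | i
  · simp
  · rfl

end formulas

section

variable {M : Type u} [L.Structure M] [hM : IsModel M]
variable {P Γ : Type u} [ITy M P] [Preorder P] [ILE M P] [ITy M Γ] [Group Γ] [IMul M Γ]
  [IInv M Γ] [MulAction Γ P] [ISMul M Γ P]
variable {Λ : Type u} [ITy M Λ]

/-- A class of the extension, given by its forcing relation. -/
structure JP (S : SymSys M P Γ Λ) where
  rel : P → Nm S → Nm S → Prop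
  mono : ∀ {p q x y}, rel p x y → q ≤ p → rel q x y
  of_dense : ∀ {p x y}, (∀ q, q ≤ p → ∃ r, r ≤ q ∧ rel r x y) → rel p x y
  congr : ∀ {p x y x' y'}, rel p x y → FEqN p x x' → FEqN p y y' → rel p x' y'
  l0 : Λ
  act : ∀ {π p x y}, S.U l0 π → rel p x y → rel (π • p) (actN π x) (actN π y)
  relM : M → M → M → Prop
  defM : D (fun v : Fin 3 → M => relM (v 0) (v 1) (v 2))
  relM_iff : ∀ {p x y}, relM (code p) x.1 y.1 ↔ rel p x y

variable {S : SymSys M P Γ Λ}
variable {α β ε : Type u} [ITy M α] [ITy M β] [ITy M ε]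

theorem JP.act_iff (J : JP S) {π : Γ} (hπ : S.U J.l0 π) {p : P} {x y : Nm S} :
    J.rel (π • p) (actN π x) (actN π y) ↔ J.rel p x y := by
  refine ⟨fun h => ?_, J.act hπ⟩
  have h1 := J.act (S.inv _ _ hπ) h
  rw [inv_smul_smul] at h1
  have h2 := actN_actN_inv π⁻¹ x p
  have h3 := actN_actN_inv π⁻¹ y p
  rw [inv_inv] at h2 h3
  exact J.congr h1 h2 h3

theorem JP.defM3 (J : JP S) {ι : Type} {f g h : (ι → M) → M} (hf : DF f) (hg : DF g)
    (hh : DF h) : D (fun v => J.relM (f v) (g v) (h v)) := by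
  have h1 := D.subst (f := ![f, g, h]) J.defM (by
    intro k
    fin_cases k <;> assumption)
  exact h1

variable {J : JP S}

/-- The value of a term (all terms are variables). -/
def tvJ {κ : Type} {ν : Type u} (w : κ → ν) : LJ.Term κ → ν
  | Term.var i => w i
  | Term.func f _ => Empty.elim f

/-- The forcing relation. -/
def ForceJ (J : JP S) {ι : Type} :
    {n : ℕ} → LJ.BoundedFormula ι n → (ι → Nm S) → (Fin n → Nm S) → P → Prop
  | _, BoundedFormula.falsum, _, _, _ => False
  | _, BoundedFormula.equal t₁ t₂, v, xs, p => FEqN p (tvJ (Sum.elim v xs) t₁)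
      (tvJ (Sum.elim v xs) t₂)
  | _, BoundedFormula.rel R ts, v, xs, p => match R, ts with
      | SymJ.mem, ts => FMemN p (tvJ (Sum.elim v xs) (ts 0)) (tvJ (Sum.elim v xs) (ts 1))
      | SymJ.jj, ts => J.rel p (tvJ (Sum.elim v xs) (ts 0)) (tvJ (Sum.elim v xs) (ts 1))
  | _, BoundedFormula.imp φ ψ, v, xs, p => ∀ q, q ≤ p → ForceJ J φ v xs q → ForceJ J ψ v xs q
  | _, BoundedFormula.all φ, v, xs, p => ∀ x, ForceJ J φ v (Fin.snoc xs x) p

theorem ForceJ.mono {ι : Type} {n : ℕ} {φ : LJ.BoundedFormula ι n} {v : ι → Nm S}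
    {xs : Fin n → Nm S} {p q : P} (h : ForceJ J φ v xs p) (hq : q ≤ p) : ForceJ J φ v xs q := by
  induction φ with
  | falsum => exact h
  | equal t₁ t₂ => exact FEqN.mono h hq
  | rel R ts =>
    cases R
    · exact FMemN.mono h hq
    · exact J.mono h hq
  | imp φ ψ _ _ => exact fun r hr h' => h r (hr.trans hq) h'
  | all φ ih => exact fun x => ih (h x)

theorem ForceJ.of_dense {ι : Type} {n : ℕ} {φ : LJ.BoundedFormula ι n} {v : ι → Nm S}
    {xs : Fin n → Nm S} {p : P} (h : ∀ q, q ≤ p → ∃ r, r ≤ q ∧ ForceJ J φ v xs r) :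
    ForceJ J φ v xs p := by
  induction φ generalizing p with
  | falsum => obtain ⟨r, _, h1⟩ := h p le_rfl; exact h1
  | equal t₁ t₂ => exact FEq.of_dense (Nm.int _) (Nm.int _) h
  | rel R ts =>
    cases R
    · exact FMem.of_dense h
    · exact J.of_dense h
  | imp φ ψ _ ih =>
    intro q hq h1
    refine ih fun q' hq' => ?_
    obtain ⟨r, hr, h2⟩ := h q' (hq'.trans hq)
    exact ⟨r, hr, h2 r le_rfl (h1.mono (hr.trans hq'))⟩
  | all φ ih =>
    intro x
    refine ih fun q hq => ?_
    obtain ⟨r, hr, h2⟩ := h q hq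
    exact ⟨r, hr, h2 x⟩

theorem tvJ_congr {κ : Type} {v w : κ → Nm S} {p : P} (h : ∀ i, FEqN p (v i) (w i))
    (t : LJ.Term κ) : FEqN p (tvJ v t) (tvJ w t) := by
  cases t with
  | var i => exact h i
  | func f _ => exact Empty.elim f

theorem ForceJ.congr_aux {ι : Type} {n : ℕ} {φ : LJ.BoundedFormula ι n} {v v' : ι → Nm S}
    {xs xs' : Fin n → Nm S} {p : P} (h1 : ∀ i, FEqN p (v i) (v' i))
    (h2 : ∀ i, FEqN p (xs i) (xs' i)) : ForceJ J φ v xs p ↔ ForceJ J φ v' xs' p := by
  induction φ generalizing p with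
  | falsum => exact Iff.rfl
  | equal t₁ t₂ =>
    have h3 : ∀ i, FEqN p (Sum.elim v xs i) (Sum.elim v' xs' i) := by
      rintro (i | i)
      · exact h1 i
      · exact h2 i
    constructor
    · intro h
      exact ((tvJ_congr h3 t₁).symm.trans h).trans (tvJ_congr h3 t₂)
    · intro h
      exact ((tvJ_congr h3 t₁).trans h).trans (tvJ_congr h3 t₂).symm
  | rel R ts =>
    have h3 : ∀ i, FEqN p (Sum.elim v xs i) (Sum.elim v' xs' i) := by
      rintro (i | i)
      · exact h1 i
      · exact h2 i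
    cases R
    · constructor
      · intro h
        exact FMemN.congr h (tvJ_congr h3 _) (tvJ_congr h3 _)
      · intro h
        exact FMemN.congr h (tvJ_congr h3 _).symm (tvJ_congr h3 _).symm
    · constructor
      · intro h
        exact J.congr h (tvJ_congr h3 _) (tvJ_congr h3 _)
      · intro h
        exact J.congr h (tvJ_congr h3 _).symm (tvJ_congr h3 _).symm
  | imp φ ψ ih1 ih2 =>
    have h3 : ∀ q, q ≤ p → (ForceJ J φ v xs q ↔ ForceJ J φ v' xs' q) := fun q hq =>
      ih1 (fun i => (h1 i).mono hq) (fun i => (h2 i).mono hq)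
    have h4 : ∀ q, q ≤ p → (ForceJ J ψ v xs q ↔ ForceJ J ψ v' xs' q) := fun q hq =>
      ih2 (fun i => (h1 i).mono hq) (fun i => (h2 i).mono hq)
    exact forall_congr' fun q => forall_congr' fun hq => imp_congr (h3 q hq) (h4 q hq)
  | all φ ih =>
    refine forall_congr' fun x => ih h1 fun i => ?_
    refine Fin.lastCases ?_ (fun j => ?_) i
    · simp only [Fin.snoc_last]
      exact FEqN.refl _ _
    · simp only [Fin.snoc_castSucc]
      exact h2 j

theorem tvJ_comp {κ : Type} {v : κ → Nm S} (f : Nm S → Nm S) (t : LJ.Term κ) :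
    tvJ (fun i => f (v i)) t = f (tvJ v t) := by
  cases t with
  | var i => rfl
  | func f _ => exact Empty.elim f

/-- The symmetry lemma. -/
theorem ForceJ.act_iff {ι : Type} {n : ℕ} {π : Γ} (hπ : S.U J.l0 π) {φ : LJ.BoundedFormula ι n} {v : ι → Nm S}
    {xs : Fin n → Nm S} {p : P} : ForceJ J φ (fun i => actN π (v i)) (fun i => actN π (xs i)) (π • p) ↔
      ForceJ J φ v xs p := by
  induction φ generalizing p with
  | falsum => exact Iff.rfl
  | @equal n t₁ t₂ =>
    have h : (Sum.elim (fun i => actN π (v i)) (fun i => actN π (xs i)) : ι ⊕ Fin n → Nm S) =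
        fun i => actN π (Sum.elim v xs i) := by
      funext i
      rcases i with i | i <;> rfl
    change FEqN _ (tvJ _ t₁) (tvJ _ t₂) ↔ FEqN _ _ _
    rw [h, tvJ_comp, tvJ_comp]
    exact FEqN.act_iff π
  | @rel n k R ts =>
    have h : (Sum.elim (fun i => actN π (v i)) (fun i => actN π (xs i)) : ι ⊕ Fin n → Nm S) =
        fun i => actN π (Sum.elim v xs i) := by
      funext i
      rcases i with i | i <;> rfl
    cases R
    · change FMemN _ (tvJ _ (ts 0)) (tvJ _ (ts 1)) ↔ FMemN _ _ _
      rw [h, tvJ_comp, tvJ_comp]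
      exact FMemN.act_iff π
    · change J.rel _ (tvJ _ (ts 0)) (tvJ _ (ts 1)) ↔ J.rel _ _ _
      rw [h, tvJ_comp, tvJ_comp]
      exact J.act_iff hπ
  | imp φ ψ ih1 ih2 =>
    constructor
    · intro h q hq h1
      exact ih2.1 (h (π • q) (S.smul_le π hq) (ih1.2 h1))
    · intro h q hq h1
      have h2 : π⁻¹ • q ≤ p := by
        have := S.smul_le π⁻¹ hq
        simpa using this
      have h3 : q = π • π⁻¹ • q := by simp
      rw [h3] at h1 ⊢
      exact ih2.2 (h _ h2 (ih1.1 h1))
  | all φ ih =>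
    have hs : ∀ x, (fun i => actN π (Fin.snoc (α := fun _ => Nm S) xs x i)) =
        Fin.snoc (α := fun _ => Nm S) (fun i => actN π (xs i)) (actN π x) := by
      intro x
      funext i
      refine Fin.lastCases ?_ (fun j => ?_) i
      · simp only [Fin.snoc_last]
      · simp only [Fin.snoc_castSucc]
    constructor
    · intro h x
      have h1 := h (actN π x)
      rw [← hs] at h1
      exact ih.1 h1
    · intro h x
      have h1 := ih.2 (h (actN π⁻¹ x))
      rw [hs] at h1
      refine (ForceJ.congr_aux (fun i => FEqN.refl _ _) fun i => ?_).1 h1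
      refine Fin.lastCases ?_ (fun j => ?_) i
      · simp only [Fin.snoc_last]
        exact actN_actN_inv π x _
      · simp only [Fin.snoc_castSucc]
        exact FEqN.refl _ _


theorem tvJ_val {κ : Type} (w : κ → Nm S) (t : LJ.Term κ) :
    tvJ (fun i => (w i).1) t = (tvJ w t).1 := by
  cases t with
  | var i => rfl
  | func f _ => exact Empty.elim f

theorem DF.tvJ {κ ι : Type} {w : (ι → M) → κ → M} (hw : ∀ k, DF (fun v => w v k))
    (t : LJ.Term κ) : DF (fun v => tvJ (w v) t) := by
  cases t with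
  | var i => exact hw i
  | func f _ => exact Empty.elim f

/-- The forcing relation in the language of set theory. -/
def ForceMJ (J : JP S) {ι : Type} :
    {n : ℕ} → LJ.BoundedFormula ι n → (ι → M) → (Fin n → M) → M → Prop
  | _, BoundedFormula.falsum, _, _, _ => False
  | _, BoundedFormula.equal t₁ t₂, v, xs, p => FEqNM (LEc M P) (ACTc M P Γ) (code (1 : Γ)) p
      (tvJ (Sum.elim v xs) t₁) (tvJ (Sum.elim v xs) t₂)
  | _, BoundedFormula.rel R ts, v, xs, p => match R, ts with
      | SymJ.mem, ts => FMemNM (LEc M P) (ACTc M P Γ) (code (1 : Γ)) p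
        (tvJ (Sum.elim v xs) (ts 0)) (tvJ (Sum.elim v xs) (ts 1))
      | SymJ.jj, ts => J.relM p (tvJ (Sum.elim v xs) (ts 0)) (tvJ (Sum.elim v xs) (ts 1))
  | _, BoundedFormula.imp φ ψ, v, xs, p => ∀ q, Mem (op q p) (LEc M P) → ForceMJ J φ v xs q →
      ForceMJ J ψ v xs q
  | _, BoundedFormula.all φ, v, xs, p => ∀ x, IsNm S x → ForceMJ J φ v (Fin.snoc xs x) p

theorem D.forceMJ (J : JP S) {ι : Type} {n : ℕ} (φ : LJ.BoundedFormula ι n) :
    D (fun w : (ι ⊕ Fin n) ⊕ Unit → M => ForceMJ J φ (fun i => w (Sum.inl (Sum.inl i)))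
      (fun i => w (Sum.inl (Sum.inr i))) (w (Sum.inr ()))) := by
  induction φ with
  | falsum => exact D.false
  | equal t₁ t₂ =>
    refine D.feqNM (DF.const _) (DF.const _) (DF.const _) ?_ ?_ (DF.var _)
    · refine DF.tvJ (w := fun w => Sum.elim (fun i => w (Sum.inl (Sum.inl i)))
        (fun i => w (Sum.inl (Sum.inr i)))) ?_ t₁
      rintro (i | i)
      · exact DF.var _
      · exact DF.var _
    · refine DF.tvJ (w := fun w => Sum.elim (fun i => w (Sum.inl (Sum.inl i)))
        (fun i => w (Sum.inl (Sum.inr i)))) ?_ t₂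
      rintro (i | i)
      · exact DF.var _
      · exact DF.var _
  | rel R ts =>
    cases R
    · refine D.fmemNM (DF.const _) (DF.const _) (DF.const _) ?_ ?_ (DF.var _)
      · refine DF.tvJ (w := fun w => Sum.elim (fun i => w (Sum.inl (Sum.inl i)))
          (fun i => w (Sum.inl (Sum.inr i)))) ?_ (ts 0)
        rintro (i | i)
        · exact DF.var _
        · exact DF.var _
      · refine DF.tvJ (w := fun w => Sum.elim (fun i => w (Sum.inl (Sum.inl i)))
          (fun i => w (Sum.inl (Sum.inr i)))) ?_ (ts 1)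
        rintro (i | i)
        · exact DF.var _
        · exact DF.var _

    · refine J.defM3 (DF.var _) ?_ ?_
      · refine DF.tvJ (w := fun w => Sum.elim (fun i => w (Sum.inl (Sum.inl i)))
          (fun i => w (Sum.inl (Sum.inr i)))) ?_ (ts 0)
        rintro (i | i)
        · exact DF.var _
        · exact DF.var _
      · refine DF.tvJ (w := fun w => Sum.elim (fun i => w (Sum.inl (Sum.inl i)))
          (fun i => w (Sum.inl (Sum.inr i)))) ?_ (ts 1)
        rintro (i | i)
        · exact DF.var _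
        · exact DF.var _
  | @imp n φ ψ ih1 ih2 =>
    refine D.all (D.imp (D.memf (DF.op (DF.var _) (DF.var _)) (DF.const _)) (D.imp ?_ ?_))
    · exact ih1.reindex (Sum.elim (fun i => Sum.inl (Sum.inl i)) (fun _ => Sum.inr ()))
    · exact ih2.reindex (Sum.elim (fun i => Sum.inl (Sum.inl i)) (fun _ => Sum.inr ()))
  | @all n φ ih =>
    refine D.all (D.imp (D.isNm (DF.var _)) ?_)
    have h := ih.reindex (κ := ((ι ⊕ Fin n) ⊕ Unit) ⊕ Unit) (Sum.elim (Sum.elim
      (fun i => Sum.inl (Sum.inl (Sum.inl i)))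
      (Fin.snoc (α := fun _ => ((ι ⊕ Fin n) ⊕ Unit) ⊕ Unit)
        (fun i => Sum.inl (Sum.inl (Sum.inr i))) (Sum.inr ())))
      (fun _ => Sum.inl (Sum.inr ())))
    refine Eq.mp (congrArg D ?_) h
    funext w
    refine congrArg (fun xs => ForceMJ J φ _ xs _) ?_
    funext i
    refine Fin.lastCases ?_ (fun j => ?_) i
    · simp only [Sum.elim_inl, Sum.elim_inr, Fin.snoc_last]
    · simp only [Sum.elim_inl, Sum.elim_inr, Fin.snoc_castSucc]

theorem forceMJ_iff {ι : Type} {n : ℕ} {φ : LJ.BoundedFormula ι n} {v : ι → Nm S}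
    {xs : Fin n → Nm S} {p : P} :
    ForceMJ J φ (fun i => (v i).1) (fun i => (xs i).1) (code p) ↔ ForceJ J φ v xs p := by
  induction φ generalizing p with
  | falsum => exact Iff.rfl
  | @equal n t₁ t₂ =>
    have h : (Sum.elim (fun i => (v i).1) (fun i => (xs i).1) : ι ⊕ Fin n → M) =
        fun i => (Sum.elim v xs i).1 := by
      funext i
      rcases i with i | i <;> rfl
    change FEqNM _ _ _ _ (tvJ _ t₁) (tvJ _ t₂) ↔ FEqN _ _ _
    rw [h, tvJ_val, tvJ_val]
    exact feqNM_iff
  | @rel n k R ts =>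
    have h : (Sum.elim (fun i => (v i).1) (fun i => (xs i).1) : ι ⊕ Fin n → M) =
        fun i => (Sum.elim v xs i).1 := by
      funext i
      rcases i with i | i <;> rfl
    cases R
    · change FMemNM _ _ _ _ (tvJ _ (ts 0)) (tvJ _ (ts 1)) ↔ FMemN _ _ _
      rw [h, tvJ_val, tvJ_val]
      exact fmemNM_iff
    · change J.relM _ (tvJ _ (ts 0)) (tvJ _ (ts 1)) ↔ J.rel _ _ _
      rw [h, tvJ_val, tvJ_val]
      exact J.relM_iff
  | imp φ ψ ih1 ih2 =>
    constructor
    · intro h q hq h1
      exact ih2.1 (h (code q) (mem_LEc.2 ⟨_, _, rfl, rfl, hq⟩) (ih1.2 h1))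
    · intro h q hq h1
      obtain ⟨q1, q2, rfl, h11, h12⟩ := mem_LEc.1 hq
      obtain rfl := ITy.inj h11
      exact ih2.2 (h q1 h12 (ih1.1 h1))
  | @all n φ ih =>
    have hs : ∀ x : Nm S, (fun i => (Fin.snoc (α := fun _ => Nm S) xs x i).1) =
        Fin.snoc (α := fun _ => M) (fun i => (xs i).1) x.1 := by
      intro x
      funext i
      refine Fin.lastCases ?_ (fun j => ?_) i
      · simp only [Fin.snoc_last]
      · simp only [Fin.snoc_castSucc]
    constructor
    · intro h x
      have h1 := h x.1 x.2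
      rw [← hs] at h1
      exact ih.1 h1
    · intro h x hx
      have h1 := ih.2 (h ⟨x, hx⟩)
      rw [hs] at h1
      exact h1


theorem int_forceJ {A : Type} {k : ℕ} (φ : LJ.Formula (A ⊕ Fin k)) (params : A → Nm S)
    (y : ε → Fin k → Nm S) (F : Fin k → (Unit → M) → M) (hF : ∀ j, DF (F j))
    (hy : ∀ c j, (y c j).1 = F j (fun _ => code c)) {xs : Fin 0 → Nm S} :
    Int M (fun q : ε × P => ForceJ J φ (Sum.elim params (y q.1)) xs q.2) := by
  have h1 := D.substT (ι := Fin k ⊕ Unit) (D.forceMJ J φ)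
    (f := fun i v => match i with
      | Sum.inl (Sum.inl (Sum.inl a)) => (params a).1
      | Sum.inl (Sum.inl (Sum.inr j)) => v (Sum.inl j)
      | Sum.inl (Sum.inr j) => (xs j).1
      | Sum.inr () => v (Sum.inr ())) (by
      rintro (((a | j) | j) | j)
      · exact T.const _
      · exact T.var _
      · exact T.const _
      · exact T.var _)
  have h2 := D.subst (ι := Fin 2) h1 (f := fun i v => match i with
      | Sum.inl j => F j (fun _ => v 0)
      | Sum.inr () => v 1) (by
      rintro (j | j)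
      · exact (hF j).reindex (fun _ => 0)
      · exact DF.var _)
  refine Int.of_D₂ h2 fun c p => ?_
  rw [← forceMJ_iff]
  refine iff_of_eq (congrArg₂ (fun v xs => ForceMJ J φ v xs (code p)) ?_ rfl)
  funext i
  rcases i with a | j
  · rfl
  · exact (hy c j).symm


variable {G : Set P} (hG : IsGen M G)

/-- The class given by the forcing relation. -/
def JP.holds (J : JP S) : NN S hG → NN S hG → Prop :=
  Quotient.lift₂ (s₁ := nsetoid S hG) (s₂ := nsetoid S hG) (fun x y => ∃ p, p ∈ G ∧ J.rel p x y)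
    (by
      rintro x y x' y' ⟨p, hp, h⟩ ⟨q, hq, h'⟩
      refine propext ⟨?_, ?_⟩
      · rintro ⟨r, hr, h1⟩
        obtain ⟨r1, hr1, h2, h3⟩ := hG.dir p q hp hq
        obtain ⟨r2, hr2, h4, h5⟩ := hG.dir r r1 hr hr1
        exact ⟨r2, hr2, J.congr (J.mono h1 h4) (h.mono (h5.trans h2)) (h'.mono (h5.trans h3))⟩
      · rintro ⟨r, hr, h1⟩
        obtain ⟨r1, hr1, h2, h3⟩ := hG.dir p q hp hq
        obtain ⟨r2, hr2, h4, h5⟩ := hG.dir r r1 hr hr1
        exact ⟨r2, hr2, J.congr (J.mono h1 h4) (h.mono (h5.trans h2)).symm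
          (h'.mono (h5.trans h3)).symm⟩)

theorem holds_mk {x y : Nm S} : J.holds hG (NN.mk hG x) (NN.mk hG y) ↔
    ∃ p, p ∈ G ∧ J.rel p x y := Iff.rfl

variable (J) in
/-- The structure for the extended language. -/
@[reducible] noncomputable def strN : LJ.Structure (NN S hG) := strJ (J.holds hG)

variable (J) in
theorem realize_tvJ {κ : Type} (w : κ → Nm S) (t : LJ.Term κ) :
    letI := strN J hG
    t.realize (fun i => NN.mk hG (w i)) = NN.mk hG (tvJ w t) := by
  cases t with
  | var i => rfl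
  | func f _ => exact Empty.elim f

theorem int_forceJ_all {ι : Type} {n : ℕ} (φ : LJ.BoundedFormula ι n) (v : ι → Nm S)
    (xs : Fin n → Nm S) : Int M (fun p : P => ForceJ J φ v xs p) := by
  have h1 := D.substT (ι := Fin 1) (D.forceMJ J φ)
    (f := fun i v' => match i with
      | Sum.inl (Sum.inl a) => (v a).1
      | Sum.inl (Sum.inr j) => (xs j).1
      | Sum.inr () => v' 0) (by
      rintro ((a | j) | j)
      · exact T.const _
      · exact T.const _
      · exact T.var _)
  refine Int.of_D h1 fun p => ?_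
  rw [← forceMJ_iff]

theorem int_forceJ_allx {ι : Type} {n : ℕ} (φ : LJ.BoundedFormula ι (n + 1)) (v : ι → Nm S)
    (xs : Fin n → Nm S) :
    Int M (fun p : P => ∃ x : Nm S, ∀ q, q ≤ p → ¬ ForceJ J φ v (Fin.snoc xs x) q) := by
  have h0 : D (fun w : (ι ⊕ Fin n) ⊕ Unit → M => ∃ x, IsNm S x ∧ ∀ q,
      Mem (op q (w (Sum.inr ()))) (LEc M P) → ¬ ForceMJ J φ (fun i => w (Sum.inl (Sum.inl i)))
      (Fin.snoc (fun i => w (Sum.inl (Sum.inr i))) x) q) := by
    refine D.ex (D.and (D.isNm (DF.var _)) (D.all (D.imp (D.memf (DF.op (DF.var _) (DF.var _))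
      (DF.const _)) (D.not ?_))))
    have h := (D.forceMJ J φ).reindex (κ := (((ι ⊕ Fin n) ⊕ Unit) ⊕ Unit) ⊕ Unit)
      (Sum.elim (Sum.elim
      (fun i => Sum.inl (Sum.inl (Sum.inl (Sum.inl i))))
      (Fin.snoc (α := fun _ => (((ι ⊕ Fin n) ⊕ Unit) ⊕ Unit) ⊕ Unit)
        (fun i => Sum.inl (Sum.inl (Sum.inl (Sum.inr i)))) (Sum.inl (Sum.inr ()))))
      (fun _ => Sum.inr ()))
    refine Eq.mp (congrArg D ?_) h
    funext w
    refine congrArg (fun xs => ForceMJ J φ _ xs _) ?_
    funext i
    refine Fin.lastCases ?_ (fun j => ?_) i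
    · simp only [Sum.elim_inl, Sum.elim_inr, Fin.snoc_last]
    · simp only [Sum.elim_inl, Sum.elim_inr, Fin.snoc_castSucc]
  have h1 := D.substT (ι := Fin 1) h0
    (f := fun i v' => match i with
      | Sum.inl (Sum.inl a) => (v a).1
      | Sum.inl (Sum.inr j) => (xs j).1
      | Sum.inr () => v' 0) (by
      rintro ((a | j) | j)
      · exact T.const _
      · exact T.const _
      · exact T.var _)
  have hs : ∀ x : Nm S, (fun i => (Fin.snoc (α := fun _ => Nm S) xs x i).1) =
      Fin.snoc (α := fun _ => M) (fun i => (xs i).1) x.1 := by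
    intro x
    funext i
    refine Fin.lastCases ?_ (fun j => ?_) i
    · simp only [Fin.snoc_last]
    · simp only [Fin.snoc_castSucc]
  refine Int.of_D h1 fun p => ?_
  constructor
  · rintro ⟨x, hx, h2⟩
    refine ⟨⟨x, hx⟩, fun q hq h3 => h2 (code q) (mem_LEc.2 ⟨_, _, rfl, rfl, hq⟩) ?_⟩
    have h4 := forceMJ_iff.2 h3
    rw [hs] at h4
    exact h4
  · rintro ⟨x, h2⟩
    refine ⟨x.1, x.2, fun q hq h3 => ?_⟩
    obtain ⟨q1, q2, rfl, h11, h12⟩ := mem_LEc.1 hq
    obtain rfl := ITy.inj h11
    refine h2 q1 h12 (forceMJ_iff.1 ?_)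
    rw [hs]
    exact h3

/-- The truth lemma. -/
theorem truthJ (J : JP S) {ι : Type} {n : ℕ} (φ : LJ.BoundedFormula ι n) (v : ι → Nm S)
    (xs : Fin n → Nm S) :
    @BoundedFormula.Realize LJ (NN S hG) (strN J hG) ι n φ (fun i => NN.mk hG (v i))
      (fun i => NN.mk hG (xs i)) ↔ ∃ p, p ∈ G ∧ ForceJ J φ v xs p := by
  induction φ with
  | falsum =>
    constructor
    · intro h
      exact absurd h id
    · rintro ⟨p, _, h⟩
      exact h
  | @equal n t₁ t₂ =>
    have h : (Sum.elim (fun i => NN.mk hG (v i)) (fun i => NN.mk hG (xs i)) :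
        ι ⊕ Fin n → NN S hG) = fun i => NN.mk hG (Sum.elim v xs i) := by
      funext i
      rcases i with i | i <;> rfl
    letI := strN J hG
    change Term.realize (Sum.elim _ _) t₁ = Term.realize (Sum.elim _ _) t₂ ↔ _
    rw [h, realize_tvJ J hG, realize_tvJ J hG]
    exact mk_eq hG
  | @rel n k R ts =>
    have h : (Sum.elim (fun i => NN.mk hG (v i)) (fun i => NN.mk hG (xs i)) :
        ι ⊕ Fin n → NN S hG) = fun i => NN.mk hG (Sum.elim v xs i) := by
      funext i
      rcases i with i | i <;> rfl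
    letI := strN J hG
    cases R
    · change NN.mem hG (Term.realize (Sum.elim _ _) (ts 0)) (Term.realize (Sum.elim _ _) (ts 1)) ↔ _
      rw [h, realize_tvJ J hG, realize_tvJ J hG]
      exact mem_mk (S := S) hG
    · change J.holds hG (Term.realize (Sum.elim _ _) (ts 0)) (Term.realize (Sum.elim _ _) (ts 1)) ↔ _
      rw [h, realize_tvJ J hG, realize_tvJ J hG]
      exact holds_mk hG
  | imp φ ψ ih1 ih2 =>
    rw [@BoundedFormula.realize_imp LJ (NN S hG) (strN J hG), ih1, ih2]
    constructor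
    · intro h
      have hI1 := int_forceJ_all (J := J) φ v xs
      have hI2 := int_forceJ_all (J := J) ψ v xs
      obtain ⟨p, hp, h1⟩ := hG.dense (fun p => (∀ q, q ≤ p → ForceJ J φ v xs q → ForceJ J ψ v xs q) ∨
        (ForceJ J φ v xs p ∧ ∀ q, q ≤ p → ¬ ForceJ J ψ v xs q)) (by
          have hJ1 : Int M (fun q : P × P => ForceJ J φ v xs q.2) :=
            Int.comp (p := fun p => ForceJ J φ v xs p) hI1 IntF.snd'
          have hJ2 : Int M (fun q : P × P => ForceJ J ψ v xs q.2) :=
            Int.comp (p := fun p => ForceJ J ψ v xs p) hI2 IntF.snd'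
          (repeat' (first | with_reducible exact IntF.id | with_reducible exact IntF.fst' | with_reducible exact IntF.snd' | with_reducible exact IntF.const _ | with_reducible exact Int.const _ | assumption | with_reducible apply ZFA.Int.and | with_reducible apply ZFA.Int.or | with_reducible apply ZFA.Int.not | with_reducible apply Int.imp | with_reducible apply Int.iff | with_reducible apply Int.ne | with_reducible apply Int.eq | with_reducible apply Int.mem | with_reducible apply Int.subset | with_reducible apply Int.ltN | with_reducible apply Int.leN | with_reducible_and_instances apply ZFA.Int.le | with_reducible_and_instances apply ZFA.Int.lt | with_reducible apply Int.all | with_reducible apply Int.ex | with_reducible apply IntF.fst | with_reducible apply IntF.snd | with_reducible apply IntF.app | with_reducible apply IntF.inl | with_reducible apply IntF.inr | with_reducible_and_instances apply IntF.mul | with_reducible_and_instances apply IntF.inv | with_reducible_and_instances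 apply IntF.add | with_reducible_and_instances apply IntF.sub | with_reducible_and_instances apply IntF.neg | with_reducible_and_instances apply IntF.smul | with_reducible apply IntF.succ | with_reducible apply IntF.val | with_reducible apply IntF.mk | (with_reducible refine Int.comp ?_ ?_; assumption) | (with_reducible refine Int.comp₂ ?_ ?_ ?_; assumption) | (with_reducible refine Int.comp₃ ?_ ?_ ?_ ?_; assumption) | (with_reducible refine Int.comp₄ ?_ ?_ ?_ ?_ ?_; assumption) | (with_reducible refine IntF.comp ?_ ?_; assumption) | (with_reducible refine IntF.comp₂ ?_ ?_ ?_; assumption) | (with_reducible refine IntF.comp₃ ?_ ?_ ?_ ?_; assumption) | with_reducible apply IntF.pair)))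
        fun p => by
          by_cases h2 : ∀ q, q ≤ p → ForceJ J φ v xs q → ForceJ J ψ v xs q
          · exact ⟨p, le_rfl, Or.inl h2⟩
          · push Not at h2
            obtain ⟨q, h3, h4, h5⟩ := h2
            by_contra h6
            push Not at h6
            refine h5 (ForceJ.of_dense fun r hr => ?_)
            obtain ⟨h7, h8⟩ := h6 r (hr.trans h3)
            exact h8 (h4.mono hr)
      rcases h1 with h1 | ⟨h1, h2⟩
      · exact ⟨p, hp, h1⟩
      · obtain ⟨q, hq, h3⟩ := h ⟨p, hp, h1⟩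
        obtain ⟨r, _, h4, h5⟩ := hG.dir p q hp hq
        exact absurd (h3.mono h5) (h2 r h4)
    · rintro ⟨p, hp, h⟩ ⟨q, hq, h'⟩
      obtain ⟨r, hr, h1, h2⟩ := hG.dir p q hp hq
      exact ⟨r, hr, h r h1 (h'.mono h2)⟩
  | @all n φ ih =>
    rw [@BoundedFormula.realize_all LJ (NN S hG) (strN J hG)]
    have hs : ∀ x : Nm S, (fun i => NN.mk hG (Fin.snoc (α := fun _ => Nm S) xs x i)) =
        Fin.snoc (α := fun _ => NN S hG) (fun i => NN.mk hG (xs i)) (NN.mk hG x) := by
      intro x
      funext i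
      refine Fin.lastCases ?_ (fun j => ?_) i
      · simp only [Fin.snoc_last]
      · simp only [Fin.snoc_castSucc]
    constructor
    · intro h
      have hI1 := int_forceJ_all (J := J) φ.all v xs
      have hI2 := int_forceJ_allx (J := J) φ v xs
      obtain ⟨p, hp, h1⟩ := hG.dense (fun p => ForceJ J φ.all v xs p ∨
        ∃ x : Nm S, ∀ q, q ≤ p → ¬ ForceJ J φ v (Fin.snoc xs x) q) (Int.or hI1 hI2) fun p => by
          by_cases h2 : ForceJ J φ.all v xs p
          · exact ⟨p, le_rfl, Or.inl h2⟩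
          · by_contra h6
            push Not at h6
            refine h2 fun x => ForceJ.of_dense fun r hr => ?_
            obtain ⟨-, h7⟩ := h6 r hr
            exact h7 x
      rcases h1 with h1 | ⟨x, h1⟩
      · exact ⟨p, hp, h1⟩
      · have h2 := h (NN.mk hG x)
        rw [← hs, ih] at h2
        obtain ⟨q, hq, h3⟩ := h2
        obtain ⟨r, _, h4, h5⟩ := hG.dir p q hp hq
        exact absurd (h3.mono h5) (h1 r h4)
    · rintro ⟨p, hp, h⟩ x
      obtain ⟨x, rfl⟩ := exists_mk hG x
      rw [← hs, ih]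
      exact ⟨p, hp, h x⟩


theorem truthJ_formula (J : JP S) {k n : ℕ} (φ : LJ.Formula (Fin k ⊕ Fin n)) (params : Fin k → Nm S)
    (y : Fin n → Nm S) :
    @Formula.Realize LJ (NN S hG) (strN J hG) _ φ
      (Sum.elim (fun i => NN.mk hG (params i)) (fun i => NN.mk hG (y i))) ↔
      ∃ p, p ∈ G ∧ ForceJ J φ (Sum.elim params y) default p := by
  letI := strN J hG
  rw [← truthJ hG J φ (Sum.elim params y) default]
  have h : (Sum.elim (fun i => NN.mk hG (params i)) (fun i => NN.mk hG (y i)) :
      Fin k ⊕ Fin n → NN S hG) = fun i => NN.mk hG (Sum.elim params y i) := by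
    funext i
    rcases i with i | i <;> rfl
  rw [h]
  unfold Formula.Realize
  refine iff_of_eq (congrArg (BoundedFormula.Realize φ _) ?_)
  funext i
  exact i.elim0


theorem forceJ_move {k n : ℕ} {φ : LJ.Formula (Fin k ⊕ Fin n)} {params : Fin k → Nm S}
    {y y' : Fin n → Nm S} {π : Γ} (hπ : S.U J.l0 π) (hp : ∀ i p, FEqN p (actN π (params i)) (params i)) {q r : P}
    (hq : q ≤ π • r) (hy : ∀ i, FEqN q (actN π (y i)) (y' i))
    (h : ForceJ J φ (Sum.elim params y) default r) : ForceJ J φ (Sum.elim params y') default q := by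
  have h1 := ((ForceJ.act_iff hπ).2 h).mono hq
  refine (ForceJ.congr_aux ?_ fun i => i.elim0).1 h1
  rintro (i | i)
  · exact hp i q
  · exact hy i

/-! ### Separation -/

theorem nn_sepJ_nd (J : JP S) {k : ℕ} (φ : LJ.Formula (Fin k ⊕ Fin 1)) (params : Fin k → Nm S)
    {E : α → P → α → Prop} (h : Good S E) (a : α) :
    ∃ z : NN S hG, ∀ w, Plain.Mem w z ↔ Plain.Mem w (nd hG h a) ∧
      @Formula.Realize LJ (NN S hG) (strN J hG) _ φ
        (Sum.elim (fun i => NN.mk hG (params i)) (fun _ => w)) := by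
  letI := strN J hG
  have hE' : Int M (fun q : (α × P) × α => E q.1.1 q.1.2 q.2) := h.int
  have hF : Int M (fun q : α × P => ForceJ J φ (Sum.elim params (fun _ => mkNm h q.1)) default q.2) :=
    int_forceJ φ params (fun c _ => mkNm h c) (fun _ w => op (dom M α) (op (gr h.int) (w ())))
      (fun _ => DF.op (DF.const _) (DF.op (DF.const _) (DF.var _))) (fun _ _ => rfl)
  obtain ⟨l, hl⟩ := h.sym a
  obtain ⟨l', hl'⟩ := exists_common params
  obtain ⟨l1, h1'⟩ := S.dir l l'
  obtain ⟨l'', h1''⟩ := S.dir l1 J.l0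
  have h1 : ∀ a, S.U l'' a → S.U l a ∧ S.U l' a := fun a ha => h1' a (h1'' a ha).1
  obtain ⟨z, hz⟩ := exists_set hG h (Q := fun c r => (∃ s, E c s a ∧ r ≤ s) ∧
    ForceJ J φ (Sum.elim params (fun _ => mkNm h c)) default r) (by (repeat' (first | with_reducible exact IntF.id | with_reducible exact IntF.fst' | with_reducible exact IntF.snd' | with_reducible exact IntF.const _ | with_reducible exact Int.const _ | assumption | with_reducible apply ZFA.Int.and | with_reducible apply ZFA.Int.or | with_reducible apply ZFA.Int.not | with_reducible apply Int.imp | with_reducible apply Int.iff | with_reducible apply Int.ne | with_reducible apply Int.eq | with_reducible apply Int.mem | with_reducible apply Int.subset | with_reducible apply Int.ltN | with_reducible apply Int.leN | with_reducible_and_instances apply ZFA.Int.le | with_reducible_and_instances apply ZFA.Int.lt | with_reducible apply Int.all | with_reducible apply Int.ex | with_reducible apply IntF.fst | with_reducible apply IntF.snd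 | with_reducible apply IntF.app | with_reducible apply IntF.inl | with_reducible apply IntF.inr | with_reducible_and_instances apply IntF.mul | with_reducible_and_instances apply IntF.inv | with_reducible_and_instances apply IntF.add | with_reducible_and_instances apply IntF.sub | with_reducible_and_instances apply IntF.neg | with_reducible_and_instances apply IntF.smul | with_reducible apply IntF.succ | with_reducible apply IntF.val | with_reducible apply IntF.mk | (with_reducible refine Int.comp ?_ ?_; assumption) | (with_reducible refine Int.comp₂ ?_ ?_ ?_; assumption) | (with_reducible refine Int.comp₃ ?_ ?_ ?_ ?_; assumption) | (with_reducible refine Int.comp₄ ?_ ?_ ?_ ?_ ?_; assumption) | (with_reducible refine IntF.comp ?_ ?_; assumption) | (with_reducible refine IntF.comp₂ ?_ ?_ ?_; assumption) | (with_reducible refine IntF.comp₃ ?_ ?_ ?_ ?_; assumption) | with_reducible apply IntF.pair))) ⟨l'', by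
      rintro π hπ c r ⟨⟨s, hs, hrs⟩, hf⟩ q hq
      obtain ⟨q', h2, c', s', h3, h4, h5⟩ := child_sym h hl (h1 π hπ).1 hs
        (hq.trans (S.smul_le π hrs))
      exact ⟨q', h2, c', q', ⟨⟨s', h3, h4⟩, forceJ_move (h1'' π hπ).2 (hl' · π (h1 π hπ).2 ·) (h2.trans hq)
        (fun _ => feqN_act_mkNm h h5) hf⟩, le_rfl, h5⟩⟩
  refine ⟨z, fun w => (hz w).trans ?_⟩
  constructor
  · rintro ⟨c, r, hr, ⟨⟨s, hs, hrs⟩, hf⟩, rfl⟩
    refine ⟨(mem_nd hG h).2 ⟨c, s, hG.up _ _ hr hrs, hs, rfl⟩, ?_⟩
    exact (truthJ_formula hG J φ params (fun _ => mkNm h c)).2 ⟨r, hr, hf⟩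
  · rintro ⟨hw, hf⟩
    obtain ⟨c, s, hs, h2, rfl⟩ := (mem_nd hG h).1 hw
    obtain ⟨p, hp, h3⟩ := (truthJ_formula hG J φ params (fun _ => mkNm h c)).1 hf
    obtain ⟨r, hr, h4, h5⟩ := hG.dir p s hp hs
    exact ⟨c, r, hr, ⟨⟨s, h2, h5⟩, h3.mono h4⟩, rfl⟩

theorem nn_separationJ (J : JP S) (T' : Set (NN S hG))
    (hT : letI := strN J hG; (Set.univ : Set (NN S hG)).Definable₁ LJ T') (x : NN S hG) : ∃ z, ∀ w, Plain.Mem w z ↔ Plain.Mem w x ∧ w ∈ T' := by
  letI := strN J hG
  obtain ⟨k, φ, a, h1⟩ := exists_formulaJ hT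
  choose params hp using fun i => exists_mk hG (a i)
  obtain ⟨x, rfl⟩ := exists_mk hG x
  obtain ⟨z, hz⟩ := nn_sepJ_nd hG J φ params x.good x.root
  refine ⟨z, fun w => (hz w).trans ?_⟩
  rw [mk_eq_nd]
  refine and_congr_right fun _ => ?_
  have h2 := h1 (fun _ => w)
  simp only [hp]
  rw [← h2]
  exact Iff.rfl


theorem nn_collectionJ (J : JP S) (hC : CollL M) (F : NN S hG → NN S hG → Prop)
    (hF : letI := strN J hG
      (Set.univ : Set (NN S hG)).Definable LJ {v : Fin 2 → NN S hG | F (v 0) (v 1)})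
    (a : NN S hG) : ∃ b, ∀ x, Plain.Mem x a → (∃ y, F x y) → ∃ y, Plain.Mem y b ∧ F x y := by
  letI := strN J hG
  obtain ⟨k, φ, ps, h1⟩ := exists_formulaJ hF
  choose params hp using fun i => exists_mk hG (ps i)
  obtain ⟨x, rfl⟩ := exists_mk hG a
  have h2 : ∀ c y : NN S hG, F c y ↔ φ.Realize (Sum.elim (fun i => NN.mk hG (params i))
      ![c, y]) := by
    intro c y
    have h3 := h1 ![c, y]
    simp only [hp]
    exact h3
  -- the relation in the ground model
  let R : M → M → Prop := fun u y => ∃ c r, u = op c r ∧ IsNm S y ∧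
    ForceMJ J φ (Sum.elim (fun i => (params i).1) ![op (dom M (El (Tn x.1))) (op (gr x.int) c), y])
      (fun i => (i.elim0 : M)) r
  have hR : D (fun v : Fin 2 → M => R (v 0) (v 1)) := by
    refine D.ex (D.ex (D.and (D.eqf (DF.var _) (DF.op (DF.var _) (DF.var _))) (D.and
      (D.isNm (DF.var _)) ?_)))
    have h3 := D.substT (ι := Fin 3) (D.forceMJ J φ)
      (f := fun i v => match i with
        | Sum.inl (Sum.inl (Sum.inl a)) => (params a).1
        | Sum.inl (Sum.inl (Sum.inr j)) => v (Fin.castSucc j)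
        | Sum.inl (Sum.inr j) => (j.elim0 : M)
        | Sum.inr () => v 2) (by
        rintro (((a | j) | j) | j)
        · exact T.const _
        · exact T.var _
        · exact j.elim0
        · exact T.var _)
    have h4 := D.subst (ι := (Fin 2 ⊕ Unit) ⊕ Unit) h3 (f := ![fun w =>
      op (dom M (El (Tn x.1))) (op (gr x.int) (w (Sum.inl (Sum.inr ())))),
      fun w => w (Sum.inl (Sum.inl 1)), fun w => w (Sum.inr ())]) (by
      intro i
      fin_cases i
      · exact DF.op (DF.const _) (DF.op (DF.const _) (DF.var _))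
      · exact DF.var _
      · exact DF.var _)
    refine D.congr h4 fun w => ?_
    refine iff_of_eq (congrArg₂ (fun v xs => ForceMJ J φ v xs (w (Sum.inr ()))) ?_ ?_)
    · funext i
      rcases i with i | i
      · rfl
      · fin_cases i <;> rfl
    · funext i
      exact i.elim0
  obtain ⟨b, hb⟩ := hC R hR (dom M (El (Tn x.1) × P))
  obtain ⟨z, hz⟩ := exists_big hG (S := S) b
  refine ⟨z, fun w hw ⟨v, hv⟩ => ?_⟩
  rw [mk_eq_nd] at hw
  obtain ⟨c, s, hs, h3, rfl⟩ := (mem_nd hG x.good).1 hw
  obtain ⟨v, rfl⟩ := exists_mk hG v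
  have h4 : ∀ (v : Nm S) (r : P), ForceJ J φ (Sum.elim params ![mkNm x.good c, v]) default r ↔
      ForceMJ J φ (Sum.elim (fun i => (params i).1) ![op (dom M (El (Tn x.1)))
        (op (gr x.int) (code c)), v.1]) (fun i => (i.elim0 : M)) (code r) := by
    intro v r
    rw [← forceMJ_iff]
    refine iff_of_eq (congrArg₂ (fun v xs => ForceMJ J φ v xs (code r)) ?_ ?_)
    · funext i
      rcases i with i | i
      · rfl
      · fin_cases i <;> rfl
    · funext i
      exact i.elim0
  have h5 : ∀ v : Nm S, F (nd hG x.good c) (NN.mk hG v) ↔ ∃ p, p ∈ G ∧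
      ForceJ J φ (Sum.elim params ![mkNm x.good c, v]) default p := by
    intro v
    rw [h2, ← truthJ_formula hG J φ params]
    refine iff_of_eq (congrArg _ (congrArg _ ?_))
    funext i
    fin_cases i <;> rfl
  obtain ⟨p, hp, h6⟩ := (h5 v).1 hv
  obtain ⟨y, h7, c', r', h8, h9, h10⟩ := hb (code (c, p)) (code_mem_dom _) ⟨v.1, code c, code p, rfl,
    v.2, (h4 v p).1 h6⟩
  obtain ⟨rfl, rfl⟩ := op_inj (h8 : op (code c) (code p) = op c' r')
  exact ⟨NN.mk hG ⟨y, h9⟩, hz ⟨y, h9⟩ h7, (h5 ⟨y, h9⟩).2 ⟨p, hp, (h4 ⟨y, h9⟩ p).2 h10⟩⟩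


theorem definable_exJ {N : Type u} [LSet.Structure N] (R : N → N → Prop) (F : Set (N × N))
    (hF : letI := strJ R; (Set.univ : Set N).Definable₂ LJ F) (a : N) :
    letI := strJ R; (Set.univ : Set N).Definable₁ LJ {y | ∃ x, Plain.Mem x a ∧ (x, y) ∈ F} := by
  letI := strJ R
  have h1 : (Set.univ : Set N).Definable LJ {w : Fin 1 ⊕ Unit → N | Plain.Mem (w (Sum.inr ())) a} := by
    refine ⟨Relations.formula₂ (((LJ.lhomWithConstants (Set.univ : Set N)).onRelation
      (SymJ.mem : LJ.Relations 2))) (Term.var (Sum.inr ()))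
      ((LJ.con (⟨a, Set.mem_univ a⟩ : (Set.univ : Set N))).term), ?_⟩
    ext v
    simp only [Set.mem_ofPred_eq, Formula.realize_rel₂, Term.realize_var, Term.realize_constants]
    rfl
  have h2 : (Set.univ : Set N).Definable LJ {w : Fin 1 ⊕ Unit → N |
      (w (Sum.inr ()), w (Sum.inl 0)) ∈ F} :=
    Set.Definable.preimage_comp (![Sum.inr (), Sum.inl 0] : Fin 2 → Fin 1 ⊕ Unit) hF
  have h3 := Set.Definable.exists_of_finite (β := Unit) (h1.inter h2)
  refine Eq.mp (congrArg ((Set.univ : Set N).Definable LJ) ?_) h3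
  ext v
  exact ⟨fun ⟨a, ha⟩ => ⟨a (), ha⟩, fun ⟨x, hx⟩ => ⟨fun _ => x, hx⟩⟩

theorem nn_zfj (J : JP S) (hC : CollL M) : ZFJ (NN S hG) (J.holds hG) where
  zf := nn_zf hG hC
  separation T hT x := nn_separationJ hG J T hT x
  replacement F hF a h := by
    obtain ⟨b₀, hb₀⟩ := nn_collectionJ hG J hC (fun x y => (x, y) ∈ F) hF a
    obtain ⟨b, hb⟩ := nn_separationJ hG J _ (definable_exJ (J.holds hG) F hF a) b₀
    refine ⟨b, fun y => (hb y).trans ⟨fun h => h.2, fun hy => ⟨?_, hy⟩⟩⟩
    obtain ⟨x, hx, hxy⟩ := hy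
    obtain ⟨y', h2, h3⟩ := hb₀ x hx ⟨y, hxy⟩
    rwa [(h x hx).unique hxy h3]

end

end Pool.Agent.H525C
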