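import Pool.Agent.H525R3.Split

/-!
# Lifting of graphs, the two generic filters, and the inclusion of the two extensions
-/

namespace Pool.Agent.H525C

open FirstOrder FirstOrder.Language
open Pool.Agent.Helper672 Pool.Agent.Helper672.ZFA Pool.Agent.Helper672.ZFA.H635
open Pool.Agent.Helper672.Plain (LSet)

universe u

set_option synthInstance.maxSize 2000
set_option linter.unusedSectionVars false

section

variable {M : Type u} [L.Structure M] [hM : IsModel M]
variable {α β : Type u} [ITy M α] [ITy M β]

/-- The lift of a graph: the first column is ignored. -/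
def LE (E : α → PC M → α → Prop) : α → PC M → α → Prop := fun a s b => E a (tl s) b

theorem LE_am (E : α → PC M → α → Prop) (a b : α) (p : PC M) (c : C0 M) :
    LE E a (am p c) b ↔ E a p b := by
  unfold LE
  rw [tl_am]

theorem IG.LE {E : α → PC M → α → Prop} (hE : IG M E) : IG M (LE E) := by
  have hE' : Int M (fun q : (α × PC M) × α => E q.1.1 q.1.2 q.2) := hE
  have h1 : IntF M (tl (M := M)) := int_tl
  change Int M (fun q : (α × PC M) × α => E q.1.1 (tl q.1.2) q.2)
  (repeat' (first | with_reducible exact IntF.id | with_reducible exact IntF.fst' | with_reducible exact IntF.snd' | with_reducible exact IntF.const _ | with_reducible exact Int.const _ | assumption | with_reducible apply Int.and | with_reducible apply Int.or | with_reducible apply Int.not | with_reducible apply Int.imp | with_reducible apply Int.iff | with_reducible apply Int.ne | with_reducible apply Int.eq | with_reducible apply Int.mem | with_reducible apply Int.subset | with_reducible apply Int.ltN | with_reducible apply Int.leN | with_reducible_and_instances apply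 Int.le | with_reducible_and_instances apply Int.lt | with_reducible apply Int.all | with_reducible apply Int.ex | with_reducible apply IntF.fst | with_reducible apply IntF.snd | with_reducible apply IntF.app | with_reducible apply IntF.inl | with_reducible apply IntF.inr | with_reducible_and_instances apply IntF.mul | with_reducible_and_instances apply IntF.inv | with_reducible_and_instances apply IntF.add | with_reducible_and_instances apply IntF.sub | with_reducible_and_instances apply IntF.neg | with_reducible_and_instances apply IntF.smul | with_reducible apply IntF.succ | (with_reducible refine Int.comp ?_ ?_; assumption) | (with_reducible refine Int.comp₂ ?_ ?_ ?_; assumption) | (with_reducible refine Int.comp₃ ?_ ?_ ?_ ?_; assumption) | (with_reducible refine Int.comp₄ ?_ ?_ ?_ ?_ ?_; assumption) | (with_reducible refine IntF.comp ?_ ?_; assumption) | (with_reducible refine IntF.comp₂ ?_ ?_ ?_; assumption) | (with_reducible refine IntF.comp₃ ?_ ?_ ?_ ?_; assumption) | with_reducible apply IntF.val | with_reducible apply IntF.pair))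

theorem WFI.LE {E : α → PC M → α → Prop} (hE : WFI M E) : WFI M (LE E) := by
  intro s hs
  obtain ⟨a, ha, h⟩ := hE s hs
  exact ⟨a, ha, fun a' q h1 h2 => h a' _ h1 h2⟩

theorem tw_lf_LE (π : GC M) (E : α → PC M → α → Prop) : tw (lf π) (LE E) = LE (tw π E) := by
  funext a s b
  unfold tw LE
  rw [← lf_inv, tl_lf]

variable {E : α → PC M → α → Prop} {F : β → PC M → β → Prop} {s : PC M} {a : α} {b : β}

theorem feq_LE (hE : IG M E) (hF : IG M F) (h : FEq M E F (tl s) a b) :
    FEq M (LE E) (LE F) s a b := by
  have hI := hE.feq hF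
  have h1 : IntF M (tl (M := M)) := int_tl
  refine FEq.of_rel (r := fun q x y => FEq M E F (tl q) x y) ?_ ?_ h
  · refine Int.comp₃ (p := fun q x y => FEq M E F q x y) hI ?_ ?_ ?_
    all_goals (repeat' (first | with_reducible exact IntF.id | with_reducible exact IntF.fst' | with_reducible exact IntF.snd' | with_reducible exact IntF.const _ | with_reducible exact Int.const _ | assumption | with_reducible apply Int.and | with_reducible apply Int.or | with_reducible apply Int.not | with_reducible apply Int.imp | with_reducible apply Int.iff | with_reducible apply Int.ne | with_reducible apply Int.eq | with_reducible apply Int.mem | with_reducible apply Int.subset | with_reducible apply Int.ltN | with_reducible apply Int.leN | with_reducible_and_instances apply Int.le | with_reducible_and_instances apply Int.lt | with_reducible apply Int.all | with_reducible apply Int.ex | with_reducible apply IntF.fst | with_reducible apply IntF.snd | with_reducible apply IntF.app | with_reducible apply IntF.inl | with_reducible apply IntF.inr | with_reducible_and_instances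 apply IntF.mul | with_reducible_and_instances apply IntF.inv | with_reducible_and_instances apply IntF.add | with_reducible_and_instances apply IntF.sub | with_reducible_and_instances apply IntF.neg | with_reducible_and_instances apply IntF.smul | with_reducible apply IntF.succ | (with_reducible refine Int.comp ?_ ?_; assumption) | (with_reducible refine Int.comp₂ ?_ ?_ ?_; assumption) | (with_reducible refine Int.comp₃ ?_ ?_ ?_ ?_; assumption) | (with_reducible refine Int.comp₄ ?_ ?_ ?_ ?_ ?_; assumption) | (with_reducible refine IntF.comp ?_ ?_; assumption) | (with_reducible refine IntF.comp₂ ?_ ?_ ?_; assumption) | (with_reducible refine IntF.comp₃ ?_ ?_ ?_ ?_; assumption) | with_reducible apply IntF.val | with_reducible apply IntF.pair))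
  · intro q x y h2
    obtain ⟨h3, h4, h5⟩ := feq_rbis _ _ _ h2
    refine ⟨fun q' hq' => h3 _ (le_iff_cases.1 hq').1, ?_, ?_⟩
    · intro a' s hs q' hq' hs'
      obtain ⟨r, h6, b', s', h7, h8, h9⟩ := h4 a' (tl s) hs (tl q') (le_iff_cases.1 hq').1
        (le_iff_cases.1 hs').1
      refine ⟨am r (hd q'), le_iff_cases.2 ⟨by rwa [tl_am], by rw [hd_am]⟩, b', am s' top0,
        (LE_am _ _ _ _ _).2 h7, am_le.2 ⟨h8, le_top0 _⟩, by beta_reduce; rwa [tl_am]⟩
    · intro a' s hs q' hq' hs'
      obtain ⟨r, h6, b', s', h7, h8, h9⟩ := h5 a' (tl s) hs (tl q') (le_iff_cases.1 hq').1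
        (le_iff_cases.1 hs').1
      refine ⟨am r (hd q'), le_iff_cases.2 ⟨by rwa [tl_am], by rw [hd_am]⟩, b', am s' top0,
        (LE_am _ _ _ _ _).2 h7, am_le.2 ⟨h8, le_top0 _⟩, by beta_reduce; rwa [tl_am]⟩

theorem feq_of_LE (hE : IG M E) (hF : IG M F) (h : FEq M (LE E) (LE F) s a b) :
    FEq M E F (tl s) a b := by
  have hI := (IG.LE hE).feq (IG.LE hF)
  have h1 : IntF M (fun q : PC M × C0 M => am q.1 q.2) := int_am
  refine FEq.of_rel (r := fun q x y => ∃ c, FEq M (LE E) (LE F) (am q c) x y) ?_ ?_
    ⟨hd s, by rwa [am_tl_hd]⟩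
  · refine Int.ex ?_
    refine Int.comp₃ (p := fun q x y => FEq M (LE E) (LE F) q x y) hI ?_ ?_ ?_
    all_goals (repeat' (first | with_reducible exact IntF.id | with_reducible exact IntF.fst' | with_reducible exact IntF.snd' | with_reducible exact IntF.const _ | with_reducible exact Int.const _ | assumption | with_reducible apply Int.and | with_reducible apply Int.or | with_reducible apply Int.not | with_reducible apply Int.imp | with_reducible apply Int.iff | with_reducible apply Int.ne | with_reducible apply Int.eq | with_reducible apply Int.mem | with_reducible apply Int.subset | with_reducible apply Int.ltN | with_reducible apply Int.leN | with_reducible_and_instances apply Int.le | with_reducible_and_instances apply Int.lt | with_reducible apply Int.all | with_reducible apply Int.ex | with_reducible apply IntF.fst | with_reducible apply IntF.snd | with_reducible apply IntF.app | with_reducible apply IntF.inl | with_reducible apply IntF.inr | with_reducible_and_instances apply IntF.mul | with_reducible_and_instances apply IntF.inv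 | with_reducible_and_instances apply IntF.add | with_reducible_and_instances apply IntF.sub | with_reducible_and_instances apply IntF.neg | with_reducible_and_instances apply IntF.smul | with_reducible apply IntF.succ | (with_reducible refine Int.comp ?_ ?_; assumption) | (with_reducible refine Int.comp₂ ?_ ?_ ?_; assumption) | (with_reducible refine Int.comp₃ ?_ ?_ ?_ ?_; assumption) | (with_reducible refine Int.comp₄ ?_ ?_ ?_ ?_ ?_; assumption) | (with_reducible refine IntF.comp ?_ ?_; assumption) | (with_reducible refine IntF.comp₂ ?_ ?_ ?_; assumption) | (with_reducible refine IntF.comp₃ ?_ ?_ ?_ ?_; assumption) | with_reducible apply IntF.val | with_reducible apply IntF.pair))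
  · rintro q x y ⟨c, h2⟩
    obtain ⟨h3, h4, h5⟩ := feq_rbis _ _ _ h2
    refine ⟨fun q' hq' => ⟨c, h3 _ (am_le.2 ⟨hq', le_rfl⟩)⟩, ?_, ?_⟩
    · intro a' s hs q' hq' hs'
      obtain ⟨r, h6, b', s', h7, h8, h9⟩ := h4 a' (am s top0) ((LE_am _ _ _ _ _).2 hs) (am q' c)
        (am_le.2 ⟨hq', le_rfl⟩) (am_le.2 ⟨hs', le_top0 _⟩)
      exact ⟨tl r, (le_am.1 h6).1, b', tl s', h7, (le_iff_cases.1 h8).1, hd r, by rwa [am_tl_hd]⟩
    · intro a' s hs q' hq' hs'
      obtain ⟨r, h6, b', s', h7, h8, h9⟩ := h5 a' (am s top0) ((LE_am _ _ _ _ _).2 hs) (am q' c)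
        (am_le.2 ⟨hq', le_rfl⟩) (am_le.2 ⟨hs', le_top0 _⟩)
      exact ⟨tl r, (le_am.1 h6).1, b', tl s', h7, (le_iff_cases.1 h8).1, hd r, by rwa [am_tl_hd]⟩

theorem feq_LE_iff (hE : IG M E) (hF : IG M F) :
    FEq M (LE E) (LE F) s a b ↔ FEq M E F (tl s) a b := ⟨feq_of_LE hE hF, feq_LE hE hF⟩

theorem fmem_LE_iff (hE : IG M E) (hF : IG M F) :
    FMem M (LE E) (LE F) s a b ↔ FMem M E F (tl s) a b := by
  constructor
  · intro h q hq
    obtain ⟨r, h1, b', s', h2, h3, h4⟩ := h (am q (hd s)) (le_iff_cases.2 ⟨by rwa [tl_am],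
      by rw [hd_am]⟩)
    exact ⟨tl r, (le_am.1 h1).1, b', tl s', h2, (le_iff_cases.1 h3).1, (feq_LE_iff hE hF).1 h4⟩
  · intro h q hq
    obtain ⟨r, h1, b', s', h2, h3, h4⟩ := h (tl q) (le_iff_cases.1 hq).1
    refine ⟨am r (hd q), le_iff_cases.2 ⟨by rwa [tl_am], by rw [hd_am]⟩, b', am s' top0,
        (LE_am _ _ _ _ _).2 h2, am_le.2 ⟨h3, le_top0 _⟩, (feq_LE_iff hE hF).2 (by rwa [tl_am])⟩

theorem good_LE (h : Good (SC M) E) : Good (SC M) (LE E) := by
  refine ⟨IG.LE h.int, WFI.LE h.wf, fun a => ?_⟩
  obtain ⟨l, hl⟩ := h.sym a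
  refine ⟨l.succ, fun π hπ p => ?_⟩
  obtain ⟨π, rfl, hπ'⟩ := exists_lf_U hπ
  rw [tw_lf_LE]
  exact feq_LE (h.int.tw π) h.int (hl π hπ' _)

/-! ### The two generic filters -/

/-- The generic filter for the columns except the first one. -/
def GV (G : Set (PC M)) : Set (PC M) := {p | am p top0 ∈ G}

/-- The generic filter for the first column. -/
def G0 (G : Set (PC M)) : Set (C0 M) := {c | am top1 c ∈ G}

variable {G : Set (PC M)} (hG : IsGen M G)
include hG

theorem mem_GV_of {s : PC M} (h : s ∈ G) : tl s ∈ GV G :=
  hG.up _ _ h (le_am.2 ⟨le_rfl, le_top0 _⟩)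

theorem mem_G0_of {s : PC M} (h : s ∈ G) : hd s ∈ G0 G :=
  hG.up _ _ h (le_am.2 ⟨le_top1 _, le_rfl⟩)

theorem am_mem {p : PC M} {c : C0 M} : am p c ∈ G ↔ p ∈ GV G ∧ c ∈ G0 G := by
  constructor
  · intro h
    have h1 := mem_GV_of hG h
    have h2 := mem_G0_of hG h
    rw [tl_am] at h1
    rw [hd_am] at h2
    exact ⟨h1, h2⟩
  · rintro ⟨h1, h2⟩
    obtain ⟨r, hr, h3, h4⟩ := hG.dir _ _ h1 h2
    exact hG.up _ _ hr (le_am.2 ⟨(le_am.1 h3).1, (le_am.1 h4).2⟩)

theorem mem_iff_split {s : PC M} : s ∈ G ↔ tl s ∈ GV G ∧ hd s ∈ G0 G := by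
  rw [← am_mem hG, am_tl_hd]

theorem isGen_GV : IsGen M (GV G) := by
  refine ⟨?_, ?_, ?_, ?_⟩
  · intro p q hp hpq
    exact hG.up _ _ hp (am_le.2 ⟨hpq, le_rfl⟩)
  · intro p q hp hq
    obtain ⟨r, hr, h1, h2⟩ := hG.dir _ _ hp hq
    exact ⟨tl r, mem_GV_of hG hr, (le_am.1 h1).1, (le_am.1 h2).1⟩
  · obtain ⟨p, hp⟩ := hG.ne
    exact ⟨tl p, mem_GV_of hG hp⟩
  · intro s hs hd
    have h1 : IntF M (tl (M := M)) := int_tl
    obtain ⟨p, hp, h2⟩ := hG.dense (fun p => s (tl p)) (by (repeat' (first | with_reducible exact IntF.id | with_reducible exact IntF.fst' | with_reducible exact IntF.snd' | with_reducible exact IntF.const _ | with_reducible exact Int.const _ | assumption | with_reducible apply Int.and | with_reducible apply Int.or | with_reducible apply Int.not | with_reducible apply Int.imp | with_reducible apply Int.iff | with_reducible apply Int.ne | with_reducible apply Int.eq | with_reducible apply Int.mem | with_reducible apply Int.subset | with_reducible apply Int.ltN | with_reducible apply Int.leN | with_reducible_and_instances apply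 Int.le | with_reducible_and_instances apply Int.lt | with_reducible apply Int.all | with_reducible apply Int.ex | with_reducible apply IntF.fst | with_reducible apply IntF.snd | with_reducible apply IntF.app | with_reducible apply IntF.inl | with_reducible apply IntF.inr | with_reducible_and_instances apply IntF.mul | with_reducible_and_instances apply IntF.inv | with_reducible_and_instances apply IntF.add | with_reducible_and_instances apply IntF.sub | with_reducible_and_instances apply IntF.neg | with_reducible_and_instances apply IntF.smul | with_reducible apply IntF.succ | (with_reducible refine Int.comp ?_ ?_; assumption) | (with_reducible refine Int.comp₂ ?_ ?_ ?_; assumption) | (with_reducible refine Int.comp₃ ?_ ?_ ?_ ?_; assumption) | (with_reducible refine Int.comp₄ ?_ ?_ ?_ ?_ ?_; assumption) | (with_reducible refine IntF.comp ?_ ?_; assumption) | (with_reducible refine IntF.comp₂ ?_ ?_ ?_; assumption) | (with_reducible refine IntF.comp₃ ?_ ?_ ?_ ?_; assumption) | with_reducible apply IntF.val | with_reducible apply IntF.pair)))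 fun p => by
      obtain ⟨q, hq, hsq⟩ := hd (tl p)
      exact ⟨am q (H525C.hd p), le_iff_cases.2 ⟨by rwa [tl_am], by rw [hd_am]⟩, by beta_reduce; rwa [tl_am]⟩
    exact ⟨tl p, mem_GV_of hG hp, h2⟩

/-! ### The inclusion -/

theorem nd_LE_eq {E : α → PC M → α → Prop} {F : β → PC M → β → Prop} (h : Good (SC M) E)
    (h' : Good (SC M) F) {a : α} {b : β} :
    nd hG (good_LE h) a = nd hG (good_LE h') b ↔
      nd (isGen_GV hG) h a = nd (isGen_GV hG) h' b := by
  rw [nd_eq, nd_eq]
  constructor
  · rintro ⟨s, hs, h1⟩
    exact ⟨tl s, mem_GV_of hG hs, (feq_LE_iff h.int h'.int).1 h1⟩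
  · rintro ⟨p, hp, h1⟩
    exact ⟨am p top0, hp, (feq_LE_iff h.int h'.int).2 (by rwa [tl_am])⟩

theorem mem_nd_LE {E : α → PC M → α → Prop} {F : β → PC M → β → Prop} (h : Good (SC M) E)
    (h' : Good (SC M) F) {a : α} {b : β} :
    Plain.Mem (nd hG (good_LE h) a) (nd hG (good_LE h') b) ↔
      Plain.Mem (nd (isGen_GV hG) h a) (nd (isGen_GV hG) h' b) := by
  rw [mem_nd_nd, mem_nd_nd]
  constructor
  · rintro ⟨s, hs, h1⟩
    exact ⟨tl s, mem_GV_of hG hs, (fmem_LE_iff h.int h'.int).1 h1⟩
  · rintro ⟨p, hp, h1⟩
    exact ⟨am p top0, hp, (fmem_LE_iff h.int h'.int).2 (by rwa [tl_am])⟩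

/-- The inclusion of the extension given by the columns except the first one. -/
noncomputable def emV : NN (SC M) (isGen_GV hG) → NN (SC M) hG :=
  Quotient.lift (s := nsetoid (SC M) (isGen_GV hG)) (fun x => nd hG (good_LE x.good) x.root) (by
    intro x y h
    have h1 : NN.mk (isGen_GV hG) x = NN.mk (isGen_GV hG) y := Quotient.sound h
    rw [mk_eq_nd, mk_eq_nd] at h1
    exact (nd_LE_eq hG x.good y.good).2 h1)

theorem emV_mk (x : Nm (SC M)) :
    emV hG (NN.mk (isGen_GV hG) x) = nd hG (good_LE x.good) x.root := rfl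

theorem emV_nd {E : α → PC M → α → Prop} (h : Good (SC M) E) (a : α) :
    emV hG (nd (isGen_GV hG) h a) = nd hG (good_LE h) a := by
  have h1 : emV hG (nd (isGen_GV hG) h a) =
      nd hG (good_LE (mkNm h a).good) (mkNm h a).root := rfl
  rw [h1, nd_LE_eq hG (mkNm h a).good h, ← mk_eq_nd]
  rfl

theorem emV_inj : Function.Injective (emV hG) := by
  intro x y h
  obtain ⟨x, rfl⟩ := exists_mk (isGen_GV hG) x
  obtain ⟨y, rfl⟩ := exists_mk (isGen_GV hG) y
  rw [emV_mk, emV_mk, nd_LE_eq] at h
  rwa [mk_eq_nd, mk_eq_nd]

theorem emV_mem {x y : NN (SC M) (isGen_GV hG)} :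
    Plain.Mem (emV hG x) (emV hG y) ↔ Plain.Mem x y := by
  obtain ⟨x, rfl⟩ := exists_mk (isGen_GV hG) x
  obtain ⟨y, rfl⟩ := exists_mk (isGen_GV hG) y
  rw [emV_mk, emV_mk, mem_nd_LE, mk_eq_nd, mk_eq_nd]

theorem emV_trans {y : NN (SC M) (isGen_GV hG)} {z : NN (SC M) hG}
    (h : Plain.Mem z (emV hG y)) : ∃ x, emV hG x = z := by
  obtain ⟨y, rfl⟩ := exists_mk (isGen_GV hG) y
  rw [emV_mk, mem_nd] at h
  obtain ⟨a, s, -, -, rfl⟩ := h
  exact ⟨nd (isGen_GV hG) y.good a, emV_nd hG y.good a⟩

end

end Pool.Agent.H525C
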