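import Pool.Agent.H525R3.JForce
import Pool.Agent.H525R3.Lift

/-!
# The forcing relation for the embedding
-/

namespace Pool.Agent.H525C

open FirstOrder FirstOrder.Language
open Pool.Agent.Helper672 Pool.Agent.Helper672.ZFA Pool.Agent.Helper672.ZFA.H635
open Pool.Agent.Helper672.Plain (LSet)
open Pool.Agent.H525Emb

universe u

set_option synthInstance.maxSize 2000
set_option linter.unusedSectionVars false

section gen

variable {M : Type u} [L.Structure M] [hM : IsModel M]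
variable {P : Type u} [ITy M P] [Preorder P] [ILE M P]
variable {α : Type u} [ITy M α]

/-- Change of the labels. -/
def twR (R : P → P → Prop) (E : α → P → α → Prop) : α → P → α → Prop :=
  fun a s b => ∃ s0, R s0 s ∧ E a s0 b

theorem feqM_iffR {R : P → P → Prop} {act g : M}
    (hact : ∀ p q : M, Mem (op (op g p) q) act ↔
      ∃ p' q' : P, p = code p' ∧ q = code q' ∧ R p' q')
    {x y : M} {a : El (Tn x)} {b : El (Tn y)} {p : P} :
    FEqM (LEc M P) act g x a.1 y b.1 (code p) ↔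
      FEq M (twR R (ed P x)) (ed P y) p a b := by
  constructor
  · rintro ⟨r, h1, h2⟩
    refine FEq.of_rel (r := fun q u v => Mem (op (op (code q) u.1) v.1) r)
      ⟨r, fun q => Iff.rfl⟩ ?_ h2
    intro q u v huv
    obtain ⟨h3, h4, h5⟩ := h1 _ _ _ huv
    refine ⟨fun q' hq' => h3 _ (mem_LEc.2 ⟨_, _, rfl, rfl, hq'⟩), ?_, ?_⟩
    · rintro u' s ⟨s0, hs0, hu⟩ q' hq' hs
      obtain ⟨q'', h6, v', s', ⟨h7, h7'⟩, h8, h9⟩ := h4 u'.1 (code s) (code s0) u'.2
        ((hact _ _).2 ⟨s0, s, rfl, rfl, hs0⟩) hu (code q')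
        (mem_LEc.2 ⟨_, _, rfl, rfl, hq'⟩) (mem_LEc.2 ⟨_, _, rfl, rfl, hs⟩)
      obtain ⟨q1, q2, rfl, h11, h12⟩ := mem_LEc.1 h6
      obtain rfl := ITy.inj h11
      obtain ⟨q3, s1, h13, rfl, h14⟩ := mem_LEc.1 h8
      obtain rfl := ITy.inj h13
      exact ⟨q1, h12, ⟨v', h7⟩, s1, h7', h14, h9⟩
    · intro v' s hv q' hq' hs
      obtain ⟨q'', h6, u', s', ⟨h7, s0, h10, h7'⟩, h8, h9⟩ := h5 v'.1 (code s) v'.2 hv (code q')
        (mem_LEc.2 ⟨_, _, rfl, rfl, hq'⟩) (mem_LEc.2 ⟨_, _, rfl, rfl, hs⟩)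
      obtain ⟨q1, q2, rfl, h11, h12⟩ := mem_LEc.1 h6
      obtain rfl := ITy.inj h11
      obtain ⟨q3, s1, h13, rfl, h14⟩ := mem_LEc.1 h8
      obtain rfl := ITy.inj h13
      obtain ⟨p', p'', rfl, h17, h18⟩ := (hact _ _).1 h10
      obtain rfl := ITy.inj h17
      exact ⟨q1, h12, ⟨u', h7⟩, s1, ⟨p', h18, h7'⟩, h14, h9⟩
  · rintro ⟨R, hR, h⟩
    refine ⟨code R, ?_, mem_code_iff.2 h⟩
    intro q u v huv
    obtain ⟨⟨⟨q, u⟩, v⟩, h1, h2⟩ := mem_code_pow.1 huv
    obtain ⟨h3, rfl⟩ := op_inj (h2 : op (op (code q) u.1) v.1 = _)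
    obtain ⟨rfl, rfl⟩ := op_inj h3
    obtain ⟨h3, h4, h5⟩ := hR _ _ _ h1
    refine ⟨?_, ?_, ?_⟩
    · intro q' hq'
      obtain ⟨q1, q2, rfl, h11, h12⟩ := mem_LEc.1 hq'
      obtain rfl := ITy.inj h11
      exact mem_code_iff.2 (h3 _ h12)
    · intro u' s s0 hu' hs hE q' hq' hqs
      obtain ⟨q1, q2, rfl, h11, h12⟩ := mem_LEc.1 hq'
      obtain rfl := ITy.inj h11
      obtain ⟨q3, s1, h13, rfl, h14⟩ := mem_LEc.1 hqs
      obtain rfl := ITy.inj h13
      obtain ⟨p', p'', rfl, h17, h18⟩ := (hact _ _).1 hs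
      obtain rfl := ITy.inj h17
      obtain ⟨q'', h6, v', s', h7, h8, h9⟩ := h4 ⟨u', hu'⟩ s1 ⟨p', h18, hE⟩ q1 h12 h14
      exact ⟨code q'', mem_LEc.2 ⟨_, _, rfl, rfl, h6⟩, v'.1, code s', ⟨v'.2, h7⟩,
        mem_LEc.2 ⟨_, _, rfl, rfl, h8⟩, mem_code_iff.2 h9⟩
    · intro v' s hv' hE q' hq' hqs
      obtain ⟨q1, q2, rfl, h11, h12⟩ := mem_LEc.1 hq'
      obtain rfl := ITy.inj h11
      obtain ⟨q3, s1, h13, rfl, h14⟩ := mem_LEc.1 hqs
      obtain rfl := ITy.inj h13
      obtain ⟨q'', h6, u', s', ⟨s0, h71, h72⟩, h8, h9⟩ := h5 ⟨v', hv'⟩ s1 hE q1 h12 h14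
      exact ⟨code q'', mem_LEc.2 ⟨_, _, rfl, rfl, h6⟩, u'.1, code s', ⟨u'.2, code s0,
        (hact _ _).2 ⟨s0, s', rfl, rfl, h71⟩, h72⟩,
        mem_LEc.2 ⟨_, _, rfl, rfl, h8⟩, mem_code_iff.2 h9⟩

end gen

section

variable {M : Type u} [L.Structure M] [hM : IsModel M]

theorem int_tlc : Int M (fun q : (GC M × PC M) × PC M => q.1.2 = tl q.2) := by
  have h1 : IntF M (tl (M := M)) := int_tl
  (repeat' (first | with_reducible exact IntF.id | with_reducible exact IntF.fst' | with_reducible exact IntF.snd' | with_reducible exact IntF.const _ | with_reducible exact Int.const _ | assumption | with_reducible apply ZFA.Int.and | with_reducible apply ZFA.Int.or | with_reducible apply ZFA.Int.not | with_reducible apply Int.imp | with_reducible apply Int.iff | with_reducible apply Int.ne | with_reducible apply Int.eq | with_reducible apply Int.mem | with_reducible apply Int.subset | with_reducible apply Int.ltN | with_reducible apply Int.leN | with_reducible_and_instances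 apply ZFA.Int.le | with_reducible_and_instances apply ZFA.Int.lt | with_reducible apply Int.all | with_reducible apply Int.ex | with_reducible apply IntF.fst | with_reducible apply IntF.snd | with_reducible apply IntF.app | with_reducible apply IntF.inl | with_reducible apply IntF.inr | with_reducible_and_instances apply IntF.mul | with_reducible_and_instances apply IntF.inv | with_reducible_and_instances apply IntF.add | with_reducible_and_instances apply IntF.sub | with_reducible_and_instances apply IntF.neg | with_reducible_and_instances apply IntF.smul | with_reducible apply IntF.succ | (with_reducible refine Int.comp ?_ ?_; assumption) | (with_reducible refine Int.comp₂ ?_ ?_ ?_; assumption) | (with_reducible refine Int.comp₃ ?_ ?_ ?_ ?_; assumption) | (with_reducible refine Int.comp₄ ?_ ?_ ?_ ?_ ?_; assumption) | (with_reducible refine IntF.comp ?_ ?_; assumption) | (with_reducible refine IntF.comp₂ ?_ ?_ ?_; assumption) | (with_reducible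 refine IntF.comp₃ ?_ ?_ ?_ ?_; assumption) | with_reducible apply IntF.val | with_reducible apply IntF.pair))

variable (M) in
/-- The relabelling for the lift. -/
noncomputable def TLc : M := gr (int_tlc (M := M))

theorem mem_TLc (p q : M) : Mem (op (op (code (1 : GC M)) p) q) (TLc M) ↔
    ∃ p' q' : PC M, p = code p' ∧ q = code q' ∧ p' = tl q' := by
  unfold TLc
  rw [mem_gr]
  constructor
  · rintro ⟨⟨⟨g', p'⟩, q'⟩, h1, h2⟩
    obtain ⟨h3, h4⟩ := op_inj (h2 : op (op (code g') (code p')) (code q') = op (op _ p) q)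
    obtain ⟨h5, h6⟩ := op_inj h3
    exact ⟨p', q', h6.symm, h4.symm, h1⟩
  · rintro ⟨p', q', rfl, rfl, h⟩
    exact ⟨((1, p'), q'), h, rfl⟩

theorem int_cyc' : Int M (fun q : INat M × GC M => cyc q.1 = q.2) := int_cyc

variable (M) in
/-- The cycles as an element of the model. -/
noncomputable def CYc : M := gr (int_cyc' (M := M))

theorem mem_CYc {n c : M} : Mem (op n c) (CYc M) ↔ ∃ n' : INat M, n = code n' ∧ c = code (cyc n') := by
  unfold CYc
  rw [mem_gr]
  constructor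
  · rintro ⟨⟨n', c'⟩, h1, h2⟩
    obtain ⟨h3, h4⟩ := op_inj (h2 : op (code n') (code c') = op n c)
    refine ⟨n', h3.symm, ?_⟩
    rw [show cyc n' = c' from h1]
    exact h4.symm
  · rintro ⟨n', rfl, rfl⟩
    exact ⟨(n', cyc n'), rfl, rfl⟩

theorem twR_tl {α : Type u} [ITy M α] (E : α → PC M → α → Prop) :
    twR (fun s0 s => s0 = tl s) E = LE E := by
  funext a s b
  refine propext ⟨?_, fun h => ⟨tl s, rfl, h⟩⟩
  rintro ⟨s0, rfl, h⟩
  exact h

theorem feqM_LE {x y : M} {a : El (Tn x)} {b : El (Tn y)} {p : PC M} :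
    FEqM (LEc M (PC M)) (TLc M) (code (1 : GC M)) x a.1 y b.1 (code p) ↔
      FEq M (LE (ed (PC M) x)) (ed (PC M) y) p a b := by
  rw [feqM_iffR mem_TLc, twR_tl]

/-! ### The forcing relation for the embedding -/

/-- A good witness: `x` has support `n`, it is lifted to `y`, and it is moved to `z`. -/
def JW (x : Nm (SC M)) (n : INat M) (y z : Nm (SC M)) (s : PC M) : Prop :=
  Sy (SC M) x.E n x.root ∧ FEq M (LE x.E) y.E s x.root y.root ∧
    FEq M (tw (cyc n) x.E) z.E s x.root z.root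

/-- The forcing relation for the graph of the embedding. -/
def JR (s : PC M) (y z : Nm (SC M)) : Prop :=
  ∀ s', s' ≤ s → ∃ s'', s'' ≤ s' ∧ ∃ x n, JW x n y z s''

/-- The witnesses in the language of set theory. -/
def JWM (s y z : M) : Prop := ∃ x n,
    IsNm (SC M) x ∧ Mem n (dom M (INat M)) ∧
    (∀ g, Mem (op n g) (UUc (SC M)) → ∀ p, Mem p (dom M (PC M)) →
      FEqM (LEc M (PC M)) (ACTc M (PC M) (GC M)) g x (rn x) x (rn x) p) ∧
    FEqM (LEc M (PC M)) (TLc M) (code (1 : GC M)) x (rn x) y (rn y) s ∧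
    ∃ c, Mem (op n c) (CYc M) ∧
      FEqM (LEc M (PC M)) (ACTc M (PC M) (GC M)) c x (rn x) z (rn z) s

/-- The forcing relation in the language of set theory. -/
def JRM (s y z : M) : Prop :=
  ∀ s', Mem (op s' s) (LEc M (PC M)) → ∃ s'', Mem (op s'' s') (LEc M (PC M)) ∧ JWM s'' y z

theorem DF.rn {ι : Type} {f : (ι → M) → M} (hf : DF f) : DF (fun v => H635.rn (f v)) := by
  unfold H635.rn
  exact DF.snd (DF.snd hf)

theorem D.jWM {ι : Type} {f g h : (ι → M) → M} (hf : DF f) (hg : DF g) (hh : DF h) :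
    D (fun v => JWM (f v) (g v) (h v)) := by
  have h1 : D (fun v : Fin 3 → M => JWM (v 0) (v 1) (v 2)) := by
    unfold JWM
    refine D.ex (D.ex (D.and (D.isNm (DF.var _))
      (D.and (D.memf (DF.var _) (DF.const _)) (D.and (D.all (D.imp
      (D.memf (DF.op (DF.var _) (DF.var _)) (DF.const _)) (D.all (D.imp
      (D.memf (DF.var _) (DF.const _)) (D.feqM (DF.const _) (DF.const _) (DF.var _) (DF.var _)
      (DF.rn (DF.var _)) (DF.var _) (DF.rn (DF.var _)) (DF.var _)))))) (D.and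
      (D.feqM (DF.const _) (DF.const _) (DF.const _) (DF.var _)
      (DF.rn (DF.var _)) (DF.var _) (DF.rn (DF.var _)) (DF.var _)) (D.ex (D.and
      (D.memf (DF.op (DF.var _) (DF.var _)) (DF.const _))
      (D.feqM (DF.const _) (DF.const _) (DF.var _) (DF.var _)
      (DF.rn (DF.var _)) (DF.var _) (DF.rn (DF.var _)) (DF.var _)))))))))
  have h2 := D.subst (f := ![f, g, h]) h1 (by
    intro k
    fin_cases k <;> assumption)
  exact h2

theorem D.jRM : D (fun v : Fin 3 → M => JRM (v 0) (v 1) (v 2)) := by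
  unfold JRM
  exact D.all (D.imp (D.memf (DF.op (DF.var _) (DF.var _)) (DF.const _)) (D.ex (D.and
    (D.memf (DF.op (DF.var _) (DF.var _)) (DF.const _)) (D.jWM (DF.var _) (DF.var _) (DF.var _)))))

theorem jWM_iff {s : PC M} {y z : Nm (SC M)} :
    JWM (code s) y.1 z.1 ↔ ∃ x n, JW x n y z s := by
  unfold JWM JW
  constructor
  · rintro ⟨x, n, hx, hn, h2, h3, c, h4, h5⟩
    obtain ⟨n, rfl⟩ := mem_dom.1 hn
    obtain ⟨n', h8, rfl⟩ := mem_CYc.1 h4
    obtain rfl := ITy.inj h8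
    refine ⟨⟨x, hx⟩, n, fun π hπ p => ?_, ?_, ?_⟩
    · exact (feqM_iff (g := π) (a := (⟨rn x, hx.1⟩ : El (Tn x))) (b := (⟨rn x, hx.1⟩ : El (Tn x)))
        (p := p)).1 (h2 (code π) (mem_UUc.2 ⟨_, _, rfl, rfl, hπ⟩) (code p) (code_mem_dom p))
    · exact (feqM_LE (a := (⟨rn x, hx.1⟩ : El (Tn x))) (b := y.root)).1 h3
    · exact (feqM_iff (a := (⟨rn x, hx.1⟩ : El (Tn x))) (b := z.root)).1 h5
  · rintro ⟨x, n, h2, h3, h4⟩
    refine ⟨x.1, code n, x.2, code_mem_dom n, ?_,
      (feqM_LE (a := x.root) (b := y.root)).2 h3, code (cyc n), mem_CYc.2 ⟨n, rfl, rfl⟩,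
      (feqM_iff (a := x.root) (b := z.root)).2 h4⟩
    intro g hg p hp
    obtain ⟨l', π, h5, rfl, h6⟩ := mem_UUc.1 hg
    obtain rfl := ITy.inj h5
    obtain ⟨p, rfl⟩ := mem_dom.1 hp
    exact (feqM_iff (g := π) (a := x.root) (b := x.root) (p := p)).2 (h2 π h6 p)

theorem int_jW (y z : Nm (SC M)) : Int M (fun s : PC M => ∃ x n, JW x n y z s) := by
  refine Int.of_D (S := fun v => JWM (v 0) y.1 z.1)
    (D.jWM (DF.var _) (DF.const _) (DF.const _)) fun s => jWM_iff

theorem jRM_iff {s : PC M} {y z : Nm (SC M)} : JRM (code s) y.1 z.1 ↔ JR s y z := by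
  unfold JRM JR
  constructor
  · intro h s' hs'
    obtain ⟨s1, h1, h2⟩ := h (code s') (mem_LEc.2 ⟨_, _, rfl, rfl, hs'⟩)
    obtain ⟨s2, s3, rfl, h6, h7⟩ := mem_LEc.1 h1
    obtain rfl := ITy.inj h6
    exact ⟨s2, h7, jWM_iff.1 h2⟩
  · intro h s' hs'
    obtain ⟨q1, q2, rfl, h11, h12⟩ := mem_LEc.1 hs'
    obtain rfl := ITy.inj h11
    obtain ⟨s2, h1, h2⟩ := h q1 h12
    exact ⟨code s2, mem_LEc.2 ⟨_, _, rfl, rfl, h1⟩, jWM_iff.2 h2⟩

/-! ### Names and supports -/

/-- The name has support `n`. -/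
def SyN (n : INat M) (x : Nm (SC M)) : Prop := Sy (SC M) x.E n x.root

theorem FEqN.act' {p : PC M} {x y : Nm (SC M)} (π : GC M) (h : ∀ p, FEqN p x y) :
    FEqN p (actN π x) (actN π y) := by
  have h1 := (h (π⁻¹ • p)).act π
  rwa [smul_inv_smul] at h1

theorem SyN.act {n : INat M} {x : Nm (SC M)} (h : SyN n x) {π : GC M} (hπ : (SC M).U n π)
    (p : PC M) : FEqN p (actN π x) x :=
  (feq_actN π x p).symm (x.int.tw π) (actN π x).int |>.trans (actN π x).int (x.int.tw π) x.int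
    (h π hπ p)

theorem syN_of {n : INat M} {x : Nm (SC M)}
    (h : ∀ π, (SC M).U n π → ∀ p, FEqN p (actN π x) x) : SyN n x := fun π hπ p =>
  (feq_actN π x p).trans (x.int.tw π) (actN π x).int x.int (h π hπ p)

theorem SyN.mono {n m : INat M} {x : Nm (SC M)} (h : SyN n x) (hn : n ≤ m) : SyN m x :=
  fun π hπ p => h π (U_mono hπ hn) p

theorem SyN.congr {n : INat M} {x y : Nm (SC M)} (h : SyN n x) (hxy : ∀ p, FEqN p x y) :
    SyN n y := syN_of fun π hπ p =>
  ((FEqN.act' π hxy).symm.trans (h.act hπ p)).trans (hxy p)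

theorem exists_syN (x : Nm (SC M)) : ∃ n, SyN n x := x.good.sym x.root

theorem SyN.indep {n : INat M} {x : Nm (SC M)} (h : SyN n x) {π σ : GC M}
    (hπ : (SC M).U n (π⁻¹ * σ)) (p : PC M) : FEqN p (actN π x) (actN σ x) := by
  have h1 := actN_actN π (π⁻¹ * σ) x p
  rw [mul_inv_cancel_left] at h1
  exact (FEqN.act' π fun p => (h.act hπ p).symm).trans h1

theorem SyN.actN {n m : INat M} {x : Nm (SC M)} (h : SyN n x) {ρ : GC M}
    (hm : ∀ i, i < n → pa ρ i < m) : SyN m (actN ρ x) := by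
  refine syN_of fun π hπ p => ?_
  refine (actN_actN π ρ x p).trans (FEqN.symm (h.indep ?_ p))
  intro i hi
  rw [pa_mul, pa_mul, hπ _ (hm i hi), pa_inv, pi'_pa]

/-- The lift of a name. -/
noncomputable def liN (x : Nm (SC M)) : Nm (SC M) := mkNm (good_LE x.good) x.root

theorem feq_liN (x : Nm (SC M)) (p : PC M) :
    FEq M (LE x.E) (liN x).E p x.root (liN x).root := feq_mkNm _ _ _

theorem feqN_liN {x y : Nm (SC M)} {p : PC M} : FEqN p (liN x) (liN y) ↔ FEqN (tl p) x y := by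
  have h1 := feq_liN x p
  have h2 := feq_liN y p
  have i1 := IG.LE x.int
  have i2 := IG.LE y.int
  unfold FEqN
  rw [← feq_LE_iff x.int y.int]
  constructor
  · intro h
    exact (h1.trans i1 (liN x).int (liN y).int h).trans i1 (liN y).int i2
      (h2.symm i2 (liN y).int)
  · intro h
    exact ((h1.symm i1 (liN x).int).trans (liN x).int i1 i2 h).trans (liN x).int i2
      (liN y).int h2

theorem liN_actN (ρ : GC M) (x : Nm (SC M)) (p : PC M) :
    FEqN p (liN (H635.actN ρ x)) (H635.actN (lf ρ) (liN x)) := by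
  have h1 := feq_liN (H635.actN ρ x) p
  have h2 := feq_actN (lf ρ) (liN x) p
  have h3 := feq_tw (SC M) (lf ρ) (feq_liN x ((lf ρ)⁻¹ • p))
  rw [smul_inv_smul, tw_lf_LE] at h3
  have h4 := feq_LE (x.int.tw ρ) (H635.actN ρ x).int (feq_actN ρ x (tl p))
  have i1 := IG.LE (H635.actN ρ x).int
  have i2 := IG.LE (x.int.tw ρ)
  have i3 := (liN x).int.tw (lf ρ)
  exact (((h1.symm i1 (liN _).int).trans (liN _).int i1 i2 (h4.symm i2 i1)).trans (liN _).int i2
    i3 h3).trans (liN _).int i3 (H635.actN _ _).int h2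

theorem jW_iff {x y z : Nm (SC M)} {n : INat M} {s : PC M} : JW x n y z s ↔
    SyN n x ∧ FEqN s (liN x) y ∧ FEqN s (actN (cyc n) x) z := by
  have h1 := feq_liN x s
  have h2 := feq_actN (cyc n) x s
  have i1 := IG.LE x.int
  have i2 := x.int.tw (cyc n)
  refine and_congr_right fun _ => and_congr ?_ ?_
  · exact ⟨fun h => (h1.symm i1 (liN x).int).trans (liN x).int i1 y.int h,
      fun h => h1.trans i1 (liN x).int y.int h⟩
  · exact ⟨fun h => (h2.symm i2 (actN (cyc n) x).int).trans (actN (cyc n) x).int i2 z.int h,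
      fun h => h2.trans i2 (actN (cyc n) x).int z.int h⟩

theorem JR.of_JW {x y z : Nm (SC M)} {n : INat M} {s : PC M} (h : JW x n y z s) : JR s y z := by
  intro s' hs'
  refine ⟨s', le_rfl, x, n, ?_⟩
  obtain ⟨h1, h2, h3⟩ := h
  exact ⟨h1, h2.mono hs', h3.mono hs'⟩

theorem JR.mono {p q : PC M} {x y : Nm (SC M)} (h : JR p x y) (hq : q ≤ p) : JR q x y :=
  fun s' hs' => h s' (hs'.trans hq)

theorem JR.of_dense {p : PC M} {x y : Nm (SC M)}
    (h : ∀ q, q ≤ p → ∃ r, r ≤ q ∧ JR r x y) : JR p x y := by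
  intro s' hs'
  obtain ⟨r, hr, h1⟩ := h s' hs'
  obtain ⟨s'', h2, h3⟩ := h1 r le_rfl
  exact ⟨s'', h2.trans hr, h3⟩

theorem JR.congr {p : PC M} {x y x' y' : Nm (SC M)} (h : JR p x y) (hx : FEqN p x x')
    (hy : FEqN p y y') : JR p x' y' := by
  intro s' hs'
  obtain ⟨s'', h2, w, n, h3⟩ := h s' hs'
  rw [jW_iff] at h3
  exact ⟨s'', h2, w, n, jW_iff.2 ⟨h3.1, h3.2.1.trans (hx.mono (h2.trans hs')),
    h3.2.2.trans (hy.mono (h2.trans hs'))⟩⟩

theorem JR.act {ρ : GC M} {p : PC M} {x y : Nm (SC M)} (h : JR p x y) :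
    JR (lf ρ • p) (H635.actN (lf ρ) x) (H635.actN (lf ρ) y) := by
  intro s' hs'
  obtain ⟨s'', h2, w, n, h3⟩ := h ((lf ρ)⁻¹ • s') (by
    have := (SC M).smul_le (lf ρ)⁻¹ hs'
    simpa using this)
  rw [jW_iff] at h3
  obtain ⟨h3, h4, h5⟩ := h3
  obtain ⟨m, hm⟩ := bound_img ρ n
  refine ⟨lf ρ • s'', ?_, H635.actN ρ w, m, jW_iff.2 ⟨h3.actN hm, ?_, ?_⟩⟩
  · have := (SC M).smul_le (lf ρ) h2
    simpa using this
  · exact (liN_actN ρ w _).trans (h4.act (lf ρ))
  · refine FEqN.trans ?_ (h5.act (lf ρ))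
    refine (actN_actN _ _ _ _).trans (FEqN.trans ?_ (actN_actN _ _ _ _).symm)
    refine h3.indep ?_ _
    have h6 := cyc_lf_U hm
    rw [mul_inv_rev]
    simpa only [mul_assoc] using h6

theorem U_one_iff {π : GC M} : (SC M).U (INat.succ 0) π ↔ pa π 0 = 0 := by
  rw [SC_U]
  constructor
  · exact fun h => h 0 (INat.lt_succ_self _)
  · intro h i hi
    rcases INat.lt_succ_iff'.1 hi with h1 | rfl
    · exact absurd h1 INat.not_lt_zero
    · exact h

variable (M) in
/-- The class of the pairs `(y, j(y))`. -/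
noncomputable def JC : JP (SC M) where
  rel := JR
  mono h hq := JR.mono h hq
  of_dense h := JR.of_dense h
  congr h hx hy := JR.congr h hx hy
  l0 := INat.succ 0
  act {π p x y} hπ h := by
    obtain ⟨ρ, rfl⟩ := exists_lf (U_one_iff.1 hπ)
    exact h.act
  relM := JRM
  defM := D.jRM
  relM_iff := jRM_iff

end

end Pool.Agent.H525C
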