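import Pool.Agent.H913R3.MH.Stmts

/-!
Task 3 of the project of helper913 for MP_3013d0_nt: the one-dimensional theorem from the step.
-/

open MeasureTheory Set Filter Topology
open scoped ENNReal

namespace H525R3.MH

open H913R3.MH

/-- the state of the construction: an interval and a mass -/
structure St where
  a : ℝ
  b : ℝ
  mass : ℝ

/-- admissible states -/
def Good (g : ℝ → ℝ) (Cg K K' r₀ : ℝ) (E : ℕ → Set ℝ) (w : ℕ → ℝ) (s : St) : Prop :=
  0 ≤ s.a ∧ s.a < s.b ∧ s.b ≤ 1 ∧ 0 < s.mass ∧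
    (∀ r, 0 < r → r ≤ r₀ → K' * s.mass * min (r / (s.b - s.a)) 1 ≤ Cg * g r) ∧
    (∑' i, Set.indicator {i | (E i ∩ Icc s.a s.b).Nonempty} w i < K * s.mass)

theorem taskOneDim (hS : TaskStep) : TaskOneDim := by
  intro g Cg hCg hg hmono hquasi hB c σ A hc hσ hcσ hA K hK
  set K' : ℝ := 200 * Cg * K / (c * σ) with hK'
  have hcσ0 : 0 < c * σ := mul_pos hc hσ
  have hK'0 : 0 < K' := by
    rw [hK']
    exact div_pos (by positivity) hcσ0
  obtain ⟨r₀, hr₀, hBr⟩ := hB K'
  refine ⟨r₀, hr₀, ?_⟩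
  intro P M ρ hM hAM hρ hρM hsep hcount hns E δ w hw hws hwK hδ hE hgw
  have step : ∀ (s : St) (k₀ : ℕ), Good g Cg K K' r₀ E w s →
      ∃ s' : St, Good g Cg K K' r₀ E w s' ∧ s.a ≤ s'.a ∧ s'.b ≤ s.b ∧ s'.mass ≤ s.mass / 2 ∧
        ∃ k ≥ k₀, ∃ x ∈ P k, ∀ t ∈ Icc s'.a s'.b, |t - x| < ρ k := by
    intro s k₀ hs
    obtain ⟨h0, h1, h2, h3, h4, h5⟩ := hs
    obtain ⟨a', b', mass', q1, q2, q3, q4, q5, q6, q7, q8⟩ :=
      hS g Cg hCg hg hmono hquasi hB c σ A K K' r₀ hc hσ hcσ hA hK hr₀ hK' P M ρ hM hAM hρ hρM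
        hsep hcount hns E δ w hw hws hδ hE hgw s.a s.b s.mass k₀ h0 h1 h2 h3 h4 h5
    exact ⟨⟨a', b', mass'⟩, ⟨h0.trans q1, q2, q3.trans h2, q4, q6, q7⟩, q1, q3, q5, q8⟩
  have root : Good g Cg K K' r₀ E w ⟨0, 1, 1⟩ := by
    refine ⟨le_rfl, zero_lt_one, le_rfl, zero_lt_one, ?_, ?_⟩
    · intro r hr hrr
      simp only [sub_zero, div_one, mul_one]
      have h1 : K' * min r 1 ≤ K' * r := mul_le_mul_of_nonneg_left (min_le_left _ _) hK'0.le
      have h2 : K' * r ≤ g r := hBr r hr hrr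
      have h3 : g r ≤ Cg * g r := by
        have := hg r hr
        nlinarith
      exact h1.trans (h2.trans h3)
    · simp only [mul_one]
      refine lt_of_le_of_lt ?_ hwK
      have hind : Summable (Set.indicator {i | (E i ∩ Icc (0 : ℝ) 1).Nonempty} w) :=
        hws.indicator _
      exact hind.tsum_le_tsum (fun i => Set.indicator_le_self' (fun _ _ => (hw i).le) i) hws
  -- the sequence of states
  choose! nxt hn1 hn2 hn3 hn4 hn5 using step
  let s : ℕ → St := fun j => Nat.rec ⟨0, 1, 1⟩ (fun j st => nxt st j) j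
  have hs0 : s 0 = ⟨0, 1, 1⟩ := rfl
  have hss : ∀ j, s (j + 1) = nxt (s j) j := fun j => rfl
  have hgood : ∀ j, Good g Cg K K' r₀ E w (s j) := by
    intro j
    induction j with
    | zero => rw [hs0]; exact root
    | succ j ih => rw [hss]; exact hn1 _ _ ih
  have ha : ∀ j, (s j).a ≤ (s (j + 1)).a := fun j => by rw [hss]; exact hn2 _ _ (hgood j)
  have hb : ∀ j, (s (j + 1)).b ≤ (s j).b := fun j => by rw [hss]; exact hn3 _ _ (hgood j)
  have hmass : ∀ j, (s (j + 1)).mass ≤ (s j).mass / 2 := fun j => by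
    rw [hss]; exact hn4 _ _ (hgood j)
  have hmassj : ∀ j, (s j).mass ≤ (1 / 2 : ℝ) ^ j := by
    intro j
    induction j with
    | zero => rw [hs0]; simp
    | succ j ih =>
      have := hmass j
      rw [pow_succ]
      linarith
  -- a common point
  have hne : (⋂ j, Icc (s j).a (s j).b).Nonempty := by
    apply IsCompact.nonempty_iInter_of_sequence_nonempty_isCompact_isClosed
    · intro j
      exact Icc_subset_Icc (ha j) (hb j)
    · intro j
      exact nonempty_Icc.mpr (hgood j).2.1.le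
    · exact isCompact_Icc
    · intro j
      exact isClosed_Icc
  obtain ⟨t, ht⟩ := hne
  rw [mem_iInter] at ht
  refine ⟨t, ?_, ?_, ?_⟩
  · have := ht 0
    rw [hs0] at this
    exact this
  · intro i hti
    have hle : ∀ j, w i ≤ K * (1 / 2 : ℝ) ^ j := by
      intro j
      have hmem : i ∈ {i | (E i ∩ Icc (s j).a (s j).b).Nonempty} := ⟨t, hti, ht j⟩
      have hsum := (hgood j).2.2.2.2.2
      have hind : Summable (Set.indicator {i | (E i ∩ Icc (s j).a (s j).b).Nonempty} w) :=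
        hws.indicator _
      have h1 : Set.indicator {i | (E i ∩ Icc (s j).a (s j).b).Nonempty} w i
          ≤ ∑' i, Set.indicator {i | (E i ∩ Icc (s j).a (s j).b).Nonempty} w i :=
        hind.le_tsum i (fun l _ => Set.indicator_nonneg (fun l _ => (hw l).le) l)
      rw [Set.indicator_of_mem hmem] at h1
      have h2 : K * (s j).mass ≤ K * (1 / 2 : ℝ) ^ j :=
        mul_le_mul_of_nonneg_left (hmassj j) hK.le
      linarith
    have hlim : Tendsto (fun j : ℕ => K * (1 / 2 : ℝ) ^ j) atTop (𝓝 (K * 0)) :=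
      (tendsto_pow_atTop_nhds_zero_of_lt_one (by norm_num) (by norm_num)).const_mul K
    rw [mul_zero] at hlim
    have := ge_of_tendsto' hlim hle
    exact absurd (hw i) (not_lt.mpr this)
  · intro k₀
    obtain ⟨k, hk, x, hx, hxt⟩ := hn5 (s k₀) k₀ (hgood k₀)
    exact ⟨k, hk, x, hx, hxt t (by rw [← hss]; exact ht (k₀ + 1))⟩

end H525R3.MH
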