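import Pool.Agent.H525R3.Fin

/-!
# The conclusion
-/

namespace Pool.Agent.H525C

open FirstOrder FirstOrder.Language
open Pool.Agent.Helper672 Pool.Agent.Helper672.ZFA Pool.Agent.Helper672.ZFA.H635
open Pool.Agent.Helper672.Plain (LSet)
open Pool.Agent.H525Emb
open Pool.Agent.H635Amen (ZF)

universe u

set_option synthInstance.maxSize 2000
set_option linter.unusedSectionVars false

/-- The conclusion for countable models of Collection. -/
theorem conclusion_coll (M : Type u) [L.Structure M] [IsModel M] [Countable M] (hC : CollL M)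
    (hg : Gr M) : ∃ (N : Type u) (_ : LSet.Structure N) (V : LSet.Substructure N)
      (j : V ↪ₑ[LSet] N), ZF V ∧ IsTrans V ∧ V ≠ ⊤ ∧ IsForcingExtension V ∧
      ZFJ N (fun y z => ∃ x : V, (x : N) = y ∧ j x = z) ∧ ∃ x : V, j x ≠ x := by
  obtain ⟨G, hG⟩ := exists_gen (M := M) (top1 : PC M)
  refine ⟨NN (SC M) hG, inferInstance, subV hG, jV hG,
    zf_of_equiv (eV hG) (nn_zf (isGen_GV hG) hC), isTrans_subV hG, ?_, isForcingExtension hg hG, ?_,
    exists_moved hg hG⟩
  · intro h
    refine not_mem_subV hg hG ?_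
    rw [h]
    exact Substructure.mem_top _
  · have h1 := nn_zfj hG (JC M) hC
    have h2 : (JC M).holds hG = fun y z => ∃ x : subV hG, (x : NN (SC M) hG) = y ∧
        jV hG x = z := by
      funext y z
      exact propext (graph_jV hG y z).symm
    rw [h2] at h1
    exact h1

section

attribute [local instance] toL

/-- The conclusion for countable models of ZF. -/
theorem conclusion_countable (M : Type u) [LSet.Structure M] [Countable M] (h : ZF M) :
    ∃ (N : Type u) (_ : LSet.Structure N) (V : LSet.Substructure N)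
      (j : V ↪ₑ[LSet] N), ZF V ∧ IsTrans V ∧ V ≠ ⊤ ∧ IsForcingExtension V ∧
      ZFJ N (fun y z => ∃ x : V, (x : N) = y ∧ j x = z) ∧ ∃ x : V, j x ≠ x := by
  have hM : IsModel M := isModel_of_zermelo h.toZermelo
  exact conclusion_coll M (coll_of_zf h) ⟨fun _ => trivial,
    fun F hD a h1 => h.replacement {p | F p.1 p.2} (definable_of_toL hD) a h1, h.foundation⟩

/-- The conclusion. -/
theorem conclusion (M : Type u) [LSet.Structure M] (h : ZF M) :
    ∃ (N : Type u) (_ : LSet.Structure N) (V : LSet.Substructure N)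
      (j : V ↪ₑ[LSet] N), ZF V ∧ IsTrans V ∧ V ≠ ⊤ ∧ IsForcingExtension V ∧
      ZFJ N (fun y z => ∃ x : V, (x : N) = y ∧ j x = z) ∧ ∃ x : V, j x ≠ x := by
  obtain ⟨M₀, _, h₀⟩ := exists_countable_sub M h
  exact conclusion_countable M₀ h₀

end

end Pool.Agent.H525C
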