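import Pool.Agent.H525R3.Big
import Pool.Agent.H525R3.Ground

/-!
# Names for the first column over the extension given by the other columns
-/

namespace Pool.Agent.H525C

open FirstOrder FirstOrder.Language
open Pool.Agent.Helper672 Pool.Agent.Helper672.ZFA Pool.Agent.Helper672.ZFA.H635
open Pool.Agent.Helper672.Plain (LSet)
open Pool.Agent.H525Emb

universe u

set_option synthInstance.maxSize 2000
set_option linter.unusedSectionVars false

section

variable {M : Type u} [L.Structure M] [hM : IsModel M]
variable {α : Type u} [ITy M α] {E : α → PC M → α → Prop} {t : M}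

variable (M α t) in
/-- The nodes of the graph of names. -/
abbrev NT : Type u := (GC M × α) ⊕ ((GC M × α) ⊕ (((GC M × α) × C0 M) ⊕ (((GC M × α) × C0 M) ⊕ El t)))

/-- The name of a node. -/
def nT (x : GC M × α) : NT M α t := Sum.inl x
/-- The singleton of the name. -/
def nS (x : GC M × α) : NT M α t := Sum.inr (Sum.inl x)
/-- The unordered pair of the name and a condition. -/
def nD (x : (GC M × α) × C0 M) : NT M α t := Sum.inr (Sum.inr (Sum.inl x))
/-- The ordered pair of the name and a condition. -/
def nO (x : (GC M × α) × C0 M) : NT M α t := Sum.inr (Sum.inr (Sum.inr (Sum.inl x)))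
/-- The elements of the ground model. -/
def nK (x : El t) : NT M α t := Sum.inr (Sum.inr (Sum.inr (Sum.inr x)))

theorem int_nT : IntF M (nT : GC M × α → NT M α t) := by unfold nT; (repeat' (first | with_reducible exact IntF.id | with_reducible exact IntF.fst' | with_reducible exact IntF.snd' | with_reducible exact IntF.const _ | with_reducible exact Int.const _ | assumption | with_reducible apply ZFA.Int.and | with_reducible apply ZFA.Int.or | with_reducible apply ZFA.Int.not | with_reducible apply Int.imp | with_reducible apply Int.iff | with_reducible apply Int.ne | with_reducible apply Int.eq | with_reducible apply Int.mem | with_reducible apply Int.subset | with_reducible apply Int.ltN | with_reducible apply Int.leN | with_reducible_and_instances apply ZFA.Int.le | with_reducible_and_instances apply ZFA.Int.lt | with_reducible apply Int.all | with_reducible apply Int.ex | with_reducible apply IntF.fst | with_reducible apply IntF.snd | with_reducible apply IntF.app | with_reducible apply IntF.inl | with_reducible apply IntF.inr | with_reducible_and_instances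 apply IntF.mul | with_reducible_and_instances apply IntF.inv | with_reducible_and_instances apply IntF.add | with_reducible_and_instances apply IntF.sub | with_reducible_and_instances apply IntF.neg | with_reducible_and_instances apply IntF.smul | with_reducible apply IntF.succ | (with_reducible refine Int.comp ?_ ?_; assumption) | (with_reducible refine Int.comp₂ ?_ ?_ ?_; assumption) | (with_reducible refine Int.comp₃ ?_ ?_ ?_ ?_; assumption) | (with_reducible refine Int.comp₄ ?_ ?_ ?_ ?_ ?_; assumption) | (with_reducible refine IntF.comp ?_ ?_; assumption) | (with_reducible refine IntF.comp₂ ?_ ?_ ?_; assumption) | (with_reducible refine IntF.comp₃ ?_ ?_ ?_ ?_; assumption) | with_reducible apply IntF.val | with_reducible apply IntF.pair))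
theorem int_nS : IntF M (nS : GC M × α → NT M α t) := by unfold nS; (repeat' (first | with_reducible exact IntF.id | with_reducible exact IntF.fst' | with_reducible exact IntF.snd' | with_reducible exact IntF.const _ | with_reducible exact Int.const _ | assumption | with_reducible apply ZFA.Int.and | with_reducible apply ZFA.Int.or | with_reducible apply ZFA.Int.not | with_reducible apply Int.imp | with_reducible apply Int.iff | with_reducible apply Int.ne | with_reducible apply Int.eq | with_reducible apply Int.mem | with_reducible apply Int.subset | with_reducible apply Int.ltN | with_reducible apply Int.leN | with_reducible_and_instances apply ZFA.Int.le | with_reducible_and_instances apply ZFA.Int.lt | with_reducible apply Int.all | with_reducible apply Int.ex | with_reducible apply IntF.fst | with_reducible apply IntF.snd | with_reducible apply IntF.app | with_reducible apply IntF.inl | with_reducible apply IntF.inr | with_reducible_and_instances apply IntF.mul | with_reducible_and_instances apply IntF.inv | with_reducible_and_instances apply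 IntF.add | with_reducible_and_instances apply IntF.sub | with_reducible_and_instances apply IntF.neg | with_reducible_and_instances apply IntF.smul | with_reducible apply IntF.succ | (with_reducible refine Int.comp ?_ ?_; assumption) | (with_reducible refine Int.comp₂ ?_ ?_ ?_; assumption) | (with_reducible refine Int.comp₃ ?_ ?_ ?_ ?_; assumption) | (with_reducible refine Int.comp₄ ?_ ?_ ?_ ?_ ?_; assumption) | (with_reducible refine IntF.comp ?_ ?_; assumption) | (with_reducible refine IntF.comp₂ ?_ ?_ ?_; assumption) | (with_reducible refine IntF.comp₃ ?_ ?_ ?_ ?_; assumption) | with_reducible apply IntF.val | with_reducible apply IntF.pair))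
theorem int_nD : IntF M (nD : (GC M × α) × C0 M → NT M α t) := by unfold nD; (repeat' (first | with_reducible exact IntF.id | with_reducible exact IntF.fst' | with_reducible exact IntF.snd' | with_reducible exact IntF.const _ | with_reducible exact Int.const _ | assumption | with_reducible apply ZFA.Int.and | with_reducible apply ZFA.Int.or | with_reducible apply ZFA.Int.not | with_reducible apply Int.imp | with_reducible apply Int.iff | with_reducible apply Int.ne | with_reducible apply Int.eq | with_reducible apply Int.mem | with_reducible apply Int.subset | with_reducible apply Int.ltN | with_reducible apply Int.leN | with_reducible_and_instances apply ZFA.Int.le | with_reducible_and_instances apply ZFA.Int.lt | with_reducible apply Int.all | with_reducible apply Int.ex | with_reducible apply IntF.fst | with_reducible apply IntF.snd | with_reducible apply IntF.app | with_reducible apply IntF.inl | with_reducible apply IntF.inr | with_reducible_and_instances apply IntF.mul | with_reducible_and_instances apply IntF.inv | with_reducible_and_instances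 apply IntF.add | with_reducible_and_instances apply IntF.sub | with_reducible_and_instances apply IntF.neg | with_reducible_and_instances apply IntF.smul | with_reducible apply IntF.succ | (with_reducible refine Int.comp ?_ ?_; assumption) | (with_reducible refine Int.comp₂ ?_ ?_ ?_; assumption) | (with_reducible refine Int.comp₃ ?_ ?_ ?_ ?_; assumption) | (with_reducible refine Int.comp₄ ?_ ?_ ?_ ?_ ?_; assumption) | (with_reducible refine IntF.comp ?_ ?_; assumption) | (with_reducible refine IntF.comp₂ ?_ ?_ ?_; assumption) | (with_reducible refine IntF.comp₃ ?_ ?_ ?_ ?_; assumption) | with_reducible apply IntF.val | with_reducible apply IntF.pair))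
theorem int_nO : IntF M (nO : (GC M × α) × C0 M → NT M α t) := by unfold nO; (repeat' (first | with_reducible exact IntF.id | with_reducible exact IntF.fst' | with_reducible exact IntF.snd' | with_reducible exact IntF.const _ | with_reducible exact Int.const _ | assumption | with_reducible apply ZFA.Int.and | with_reducible apply ZFA.Int.or | with_reducible apply ZFA.Int.not | with_reducible apply Int.imp | with_reducible apply Int.iff | with_reducible apply Int.ne | with_reducible apply Int.eq | with_reducible apply Int.mem | with_reducible apply Int.subset | with_reducible apply Int.ltN | with_reducible apply Int.leN | with_reducible_and_instances apply ZFA.Int.le | with_reducible_and_instances apply ZFA.Int.lt | with_reducible apply Int.all | with_reducible apply Int.ex | with_reducible apply IntF.fst | with_reducible apply IntF.snd | with_reducible apply IntF.app | with_reducible apply IntF.inl | with_reducible apply IntF.inr | with_reducible_and_instances apply IntF.mul | with_reducible_and_instances apply IntF.inv | with_reducible_and_instances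 apply IntF.add | with_reducible_and_instances apply IntF.sub | with_reducible_and_instances apply IntF.neg | with_reducible_and_instances apply IntF.smul | with_reducible apply IntF.succ | (with_reducible refine Int.comp ?_ ?_; assumption) | (with_reducible refine Int.comp₂ ?_ ?_ ?_; assumption) | (with_reducible refine Int.comp₃ ?_ ?_ ?_ ?_; assumption) | (with_reducible refine Int.comp₄ ?_ ?_ ?_ ?_ ?_; assumption) | (with_reducible refine IntF.comp ?_ ?_; assumption) | (with_reducible refine IntF.comp₂ ?_ ?_ ?_; assumption) | (with_reducible refine IntF.comp₃ ?_ ?_ ?_ ?_; assumption) | with_reducible apply IntF.val | with_reducible apply IntF.pair))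
theorem int_nK : IntF M (nK : El t → NT M α t) := by unfold nK; (repeat' (first | with_reducible exact IntF.id | with_reducible exact IntF.fst' | with_reducible exact IntF.snd' | with_reducible exact IntF.const _ | with_reducible exact Int.const _ | assumption | with_reducible apply ZFA.Int.and | with_reducible apply ZFA.Int.or | with_reducible apply ZFA.Int.not | with_reducible apply Int.imp | with_reducible apply Int.iff | with_reducible apply Int.ne | with_reducible apply Int.eq | with_reducible apply Int.mem | with_reducible apply Int.subset | with_reducible apply Int.ltN | with_reducible apply Int.leN | with_reducible_and_instances apply ZFA.Int.le | with_reducible_and_instances apply ZFA.Int.lt | with_reducible apply Int.all | with_reducible apply Int.ex | with_reducible apply IntF.fst | with_reducible apply IntF.snd | with_reducible apply IntF.app | with_reducible apply IntF.inl | with_reducible apply IntF.inr | with_reducible_and_instances apply IntF.mul | with_reducible_and_instances apply IntF.inv | with_reducible_and_instances apply IntF.add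 | with_reducible_and_instances apply IntF.sub | with_reducible_and_instances apply IntF.neg | with_reducible_and_instances apply IntF.smul | with_reducible apply IntF.succ | (with_reducible refine Int.comp ?_ ?_; assumption) | (with_reducible refine Int.comp₂ ?_ ?_ ?_; assumption) | (with_reducible refine Int.comp₃ ?_ ?_ ?_ ?_; assumption) | (with_reducible refine Int.comp₄ ?_ ?_ ?_ ?_ ?_; assumption) | (with_reducible refine IntF.comp ?_ ?_; assumption) | (with_reducible refine IntF.comp₂ ?_ ?_ ?_; assumption) | (with_reducible refine IntF.comp₃ ?_ ?_ ?_ ?_; assumption) | with_reducible apply IntF.val | with_reducible apply IntF.pair))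

/-- A node is a condition. -/
def IsCd (k : El t) (c : C0 M) : Prop := k.1 = code c

theorem int_isCd : Int M (fun q : El t × C0 M => IsCd q.1 q.2) := by
  refine Int.of_D₂ (S := fun v => v 0 = v 1) (D.eqf (DF.var _) (DF.var _)) fun _ _ => Iff.rfl

/-- Membership of nodes. -/
def KM (k k' : El t) : Prop := Mem k.1 k'.1

theorem int_KM : Int M (fun q : El t × El t => KM q.1 q.2) := int_val

/-- The condition for an element of a name. -/
def NQ (E : α → PC M → α → Prop) (y : GC M × α) (c : C0 M) (p : PC M) (x : GC M × α) : Prop :=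
  Ch E y x ∧ FMem M (bgE E) (bgE E) (am p c) y x

theorem int_nQ (hE : IG M E) : Int M (fun q : (((GC M × α) × C0 M) × PC M) × (GC M × α) =>
    NQ E q.1.1.1 q.1.1.2 q.1.2 q.2) := by
  unfold NQ
  have h1 := int_ch hE
  have h2 : IntF M (fun q : PC M × C0 M => am q.1 q.2) := int_am
  have hI := (IG.bg hE).fmem (IG.bg hE)
  refine Int.and ?_ ?_
  · (repeat' (first | with_reducible exact IntF.id | with_reducible exact IntF.fst' | with_reducible exact IntF.snd' | with_reducible exact IntF.const _ | with_reducible exact Int.const _ | assumption | with_reducible apply ZFA.Int.and | with_reducible apply ZFA.Int.or | with_reducible apply ZFA.Int.not | with_reducible apply Int.imp | with_reducible apply Int.iff | with_reducible apply Int.ne | with_reducible apply Int.eq | with_reducible apply Int.mem | with_reducible apply Int.subset | with_reducible apply Int.ltN | with_reducible apply Int.leN | with_reducible_and_instances apply ZFA.Int.le | with_reducible_and_instances apply ZFA.Int.lt | with_reducible apply Int.all | with_reducible apply Int.ex | with_reducible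 apply IntF.fst | with_reducible apply IntF.snd | with_reducible apply IntF.app | with_reducible apply IntF.inl | with_reducible apply IntF.inr | with_reducible_and_instances apply IntF.mul | with_reducible_and_instances apply IntF.inv | with_reducible_and_instances apply IntF.add | with_reducible_and_instances apply IntF.sub | with_reducible_and_instances apply IntF.neg | with_reducible_and_instances apply IntF.smul | with_reducible apply IntF.succ | (with_reducible refine Int.comp ?_ ?_; assumption) | (with_reducible refine Int.comp₂ ?_ ?_ ?_; assumption) | (with_reducible refine Int.comp₃ ?_ ?_ ?_ ?_; assumption) | (with_reducible refine Int.comp₄ ?_ ?_ ?_ ?_ ?_; assumption) | (with_reducible refine IntF.comp ?_ ?_; assumption) | (with_reducible refine IntF.comp₂ ?_ ?_ ?_; assumption) | (with_reducible refine IntF.comp₃ ?_ ?_ ?_ ?_; assumption) | with_reducible apply IntF.val | with_reducible apply IntF.pair))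
  · refine Int.comp₃ (p := fun p a b => FMem M (bgE E) (bgE E) p a b) hI ?_ ?_ ?_
    all_goals (repeat' (first | with_reducible exact IntF.id | with_reducible exact IntF.fst' | with_reducible exact IntF.snd' | with_reducible exact IntF.const _ | with_reducible exact Int.const _ | assumption | with_reducible apply ZFA.Int.and | with_reducible apply ZFA.Int.or | with_reducible apply ZFA.Int.not | with_reducible apply Int.imp | with_reducible apply Int.iff | with_reducible apply Int.ne | with_reducible apply Int.eq | with_reducible apply Int.mem | with_reducible apply Int.subset | with_reducible apply Int.ltN | with_reducible apply Int.leN | with_reducible_and_instances apply ZFA.Int.le | with_reducible_and_instances apply ZFA.Int.lt | with_reducible apply Int.all | with_reducible apply Int.ex | with_reducible apply IntF.fst | with_reducible apply IntF.snd | with_reducible apply IntF.app | with_reducible apply IntF.inl | with_reducible apply IntF.inr | with_reducible_and_instances apply IntF.mul | with_reducible_and_instances apply IntF.inv | with_reducible_and_instances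 apply IntF.add | with_reducible_and_instances apply IntF.sub | with_reducible_and_instances apply IntF.neg | with_reducible_and_instances apply IntF.smul | with_reducible apply IntF.succ | (with_reducible refine Int.comp ?_ ?_; assumption) | (with_reducible refine Int.comp₂ ?_ ?_ ?_; assumption) | (with_reducible refine Int.comp₃ ?_ ?_ ?_ ?_; assumption) | (with_reducible refine Int.comp₄ ?_ ?_ ?_ ?_ ?_; assumption) | (with_reducible refine IntF.comp ?_ ?_; assumption) | (with_reducible refine IntF.comp₂ ?_ ?_ ?_; assumption) | (with_reducible refine IntF.comp₃ ?_ ?_ ?_ ?_; assumption) | with_reducible apply IntF.val | with_reducible apply IntF.pair))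

/-- The graph of names. -/
def NG (E : α → PC M → α → Prop) (u : NT M α t) (p : PC M) (v : NT M α t) : Prop :=
  (∃ y c x, u = nO (y, c) ∧ v = nT x ∧ NQ E y c p x) ∨
  (∃ y, u = nT y ∧ v = nS y) ∨
  (∃ y, ∃ c : C0 M, u = nT y ∧ v = nD (y, c)) ∨
  (∃ k, ∃ y, ∃ c : C0 M, u = nK k ∧ v = nD (y, c) ∧ IsCd k c) ∨
  (∃ y, ∃ c : C0 M, u = nS y ∧ v = nO (y, c)) ∨
  (∃ y, ∃ c : C0 M, u = nD (y, c) ∧ v = nO (y, c)) ∨
  (∃ k k', u = nK k ∧ v = nK k' ∧ KM k k')

theorem int_nG (hE : IG M E) : IG M (NG E : NT M α t → PC M → NT M α t → Prop) := by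
  have h1 := int_nQ hE
  have h2 : Int M (fun q : El t × C0 M => IsCd q.1 q.2) := int_isCd
  have h3 : Int M (fun q : El t × El t => KM q.1 q.2) := int_KM
  have i1 : IntF M (nT : GC M × α → NT M α t) := int_nT
  have i2 : IntF M (nS : GC M × α → NT M α t) := int_nS
  have i3 : IntF M (nD : (GC M × α) × C0 M → NT M α t) := int_nD
  have i4 : IntF M (nO : (GC M × α) × C0 M → NT M α t) := int_nO
  have i5 : IntF M (nK : El t → NT M α t) := int_nK
  unfold IG NG
  (repeat' (first | with_reducible exact IntF.id | with_reducible exact IntF.fst' | with_reducible exact IntF.snd' | with_reducible exact IntF.const _ | with_reducible exact Int.const _ | assumption | with_reducible apply ZFA.Int.and | with_reducible apply ZFA.Int.or | with_reducible apply ZFA.Int.not | with_reducible apply Int.imp | with_reducible apply Int.iff | with_reducible apply Int.ne | with_reducible apply Int.eq | with_reducible apply Int.mem | with_reducible apply Int.subset | with_reducible apply Int.ltN | with_reducible apply Int.leN | with_reducible_and_instances apply ZFA.Int.le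 | with_reducible_and_instances apply ZFA.Int.lt | with_reducible apply Int.all | with_reducible apply Int.ex | with_reducible apply IntF.fst | with_reducible apply IntF.snd | with_reducible apply IntF.app | with_reducible apply IntF.inl | with_reducible apply IntF.inr | with_reducible_and_instances apply IntF.mul | with_reducible_and_instances apply IntF.inv | with_reducible_and_instances apply IntF.add | with_reducible_and_instances apply IntF.sub | with_reducible_and_instances apply IntF.neg | with_reducible_and_instances apply IntF.smul | with_reducible apply IntF.succ | (with_reducible refine Int.comp ?_ ?_; assumption) | (with_reducible refine Int.comp₂ ?_ ?_ ?_; assumption) | (with_reducible refine Int.comp₃ ?_ ?_ ?_ ?_; assumption) | (with_reducible refine Int.comp₄ ?_ ?_ ?_ ?_ ?_; assumption) | (with_reducible refine IntF.comp ?_ ?_; assumption) | (with_reducible refine IntF.comp₂ ?_ ?_ ?_; assumption) | (with_reducible refine IntF.comp₃ ?_ ?_ ?_ ?_; assumption) | with_reducible apply IntF.val | with_reducible apply IntF.pair))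

variable {u v : NT M α t} {p : PC M} {x y : GC M × α} {c c' : C0 M} {k k' : El t}

theorem nT_inj : (nT x : NT M α t) = nT y ↔ x = y := by simp [nT]
theorem nS_inj : (nS x : NT M α t) = nS y ↔ x = y := by simp [nS]
theorem nD_inj : (nD (x, c) : NT M α t) = nD (y, c') ↔ x = y ∧ c = c' := by simp [nD]
theorem nO_inj : (nO (x, c) : NT M α t) = nO (y, c') ↔ x = y ∧ c = c' := by simp [nO]
theorem nK_inj : (nK k : NT M α t) = nK k' ↔ k = k' := by simp [nK]

theorem nG_T : NG E u p (nT x) ↔ ∃ y c, u = nO (y, c) ∧ NQ E y c p x := by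
  constructor
  · rintro (⟨y, c, x', h1, h2, h3⟩ | ⟨y, h1, h2⟩ | ⟨y, c, h1, h2⟩ | ⟨k, y, c, h1, h2, h3⟩ |
      ⟨y, c, h1, h2⟩ | ⟨y, c, h1, h2⟩ | ⟨k, k', h1, h2, h3⟩)
    · rw [nT_inj] at h2
      subst h2
      exact ⟨y, c, h1, h3⟩
    all_goals cases h2
  · rintro ⟨y, c, h1, h2⟩
    exact Or.inl ⟨y, c, x, h1, rfl, h2⟩

theorem nG_S : NG E u p (nS x) ↔ u = nT x := by
  constructor
  · rintro (⟨y, c, x', h1, h2, h3⟩ | ⟨y, h1, h2⟩ | ⟨y, c, h1, h2⟩ | ⟨k, y, c, h1, h2, h3⟩ |
      ⟨y, c, h1, h2⟩ | ⟨y, c, h1, h2⟩ | ⟨k, k', h1, h2, h3⟩)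
    · cases h2
    · rw [nS_inj] at h2
      subst h2
      exact h1
    all_goals cases h2
  · exact fun h => Or.inr (Or.inl ⟨x, h, rfl⟩)

theorem nG_D : NG E u p (nD (x, c)) ↔ u = nT x ∨ ∃ k, u = nK k ∧ IsCd k c := by
  constructor
  · rintro (⟨y, c', x', h1, h2, h3⟩ | ⟨y, h1, h2⟩ | ⟨y, c', h1, h2⟩ | ⟨k, y, c', h1, h2, h3⟩ |
      ⟨y, c', h1, h2⟩ | ⟨y, c', h1, h2⟩ | ⟨k, k', h1, h2, h3⟩)
    · cases h2
    · cases h2
    · obtain ⟨rfl, rfl⟩ := nD_inj.1 h2
      exact Or.inl h1
    · obtain ⟨rfl, rfl⟩ := nD_inj.1 h2
      exact Or.inr ⟨k, h1, h3⟩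
    all_goals cases h2
  · rintro (h | ⟨k, h1, h2⟩)
    · exact Or.inr (Or.inr (Or.inl ⟨x, c, h, rfl⟩))
    · exact Or.inr (Or.inr (Or.inr (Or.inl ⟨k, x, c, h1, rfl, h2⟩)))

theorem nG_O : NG E u p (nO (x, c)) ↔ u = nS x ∨ u = nD (x, c) := by
  constructor
  · rintro (⟨y, c', x', h1, h2, h3⟩ | ⟨y, h1, h2⟩ | ⟨y, c', h1, h2⟩ | ⟨k, y, c', h1, h2, h3⟩ |
      ⟨y, c', h1, h2⟩ | ⟨y, c', h1, h2⟩ | ⟨k, k', h1, h2, h3⟩)
    · cases h2
    · cases h2
    · cases h2
    · cases h2
    · obtain ⟨rfl, rfl⟩ := nO_inj.1 h2
      exact Or.inl h1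
    · obtain ⟨rfl, rfl⟩ := nO_inj.1 h2
      exact Or.inr h1
    · cases h2
  · rintro (h | h)
    · exact Or.inr (Or.inr (Or.inr (Or.inr (Or.inl ⟨x, c, h, rfl⟩))))
    · exact Or.inr (Or.inr (Or.inr (Or.inr (Or.inr (Or.inl ⟨x, c, h, rfl⟩)))))

theorem nG_K : NG E u p (nK k) ↔ ∃ k', u = nK k' ∧ KM k' k := by
  constructor
  · rintro (⟨y, c', x', h1, h2, h3⟩ | ⟨y, h1, h2⟩ | ⟨y, c', h1, h2⟩ | ⟨k, y, c', h1, h2, h3⟩ |
      ⟨y, c', h1, h2⟩ | ⟨y, c', h1, h2⟩ | ⟨k, k', h1, h2, h3⟩)
    · cases h2
    · cases h2
    · cases h2
    · cases h2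
    · cases h2
    · cases h2
    · rw [nK_inj] at h2
      subst h2
      exact ⟨k, h1, h3⟩
  · rintro ⟨k', h1, h2⟩
    exact Or.inr (Or.inr (Or.inr (Or.inr (Or.inr (Or.inr ⟨k', k, h1, rfl, h2⟩)))))

/-- Being moved by a permutation, for the nodes of the graph of names. -/
def Mw (E : α → PC M → α → Prop) (ρ : GC M) (u v : NT M α t) : Prop :=
  (∃ x y, u = nT x ∧ v = nT y ∧ Mv E ρ x y) ∨
  (∃ x y, u = nS x ∧ v = nS y ∧ Mv E ρ x y) ∨
  (∃ x y, ∃ c : C0 M, u = nD (x, c) ∧ v = nD (y, c) ∧ Mv E ρ x y) ∨
  (∃ x y, ∃ c : C0 M, u = nO (x, c) ∧ v = nO (y, c) ∧ Mv E ρ x y) ∨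
  (∃ k, u = nK k ∧ v = nK k)

theorem int_mw (hE : IG M E) (ρ : GC M) :
    Int M (fun q : NT M α t × NT M α t => Mw E ρ q.1 q.2) := by
  have h1 := int_mv hE ρ
  have i1 : IntF M (nT : GC M × α → NT M α t) := int_nT
  have i2 : IntF M (nS : GC M × α → NT M α t) := int_nS
  have i3 : IntF M (nD : (GC M × α) × C0 M → NT M α t) := int_nD
  have i4 : IntF M (nO : (GC M × α) × C0 M → NT M α t) := int_nO
  have i5 : IntF M (nK : El t → NT M α t) := int_nK
  unfold Mw
  (repeat' (first | with_reducible exact IntF.id | with_reducible exact IntF.fst' | with_reducible exact IntF.snd' | with_reducible exact IntF.const _ | with_reducible exact Int.const _ | assumption | with_reducible apply ZFA.Int.and | with_reducible apply ZFA.Int.or | with_reducible apply ZFA.Int.not | with_reducible apply Int.imp | with_reducible apply Int.iff | with_reducible apply Int.ne | with_reducible apply Int.eq | with_reducible apply Int.mem | with_reducible apply Int.subset | with_reducible apply Int.ltN | with_reducible apply Int.leN | with_reducible_and_instances apply ZFA.Int.le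 | with_reducible_and_instances apply ZFA.Int.lt | with_reducible apply Int.all | with_reducible apply Int.ex | with_reducible apply IntF.fst | with_reducible apply IntF.snd | with_reducible apply IntF.app | with_reducible apply IntF.inl | with_reducible apply IntF.inr | with_reducible_and_instances apply IntF.mul | with_reducible_and_instances apply IntF.inv | with_reducible_and_instances apply IntF.add | with_reducible_and_instances apply IntF.sub | with_reducible_and_instances apply IntF.neg | with_reducible_and_instances apply IntF.smul | with_reducible apply IntF.succ | (with_reducible refine Int.comp ?_ ?_; assumption) | (with_reducible refine Int.comp₂ ?_ ?_ ?_; assumption) | (with_reducible refine Int.comp₃ ?_ ?_ ?_ ?_; assumption) | (with_reducible refine Int.comp₄ ?_ ?_ ?_ ?_ ?_; assumption) | (with_reducible refine IntF.comp ?_ ?_; assumption) | (with_reducible refine IntF.comp₂ ?_ ?_ ?_; assumption) | (with_reducible refine IntF.comp₃ ?_ ?_ ?_ ?_; assumption) | with_reducible apply IntF.val | with_reducible apply IntF.pair))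

theorem fmem_tw_iff' {E : α → PC M → α → Prop} {a b : α} {p : PC M} (π : GC M) :
    FMem M (tw π E) (tw π E) (π • p) a b ↔ FMem M E E p a b := by
  refine ⟨fun h => ?_, fmem_tw (SC M) π⟩
  have := fmem_tw (SC M) π⁻¹ h
  rwa [tw_inv_tw, inv_smul_smul] at this

theorem nQ_mv (hE : IG M E) {ρ : GC M} {x y z : GC M × α} (hxy : Mv E (lf ρ) x y) {c : C0 M}
    {s : PC M} : NQ E z c (ρ⁻¹ • s) x ↔ NQ E (lf ρ * z.1, z.2) c s y := by
  obtain ⟨h1, h2⟩ := hxy
  have i1 := IG.bg hE
  have i2 := (IG.bg hE).tw (lf ρ)
  have h3 : lf ρ • am (ρ⁻¹ • s) c = am s c := by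
    rw [← am_smul, smul_inv_smul]
  have h4 := feq_tw_bg (E := E) (lf ρ) z (am s c)
  have h5 : FEq M (tw (lf ρ) (bgE E)) (bgE E) (am s c) x y :=
    (feq_tw_bg (lf ρ) x (am s c)).trans i2 i1 i1 (h2 _)
  unfold NQ
  refine and_congr ?_ ?_
  · unfold Ch
    rw [h1]
  · rw [← fmem_tw_iff' (lf ρ), h3]
    constructor
    · intro h
      exact FMem.congr_left i1 i2 i1 (h4.symm i2 i1) (FMem.congr_right i2 i2 i1 h h5)
    · intro h
      exact FMem.congr_left i2 i1 i2 h4 (FMem.congr_right i1 i1 i2 h (h5.symm i2 i1))

theorem feq_mw (hE : IG M E) {ρ : GC M} {u v : NT M α t} (huv : Mw E (lf ρ) u v) (p : PC M) :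
    FEq M (tw ρ (NG E)) (NG E) p u v := by
  refine FEq.of_rel (r := fun _ u v => Mw E (lf ρ) u v) ?_ ?_ huv
  · have h1 : Int M (fun q : NT M α t × NT M α t => Mw E (lf ρ) q.1 q.2) := int_mw hE (lf ρ)
    exact Int.comp₂ (p := fun u v : NT M α t => Mw E (lf ρ) u v) h1 (IntF.snd IntF.fst')
      IntF.snd'
  · intro q u v h
    refine ⟨fun _ _ => h, ?_, ?_⟩
    · intro a' s h1 q' _ h3
      refine ⟨q', le_rfl, ?_⟩
      change NG E a' (ρ⁻¹ • s) u at h1
      rcases h with ⟨x, y, rfl, rfl, h⟩ | ⟨x, y, rfl, rfl, h⟩ | ⟨x, y, c, rfl, rfl, h⟩ |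
        ⟨x, y, c, rfl, rfl, h⟩ | ⟨k, rfl, rfl⟩
      · obtain ⟨z, c, rfl, h4⟩ := nG_T.1 h1
        exact ⟨nO ((lf ρ * z.1, z.2), c), s, nG_T.2 ⟨_, _, rfl, (nQ_mv hE h).1 h4⟩, h3,
          Or.inr (Or.inr (Or.inr (Or.inl ⟨_, _, _, rfl, rfl, mv_self _ _⟩)))⟩
      · rw [nG_S] at h1
        subst h1
        exact ⟨nT y, s, nG_S.2 rfl, h3, Or.inl ⟨_, _, rfl, rfl, h⟩⟩
      · rw [nG_D] at h1
        rcases h1 with rfl | ⟨k, rfl, h4⟩
        · exact ⟨nT y, s, nG_D.2 (Or.inl rfl), h3, Or.inl ⟨_, _, rfl, rfl, h⟩⟩
        · exact ⟨nK k, s, nG_D.2 (Or.inr ⟨k, rfl, h4⟩), h3,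
            Or.inr (Or.inr (Or.inr (Or.inr ⟨k, rfl, rfl⟩)))⟩
      · rw [nG_O] at h1
        rcases h1 with rfl | rfl
        · exact ⟨nS y, s, nG_O.2 (Or.inl rfl), h3, Or.inr (Or.inl ⟨_, _, rfl, rfl, h⟩)⟩
        · exact ⟨nD (y, c), s, nG_O.2 (Or.inr rfl), h3,
            Or.inr (Or.inr (Or.inl ⟨_, _, _, rfl, rfl, h⟩))⟩
      · rw [nG_K] at h1
        obtain ⟨k', rfl, h4⟩ := h1
        exact ⟨nK k', s, nG_K.2 ⟨k', rfl, h4⟩, h3,
            Or.inr (Or.inr (Or.inr (Or.inr ⟨k', rfl, rfl⟩)))⟩
    · intro b' s h1 q' _ h3
      refine ⟨q', le_rfl, ?_⟩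
      rcases h with ⟨x, y, rfl, rfl, h⟩ | ⟨x, y, rfl, rfl, h⟩ | ⟨x, y, c, rfl, rfl, h⟩ |
        ⟨x, y, c, rfl, rfl, h⟩ | ⟨k, rfl, rfl⟩
      · obtain ⟨z, c, rfl, h4⟩ := nG_T.1 h1
        have h5 : z = (lf ρ * ((lf ρ)⁻¹ * z.1), z.2) := by rw [mul_inv_cancel_left]
        rw [h5] at h4
        refine ⟨nO (((lf ρ)⁻¹ * z.1, z.2), c), s,
          nG_T.2 ⟨_, _, rfl, (nQ_mv hE (z := ((lf ρ)⁻¹ * z.1, z.2)) h).2 h4⟩, h3, ?_⟩
        have h6 := mv_self (E := E) (lf ρ) ((lf ρ)⁻¹ * z.1, z.2)
        rw [← h5] at h6
        exact Or.inr (Or.inr (Or.inr (Or.inl ⟨_, _, _, rfl, rfl, h6⟩)))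
      · rw [nG_S] at h1
        subst h1
        exact ⟨nT x, s, nG_S.2 rfl, h3, Or.inl ⟨_, _, rfl, rfl, h⟩⟩
      · rw [nG_D] at h1
        rcases h1 with rfl | ⟨k, rfl, h4⟩
        · exact ⟨nT x, s, nG_D.2 (Or.inl rfl), h3, Or.inl ⟨_, _, rfl, rfl, h⟩⟩
        · exact ⟨nK k, s, nG_D.2 (Or.inr ⟨k, rfl, h4⟩), h3,
            Or.inr (Or.inr (Or.inr (Or.inr ⟨k, rfl, rfl⟩)))⟩
      · rw [nG_O] at h1
        rcases h1 with rfl | rfl
        · exact ⟨nS x, s, nG_O.2 (Or.inl rfl), h3, Or.inr (Or.inl ⟨_, _, rfl, rfl, h⟩)⟩
        · exact ⟨nD (x, c), s, nG_O.2 (Or.inr rfl), h3,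
            Or.inr (Or.inr (Or.inl ⟨_, _, _, rfl, rfl, h⟩))⟩
      · rw [nG_K] at h1
        obtain ⟨k', rfl, h4⟩ := h1
        exact ⟨nK k', s, nG_K.2 ⟨k', rfl, h4⟩, h3,
            Or.inr (Or.inr (Or.inr (Or.inr ⟨k', rfl, rfl⟩)))⟩

/-- The graph of names is well-founded. -/
theorem wfi_nG (h : Good (SC M) E) (hF : FoundL M) :
    WFI M (NG E : NT M α t → PC M → NT M α t → Prop) := by
  intro s ⟨w, hw⟩
  have i1 : IntF M (nT : GC M × α → NT M α t) := int_nT
  have i2 : IntF M (nS : GC M × α → NT M α t) := int_nS
  have i3 : IntF M (nD : (GC M × α) × C0 M → NT M α t) := int_nD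
  have i4 : IntF M (nO : (GC M × α) × C0 M → NT M α t) := int_nO
  have i5 : IntF M (nK : El t → NT M α t) := int_nK
  by_cases hk : ∃ k, nK k ∈ s
  · obtain ⟨k, hk⟩ := hk
    have h1 : Int M (fun k : El t => (nK k : NT M α t) ∈ s) := by (repeat' (first | with_reducible exact IntF.id | with_reducible exact IntF.fst' | with_reducible exact IntF.snd' | with_reducible exact IntF.const _ | with_reducible exact Int.const _ | assumption | with_reducible apply ZFA.Int.and | with_reducible apply ZFA.Int.or | with_reducible apply ZFA.Int.not | with_reducible apply Int.imp | with_reducible apply Int.iff | with_reducible apply Int.ne | with_reducible apply Int.eq | with_reducible apply Int.mem | with_reducible apply Int.subset | with_reducible apply Int.ltN | with_reducible apply Int.leN | with_reducible_and_instances apply ZFA.Int.le | with_reducible_and_instances apply ZFA.Int.lt | with_reducible apply Int.all | with_reducible apply Int.ex | with_reducible apply IntF.fst | with_reducible apply IntF.snd | with_reducible apply IntF.app | with_reducible apply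 IntF.inl | with_reducible apply IntF.inr | with_reducible_and_instances apply IntF.mul | with_reducible_and_instances apply IntF.inv | with_reducible_and_instances apply IntF.add | with_reducible_and_instances apply IntF.sub | with_reducible_and_instances apply IntF.neg | with_reducible_and_instances apply IntF.smul | with_reducible apply IntF.succ | (with_reducible refine Int.comp ?_ ?_; assumption) | (with_reducible refine Int.comp₂ ?_ ?_ ?_; assumption) | (with_reducible refine Int.comp₃ ?_ ?_ ?_ ?_; assumption) | (with_reducible refine Int.comp₄ ?_ ?_ ?_ ?_ ?_; assumption) | (with_reducible refine IntF.comp ?_ ?_; assumption) | (with_reducible refine IntF.comp₂ ?_ ?_ ?_; assumption) | (with_reducible refine IntF.comp₃ ?_ ?_ ?_ ?_; assumption) | with_reducible apply IntF.val | with_reducible apply IntF.pair))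
    obtain ⟨k, h2, h3⟩ := wfi_chE (P := PC M) hF t (sep M fun k : El t => (nK k : NT M α t) ∈ s)
      ⟨k, (mem_sep h1).2 hk⟩
    refine ⟨nK k, (mem_sep h1).1 h2, fun u q hu hE => ?_⟩
    obtain ⟨k', rfl, h4⟩ := nG_K.1 hE
    exact h3 k' q ((mem_sep h1).2 hu) h4
  -- the nodes of the original graph that occur
  have hB : Int M (fun a : α => ∃ σ, (nT (σ, a) : NT M α t) ∈ s ∨ (nS (σ, a) : NT M α t) ∈ s ∨
      (∃ c : C0 M, (nD ((σ, a), c) : NT M α t) ∈ s) ∨
      ∃ c : C0 M, (nO ((σ, a), c) : NT M α t) ∈ s) := by (repeat' (first | with_reducible exact IntF.id | with_reducible exact IntF.fst' | with_reducible exact IntF.snd' | with_reducible exact IntF.const _ | with_reducible exact Int.const _ | assumption | with_reducible apply ZFA.Int.and | with_reducible apply ZFA.Int.or | with_reducible apply ZFA.Int.not | with_reducible apply Int.imp | with_reducible apply Int.iff | with_reducible apply Int.ne | with_reducible apply Int.eq | with_reducible apply Int.mem | with_reducible apply Int.subset | with_reducible apply Int.ltN | with_reducible apply Int.leN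 | with_reducible_and_instances apply ZFA.Int.le | with_reducible_and_instances apply ZFA.Int.lt | with_reducible apply Int.all | with_reducible apply Int.ex | with_reducible apply IntF.fst | with_reducible apply IntF.snd | with_reducible apply IntF.app | with_reducible apply IntF.inl | with_reducible apply IntF.inr | with_reducible_and_instances apply IntF.mul | with_reducible_and_instances apply IntF.inv | with_reducible_and_instances apply IntF.add | with_reducible_and_instances apply IntF.sub | with_reducible_and_instances apply IntF.neg | with_reducible_and_instances apply IntF.smul | with_reducible apply IntF.succ | (with_reducible refine Int.comp ?_ ?_; assumption) | (with_reducible refine Int.comp₂ ?_ ?_ ?_; assumption) | (with_reducible refine Int.comp₃ ?_ ?_ ?_ ?_; assumption) | (with_reducible refine Int.comp₄ ?_ ?_ ?_ ?_ ?_; assumption) | (with_reducible refine IntF.comp ?_ ?_; assumption) | (with_reducible refine IntF.comp₂ ?_ ?_ ?_; assumption) | (with_reducible refine IntF.comp₃ ?_ ?_ ?_ ?_; assumption) | with_reducible apply IntF.val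 | with_reducible apply IntF.pair))
  have hne : ∃ a : α, ∃ σ, (nT (σ, a) : NT M α t) ∈ s ∨ (nS (σ, a) : NT M α t) ∈ s ∨
      (∃ c : C0 M, (nD ((σ, a), c) : NT M α t) ∈ s) ∨
      ∃ c : C0 M, (nO ((σ, a), c) : NT M α t) ∈ s := by
    rcases w with ⟨σ, a⟩ | ⟨σ, a⟩ | ⟨⟨σ, a⟩, c⟩ | ⟨⟨σ, a⟩, c⟩ | k
    · exact ⟨a, σ, Or.inl hw⟩
    · exact ⟨a, σ, Or.inr (Or.inl hw)⟩
    · exact ⟨a, σ, Or.inr (Or.inr (Or.inl ⟨c, hw⟩))⟩
    · exact ⟨a, σ, Or.inr (Or.inr (Or.inr ⟨c, hw⟩))⟩
    · exact absurd ⟨k, hw⟩ hk
  obtain ⟨a, ha⟩ := hne
  obtain ⟨a, h1, h2⟩ := h.wf (sep M _) ⟨a, (mem_sep hB).2 ha⟩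
  obtain ⟨σ, h1⟩ := (mem_sep hB).1 h1
  by_cases hT : (nT (σ, a) : NT M α t) ∈ s
  · refine ⟨_, hT, fun u q hu hE => ?_⟩
    obtain ⟨⟨σ', b⟩, c, rfl, ⟨p, h4⟩, -⟩ := nG_T.1 hE
    exact h2 b p ((mem_sep hB).2 ⟨σ', Or.inr (Or.inr (Or.inr ⟨c, hu⟩))⟩) h4
  by_cases hS : (nS (σ, a) : NT M α t) ∈ s
  · refine ⟨_, hS, fun u q hu hE => ?_⟩
    obtain rfl := nG_S.1 hE
    exact hT hu
  by_cases hD : ∃ c : C0 M, (nD ((σ, a), c) : NT M α t) ∈ s
  · obtain ⟨c, hD⟩ := hD
    refine ⟨_, hD, fun u q hu hE => ?_⟩
    rcases nG_D.1 hE with rfl | ⟨k, rfl, -⟩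
    · exact hT hu
    · exact hk ⟨k, hu⟩
  rcases h1 with h1 | h1 | h1 | ⟨c, h1⟩
  · exact absurd h1 hT
  · exact absurd h1 hS
  · exact absurd h1 hD
  · refine ⟨_, h1, fun u q hu hE => ?_⟩
    rcases nG_O.1 hE with rfl | rfl
    · exact hS hu
    · exact hD ⟨c, hu⟩

theorem good_nG (h : Good (SC M) E) (hF : FoundL M) :
    Good (SC M) (NG E : NT M α t → PC M → NT M α t → Prop) := by
  refine ⟨int_nG h.int, wfi_nG h hF, ?_⟩
  have h1 : ∀ x, ∃ n, ∀ ρ, (SC M).U n ρ → Mv E (lf ρ) x x := fun x => by
    obtain ⟨n, hn⟩ := (good_bg h).sym x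
    exact ⟨n, fun ρ hρ => mv_of_sy h hn (U_lf' hρ)⟩
  rintro (x | x | ⟨x, c⟩ | ⟨x, c⟩ | k)
  · obtain ⟨n, hn⟩ := h1 x
    exact ⟨n, fun ρ hρ p => feq_mw h.int (Or.inl ⟨x, x, rfl, rfl, hn ρ hρ⟩) p⟩
  · obtain ⟨n, hn⟩ := h1 x
    exact ⟨n, fun ρ hρ p => feq_mw h.int (Or.inr (Or.inl ⟨x, x, rfl, rfl, hn ρ hρ⟩)) p⟩
  · obtain ⟨n, hn⟩ := h1 x
    exact ⟨n, fun ρ hρ p => feq_mw h.int
      (Or.inr (Or.inr (Or.inl ⟨x, x, c, rfl, rfl, hn ρ hρ⟩))) p⟩
  · obtain ⟨n, hn⟩ := h1 x
    exact ⟨n, fun ρ hρ p => feq_mw h.int
      (Or.inr (Or.inr (Or.inr (Or.inl ⟨x, x, c, rfl, rfl, hn ρ hρ⟩)))) p⟩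
  · exact ⟨0, fun ρ _ p => feq_mw h.int (Or.inr (Or.inr (Or.inr (Or.inr ⟨k, rfl, rfl⟩)))) p⟩

end

end Pool.Agent.H525C
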