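import Pool.Agent.H525R3.PSB

/-!
# Codes of three element sets by permutations
-/

namespace Pool.Agent.H525P

open FirstOrder FirstOrder.Language
open Pool.Agent.Helper672 Pool.Agent.Helper672.ZFA Pool.Agent.Helper672.ZFA.H635

universe u

set_option synthInstance.maxSize 2000
set_option linter.unusedSectionVars false

section

variable (M : Type u) [L.Structure M] [hM : IsModel M]

/-- The index set: infinitely many blocks of three elements. -/
abbrev AA : Type u := INat M × Fin 3

/-- Permutations of the index set. -/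
abbrev GA : Type u := IPerm M (AA M)

/-- Sets of indices. -/
abbrev TT : Type u := IPow M (AA M)

end

section

variable {M : Type u} [L.Structure M] [hM : IsModel M]

theorem fin3_third : ∀ i j k l : Fin 3, i ≠ j → k ≠ i → k ≠ j → l ≠ i → l ≠ j → k = l := by
  decide

theorem fin3_exists : ∀ i j : Fin 3, ∃ k, k ≠ i ∧ k ≠ j := by
  decide

theorem third_unique {x y z w : AA M} (hxy : x ≠ y) (h1 : y.1 = x.1) (h2 : z.1 = x.1)
    (h3 : w.1 = x.1) (hzx : z ≠ x) (hzy : z ≠ y) (hwx : w ≠ x) (hwy : w ≠ y) : z = w := by
  obtain ⟨m, i⟩ := x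
  obtain ⟨m', j⟩ := y
  obtain ⟨m'', k⟩ := z
  obtain ⟨m''', l⟩ := w
  simp only at h1 h2 h3
  subst h1 h2 h3
  have e1 : i ≠ j := fun h => hxy (by rw [h])
  have e2 : k ≠ i := fun h => hzx (by rw [h])
  have e3 : k ≠ j := fun h => hzy (by rw [h])
  have e4 : l ≠ i := fun h => hwx (by rw [h])
  have e5 : l ≠ j := fun h => hwy (by rw [h])
  rw [fin3_third i j k l e1 e2 e3 e4 e5]

theorem third_exists {x y : AA M} (h : y.1 = x.1) : ∃ z : AA M, z.1 = x.1 ∧ z ≠ x ∧ z ≠ y := by
  obtain ⟨m, i⟩ := x
  obtain ⟨m', j⟩ := y
  simp only at h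
  subst h
  obtain ⟨k, h1, h2⟩ := fin3_exists i j
  exact ⟨(m', k), rfl, fun h => h1 (Prod.mk.inj h).2, fun h => h2 (Prod.mk.inj h).2⟩

/-- The support is contained in the first `n` blocks. -/
def Bd (n : INat M) (σ : GA M) : Prop := ∀ x : AA M, n ≤ x.1 → ap σ x = x

/-- Bounded support. -/
def Fy (σ : GA M) : Prop := ∃ n, Bd n σ

theorem int_bd : Int M (fun q : INat M × GA M => Bd q.1 q.2) := by
  have h : IntF M (fun q : GA M × AA M => ap q.1 q.2) := int_ap
  unfold Bd
  (repeat' (first | with_reducible exact IntF.id | with_reducible exact IntF.fst' | with_reducible exact IntF.snd' | with_reducible exact IntF.const _ | with_reducible exact Int.const _ | assumption | with_reducible apply ZFA.Int.and | with_reducible apply ZFA.Int.or | with_reducible apply ZFA.Int.not | with_reducible apply Int.imp | with_reducible apply Int.iff | with_reducible apply Int.ne | with_reducible apply Int.eq | with_reducible apply Int.mem | with_reducible apply Int.subset | with_reducible apply Int.ltN | with_reducible apply Int.leN | with_reducible_and_instances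 apply ZFA.Int.le | with_reducible_and_instances apply ZFA.Int.lt | with_reducible apply Int.all | with_reducible apply Int.ex | with_reducible apply IntF.fst | with_reducible apply IntF.snd | with_reducible apply IntF.app | with_reducible apply IntF.inl | with_reducible apply IntF.inr | with_reducible_and_instances apply IntF.mul | with_reducible_and_instances apply IntF.inv | with_reducible_and_instances apply IntF.add | with_reducible_and_instances apply IntF.sub | with_reducible_and_instances apply IntF.neg | with_reducible_and_instances apply IntF.smul | with_reducible apply IntF.succ | with_reducible apply IntF.val | with_reducible apply IntF.mk | (with_reducible refine Int.comp ?_ ?_; assumption) | (with_reducible refine Int.comp₂ ?_ ?_ ?_; assumption) | (with_reducible refine Int.comp₃ ?_ ?_ ?_ ?_; assumption) | (with_reducible refine Int.comp₄ ?_ ?_ ?_ ?_ ?_; assumption) | (with_reducible refine IntF.comp ?_ ?_; assumption) | (with_reducible refine IntF.comp₂ ?_ ?_ ?_; assumption) | (with_reducible refine IntF.comp₃ ?_ ?_ ?_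 ?_; assumption) | with_reducible apply IntF.pair))

theorem int_fy : Int M (Fy (M := M)) := by
  have h : Int M (fun q : INat M × GA M => Bd q.1 q.2) := int_bd
  unfold Fy
  (repeat' (first | with_reducible exact IntF.id | with_reducible exact IntF.fst' | with_reducible exact IntF.snd' | with_reducible exact IntF.const _ | with_reducible exact Int.const _ | assumption | with_reducible apply ZFA.Int.and | with_reducible apply ZFA.Int.or | with_reducible apply ZFA.Int.not | with_reducible apply Int.imp | with_reducible apply Int.iff | with_reducible apply Int.ne | with_reducible apply Int.eq | with_reducible apply Int.mem | with_reducible apply Int.subset | with_reducible apply Int.ltN | with_reducible apply Int.leN | with_reducible_and_instances apply ZFA.Int.le | with_reducible_and_instances apply ZFA.Int.lt | with_reducible apply Int.all | with_reducible apply Int.ex | with_reducible apply IntF.fst | with_reducible apply IntF.snd | with_reducible apply IntF.app | with_reducible apply IntF.inl | with_reducible apply IntF.inr | with_reducible_and_instances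 apply IntF.mul | with_reducible_and_instances apply IntF.inv | with_reducible_and_instances apply IntF.add | with_reducible_and_instances apply IntF.sub | with_reducible_and_instances apply IntF.neg | with_reducible_and_instances apply IntF.smul | with_reducible apply IntF.succ | with_reducible apply IntF.val | with_reducible apply IntF.mk | (with_reducible refine Int.comp ?_ ?_; assumption) | (with_reducible refine Int.comp₂ ?_ ?_ ?_; assumption) | (with_reducible refine Int.comp₃ ?_ ?_ ?_ ?_; assumption) | (with_reducible refine Int.comp₄ ?_ ?_ ?_ ?_ ?_; assumption) | (with_reducible refine IntF.comp ?_ ?_; assumption) | (with_reducible refine IntF.comp₂ ?_ ?_ ?_; assumption) | (with_reducible refine IntF.comp₃ ?_ ?_ ?_ ?_; assumption) | with_reducible apply IntF.pair))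

theorem Bd.mono {n m : INat M} {σ : GA M} (h : Bd n σ) (hnm : n ≤ m) : Bd m σ :=
  fun x hx => h x (hnm.trans hx)

/-- The sets with three elements. -/
def Is3 (t : TT M) : Prop :=
  ∃ p q r : AA M, p ≠ q ∧ p ≠ r ∧ q ≠ r ∧ ∀ x, x ∈ t ↔ x = p ∨ x = q ∨ x = r

/-- The blocks. -/
def IsB (m : INat M) (t : TT M) : Prop := ∀ x : AA M, x ∈ t ↔ x.1 = m

/-- Codes of the first type. -/
def CI (t : TT M) (σ : GA M) : Prop :=
  (∀ x y : AA M, x ∈ t → y ∈ t → x.1 = y.1 → x = y) ∧
    ∀ x : AA M, (ap σ x).1 = x.1 ∧ (ap σ x = x ↔ (x ∈ t ∨ ∀ y : AA M, y ∈ t → y.1 ≠ x.1))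

/-- The data of a code of the second type. -/
def CD (p q r s : AA M) (σ : GA M) : Prop :=
  p ≠ q ∧ p ≠ s ∧ q ≠ s ∧ q.1 = p.1 ∧ s.1 = p.1 ∧ r.1 ≠ p.1 ∧ ap σ p = q ∧ ap σ q = p ∧
    ap σ s = r ∧ ap σ r = s ∧ ∀ x, x ≠ p → x ≠ q → x ≠ s → x ≠ r → ap σ x = x

/-- Codes of the second type. -/
def CII (t : TT M) (σ : GA M) : Prop :=
  ∃ p q r s : AA M, CD p q r s σ ∧ ∀ x, x ∈ t ↔ x = p ∨ x = q ∨ x = r

/-- Codes. -/
def Code (t : TT M) (σ : GA M) : Prop := Is3 t ∧ (CI t σ ∨ CII t σ)

theorem int_is3 : Int M (Is3 (M := M)) := by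
  unfold Is3
  (repeat' (first | with_reducible exact IntF.id | with_reducible exact IntF.fst' | with_reducible exact IntF.snd' | with_reducible exact IntF.const _ | with_reducible exact Int.const _ | assumption | with_reducible apply ZFA.Int.and | with_reducible apply ZFA.Int.or | with_reducible apply ZFA.Int.not | with_reducible apply Int.imp | with_reducible apply Int.iff | with_reducible apply Int.ne | with_reducible apply Int.eq | with_reducible apply Int.mem | with_reducible apply Int.subset | with_reducible apply Int.ltN | with_reducible apply Int.leN | with_reducible_and_instances apply ZFA.Int.le | with_reducible_and_instances apply ZFA.Int.lt | with_reducible apply Int.all | with_reducible apply Int.ex | with_reducible apply IntF.fst | with_reducible apply IntF.snd | with_reducible apply IntF.app | with_reducible apply IntF.inl | with_reducible apply IntF.inr | with_reducible_and_instances apply IntF.mul | with_reducible_and_instances apply IntF.inv | with_reducible_and_instances apply IntF.add | with_reducible_and_instances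 apply IntF.sub | with_reducible_and_instances apply IntF.neg | with_reducible_and_instances apply IntF.smul | with_reducible apply IntF.succ | with_reducible apply IntF.val | with_reducible apply IntF.mk | (with_reducible refine Int.comp ?_ ?_; assumption) | (with_reducible refine Int.comp₂ ?_ ?_ ?_; assumption) | (with_reducible refine Int.comp₃ ?_ ?_ ?_ ?_; assumption) | (with_reducible refine Int.comp₄ ?_ ?_ ?_ ?_ ?_; assumption) | (with_reducible refine IntF.comp ?_ ?_; assumption) | (with_reducible refine IntF.comp₂ ?_ ?_ ?_; assumption) | (with_reducible refine IntF.comp₃ ?_ ?_ ?_ ?_; assumption) | with_reducible apply IntF.pair))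

theorem int_isB : Int M (fun q : INat M × TT M => IsB q.1 q.2) := by
  unfold IsB
  (repeat' (first | with_reducible exact IntF.id | with_reducible exact IntF.fst' | with_reducible exact IntF.snd' | with_reducible exact IntF.const _ | with_reducible exact Int.const _ | assumption | with_reducible apply ZFA.Int.and | with_reducible apply ZFA.Int.or | with_reducible apply ZFA.Int.not | with_reducible apply Int.imp | with_reducible apply Int.iff | with_reducible apply Int.ne | with_reducible apply Int.eq | with_reducible apply Int.mem | with_reducible apply Int.subset | with_reducible apply Int.ltN | with_reducible apply Int.leN | with_reducible_and_instances apply ZFA.Int.le | with_reducible_and_instances apply ZFA.Int.lt | with_reducible apply Int.all | with_reducible apply Int.ex | with_reducible apply IntF.fst | with_reducible apply IntF.snd | with_reducible apply IntF.app | with_reducible apply IntF.inl | with_reducible apply IntF.inr | with_reducible_and_instances apply IntF.mul | with_reducible_and_instances apply IntF.inv | with_reducible_and_instances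 apply IntF.add | with_reducible_and_instances apply IntF.sub | with_reducible_and_instances apply IntF.neg | with_reducible_and_instances apply IntF.smul | with_reducible apply IntF.succ | with_reducible apply IntF.val | with_reducible apply IntF.mk | (with_reducible refine Int.comp ?_ ?_; assumption) | (with_reducible refine Int.comp₂ ?_ ?_ ?_; assumption) | (with_reducible refine Int.comp₃ ?_ ?_ ?_ ?_; assumption) | (with_reducible refine Int.comp₄ ?_ ?_ ?_ ?_ ?_; assumption) | (with_reducible refine IntF.comp ?_ ?_; assumption) | (with_reducible refine IntF.comp₂ ?_ ?_ ?_; assumption) | (with_reducible refine IntF.comp₃ ?_ ?_ ?_ ?_; assumption) | with_reducible apply IntF.pair))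

theorem int_code : Int M (fun q : TT M × GA M => Code q.1 q.2) := by
  have h : IntF M (fun q : GA M × AA M => ap q.1 q.2) := int_ap
  unfold Code CI CII Is3 CD
  (repeat' (first | with_reducible exact IntF.id | with_reducible exact IntF.fst' | with_reducible exact IntF.snd' | with_reducible exact IntF.const _ | with_reducible exact Int.const _ | assumption | with_reducible apply ZFA.Int.and | with_reducible apply ZFA.Int.or | with_reducible apply ZFA.Int.not | with_reducible apply Int.imp | with_reducible apply Int.iff | with_reducible apply Int.ne | with_reducible apply Int.eq | with_reducible apply Int.mem | with_reducible apply Int.subset | with_reducible apply Int.ltN | with_reducible apply Int.leN | with_reducible_and_instances apply ZFA.Int.le | with_reducible_and_instances apply ZFA.Int.lt | with_reducible apply Int.all | with_reducible apply Int.ex | with_reducible apply IntF.fst | with_reducible apply IntF.snd | with_reducible apply IntF.app | with_reducible apply IntF.inl | with_reducible apply IntF.inr | with_reducible_and_instances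 apply IntF.mul | with_reducible_and_instances apply IntF.inv | with_reducible_and_instances apply IntF.add | with_reducible_and_instances apply IntF.sub | with_reducible_and_instances apply IntF.neg | with_reducible_and_instances apply IntF.smul | with_reducible apply IntF.succ | with_reducible apply IntF.val | with_reducible apply IntF.mk | (with_reducible refine Int.comp ?_ ?_; assumption) | (with_reducible refine Int.comp₂ ?_ ?_ ?_; assumption) | (with_reducible refine Int.comp₃ ?_ ?_ ?_ ?_; assumption) | (with_reducible refine Int.comp₄ ?_ ?_ ?_ ?_ ?_; assumption) | (with_reducible refine IntF.comp ?_ ?_; assumption) | (with_reducible refine IntF.comp₂ ?_ ?_ ?_; assumption) | (with_reducible refine IntF.comp₃ ?_ ?_ ?_ ?_; assumption) | with_reducible apply IntF.pair))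

theorem CD.ne {p q r s : AA M} {σ : GA M} (h : CD p q r s σ) : r ≠ p ∧ r ≠ q ∧ r ≠ s := by
  obtain ⟨-, -, -, h4, h5, h6, -⟩ := h
  exact ⟨fun e => h6 (by rw [e]), fun e => h6 (by rw [e, h4]), fun e => h6 (by rw [e, h5])⟩

theorem ci_mem {t : TT M} {σ : GA M} (h : CI t σ) (x : AA M) :
    x ∈ t ↔ ap σ x = x ∧ ∃ y : AA M, y.1 = x.1 ∧ ap σ y ≠ y := by
  constructor
  · intro hx
    refine ⟨(h.2 x).2.2 (Or.inl hx), ?_⟩
    obtain ⟨y, h1, h2, -⟩ := third_exists (x := x) (y := x) rfl
    refine ⟨y, h1, fun h3 => ?_⟩
    rcases (h.2 y).2.1 h3 with h4 | h4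
    · exact h2 (h.1 y x h4 hx h1)
    · exact h4 x hx h1.symm
  · rintro ⟨h1, y, h2, h3⟩
    rcases (h.2 x).2.1 h1 with h4 | h4
    · exact h4
    · exact absurd ((h.2 y).2.2 (Or.inr fun z hz => by rw [h2]; exact h4 z hz)) h3

theorem not_ci_cd {t : TT M} {σ : GA M} (h : CI t σ) {p q r s : AA M} (h' : CD p q r s σ) :
    False := by
  obtain ⟨-, -, -, -, h5, h6, -, -, h9, -⟩ := h'
  have h1 := (h.2 s).1
  rw [h9, h5] at h1
  exact h6 h1

theorem cd_unique {p q r s p' q' r' s' : AA M} {σ : GA M} (h : CD p q r s σ)
    (h' : CD p' q' r' s' σ) : ((p' = p ∧ q' = q) ∨ (p' = q ∧ q' = p)) ∧ s' = s ∧ r' = r := by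
  obtain ⟨h1, h2, h3, h4, h5, h6, h7, h8, h9, h10, h11⟩ := h
  obtain ⟨h1', h2', h3', h4', h5', h6', h7', h8', h9', h10', h11'⟩ := h'
  have key : (p' = p ∧ q' = q) ∨ (p' = q ∧ q' = p) := by
    by_cases e1 : p' = p
    · exact Or.inl ⟨e1, by rw [← h7', e1, h7]⟩
    by_cases e2 : p' = q
    · exact Or.inr ⟨e2, by rw [← h7', e2, h8]⟩
    by_cases e3 : p' = s
    · exfalso
      rw [e3, h9] at h7'
      rw [← h7', e3, h5] at h4'
      exact h6 h4'
    by_cases e4 : p' = r
    · exfalso
      rw [e4, h10] at h7'
      rw [← h7', e4, h5] at h4'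
      exact h6 h4'.symm
    · exact absurd ((h11 p' e1 e2 e3 e4).symm.trans h7') h1'
  refine ⟨key, ?_⟩
  have hs : s' = s := by
    rcases key with ⟨rfl, rfl⟩ | ⟨rfl, rfl⟩
    · exact third_unique h1 h4 h5' h5 h2'.symm h3'.symm h2.symm h3.symm
    · exact third_unique h1 h4 (h5'.trans h4) h5 h3'.symm h2'.symm h2.symm h3.symm
  exact ⟨hs, by rw [← h9', hs, h9]⟩

theorem code_inj {t t' : TT M} {σ : GA M} (h : Code t σ) (h' : Code t' σ) : t = t' := by
  obtain ⟨-, h | ⟨p, q, r, s, h, ht⟩⟩ := h <;> obtain ⟨-, h' | ⟨p', q', r', s', h', ht'⟩⟩ := h'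
  · exact IPow.ext' fun x => (ci_mem h x).trans (ci_mem h' x).symm
  · exact (not_ci_cd h h').elim
  · exact (not_ci_cd h' h).elim
  · refine IPow.ext' fun x => (ht x).trans (Iff.trans ?_ (ht' x).symm)
    obtain ⟨h1, -, rfl⟩ := cd_unique h h'
    rcases h1 with ⟨rfl, rfl⟩ | ⟨rfl, rfl⟩
    · exact Iff.rfl
    · tauto

theorem code_unique {t : TT M} {σ σ' : GA M} (h : Code t σ) (h' : Code t σ') : σ = σ' := by
  obtain ⟨-, h | ⟨p, q, r, s, h, ht⟩⟩ := h <;> obtain ⟨-, h' | ⟨p', q', r', s', h', ht'⟩⟩ := h'
  · refine ext_ap fun x => ?_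
    by_cases hx : x ∈ t ∨ ∀ y : AA M, y ∈ t → y.1 ≠ x.1
    · rw [(h.2 x).2.2 hx, (h'.2 x).2.2 hx]
    · have h1 : ap σ x ≠ x := fun e => hx ((h.2 x).2.1 e)
      have h2 : ap σ' x ≠ x := fun e => hx ((h'.2 x).2.1 e)
      push Not at hx
      obtain ⟨h3, y, h4, h5⟩ := hx
      have h6 : ap σ y = y := (h.2 y).2.2 (Or.inl h4)
      have h7 : ap σ' y = y := (h'.2 y).2.2 (Or.inl h4)
      have hxy : x ≠ y := fun e => h3 (e ▸ h4)
      refine third_unique hxy h5 (h.2 x).1 (h'.2 x).1 h1 ?_ h2 ?_
      · intro e
        exact hxy (ap_inj σ (e.trans h6.symm))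
      · intro e
        exact hxy (ap_inj σ' (e.trans h7.symm))
  · exfalso
    obtain ⟨h1, -, -, h4, -⟩ := h'
    exact h1 (h.1 _ _ ((ht' _).2 (Or.inl rfl)) ((ht' _).2 (Or.inr (Or.inl rfl))) h4.symm)
  · exfalso
    obtain ⟨h1, -, -, h4, -⟩ := h
    exact h1 (h'.1 _ _ ((ht _).2 (Or.inl rfl)) ((ht _).2 (Or.inr (Or.inl rfl))) h4.symm)
  · obtain ⟨h1, h2, h3, h4, h5, h6, h7, h8, h9, h10, h11⟩ := h
    obtain ⟨h1', h2', h3', h4', h5', h6', h7', h8', h9', h10', h11'⟩ := h'
    have hp' := (ht p').1 ((ht' p').2 (Or.inl rfl))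
    have hq' := (ht q').1 ((ht' q').2 (Or.inr (Or.inl rfl)))
    have hr' := (ht r').1 ((ht' r').2 (Or.inr (Or.inr rfl)))
    have key : ((p' = p ∧ q' = q) ∨ (p' = q ∧ q' = p)) ∧ r' = r := by
      rcases hp' with rfl | rfl | rfl
      · rcases hq' with rfl | rfl | rfl
        · exact absurd rfl h1'
        · rcases hr' with rfl | rfl | rfl
          · exact absurd rfl h6'
          · exact absurd h4 h6'
          · exact ⟨Or.inl ⟨rfl, rfl⟩, rfl⟩
        · exact absurd h4' h6
      · rcases hq' with rfl | rfl | rfl
        · rcases hr' with rfl | rfl | rfl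
          · exact absurd h4.symm h6'
          · exact absurd rfl h6'
          · exact ⟨Or.inr ⟨rfl, rfl⟩, rfl⟩
        · exact absurd rfl h1'
        · exact absurd (h4'.trans h4) h6
      · rcases hq' with rfl | rfl | rfl
        · exact absurd h4'.symm h6
        · exact absurd (h4'.symm.trans h4) h6
        · exact absurd rfl h1'
    obtain ⟨h0, rfl⟩ := key
    have hs : s' = s := by
      rcases h0 with ⟨rfl, rfl⟩ | ⟨rfl, rfl⟩
      · exact third_unique h1 h4 h5' h5 h2'.symm h3'.symm h2.symm h3.symm
      · exact third_unique h1 h4 (h5'.trans h4) h5 h3'.symm h2'.symm h2.symm h3.symm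
    subst hs
    refine ext_ap fun x => ?_
    have k1 : ap σ p = ap σ' p := by
      rcases h0 with ⟨rfl, rfl⟩ | ⟨rfl, rfl⟩
      · rw [h7, h7']
      · rw [h7, h8']
    have k2 : ap σ q = ap σ' q := by
      rcases h0 with ⟨rfl, rfl⟩ | ⟨rfl, rfl⟩
      · rw [h8, h8']
      · rw [h8, h7']
    by_cases e1 : x = p
    · rw [e1, k1]
    by_cases e2 : x = q
    · rw [e2, k2]
    by_cases e3 : x = s'
    · rw [e3, h9, h9']
    by_cases e4 : x = r'
    · rw [e4, h10, h10']
    rw [h11 x e1 e2 e3 e4]
    rcases h0 with ⟨rfl, rfl⟩ | ⟨rfl, rfl⟩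
    · rw [h11' x e1 e2 e3 e4]
    · rw [h11' x e2 e1 e3 e4]

/-- The permutations that preserve the partition into blocks. -/
def BP (γ : GA M) : Prop := ∀ x y : AA M, (ap γ x).1 = (ap γ y).1 ↔ x.1 = y.1

theorem BP.ai {γ : GA M} (h : BP γ) (x y : AA M) : (ai γ x).1 = (ai γ y).1 ↔ x.1 = y.1 := by
  rw [← h, ap_ai, ap_ai]

/-- The image of a set. -/
noncomputable def imt (γ : GA M) (t : TT M) : TT M := sep M fun x => ai γ x ∈ t

theorem mem_imt {γ : GA M} {t : TT M} {x : AA M} : x ∈ imt γ t ↔ ai γ x ∈ t := by
  have h : IntF M (fun q : GA M × AA M => ai q.1 q.2) := int_ai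
  exact mem_sep (by (repeat' (first | with_reducible exact IntF.id | with_reducible exact IntF.fst' | with_reducible exact IntF.snd' | with_reducible exact IntF.const _ | with_reducible exact Int.const _ | assumption | with_reducible apply ZFA.Int.and | with_reducible apply ZFA.Int.or | with_reducible apply ZFA.Int.not | with_reducible apply Int.imp | with_reducible apply Int.iff | with_reducible apply Int.ne | with_reducible apply Int.eq | with_reducible apply Int.mem | with_reducible apply Int.subset | with_reducible apply Int.ltN | with_reducible apply Int.leN | with_reducible_and_instances apply ZFA.Int.le | with_reducible_and_instances apply ZFA.Int.lt | with_reducible apply Int.all | with_reducible apply Int.ex | with_reducible apply IntF.fst | with_reducible apply IntF.snd | with_reducible apply IntF.app | with_reducible apply IntF.inl | with_reducible apply IntF.inr | with_reducible_and_instances apply IntF.mul | with_reducible_and_instances apply IntF.inv | with_reducible_and_instances apply IntF.add | with_reducible_and_instances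 apply IntF.sub | with_reducible_and_instances apply IntF.neg | with_reducible_and_instances apply IntF.smul | with_reducible apply IntF.succ | with_reducible apply IntF.val | with_reducible apply IntF.mk | (with_reducible refine Int.comp ?_ ?_; assumption) | (with_reducible refine Int.comp₂ ?_ ?_ ?_; assumption) | (with_reducible refine Int.comp₃ ?_ ?_ ?_ ?_; assumption) | (with_reducible refine Int.comp₄ ?_ ?_ ?_ ?_ ?_; assumption) | (with_reducible refine IntF.comp ?_ ?_; assumption) | (with_reducible refine IntF.comp₂ ?_ ?_ ?_; assumption) | (with_reducible refine IntF.comp₃ ?_ ?_ ?_ ?_; assumption) | with_reducible apply IntF.pair)))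

theorem int_imt : IntF M (fun q : GA M × TT M => imt q.1 q.2) := by
  have h : IntF M (fun q : GA M × AA M => ai q.1 q.2) := int_ai
  unfold imt
  refine IntF.sep ?_
  (repeat' (first | with_reducible exact IntF.id | with_reducible exact IntF.fst' | with_reducible exact IntF.snd' | with_reducible exact IntF.const _ | with_reducible exact Int.const _ | assumption | with_reducible apply ZFA.Int.and | with_reducible apply ZFA.Int.or | with_reducible apply ZFA.Int.not | with_reducible apply Int.imp | with_reducible apply Int.iff | with_reducible apply Int.ne | with_reducible apply Int.eq | with_reducible apply Int.mem | with_reducible apply Int.subset | with_reducible apply Int.ltN | with_reducible apply Int.leN | with_reducible_and_instances apply ZFA.Int.le | with_reducible_and_instances apply ZFA.Int.lt | with_reducible apply Int.all | with_reducible apply Int.ex | with_reducible apply IntF.fst | with_reducible apply IntF.snd | with_reducible apply IntF.app | with_reducible apply IntF.inl | with_reducible apply IntF.inr | with_reducible_and_instances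 apply IntF.mul | with_reducible_and_instances apply IntF.inv | with_reducible_and_instances apply IntF.add | with_reducible_and_instances apply IntF.sub | with_reducible_and_instances apply IntF.neg | with_reducible_and_instances apply IntF.smul | with_reducible apply IntF.succ | with_reducible apply IntF.val | with_reducible apply IntF.mk | (with_reducible refine Int.comp ?_ ?_; assumption) | (with_reducible refine Int.comp₂ ?_ ?_ ?_; assumption) | (with_reducible refine Int.comp₃ ?_ ?_ ?_ ?_; assumption) | (with_reducible refine Int.comp₄ ?_ ?_ ?_ ?_ ?_; assumption) | (with_reducible refine IntF.comp ?_ ?_; assumption) | (with_reducible refine IntF.comp₂ ?_ ?_ ?_; assumption) | (with_reducible refine IntF.comp₃ ?_ ?_ ?_ ?_; assumption) | with_reducible apply IntF.pair))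

theorem imt_one (t : TT M) : imt 1 t = t := IPow.ext' fun x => by rw [mem_imt, ai_one]

theorem imt_mul (γ δ : GA M) (t : TT M) : imt (γ * δ) t = imt γ (imt δ t) :=
  IPow.ext' fun x => by rw [mem_imt, mem_imt, mem_imt, ai_mul]

theorem is3_imt {γ : GA M} {t : TT M} (h : Is3 t) : Is3 (imt γ t) := by
  obtain ⟨p, q, r, h1, h2, h3, h4⟩ := h
  refine ⟨ap γ p, ap γ q, ap γ r, fun e => h1 (ap_inj γ e), fun e => h2 (ap_inj γ e),
    fun e => h3 (ap_inj γ e), fun x => ?_⟩
  rw [mem_imt, h4]
  constructor
  · rintro (h | h | h)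
    · exact Or.inl (by rw [← h, ap_ai])
    · exact Or.inr (Or.inl (by rw [← h, ap_ai]))
    · exact Or.inr (Or.inr (by rw [← h, ap_ai]))
  · rintro (rfl | rfl | rfl) <;> simp

theorem code_imt {γ : GA M} (hγ : BP γ) {t : TT M} {σ : GA M} (h : Code t σ) :
    Code (imt γ t) (γ * σ * γ⁻¹) := by
  obtain ⟨h3, h | ⟨p, q, r, s, h, ht⟩⟩ := h
  · refine ⟨is3_imt h3, Or.inl ⟨?_, ?_⟩⟩
    · intro x y hx hy hxy
      exact ai_inj γ (h.1 _ _ (mem_imt.1 hx) (mem_imt.1 hy) ((hγ.ai x y).2 hxy))
    · intro x
      obtain ⟨h1, h2⟩ := h.2 (ai γ x)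
      constructor
      · rw [ap_mul, ap_mul, ap_inv]
        have h4 := (hγ _ _).2 h1
        rwa [ap_ai] at h4
      · rw [ap_mul, ap_mul, ap_inv, ap_eq_iff, h2, mem_imt]
        refine or_congr Iff.rfl ⟨fun h5 y hy => ?_, fun h5 y hy => ?_⟩
        · have h6 := h5 _ (mem_imt.1 hy)
          exact fun h7 => h6 ((hγ.ai _ _).2 h7)
        · have h6 := h5 (ap γ y) (mem_imt.2 (by rwa [ai_ap]))
          intro h7
          refine h6 ?_
          have h8 := (hγ _ _).2 h7
          rwa [ap_ai] at h8
  · refine ⟨is3_imt h3, Or.inr ⟨ap γ p, ap γ q, ap γ r, ap γ s, ?_, fun x => ?_⟩⟩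
    · obtain ⟨h1, h2, h3, h4, h5, h6, h7, h8, h9, h10, h11⟩ := h
      refine ⟨fun e => h1 (ap_inj γ e), fun e => h2 (ap_inj γ e), fun e => h3 (ap_inj γ e),
        (hγ _ _).2 h4, (hγ _ _).2 h5, fun e => h6 ((hγ _ _).1 e), by simp [h7], by simp [h8],
        by simp [h9], by simp [h10], fun x e1 e2 e3 e4 => ?_⟩
      rw [ap_mul, ap_mul, ap_inv, ap_eq_iff]
      exact h11 _ (fun e => e1 (by rw [← e, ap_ai])) (fun e => e2 (by rw [← e, ap_ai]))
        (fun e => e3 (by rw [← e, ap_ai])) (fun e => e4 (by rw [← e, ap_ai]))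
    · rw [mem_imt, ht]
      constructor
      · rintro (h | h | h)
        · exact Or.inl (by rw [← h, ap_ai])
        · exact Or.inr (Or.inl (by rw [← h, ap_ai]))
        · exact Or.inr (Or.inr (by rw [← h, ap_ai]))
      · rintro (rfl | rfl | rfl) <;> simp

theorem is3_of_mem {t : TT M} (h : Is3 t) {p q : AA M} (hp : p ∈ t) (hq : q ∈ t) (hpq : p ≠ q) :
    ∃ r, p ≠ r ∧ q ≠ r ∧ ∀ x, x ∈ t ↔ x = p ∨ x = q ∨ x = r := by
  obtain ⟨a, b, c, h1, h2, h3, h4⟩ := h
  rcases (h4 p).1 hp with rfl | rfl | rfl
  · rcases (h4 q).1 hq with rfl | rfl | rfl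
    · exact absurd rfl hpq
    · exact ⟨c, h2, h3, h4⟩
    · exact ⟨b, h1, h3.symm, fun x => by rw [h4]; tauto⟩
  · rcases (h4 q).1 hq with rfl | rfl | rfl
    · exact ⟨c, h3, h2, fun x => by rw [h4]; tauto⟩
    · exact absurd rfl hpq
    · exact ⟨a, h1.symm, h2.symm, fun x => by rw [h4]; tauto⟩
  · rcases (h4 q).1 hq with rfl | rfl | rfl
    · exact ⟨b, h3.symm, h1, fun x => by rw [h4]; tauto⟩
    · exact ⟨a, h2.symm, h1.symm, fun x => by rw [h4]; tauto⟩
    · exact absurd rfl hpq

/-- The relation that defines a code of the first type. -/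
def RI (t : TT M) (x z : AA M) : Prop :=
  ((x ∈ t ∨ ∀ y : AA M, y ∈ t → y.1 ≠ x.1) ∧ x = z) ∨
    (¬ x ∈ t ∧ ¬ z ∈ t ∧ x ≠ z ∧ x.1 = z.1 ∧ ∃ y : AA M, y ∈ t ∧ y.1 = x.1)

theorem code_exists {t : TT M} (h3 : Is3 t) (hB : ¬ ∃ m, IsB m t) : ∃ σ, Code t σ := by
  by_cases ht : ∀ x y : AA M, x ∈ t → y ∈ t → x.1 = y.1 → x = y
  · have hI : Int M (fun q : AA M × AA M => RI t q.1 q.2) := by
      unfold RI
      (repeat' (first | with_reducible exact IntF.id | with_reducible exact IntF.fst' | with_reducible exact IntF.snd' | with_reducible exact IntF.const _ | with_reducible exact Int.const _ | assumption | with_reducible apply ZFA.Int.and | with_reducible apply ZFA.Int.or | with_reducible apply ZFA.Int.not | with_reducible apply Int.imp | with_reducible apply Int.iff | with_reducible apply Int.ne | with_reducible apply Int.eq | with_reducible apply Int.mem | with_reducible apply Int.subset | with_reducible apply Int.ltN | with_reducible apply Int.leN | with_reducible_and_instances apply ZFA.Int.le | with_reducible_and_instances apply ZFA.Int.lt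 | with_reducible apply Int.all | with_reducible apply Int.ex | with_reducible apply IntF.fst | with_reducible apply IntF.snd | with_reducible apply IntF.app | with_reducible apply IntF.inl | with_reducible apply IntF.inr | with_reducible_and_instances apply IntF.mul | with_reducible_and_instances apply IntF.inv | with_reducible_and_instances apply IntF.add | with_reducible_and_instances apply IntF.sub | with_reducible_and_instances apply IntF.neg | with_reducible_and_instances apply IntF.smul | with_reducible apply IntF.succ | with_reducible apply IntF.val | with_reducible apply IntF.mk | (with_reducible refine Int.comp ?_ ?_; assumption) | (with_reducible refine Int.comp₂ ?_ ?_ ?_; assumption) | (with_reducible refine Int.comp₃ ?_ ?_ ?_ ?_; assumption) | (with_reducible refine Int.comp₄ ?_ ?_ ?_ ?_ ?_; assumption) | (with_reducible refine IntF.comp ?_ ?_; assumption) | (with_reducible refine IntF.comp₂ ?_ ?_ ?_; assumption) | (with_reducible refine IntF.comp₃ ?_ ?_ ?_ ?_; assumption) | with_reducible apply IntF.pair))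
    have h1 : ∀ x, ∃ z, RI t x z := by
      intro x
      by_cases hx : x ∈ t ∨ ∀ y : AA M, y ∈ t → y.1 ≠ x.1
      · exact ⟨x, Or.inl ⟨hx, rfl⟩⟩
      · push Not at hx
        obtain ⟨hx, y, hy, hyx⟩ := hx
        obtain ⟨z, e1, e2, e3⟩ := third_exists hyx
        exact ⟨z, Or.inr ⟨hx, fun hz => e3 (ht z y hz hy (e1.trans hyx.symm)), e2.symm, e1.symm,
          y, hy, hyx⟩⟩
    have h2 : ∀ x z z', RI t x z → RI t x z' → z = z' := by
      rintro x z z' (⟨e1, rfl⟩ | ⟨e1, e2, e3, e4, y, e5, e6⟩)
        (⟨e1', rfl⟩ | ⟨e1', e2', e3', e4', y', e5', e6'⟩)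
      · rfl
      · rcases e1 with e1 | e1
        · exact absurd e1 e1'
        · exact absurd e6' (e1 y' e5')
      · rcases e1' with e1' | e1'
        · exact absurd e1' e1
        · exact absurd e6 (e1' y e5)
      · exact third_unique (x := x) (y := y) (fun e => e1 (e ▸ e5)) e6 e4.symm e4'.symm e3.symm
          (fun e => e2 (e ▸ e5)) e3'.symm (fun e => e2' (e ▸ e5))
    have h4 : ∀ x z, RI t x z → RI t z x := by
      rintro x z (⟨e1, rfl⟩ | ⟨e1, e2, e3, e4, y, e5, e6⟩)
      · exact Or.inl ⟨e1, rfl⟩
      · exact Or.inr ⟨e2, e1, e3.symm, e4.symm, y, e5, e6.trans e4⟩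
    choose f hf using h1
    have hfI : IntF M f := IntF.of_unique hI hf h2
    have hff : ∀ x, f (f x) = x := fun x => h2 _ _ _ (hf _) (h4 _ _ (hf x))
    refine ⟨mkP f f hfI hfI hff hff, h3, Or.inl ⟨ht, fun x => ⟨?_, ?_⟩⟩⟩
    · rw [ap_mkP]
      rcases hf x with ⟨-, e⟩ | ⟨-, -, -, e, -⟩
      · rw [← e]
      · exact e.symm
    · rw [ap_mkP]
      constructor
      · intro e
        rcases hf x with ⟨e1, -⟩ | ⟨-, -, e1, -, -⟩
        · exact e1
        · exact absurd e.symm e1
      · intro e
        exact h2 _ _ _ (hf x) (Or.inl ⟨e, rfl⟩)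
  · push Not at ht
    obtain ⟨p, q, hp, hq, hpq, hne⟩ := ht
    obtain ⟨r, h1, h2, h4⟩ := is3_of_mem h3 hp hq hne
    have hr : r.1 ≠ p.1 := by
      intro hr
      refine hB ⟨p.1, fun x => ?_⟩
      rw [h4]
      constructor
      · rintro (rfl | rfl | rfl)
        · rfl
        · exact hpq.symm
        · exact hr
      · intro hx
        by_cases e1 : x = p
        · exact Or.inl e1
        by_cases e2 : x = q
        · exact Or.inr (Or.inl e2)
        exact Or.inr (Or.inr (third_unique hne hpq.symm hx hr e1 e2 h1.symm h2.symm))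
    obtain ⟨s, e1, e2, e3⟩ := third_exists hpq.symm
    have hrs : s ≠ r := fun e => hr (by rw [← e, e1])
    refine ⟨isw p q * isw s r, h3, Or.inr ⟨p, q, r, s, ⟨hne, e2.symm, e3.symm, hpq.symm, e1, hr,
      ?_, ?_, ?_, ?_, ?_⟩, h4⟩⟩
    · rw [ap_mul, ap_isw, ap_isw, swf_of_ne e2.symm h1, swf_left]
    · rw [ap_mul, ap_isw, ap_isw, swf_of_ne e3.symm h2, swf_right]
    · rw [ap_mul, ap_isw, ap_isw, swf_left, swf_of_ne h1.symm h2.symm]
    · rw [ap_mul, ap_isw, ap_isw, swf_right, swf_of_ne e2 e3]
    · intro x k1 k2 k3 k4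
      rw [ap_mul, ap_isw, ap_isw, swf_of_ne k3 k4, swf_of_ne k1 k2]

theorem code_fy {t : TT M} {σ : GA M} (h : Code t σ) : Fy σ := by
  obtain ⟨⟨a, b, c, -, -, -, h4⟩, h | ⟨p, q, r, s, h, ht⟩⟩ := h
  · refine ⟨INat.succ (max a.1 (max b.1 c.1)), fun x hx => (h.2 x).2.2 (Or.inr fun y hy e => ?_)⟩
    have h5 : max a.1 (max b.1 c.1) < y.1 := by
      rw [e]
      exact INat.succ_le_iff.1 hx
    have h6 : y.1 ≤ max a.1 (max b.1 c.1) := by
      rcases (h4 y).1 hy with rfl | rfl | rfl
      · exact le_max_left _ _
      · exact (le_max_left _ _).trans (le_max_right _ _)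
      · exact (le_max_right _ _).trans (le_max_right _ _)
    exact absurd h5 (not_lt.2 h6)
  · refine ⟨INat.succ (max p.1 r.1), fun x hx => ?_⟩
    have h1 : max p.1 r.1 < x.1 := INat.succ_le_iff.1 hx
    have h2 : x.1 ≠ p.1 := fun e => absurd h1 (not_lt.2 (e ▸ le_max_left _ _))
    have h3 : x.1 ≠ r.1 := fun e => absurd h1 (not_lt.2 (e ▸ le_max_right _ _))
    obtain ⟨-, -, -, h4, h5, -, -, -, -, -, h11⟩ := h
    exact h11 x (fun e => h2 (by rw [e])) (fun e => h2 (by rw [e, h4]))
      (fun e => h2 (by rw [e, h5])) (fun e => h3 (by rw [e]))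

theorem code_two {t : TT M} {σ : GA M} (h : Code t σ) :
    ∃ x y : AA M, x.1 ≠ y.1 ∧ ap σ x ≠ x ∧ ap σ y ≠ y := by
  obtain ⟨⟨a, b, c, h1, -, -, h4⟩, h | ⟨p, q, r, s, h, ht⟩⟩ := h
  · have ha : a ∈ t := (h4 a).2 (Or.inl rfl)
    have hb : b ∈ t := (h4 b).2 (Or.inr (Or.inl rfl))
    obtain ⟨-, x, hx1, hx2⟩ := (ci_mem h a).1 ha
    obtain ⟨-, y, hy1, hy2⟩ := (ci_mem h b).1 hb
    refine ⟨x, y, ?_, hx2, hy2⟩
    rw [hx1, hy1]
    exact fun e => h1 (h.1 a b ha hb e)
  · obtain ⟨e1, e2, e3⟩ := h.ne
    obtain ⟨h1, h2, h3, h4, h5, h6, h7, h8, h9, h10, h11⟩ := h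
    exact ⟨p, r, fun e => h6 e.symm, by rw [h7]; exact h1.symm, by rw [h10]; exact e3.symm⟩

theorem not_code_isB {m : INat M} {t : TT M} {σ : GA M} (hm : IsB m t) (h : Code t σ) : False := by
  obtain ⟨⟨a, b, c, h1, -, -, h4⟩, h | ⟨p, q, r, s, h, ht⟩⟩ := h
  · have ha : a ∈ t := (h4 a).2 (Or.inl rfl)
    have hb : b ∈ t := (h4 b).2 (Or.inr (Or.inl rfl))
    exact h1 (h.1 a b ha hb (((hm a).1 ha).trans ((hm b).1 hb).symm))
  · obtain ⟨h1, h2, h3, h4, h5, h6, -⟩ := h
    have hp : p ∈ t := (ht p).2 (Or.inl rfl)
    have hr : r ∈ t := (ht r).2 (Or.inr (Or.inr rfl))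
    exact h6 (((hm r).1 hr).trans ((hm p).1 hp).symm)

end

end Pool.Agent.H525P
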