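import Pool.Agent.H525R3.PCode

/-!
# The enumeration of the finitary permutations that are not codes
-/

namespace Pool.Agent.H525P

open FirstOrder FirstOrder.Language
open Pool.Agent.Helper672 Pool.Agent.Helper672.ZFA Pool.Agent.Helper672.ZFA.H635

universe u

set_option synthInstance.maxSize 2000
set_option linter.unusedSectionVars false

section

variable {M : Type u} [L.Structure M] [hM : IsModel M]

/-- The code of a point. -/
noncomputable def ca (x : AA M) : INat M := pr x.1 (three M x.2)

theorem ca_inj {x y : AA M} (h : ca x = ca y) : x = y := by
  obtain ⟨h1, h2⟩ := pr_inj h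
  exact Prod.ext h1 (three_inj h2)

theorem int_ca : IntF M (ca (M := M)) := by
  have h1 : IntF M (fun q : INat M × INat M => pr q.1 q.2) := int_pr
  have h2 : IntF M (three M) := int_three
  unfold ca
  (repeat' (first | with_reducible exact IntF.id | with_reducible exact IntF.fst' | with_reducible exact IntF.snd' | with_reducible exact IntF.const _ | with_reducible exact Int.const _ | assumption | with_reducible apply ZFA.Int.and | with_reducible apply ZFA.Int.or | with_reducible apply ZFA.Int.not | with_reducible apply Int.imp | with_reducible apply Int.iff | with_reducible apply Int.ne | with_reducible apply Int.eq | with_reducible apply Int.mem | with_reducible apply Int.subset | with_reducible apply Int.ltN | with_reducible apply Int.leN | with_reducible_and_instances apply ZFA.Int.le | with_reducible_and_instances apply ZFA.Int.lt | with_reducible apply Int.all | with_reducible apply Int.ex | with_reducible apply IntF.fst | with_reducible apply IntF.snd | with_reducible apply IntF.app | with_reducible apply IntF.inl | with_reducible apply IntF.inr | with_reducible_and_instances apply IntF.mul | with_reducible_and_instances apply IntF.inv | with_reducible_and_instances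 apply IntF.add | with_reducible_and_instances apply IntF.sub | with_reducible_and_instances apply IntF.neg | with_reducible_and_instances apply IntF.smul | with_reducible apply IntF.succ | (with_reducible refine Int.comp ?_ ?_; assumption) | (with_reducible refine Int.comp₂ ?_ ?_ ?_; assumption) | (with_reducible refine Int.comp₃ ?_ ?_ ?_ ?_; assumption) | (with_reducible refine Int.comp₄ ?_ ?_ ?_ ?_ ?_; assumption) | (with_reducible refine IntF.comp ?_ ?_; assumption) | (with_reducible refine IntF.comp₂ ?_ ?_ ?_; assumption) | (with_reducible refine IntF.comp₃ ?_ ?_ ?_ ?_; assumption) | with_reducible apply IntF.val | with_reducible apply IntF.pair))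

/-- The code of the restriction to a block. -/
noncomputable def cr (σ : GA M) (k : INat M) : INat M :=
  pr (ca (ap σ (k, 0))) (pr (ca (ap σ (k, 1))) (ca (ap σ (k, 2))))

theorem int_cr : IntF M (fun q : GA M × INat M => cr q.1 q.2) := by
  have h1 : IntF M (fun q : INat M × INat M => pr q.1 q.2) := int_pr
  have h2 : IntF M (ca (M := M)) := int_ca
  have h3 : IntF M (fun q : GA M × AA M => ap q.1 q.2) := int_ap
  unfold cr
  (repeat' (first | with_reducible exact IntF.id | with_reducible exact IntF.fst' | with_reducible exact IntF.snd' | with_reducible exact IntF.const _ | with_reducible exact Int.const _ | assumption | with_reducible apply ZFA.Int.and | with_reducible apply ZFA.Int.or | with_reducible apply ZFA.Int.not | with_reducible apply Int.imp | with_reducible apply Int.iff | with_reducible apply Int.ne | with_reducible apply Int.eq | with_reducible apply Int.mem | with_reducible apply Int.subset | with_reducible apply Int.ltN | with_reducible apply Int.leN | with_reducible_and_instances apply ZFA.Int.le | with_reducible_and_instances apply ZFA.Int.lt | with_reducible apply Int.all | with_reducible apply Int.ex | with_reducible apply IntF.fst | with_reducible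 apply IntF.snd | with_reducible apply IntF.app | with_reducible apply IntF.inl | with_reducible apply IntF.inr | with_reducible_and_instances apply IntF.mul | with_reducible_and_instances apply IntF.inv | with_reducible_and_instances apply IntF.add | with_reducible_and_instances apply IntF.sub | with_reducible_and_instances apply IntF.neg | with_reducible_and_instances apply IntF.smul | with_reducible apply IntF.succ | (with_reducible refine Int.comp ?_ ?_; assumption) | (with_reducible refine Int.comp₂ ?_ ?_ ?_; assumption) | (with_reducible refine Int.comp₃ ?_ ?_ ?_ ?_; assumption) | (with_reducible refine Int.comp₄ ?_ ?_ ?_ ?_ ?_; assumption) | (with_reducible refine IntF.comp ?_ ?_; assumption) | (with_reducible refine IntF.comp₂ ?_ ?_ ?_; assumption) | (with_reducible refine IntF.comp₃ ?_ ?_ ?_ ?_; assumption) | with_reducible apply IntF.val | with_reducible apply IntF.pair))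

theorem cr_eq {σ τ : GA M} {k : INat M} (h : cr σ k = cr τ k) (i : Fin 3) :
    ap σ (k, i) = ap τ (k, i) := by
  obtain ⟨h1, h2⟩ := pr_inj h
  obtain ⟨h2, h3⟩ := pr_inj h2
  fin_cases i
  · exact ca_inj h1
  · exact ca_inj h2
  · exact ca_inj h3

/-- The code of the restriction to the first blocks. -/
noncomputable def cw (σ : GA M) (n : INat M) : INat M :=
  irec 0 (fun k acc => INat.succ (pr acc (cr σ k))) n

theorem int_cw : IntF M (fun q : GA M × INat M => cw q.1 q.2) := by
  have h1 : IntF M (fun q : INat M × INat M => pr q.1 q.2) := int_pr
  have h2 : IntF M (fun q : GA M × INat M => cr q.1 q.2) := int_cr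
  unfold cw
  refine IntF.irec (f := fun (c : GA M × INat M) k acc => INat.succ (pr acc (cr c.1 k)))
    (IntF.const _) ?_ IntF.snd'
  (repeat' (first | with_reducible exact IntF.id | with_reducible exact IntF.fst' | with_reducible exact IntF.snd' | with_reducible exact IntF.const _ | with_reducible exact Int.const _ | assumption | with_reducible apply ZFA.Int.and | with_reducible apply ZFA.Int.or | with_reducible apply ZFA.Int.not | with_reducible apply Int.imp | with_reducible apply Int.iff | with_reducible apply Int.ne | with_reducible apply Int.eq | with_reducible apply Int.mem | with_reducible apply Int.subset | with_reducible apply Int.ltN | with_reducible apply Int.leN | with_reducible_and_instances apply ZFA.Int.le | with_reducible_and_instances apply ZFA.Int.lt | with_reducible apply Int.all | with_reducible apply Int.ex | with_reducible apply IntF.fst | with_reducible apply IntF.snd | with_reducible apply IntF.app | with_reducible apply IntF.inl | with_reducible apply IntF.inr | with_reducible_and_instances apply IntF.mul | with_reducible_and_instances apply IntF.inv | with_reducible_and_instances apply IntF.add | with_reducible_and_instances apply IntF.sub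 | with_reducible_and_instances apply IntF.neg | with_reducible_and_instances apply IntF.smul | with_reducible apply IntF.succ | (with_reducible refine Int.comp ?_ ?_; assumption) | (with_reducible refine Int.comp₂ ?_ ?_ ?_; assumption) | (with_reducible refine Int.comp₃ ?_ ?_ ?_ ?_; assumption) | (with_reducible refine Int.comp₄ ?_ ?_ ?_ ?_ ?_; assumption) | (with_reducible refine IntF.comp ?_ ?_; assumption) | (with_reducible refine IntF.comp₂ ?_ ?_ ?_; assumption) | (with_reducible refine IntF.comp₃ ?_ ?_ ?_ ?_; assumption) | with_reducible apply IntF.val | with_reducible apply IntF.pair))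

theorem int_cw_step (σ : GA M) : IntF M (fun q : INat M × INat M =>
    INat.succ (pr q.2 (cr σ q.1))) := by
  have h1 : IntF M (fun q : INat M × INat M => pr q.1 q.2) := int_pr
  have h2 : IntF M (fun q : GA M × INat M => cr q.1 q.2) := int_cr
  (repeat' (first | with_reducible exact IntF.id | with_reducible exact IntF.fst' | with_reducible exact IntF.snd' | with_reducible exact IntF.const _ | with_reducible exact Int.const _ | assumption | with_reducible apply ZFA.Int.and | with_reducible apply ZFA.Int.or | with_reducible apply ZFA.Int.not | with_reducible apply Int.imp | with_reducible apply Int.iff | with_reducible apply Int.ne | with_reducible apply Int.eq | with_reducible apply Int.mem | with_reducible apply Int.subset | with_reducible apply Int.ltN | with_reducible apply Int.leN | with_reducible_and_instances apply ZFA.Int.le | with_reducible_and_instances apply ZFA.Int.lt | with_reducible apply Int.all | with_reducible apply Int.ex | with_reducible apply IntF.fst | with_reducible apply IntF.snd | with_reducible apply IntF.app | with_reducible apply IntF.inl | with_reducible apply IntF.inr | with_reducible_and_instances apply IntF.mul | with_reducible_and_instances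 apply IntF.inv | with_reducible_and_instances apply IntF.add | with_reducible_and_instances apply IntF.sub | with_reducible_and_instances apply IntF.neg | with_reducible_and_instances apply IntF.smul | with_reducible apply IntF.succ | (with_reducible refine Int.comp ?_ ?_; assumption) | (with_reducible refine Int.comp₂ ?_ ?_ ?_; assumption) | (with_reducible refine Int.comp₃ ?_ ?_ ?_ ?_; assumption) | (with_reducible refine Int.comp₄ ?_ ?_ ?_ ?_ ?_; assumption) | (with_reducible refine IntF.comp ?_ ?_; assumption) | (with_reducible refine IntF.comp₂ ?_ ?_ ?_; assumption) | (with_reducible refine IntF.comp₃ ?_ ?_ ?_ ?_; assumption) | with_reducible apply IntF.val | with_reducible apply IntF.pair))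

theorem cw_zero (σ : GA M) : cw σ 0 = 0 := irec_zero (int_cw_step σ)

theorem cw_succ (σ : GA M) (n : INat M) : cw σ n.succ = INat.succ (pr (cw σ n) (cr σ n)) :=
  irec_succ (int_cw_step σ) n

theorem le_cw (σ : GA M) (n : INat M) : n ≤ cw σ n := by
  have h1 : IntF M (fun q : GA M × INat M => cw q.1 q.2) := int_cw
  refine INat.ind (p := fun n => n ≤ cw σ n) (by (repeat' (first | with_reducible exact IntF.id | with_reducible exact IntF.fst' | with_reducible exact IntF.snd' | with_reducible exact IntF.const _ | with_reducible exact Int.const _ | assumption | with_reducible apply ZFA.Int.and | with_reducible apply ZFA.Int.or | with_reducible apply ZFA.Int.not | with_reducible apply Int.imp | with_reducible apply Int.iff | with_reducible apply Int.ne | with_reducible apply Int.eq | with_reducible apply Int.mem | with_reducible apply Int.subset | with_reducible apply Int.ltN | with_reducible apply Int.leN | with_reducible_and_instances apply ZFA.Int.le | with_reducible_and_instances apply ZFA.Int.lt | with_reducible apply Int.all | with_reducible apply Int.ex | with_reducible apply IntF.fst | with_reducible apply IntF.snd | with_reducible apply IntF.app | with_reducible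 apply IntF.inl | with_reducible apply IntF.inr | with_reducible_and_instances apply IntF.mul | with_reducible_and_instances apply IntF.inv | with_reducible_and_instances apply IntF.add | with_reducible_and_instances apply IntF.sub | with_reducible_and_instances apply IntF.neg | with_reducible_and_instances apply IntF.smul | with_reducible apply IntF.succ | (with_reducible refine Int.comp ?_ ?_; assumption) | (with_reducible refine Int.comp₂ ?_ ?_ ?_; assumption) | (with_reducible refine Int.comp₃ ?_ ?_ ?_ ?_; assumption) | (with_reducible refine Int.comp₄ ?_ ?_ ?_ ?_ ?_; assumption) | (with_reducible refine IntF.comp ?_ ?_; assumption) | (with_reducible refine IntF.comp₂ ?_ ?_ ?_; assumption) | (with_reducible refine IntF.comp₃ ?_ ?_ ?_ ?_; assumption) | with_reducible apply IntF.val | with_reducible apply IntF.pair))) (INat.zero_le _) ?_ n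
  intro n hn
  rw [cw_succ, INat.succ_le_iff, INat.lt_succ_iff]
  exact hn.trans (le_pr _ _)

theorem cw_inj {σ τ : GA M} {n m : INat M} (h : cw σ n = cw τ m) :
    n = m ∧ ∀ x : AA M, x.1 < n → ap σ x = ap τ x := by
  have h1 : IntF M (fun q : GA M × INat M => cw q.1 q.2) := int_cw
  have h3 : IntF M (fun q : GA M × AA M => ap q.1 q.2) := int_ap
  refine INat.ind (p := fun n => ∀ m, cw σ n = cw τ m → n = m ∧ ∀ x : AA M, x.1 < n →
    ap σ x = ap τ x) (by (repeat' (first | with_reducible exact IntF.id | with_reducible exact IntF.fst' | with_reducible exact IntF.snd' | with_reducible exact IntF.const _ | with_reducible exact Int.const _ | assumption | with_reducible apply ZFA.Int.and | with_reducible apply ZFA.Int.or | with_reducible apply ZFA.Int.not | with_reducible apply Int.imp | with_reducible apply Int.iff | with_reducible apply Int.ne | with_reducible apply Int.eq | with_reducible apply Int.mem | with_reducible apply Int.subset | with_reducible apply Int.ltN | with_reducible apply Int.leN | with_reducible_and_instances apply ZFA.Int.le | with_reducible_and_instances apply ZFA.Int.lt | with_reducible apply Int.all | with_reducible apply Int.ex | with_reducible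 apply IntF.fst | with_reducible apply IntF.snd | with_reducible apply IntF.app | with_reducible apply IntF.inl | with_reducible apply IntF.inr | with_reducible_and_instances apply IntF.mul | with_reducible_and_instances apply IntF.inv | with_reducible_and_instances apply IntF.add | with_reducible_and_instances apply IntF.sub | with_reducible_and_instances apply IntF.neg | with_reducible_and_instances apply IntF.smul | with_reducible apply IntF.succ | (with_reducible refine Int.comp ?_ ?_; assumption) | (with_reducible refine Int.comp₂ ?_ ?_ ?_; assumption) | (with_reducible refine Int.comp₃ ?_ ?_ ?_ ?_; assumption) | (with_reducible refine Int.comp₄ ?_ ?_ ?_ ?_ ?_; assumption) | (with_reducible refine IntF.comp ?_ ?_; assumption) | (with_reducible refine IntF.comp₂ ?_ ?_ ?_; assumption) | (with_reducible refine IntF.comp₃ ?_ ?_ ?_ ?_; assumption) | with_reducible apply IntF.val | with_reducible apply IntF.pair))) ?_ ?_ n m h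
  · intro m hm
    rw [cw_zero] at hm
    rcases INat.eq_zero_or_succ m with rfl | ⟨k, rfl⟩
    · exact ⟨rfl, fun x hx => absurd hx INat.not_lt_zero⟩
    · rw [cw_succ] at hm
      exact absurd hm.symm (INat.succ_ne_zero _)
  · intro n ih m hm
    rcases INat.eq_zero_or_succ m with rfl | ⟨k, rfl⟩
    · rw [cw_zero, cw_succ] at hm
      exact absurd hm (INat.succ_ne_zero _)
    · rw [cw_succ, cw_succ] at hm
      obtain ⟨h4, h5⟩ := pr_inj (INat.succ_inj hm)
      obtain ⟨rfl, h6⟩ := ih _ h4
      refine ⟨rfl, fun x hx => ?_⟩
      rcases INat.lt_succ_iff'.1 hx with h7 | h7
      · exact h6 x h7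
      · have h8 := cr_eq h5 x.2
        rw [← h7] at h8
        exact h8

/-- The least bound of the support. -/
noncomputable def bd (σ : GA M) : INat M := the (fun n => Bd n σ ∧ ∀ m, Bd m σ → n ≤ m) 0

theorem int_bdf : IntF M (bd (M := M)) := by
  have h : Int M (fun q : INat M × GA M => Bd q.1 q.2) := int_bd
  unfold bd
  refine IntF.the (p := fun (σ : GA M) n => Bd n σ ∧ ∀ m, Bd m σ → n ≤ m) (by (repeat' (first | with_reducible exact IntF.id | with_reducible exact IntF.fst' | with_reducible exact IntF.snd' | with_reducible exact IntF.const _ | with_reducible exact Int.const _ | assumption | with_reducible apply ZFA.Int.and | with_reducible apply ZFA.Int.or | with_reducible apply ZFA.Int.not | with_reducible apply Int.imp | with_reducible apply Int.iff | with_reducible apply Int.ne | with_reducible apply Int.eq | with_reducible apply Int.mem | with_reducible apply Int.subset | with_reducible apply Int.ltN | with_reducible apply Int.leN | with_reducible_and_instances apply ZFA.Int.le | with_reducible_and_instances apply ZFA.Int.lt | with_reducible apply Int.all | with_reducible apply Int.ex | with_reducible apply IntF.fst | with_reducible apply IntF.snd | with_reducible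 apply IntF.app | with_reducible apply IntF.inl | with_reducible apply IntF.inr | with_reducible_and_instances apply IntF.mul | with_reducible_and_instances apply IntF.inv | with_reducible_and_instances apply IntF.add | with_reducible_and_instances apply IntF.sub | with_reducible_and_instances apply IntF.neg | with_reducible_and_instances apply IntF.smul | with_reducible apply IntF.succ | (with_reducible refine Int.comp ?_ ?_; assumption) | (with_reducible refine Int.comp₂ ?_ ?_ ?_; assumption) | (with_reducible refine Int.comp₃ ?_ ?_ ?_ ?_; assumption) | (with_reducible refine Int.comp₄ ?_ ?_ ?_ ?_ ?_; assumption) | (with_reducible refine IntF.comp ?_ ?_; assumption) | (with_reducible refine IntF.comp₂ ?_ ?_ ?_; assumption) | (with_reducible refine IntF.comp₃ ?_ ?_ ?_ ?_; assumption) | with_reducible apply IntF.val | with_reducible apply IntF.pair))) (by (repeat' (first | with_reducible exact IntF.id | with_reducible exact IntF.fst' | with_reducible exact IntF.snd' | with_reducible exact IntF.const _ | with_reducible exact Int.const _ | assumption | with_reducible apply ZFA.Int.and | with_reducible apply ZFA.Int.or | with_reducible apply ZFA.Int.not | with_reducible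 apply Int.imp | with_reducible apply Int.iff | with_reducible apply Int.ne | with_reducible apply Int.eq | with_reducible apply Int.mem | with_reducible apply Int.subset | with_reducible apply Int.ltN | with_reducible apply Int.leN | with_reducible_and_instances apply ZFA.Int.le | with_reducible_and_instances apply ZFA.Int.lt | with_reducible apply Int.all | with_reducible apply Int.ex | with_reducible apply IntF.fst | with_reducible apply IntF.snd | with_reducible apply IntF.app | with_reducible apply IntF.inl | with_reducible apply IntF.inr | with_reducible_and_instances apply IntF.mul | with_reducible_and_instances apply IntF.inv | with_reducible_and_instances apply IntF.add | with_reducible_and_instances apply IntF.sub | with_reducible_and_instances apply IntF.neg | with_reducible_and_instances apply IntF.smul | with_reducible apply IntF.succ | (with_reducible refine Int.comp ?_ ?_; assumption) | (with_reducible refine Int.comp₂ ?_ ?_ ?_; assumption) | (with_reducible refine Int.comp₃ ?_ ?_ ?_ ?_; assumption) | (with_reducible refine Int.comp₄ ?_ ?_ ?_ ?_ ?_; assumption) | (with_reducible refine IntF.comp ?_ ?_; assumption) | (with_reducible refine IntF.comp₂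 ?_ ?_ ?_; assumption) | (with_reducible refine IntF.comp₃ ?_ ?_ ?_ ?_; assumption) | with_reducible apply IntF.val | with_reducible apply IntF.pair)))

theorem bd_spec {σ : GA M} (h : Fy σ) : Bd (bd σ) σ := by
  have h1 : Int M (fun q : INat M × GA M => Bd q.1 q.2) := int_bd
  obtain ⟨n, h2, h3⟩ := INat.exists_least (p := fun n => Bd n σ) (by (repeat' (first | with_reducible exact IntF.id | with_reducible exact IntF.fst' | with_reducible exact IntF.snd' | with_reducible exact IntF.const _ | with_reducible exact Int.const _ | assumption | with_reducible apply ZFA.Int.and | with_reducible apply ZFA.Int.or | with_reducible apply ZFA.Int.not | with_reducible apply Int.imp | with_reducible apply Int.iff | with_reducible apply Int.ne | with_reducible apply Int.eq | with_reducible apply Int.mem | with_reducible apply Int.subset | with_reducible apply Int.ltN | with_reducible apply Int.leN | with_reducible_and_instances apply ZFA.Int.le | with_reducible_and_instances apply ZFA.Int.lt | with_reducible apply Int.all | with_reducible apply Int.ex | with_reducible apply IntF.fst | with_reducible apply IntF.snd | with_reducible apply IntF.app | with_reducible apply IntF.inl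 | with_reducible apply IntF.inr | with_reducible_and_instances apply IntF.mul | with_reducible_and_instances apply IntF.inv | with_reducible_and_instances apply IntF.add | with_reducible_and_instances apply IntF.sub | with_reducible_and_instances apply IntF.neg | with_reducible_and_instances apply IntF.smul | with_reducible apply IntF.succ | (with_reducible refine Int.comp ?_ ?_; assumption) | (with_reducible refine Int.comp₂ ?_ ?_ ?_; assumption) | (with_reducible refine Int.comp₃ ?_ ?_ ?_ ?_; assumption) | (with_reducible refine Int.comp₄ ?_ ?_ ?_ ?_ ?_; assumption) | (with_reducible refine IntF.comp ?_ ?_; assumption) | (with_reducible refine IntF.comp₂ ?_ ?_ ?_; assumption) | (with_reducible refine IntF.comp₃ ?_ ?_ ?_ ?_; assumption) | with_reducible apply IntF.val | with_reducible apply IntF.pair))) h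
  exact (the_spec (p := fun n => Bd n σ ∧ ∀ m, Bd m σ → n ≤ m) (d := 0) ⟨n, ⟨h2, h3⟩,
    fun m hm => le_antisymm (hm.2 n h2) (h3 m hm.1)⟩).1

/-- The code of a permutation. -/
noncomputable def cc (σ : GA M) : INat M := cw σ (bd σ)

theorem int_cc : IntF M (cc (M := M)) := by
  have h1 : IntF M (fun q : GA M × INat M => cw q.1 q.2) := int_cw
  have h2 : IntF M (bd (M := M)) := int_bdf
  unfold cc
  (repeat' (first | with_reducible exact IntF.id | with_reducible exact IntF.fst' | with_reducible exact IntF.snd' | with_reducible exact IntF.const _ | with_reducible exact Int.const _ | assumption | with_reducible apply ZFA.Int.and | with_reducible apply ZFA.Int.or | with_reducible apply ZFA.Int.not | with_reducible apply Int.imp | with_reducible apply Int.iff | with_reducible apply Int.ne | with_reducible apply Int.eq | with_reducible apply Int.mem | with_reducible apply Int.subset | with_reducible apply Int.ltN | with_reducible apply Int.leN | with_reducible_and_instances apply ZFA.Int.le | with_reducible_and_instances apply ZFA.Int.lt | with_reducible apply Int.all | with_reducible apply Int.ex | with_reducible apply IntF.fst | with_reducible apply IntF.snd | with_reducible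 apply IntF.app | with_reducible apply IntF.inl | with_reducible apply IntF.inr | with_reducible_and_instances apply IntF.mul | with_reducible_and_instances apply IntF.inv | with_reducible_and_instances apply IntF.add | with_reducible_and_instances apply IntF.sub | with_reducible_and_instances apply IntF.neg | with_reducible_and_instances apply IntF.smul | with_reducible apply IntF.succ | (with_reducible refine Int.comp ?_ ?_; assumption) | (with_reducible refine Int.comp₂ ?_ ?_ ?_; assumption) | (with_reducible refine Int.comp₃ ?_ ?_ ?_ ?_; assumption) | (with_reducible refine Int.comp₄ ?_ ?_ ?_ ?_ ?_; assumption) | (with_reducible refine IntF.comp ?_ ?_; assumption) | (with_reducible refine IntF.comp₂ ?_ ?_ ?_; assumption) | (with_reducible refine IntF.comp₃ ?_ ?_ ?_ ?_; assumption) | with_reducible apply IntF.val | with_reducible apply IntF.pair))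

theorem bd_cc {σ : GA M} (h : Fy σ) : Bd (cc σ) σ := (bd_spec h).mono (le_cw _ _)

theorem cc_inj {σ τ : GA M} (hσ : Fy σ) (hτ : Fy τ) (h : cc σ = cc τ) : σ = τ := by
  obtain ⟨h1, h2⟩ := cw_inj h
  refine ext_ap fun x => ?_
  rcases lt_or_ge x.1 (bd σ) with h3 | h3
  · exact h2 x h3
  · rw [bd_spec hσ x h3, bd_spec hτ x (h1 ▸ h3)]

/-! ### Many permutations that are not codes -/

/-- Exchange of 0 and 1. -/
def s01 (i : Fin 3) : Fin 3 := if i = 0 then 1 else if i = 1 then 0 else i

theorem s01_s01 : ∀ i, s01 (s01 i) = i := by decide

open Classical in
/-- Exchange of the first two points of a block. -/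
noncomputable def rf (n : INat M) (x : AA M) : AA M :=
  if n = INat.succ x.1 then (x.1, s01 x.2) else x

theorem int_rf : IntF M (fun q : INat M × AA M => rf q.1 q.2) := by
  have h : IntF M s01 := IntF.of_fin3 s01
  unfold rf
  refine IntF.ite (by (repeat' (first | with_reducible exact IntF.id | with_reducible exact IntF.fst' | with_reducible exact IntF.snd' | with_reducible exact IntF.const _ | with_reducible exact Int.const _ | assumption | with_reducible apply ZFA.Int.and | with_reducible apply ZFA.Int.or | with_reducible apply ZFA.Int.not | with_reducible apply Int.imp | with_reducible apply Int.iff | with_reducible apply Int.ne | with_reducible apply Int.eq | with_reducible apply Int.mem | with_reducible apply Int.subset | with_reducible apply Int.ltN | with_reducible apply Int.leN | with_reducible_and_instances apply ZFA.Int.le | with_reducible_and_instances apply ZFA.Int.lt | with_reducible apply Int.all | with_reducible apply Int.ex | with_reducible apply IntF.fst | with_reducible apply IntF.snd | with_reducible apply IntF.app | with_reducible apply IntF.inl | with_reducible apply IntF.inr | with_reducible_and_instances apply IntF.mul | with_reducible_and_instances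 apply IntF.inv | with_reducible_and_instances apply IntF.add | with_reducible_and_instances apply IntF.sub | with_reducible_and_instances apply IntF.neg | with_reducible_and_instances apply IntF.smul | with_reducible apply IntF.succ | (with_reducible refine Int.comp ?_ ?_; assumption) | (with_reducible refine Int.comp₂ ?_ ?_ ?_; assumption) | (with_reducible refine Int.comp₃ ?_ ?_ ?_ ?_; assumption) | (with_reducible refine Int.comp₄ ?_ ?_ ?_ ?_ ?_; assumption) | (with_reducible refine IntF.comp ?_ ?_; assumption) | (with_reducible refine IntF.comp₂ ?_ ?_ ?_; assumption) | (with_reducible refine IntF.comp₃ ?_ ?_ ?_ ?_; assumption) | with_reducible apply IntF.val | with_reducible apply IntF.pair))) (by (repeat' (first | with_reducible exact IntF.id | with_reducible exact IntF.fst' | with_reducible exact IntF.snd' | with_reducible exact IntF.const _ | with_reducible exact Int.const _ | assumption | with_reducible apply ZFA.Int.and | with_reducible apply ZFA.Int.or | with_reducible apply ZFA.Int.not | with_reducible apply Int.imp | with_reducible apply Int.iff | with_reducible apply Int.ne | with_reducible apply Int.eq | with_reducible apply Int.mem | with_reducible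 apply Int.subset | with_reducible apply Int.ltN | with_reducible apply Int.leN | with_reducible_and_instances apply ZFA.Int.le | with_reducible_and_instances apply ZFA.Int.lt | with_reducible apply Int.all | with_reducible apply Int.ex | with_reducible apply IntF.fst | with_reducible apply IntF.snd | with_reducible apply IntF.app | with_reducible apply IntF.inl | with_reducible apply IntF.inr | with_reducible_and_instances apply IntF.mul | with_reducible_and_instances apply IntF.inv | with_reducible_and_instances apply IntF.add | with_reducible_and_instances apply IntF.sub | with_reducible_and_instances apply IntF.neg | with_reducible_and_instances apply IntF.smul | with_reducible apply IntF.succ | (with_reducible refine Int.comp ?_ ?_; assumption) | (with_reducible refine Int.comp₂ ?_ ?_ ?_; assumption) | (with_reducible refine Int.comp₃ ?_ ?_ ?_ ?_; assumption) | (with_reducible refine Int.comp₄ ?_ ?_ ?_ ?_ ?_; assumption) | (with_reducible refine IntF.comp ?_ ?_; assumption) | (with_reducible refine IntF.comp₂ ?_ ?_ ?_; assumption) | (with_reducible refine IntF.comp₃ ?_ ?_ ?_ ?_; assumption) | with_reducible apply IntF.val | with_reducible apply IntF.pair)))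 (by (repeat' (first | with_reducible exact IntF.id | with_reducible exact IntF.fst' | with_reducible exact IntF.snd' | with_reducible exact IntF.const _ | with_reducible exact Int.const _ | assumption | with_reducible apply ZFA.Int.and | with_reducible apply ZFA.Int.or | with_reducible apply ZFA.Int.not | with_reducible apply Int.imp | with_reducible apply Int.iff | with_reducible apply Int.ne | with_reducible apply Int.eq | with_reducible apply Int.mem | with_reducible apply Int.subset | with_reducible apply Int.ltN | with_reducible apply Int.leN | with_reducible_and_instances apply ZFA.Int.le | with_reducible_and_instances apply ZFA.Int.lt | with_reducible apply Int.all | with_reducible apply Int.ex | with_reducible apply IntF.fst | with_reducible apply IntF.snd | with_reducible apply IntF.app | with_reducible apply IntF.inl | with_reducible apply IntF.inr | with_reducible_and_instances apply IntF.mul | with_reducible_and_instances apply IntF.inv | with_reducible_and_instances apply IntF.add | with_reducible_and_instances apply IntF.sub | with_reducible_and_instances apply IntF.neg | with_reducible_and_instances apply IntF.smul | with_reducible apply IntF.succ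 | (with_reducible refine Int.comp ?_ ?_; assumption) | (with_reducible refine Int.comp₂ ?_ ?_ ?_; assumption) | (with_reducible refine Int.comp₃ ?_ ?_ ?_ ?_; assumption) | (with_reducible refine Int.comp₄ ?_ ?_ ?_ ?_ ?_; assumption) | (with_reducible refine IntF.comp ?_ ?_; assumption) | (with_reducible refine IntF.comp₂ ?_ ?_ ?_; assumption) | (with_reducible refine IntF.comp₃ ?_ ?_ ?_ ?_; assumption) | with_reducible apply IntF.val | with_reducible apply IntF.pair)))

theorem rf_rf (n : INat M) (x : AA M) : rf n (rf n x) = x := by
  by_cases h : n = INat.succ x.1
  · simp [rf, h, s01_s01]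
  · simp [rf, h]

/-- The permutations. -/
noncomputable def rho (n : INat M) : GA M :=
  mkP (rf n) (rf n) (IntF.slice (f := fun n x => rf n x) int_rf n)
    (IntF.slice (f := fun n x => rf n x) int_rf n) (rf_rf n) (rf_rf n)

theorem ap_rho (n : INat M) (x : AA M) : ap (rho n) x = rf n x := ap_mkP x

theorem int_rho : IntF M (rho (M := M)) := by
  have h1 : IntF M (fun q : INat M × AA M => rf q.1 q.2) := int_rf
  have h3 : IntF M (fun q : GA M × AA M => ap q.1 q.2) := int_ap
  refine IntF.of_rel (r := fun (n : INat M) (σ : GA M) => ∀ x, ap σ x = rf n x) (by (repeat' (first | with_reducible exact IntF.id | with_reducible exact IntF.fst' | with_reducible exact IntF.snd' | with_reducible exact IntF.const _ | with_reducible exact Int.const _ | assumption | with_reducible apply ZFA.Int.and | with_reducible apply ZFA.Int.or | with_reducible apply ZFA.Int.not | with_reducible apply Int.imp | with_reducible apply Int.iff | with_reducible apply Int.ne | with_reducible apply Int.eq | with_reducible apply Int.mem | with_reducible apply Int.subset | with_reducible apply Int.ltN | with_reducible apply Int.leN | with_reducible_and_instances apply ZFA.Int.le | with_reducible_and_instances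 apply ZFA.Int.lt | with_reducible apply Int.all | with_reducible apply Int.ex | with_reducible apply IntF.fst | with_reducible apply IntF.snd | with_reducible apply IntF.app | with_reducible apply IntF.inl | with_reducible apply IntF.inr | with_reducible_and_instances apply IntF.mul | with_reducible_and_instances apply IntF.inv | with_reducible_and_instances apply IntF.add | with_reducible_and_instances apply IntF.sub | with_reducible_and_instances apply IntF.neg | with_reducible_and_instances apply IntF.smul | with_reducible apply IntF.succ | (with_reducible refine Int.comp ?_ ?_; assumption) | (with_reducible refine Int.comp₂ ?_ ?_ ?_; assumption) | (with_reducible refine Int.comp₃ ?_ ?_ ?_ ?_; assumption) | (with_reducible refine Int.comp₄ ?_ ?_ ?_ ?_ ?_; assumption) | (with_reducible refine IntF.comp ?_ ?_; assumption) | (with_reducible refine IntF.comp₂ ?_ ?_ ?_; assumption) | (with_reducible refine IntF.comp₃ ?_ ?_ ?_ ?_; assumption) | with_reducible apply IntF.val | with_reducible apply IntF.pair))) ?_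
  intro n σ
  constructor
  · intro h
    exact ext_ap fun x => by rw [ap_rho, h]
  · rintro rfl x
    exact ap_rho _ _

theorem rho_moved {n : INat M} {x : AA M} (h : ap (rho n) x ≠ x) : n = INat.succ x.1 := by
  by_contra hn
  exact h (by rw [ap_rho, rf, if_neg hn])

theorem rho_zero_one (k : INat M) : ap (rho (INat.succ k)) (k, 0) ≠ (k, 0) := by
  rw [ap_rho, rf, if_pos rfl]
  intro h
  have h1 : s01 0 = 0 := (Prod.mk.inj h).2
  exact absurd h1 (by decide)

theorem rho_inj : Function.Injective (rho (M := M)) := by
  have key : ∀ k m : INat M, rho (INat.succ k) = rho m → INat.succ k = m := by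
    intro k m h
    have h1 := rho_zero_one k
    rw [h] at h1
    exact (rho_moved h1).symm
  intro n m h
  rcases INat.eq_zero_or_succ n with rfl | ⟨k, rfl⟩
  · rcases INat.eq_zero_or_succ m with rfl | ⟨l, rfl⟩
    · rfl
    · exact (key _ _ h.symm).symm
  · exact key _ _ h

theorem bd_rho (n : INat M) : Bd n (rho n) := by
  intro x hx
  by_contra h
  have h1 := rho_moved h
  rw [h1] at hx
  exact absurd (INat.lt_succ_self x.1) (not_lt.2 hx)

theorem rho_not_code (n : INat M) : ¬ ∃ t, Code t (rho n) := by
  rintro ⟨t, ht⟩
  obtain ⟨x, y, h1, h2, h3⟩ := code_two ht
  exact h1 (INat.succ_inj ((rho_moved h2).symm.trans (rho_moved h3)))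

/-- Finitary permutations that are not codes. -/
def NC (σ : GA M) : Prop := Fy σ ∧ ¬ ∃ t, Code t σ

theorem int_nc : Int M (NC (M := M)) := by
  have h1 : Int M (fun q : TT M × GA M => Code q.1 q.2) := int_code
  have h2 : Int M (Fy (M := M)) := int_fy
  unfold NC
  (repeat' (first | with_reducible exact IntF.id | with_reducible exact IntF.fst' | with_reducible exact IntF.snd' | with_reducible exact IntF.const _ | with_reducible exact Int.const _ | assumption | with_reducible apply ZFA.Int.and | with_reducible apply ZFA.Int.or | with_reducible apply ZFA.Int.not | with_reducible apply Int.imp | with_reducible apply Int.iff | with_reducible apply Int.ne | with_reducible apply Int.eq | with_reducible apply Int.mem | with_reducible apply Int.subset | with_reducible apply Int.ltN | with_reducible apply Int.leN | with_reducible_and_instances apply ZFA.Int.le | with_reducible_and_instances apply ZFA.Int.lt | with_reducible apply Int.all | with_reducible apply Int.ex | with_reducible apply IntF.fst | with_reducible apply IntF.snd | with_reducible apply IntF.app | with_reducible apply IntF.inl | with_reducible apply IntF.inr | with_reducible_and_instances apply IntF.mul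 | with_reducible_and_instances apply IntF.inv | with_reducible_and_instances apply IntF.add | with_reducible_and_instances apply IntF.sub | with_reducible_and_instances apply IntF.neg | with_reducible_and_instances apply IntF.smul | with_reducible apply IntF.succ | (with_reducible refine Int.comp ?_ ?_; assumption) | (with_reducible refine Int.comp₂ ?_ ?_ ?_; assumption) | (with_reducible refine Int.comp₃ ?_ ?_ ?_ ?_; assumption) | (with_reducible refine Int.comp₄ ?_ ?_ ?_ ?_ ?_; assumption) | (with_reducible refine IntF.comp ?_ ?_; assumption) | (with_reducible refine IntF.comp₂ ?_ ?_ ?_; assumption) | (with_reducible refine IntF.comp₃ ?_ ?_ ?_ ?_; assumption) | with_reducible apply IntF.val | with_reducible apply IntF.pair))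

theorem exists_enum : ∃ e : INat M → GA M, IntF M e ∧ Function.Injective e ∧
    (∀ σ, NC σ ↔ ∃ n, e n = σ) ∧ ∀ n, Bd n (e n) := by
  obtain ⟨e, h1, h2, h3, h4⟩ := sb_exists (S := NC) (c := cc) (ρ := rho) (int_nc (M := M)) int_cc
    int_rho (fun n => ⟨⟨n, bd_rho n⟩, rho_not_code n⟩) rho_inj
    (fun x y hx hy h => cc_inj hx.1 hy.1 h)
  refine ⟨e, h1, h2, h3, fun n => ?_⟩
  rcases h4 n with h5 | h5
  · exact h5 ▸ bd_rho n
  · have h6 := bd_cc ((h3 (e n)).2 ⟨n, rfl⟩).1
    rwa [h5] at h6

variable (M) in
/-- The enumeration. -/
noncomputable def en : INat M → GA M := (exists_enum (M := M)).choose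

theorem int_en : IntF M (en M) := (exists_enum (M := M)).choose_spec.1

theorem en_inj {n m : INat M} (h : en M n = en M m) : n = m :=
  (exists_enum (M := M)).choose_spec.2.1 h

theorem nc_iff {σ : GA M} : NC σ ↔ ∃ n, en M n = σ := (exists_enum (M := M)).choose_spec.2.2.1 σ

theorem bd_en (n : INat M) : Bd n (en M n) := (exists_enum (M := M)).choose_spec.2.2.2 n

/-! ### The bijection -/

/-- The graph of the bijection. -/
def FF (σ : GA M) (t : TT M) : Prop := (∃ m, en M m = σ ∧ IsB m t) ∨ Code t σ

theorem int_ff : Int M (fun q : GA M × TT M => FF q.1 q.2) := by
  have h1 : Int M (fun q : TT M × GA M => Code q.1 q.2) := int_code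
  have h2 : IntF M (en M) := int_en
  have h3 : Int M (fun q : INat M × TT M => IsB q.1 q.2) := int_isB
  unfold FF
  (repeat' (first | with_reducible exact IntF.id | with_reducible exact IntF.fst' | with_reducible exact IntF.snd' | with_reducible exact IntF.const _ | with_reducible exact Int.const _ | assumption | with_reducible apply ZFA.Int.and | with_reducible apply ZFA.Int.or | with_reducible apply ZFA.Int.not | with_reducible apply Int.imp | with_reducible apply Int.iff | with_reducible apply Int.ne | with_reducible apply Int.eq | with_reducible apply Int.mem | with_reducible apply Int.subset | with_reducible apply Int.ltN | with_reducible apply Int.leN | with_reducible_and_instances apply ZFA.Int.le | with_reducible_and_instances apply ZFA.Int.lt | with_reducible apply Int.all | with_reducible apply Int.ex | with_reducible apply IntF.fst | with_reducible apply IntF.snd | with_reducible apply IntF.app | with_reducible apply IntF.inl | with_reducible apply IntF.inr | with_reducible_and_instances apply IntF.mul | with_reducible_and_instances apply IntF.inv | with_reducible_and_instances apply IntF.add | with_reducible_and_instances apply IntF.sub | with_reducible_and_instances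 apply IntF.neg | with_reducible_and_instances apply IntF.smul | with_reducible apply IntF.succ | (with_reducible refine Int.comp ?_ ?_; assumption) | (with_reducible refine Int.comp₂ ?_ ?_ ?_; assumption) | (with_reducible refine Int.comp₃ ?_ ?_ ?_ ?_; assumption) | (with_reducible refine Int.comp₄ ?_ ?_ ?_ ?_ ?_; assumption) | (with_reducible refine IntF.comp ?_ ?_; assumption) | (with_reducible refine IntF.comp₂ ?_ ?_ ?_; assumption) | (with_reducible refine IntF.comp₃ ?_ ?_ ?_ ?_; assumption) | with_reducible apply IntF.val | with_reducible apply IntF.pair))

theorem isB_is3 {m : INat M} {t : TT M} (h : IsB m t) : Is3 t := by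
  refine ⟨(m, 0), (m, 1), (m, 2), ?_, ?_, ?_, fun x => ?_⟩
  · intro e
    exact absurd (Prod.mk.inj e).2 (by decide)
  · intro e
    exact absurd (Prod.mk.inj e).2 (by decide)
  · intro e
    exact absurd (Prod.mk.inj e).2 (by decide)
  · rw [h x]
    obtain ⟨k, i⟩ := x
    constructor
    · rintro rfl
      fin_cases i
      · exact Or.inl rfl
      · exact Or.inr (Or.inl rfl)
      · exact Or.inr (Or.inr rfl)
    · rintro (h | h | h) <;> exact (Prod.mk.inj h).1

theorem ff_is3 {σ : GA M} {t : TT M} (h : FF σ t) : Is3 t := by
  rcases h with ⟨m, -, h⟩ | h
  · exact isB_is3 h
  · exact h.1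

theorem ff_fy {σ : GA M} {t : TT M} (h : FF σ t) : Fy σ := by
  rcases h with ⟨m, rfl, h⟩ | h
  · exact ⟨m, bd_en m⟩
  · exact code_fy h

theorem ff_total {σ : GA M} (h : Fy σ) : ∃ t, FF σ t := by
  by_cases h1 : ∃ t, Code t σ
  · obtain ⟨t, ht⟩ := h1
    exact ⟨t, Or.inr ht⟩
  · obtain ⟨m, hm⟩ := nc_iff.1 ⟨h, h1⟩
    have hI : Int M (fun x : AA M => x.1 = m) := by (repeat' (first | with_reducible exact IntF.id | with_reducible exact IntF.fst' | with_reducible exact IntF.snd' | with_reducible exact IntF.const _ | with_reducible exact Int.const _ | assumption | with_reducible apply ZFA.Int.and | with_reducible apply ZFA.Int.or | with_reducible apply ZFA.Int.not | with_reducible apply Int.imp | with_reducible apply Int.iff | with_reducible apply Int.ne | with_reducible apply Int.eq | with_reducible apply Int.mem | with_reducible apply Int.subset | with_reducible apply Int.ltN | with_reducible apply Int.leN | with_reducible_and_instances apply ZFA.Int.le | with_reducible_and_instances apply ZFA.Int.lt | with_reducible apply Int.all | with_reducible apply Int.ex | with_reducible apply IntF.fst | with_reducible apply IntF.snd | with_reducible apply IntF.app | with_reducible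 apply IntF.inl | with_reducible apply IntF.inr | with_reducible_and_instances apply IntF.mul | with_reducible_and_instances apply IntF.inv | with_reducible_and_instances apply IntF.add | with_reducible_and_instances apply IntF.sub | with_reducible_and_instances apply IntF.neg | with_reducible_and_instances apply IntF.smul | with_reducible apply IntF.succ | (with_reducible refine Int.comp ?_ ?_; assumption) | (with_reducible refine Int.comp₂ ?_ ?_ ?_; assumption) | (with_reducible refine Int.comp₃ ?_ ?_ ?_ ?_; assumption) | (with_reducible refine Int.comp₄ ?_ ?_ ?_ ?_ ?_; assumption) | (with_reducible refine IntF.comp ?_ ?_; assumption) | (with_reducible refine IntF.comp₂ ?_ ?_ ?_; assumption) | (with_reducible refine IntF.comp₃ ?_ ?_ ?_ ?_; assumption) | with_reducible apply IntF.val | with_reducible apply IntF.pair))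
    exact ⟨sep M fun x => x.1 = m, Or.inl ⟨m, hm, fun x => mem_sep hI⟩⟩

theorem ff_fun {σ : GA M} {t t' : TT M} (h : FF σ t) (h' : FF σ t') : t = t' := by
  rcases h with ⟨m, h1, h2⟩ | h
  · rcases h' with ⟨m', h1', h2'⟩ | h'
    · obtain rfl := en_inj (h1.trans h1'.symm)
      exact IPow.ext' fun x => (h2 x).trans (h2' x).symm
    · exact absurd ⟨t', h'⟩ (nc_iff.2 ⟨m, h1⟩).2
  · rcases h' with ⟨m', h1', h2'⟩ | h'
    · exact absurd ⟨t, h⟩ (nc_iff.2 ⟨m', h1'⟩).2
    · exact code_inj h h'

theorem ff_onto {t : TT M} (h : Is3 t) : ∃ σ, FF σ t := by
  by_cases h1 : ∃ m, IsB m t
  · obtain ⟨m, hm⟩ := h1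
    exact ⟨en M m, Or.inl ⟨m, rfl, hm⟩⟩
  · obtain ⟨σ, hσ⟩ := code_exists h h1
    exact ⟨σ, Or.inr hσ⟩

theorem ff_inj {σ σ' : GA M} {t : TT M} (h : FF σ t) (h' : FF σ' t) : σ = σ' := by
  rcases h with ⟨m, h1, h2⟩ | h
  · rcases h' with ⟨m', h1', h2'⟩ | h'
    · have h3 := (h2' (m, 0)).1 ((h2 (m, 0)).2 rfl)
      simp only at h3
      rw [← h1, ← h1', h3]
    · exact (not_code_isB h2 h').elim
  · rcases h' with ⟨m', h1', h2'⟩ | h'
    · exact (not_code_isB h2' h).elim
    · exact code_unique h h'

/-- The automorphisms of the structure. -/
def IsA (γ : GA M) : Prop := ∀ a : AA M, en M (ap γ a).1 = γ * en M a.1 * γ⁻¹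

theorem int_isA : Int M (IsA (M := M)) := by
  have h2 : IntF M (en M) := int_en
  have h3 : IntF M (fun q : GA M × AA M => ap q.1 q.2) := int_ap
  unfold IsA
  (repeat' (first | with_reducible exact IntF.id | with_reducible exact IntF.fst' | with_reducible exact IntF.snd' | with_reducible exact IntF.const _ | with_reducible exact Int.const _ | assumption | with_reducible apply ZFA.Int.and | with_reducible apply ZFA.Int.or | with_reducible apply ZFA.Int.not | with_reducible apply Int.imp | with_reducible apply Int.iff | with_reducible apply Int.ne | with_reducible apply Int.eq | with_reducible apply Int.mem | with_reducible apply Int.subset | with_reducible apply Int.ltN | with_reducible apply Int.leN | with_reducible_and_instances apply ZFA.Int.le | with_reducible_and_instances apply ZFA.Int.lt | with_reducible apply Int.all | with_reducible apply Int.ex | with_reducible apply IntF.fst | with_reducible apply IntF.snd | with_reducible apply IntF.app | with_reducible apply IntF.inl | with_reducible apply IntF.inr | with_reducible_and_instances apply IntF.mul | with_reducible_and_instances apply IntF.inv | with_reducible_and_instances apply IntF.add | with_reducible_and_instances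 apply IntF.sub | with_reducible_and_instances apply IntF.neg | with_reducible_and_instances apply IntF.smul | with_reducible apply IntF.succ | (with_reducible refine Int.comp ?_ ?_; assumption) | (with_reducible refine Int.comp₂ ?_ ?_ ?_; assumption) | (with_reducible refine Int.comp₃ ?_ ?_ ?_ ?_; assumption) | (with_reducible refine Int.comp₄ ?_ ?_ ?_ ?_ ?_; assumption) | (with_reducible refine IntF.comp ?_ ?_; assumption) | (with_reducible refine IntF.comp₂ ?_ ?_ ?_; assumption) | (with_reducible refine IntF.comp₃ ?_ ?_ ?_ ?_; assumption) | with_reducible apply IntF.val | with_reducible apply IntF.pair))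

theorem IsA.bp {γ : GA M} (h : IsA γ) : BP γ := by
  intro x y
  constructor
  · intro e
    have h1 : γ * en M x.1 * γ⁻¹ = γ * en M y.1 * γ⁻¹ := by rw [← h, ← h, e]
    exact en_inj (mul_left_cancel (mul_right_cancel h1))
  · intro e
    refine en_inj ?_
    rw [h, h, e]

theorem isA_one : IsA (1 : GA M) := fun a => by simp

theorem IsA.mul {γ δ : GA M} (h : IsA γ) (h' : IsA δ) : IsA (γ * δ) := by
  intro a
  rw [ap_mul, h, h', mul_inv_rev]
  simp only [mul_assoc]

theorem IsA.inv {γ : GA M} (h : IsA γ) : IsA γ⁻¹ := by
  intro a
  have h1 := h (ap γ⁻¹ a)
  rw [ap_inv, ap_ai] at h1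
  rw [ap_inv, h1]
  simp only [mul_assoc, inv_mul_cancel_left, inv_inv, inv_mul_cancel, mul_one]

theorem ff_imt {γ : GA M} (hγ : IsA γ) {σ : GA M} {t : TT M} (h : FF σ t) :
    FF (γ * σ * γ⁻¹) (imt γ t) := by
  rcases h with ⟨m, rfl, h2⟩ | h
  · refine Or.inl ⟨(ap γ (m, 0)).1, hγ _, fun x => ?_⟩
    rw [mem_imt, h2]
    have h1 := hγ.bp (ai γ x) (m, 0)
    rw [ap_ai] at h1
    exact h1.symm
  · exact Or.inr (code_imt hγ.bp h)

end

end Pool.Agent.H525P
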