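import Pool.Agent.H525R3.PEnum

/-!
# Automorphisms with prescribed action on one block
-/

namespace Pool.Agent.H525P

open FirstOrder FirstOrder.Language
open Pool.Agent.Helper672 Pool.Agent.Helper672.ZFA Pool.Agent.Helper672.ZFA.H635

universe u

set_option synthInstance.maxSize 2000
set_option linter.unusedSectionVars false

section

variable {M : Type u} [L.Structure M] [hM : IsModel M]

theorem bound_AA {f : AA M → INat M} (hf : IntF M f) (n : INat M) :
    ∃ m, ∀ x : AA M, x.1 < n → f x < m := by
  refine INat.ind (p := fun n => ∃ m, ∀ x : AA M, x.1 < n → f x < m) (by (repeat' (first | with_reducible exact IntF.id | with_reducible exact IntF.fst' | with_reducible exact IntF.snd' | with_reducible exact IntF.const _ | with_reducible exact Int.const _ | assumption | with_reducible apply ZFA.Int.and | with_reducible apply ZFA.Int.or | with_reducible apply ZFA.Int.not | with_reducible apply Int.imp | with_reducible apply Int.iff | with_reducible apply Int.ne | with_reducible apply Int.eq | with_reducible apply Int.mem | with_reducible apply Int.subset | with_reducible apply Int.ltN | with_reducible apply Int.leN | with_reducible_and_instances apply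 ZFA.Int.le | with_reducible_and_instances apply ZFA.Int.lt | with_reducible apply Int.all | with_reducible apply Int.ex | with_reducible apply IntF.fst | with_reducible apply IntF.snd | with_reducible apply IntF.app | with_reducible apply IntF.inl | with_reducible apply IntF.inr | with_reducible_and_instances apply IntF.mul | with_reducible_and_instances apply IntF.inv | with_reducible_and_instances apply IntF.add | with_reducible_and_instances apply IntF.sub | with_reducible_and_instances apply IntF.neg | with_reducible_and_instances apply IntF.smul | with_reducible apply IntF.succ | (with_reducible refine Int.comp ?_ ?_; assumption) | (with_reducible refine Int.comp₂ ?_ ?_ ?_; assumption) | (with_reducible refine Int.comp₃ ?_ ?_ ?_ ?_; assumption) | (with_reducible refine Int.comp₄ ?_ ?_ ?_ ?_ ?_; assumption) | (with_reducible refine IntF.comp ?_ ?_; assumption) | (with_reducible refine IntF.comp₂ ?_ ?_ ?_; assumption) | (with_reducible refine IntF.comp₃ ?_ ?_ ?_ ?_; assumption) | with_reducible apply IntF.val | with_reducible apply IntF.pair)))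
    ⟨0, fun x hx => absurd hx INat.not_lt_zero⟩ ?_ n
  rintro n ⟨m, hm⟩
  refine ⟨max m (INat.succ (max (f (n, 0)) (max (f (n, 1)) (f (n, 2))))), ?_⟩
  rintro ⟨k, i⟩ hx
  rcases INat.lt_succ_iff'.1 hx with h | h
  · exact lt_of_lt_of_le (hm _ h) (le_max_left _ _)
  · simp only at h
    subst h
    refine lt_of_lt_of_le ?_ (le_max_right _ _)
    rw [INat.lt_succ_iff]
    fin_cases i
    · exact le_max_left _ _
    · exact (le_max_left _ _).trans (le_max_right _ _)
    · exact (le_max_right _ _).trans (le_max_right _ _)

theorem Bd.maps {m : INat M} {σ : GA M} (h : Bd m σ) {x : AA M} (hx : x.1 < m) :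
    (ap σ x).1 < m := by
  by_contra hn
  have h1 := h _ (not_lt.1 hn)
  have h2 := ap_inj σ h1
  exact hn (by rwa [h2])

theorem conj_congr {g g' σ : GA M} {m : INat M} (h : ∀ a : AA M, a.1 < m → ap g a = ap g' a)
    (hσ : Bd m σ) : g * σ * g⁻¹ = g' * σ * g'⁻¹ := by
  refine ext_ap fun y => ?_
  rw [ap_mul, ap_mul, ap_mul, ap_mul, ap_inv, ap_inv]
  rcases lt_or_ge (ai g y).1 m with h1 | h1
  · have h2 : ai g' y = ai g y := by
      rw [← ap_eq_iff (σ := g') |>.1]
      rw [← h _ h1, ap_ai]
    rw [h2, h _ (hσ.maps h1)]
  · have h2 : m ≤ (ai g' y).1 := by
      by_contra hn
      have h3 := h _ (not_le.1 hn)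
      rw [ap_ai, ap_eq_iff] at h3
      rw [← h3] at h1
      exact hn h1
    rw [hσ _ h1, hσ _ h2, ap_ai, ap_ai]

theorem conj_one {g σ : GA M} {m : INat M} (h : ∀ a : AA M, a.1 < m → ap g a = a)
    (hσ : Bd m σ) : g * σ * g⁻¹ = σ := by
  have h1 := conj_congr (g := g) (g' := 1) (fun a ha => by rw [h a ha, ap_one]) hσ
  rw [h1, one_mul, inv_one, mul_one]

theorem BP.inv {g : GA M} (h : BP g) : BP g⁻¹ := fun x y => h.ai x y

theorem fy_conj {σ : GA M} (g : GA M) (h : Fy σ) : Fy (g * σ * g⁻¹) := by
  obtain ⟨n, hn⟩ := h
  have hI : IntF M (fun q : GA M × AA M => ap q.1 q.2) := int_ap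
  obtain ⟨m, hm⟩ := bound_AA (f := fun x => (ap g x).1) (by (repeat' (first | with_reducible exact IntF.id | with_reducible exact IntF.fst' | with_reducible exact IntF.snd' | with_reducible exact IntF.const _ | with_reducible exact Int.const _ | assumption | with_reducible apply ZFA.Int.and | with_reducible apply ZFA.Int.or | with_reducible apply ZFA.Int.not | with_reducible apply Int.imp | with_reducible apply Int.iff | with_reducible apply Int.ne | with_reducible apply Int.eq | with_reducible apply Int.mem | with_reducible apply Int.subset | with_reducible apply Int.ltN | with_reducible apply Int.leN | with_reducible_and_instances apply ZFA.Int.le | with_reducible_and_instances apply ZFA.Int.lt | with_reducible apply Int.all | with_reducible apply Int.ex | with_reducible apply IntF.fst | with_reducible apply IntF.snd | with_reducible apply IntF.app | with_reducible apply IntF.inl | with_reducible apply IntF.inr | with_reducible_and_instances apply IntF.mul | with_reducible_and_instances apply IntF.inv | with_reducible_and_instances apply IntF.add | with_reducible_and_instances apply IntF.sub | with_reducible_and_instances apply IntF.neg | with_reducible_and_instances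 apply IntF.smul | with_reducible apply IntF.succ | (with_reducible refine Int.comp ?_ ?_; assumption) | (with_reducible refine Int.comp₂ ?_ ?_ ?_; assumption) | (with_reducible refine Int.comp₃ ?_ ?_ ?_ ?_; assumption) | (with_reducible refine Int.comp₄ ?_ ?_ ?_ ?_ ?_; assumption) | (with_reducible refine IntF.comp ?_ ?_; assumption) | (with_reducible refine IntF.comp₂ ?_ ?_ ?_; assumption) | (with_reducible refine IntF.comp₃ ?_ ?_ ?_ ?_; assumption) | with_reducible apply IntF.val | with_reducible apply IntF.pair))) n
  refine ⟨m, fun x hx => ?_⟩
  rw [ap_mul, ap_mul, ap_inv, ap_eq_iff]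
  refine hn _ (not_lt.1 fun h1 => ?_)
  have h2 := hm _ h1
  simp only [ap_ai] at h2
  exact absurd h2 (not_lt.2 hx)

theorem nc_conj {σ g : GA M} (hg : BP g) (h : NC σ) : NC (g * σ * g⁻¹) := by
  refine ⟨fy_conj g h.1, ?_⟩
  rintro ⟨t, ht⟩
  refine h.2 ⟨imt g⁻¹ t, ?_⟩
  have h1 := code_imt hg.inv ht
  rwa [show g⁻¹ * (g * σ * g⁻¹) * g⁻¹⁻¹ = σ by group] at h1

variable (n : INat M) (κ : Equiv.Perm (Fin 3))

open Classical in
/-- Action on one block. -/
noncomputable def kk (κ : Equiv.Perm (Fin 3)) (m : INat M) (i : Fin 3) : Fin 3 :=
  if m = n then κ i else i

theorem int_kk : IntF M (fun q : INat M × Fin 3 => kk n κ q.1 q.2) := by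
  refine IntF.fin3 (f := fun m i => kk n κ m i) fun i => ?_
  unfold kk
  exact IntF.ite (by (repeat' (first | with_reducible exact IntF.id | with_reducible exact IntF.fst' | with_reducible exact IntF.snd' | with_reducible exact IntF.const _ | with_reducible exact Int.const _ | assumption | with_reducible apply ZFA.Int.and | with_reducible apply ZFA.Int.or | with_reducible apply ZFA.Int.not | with_reducible apply Int.imp | with_reducible apply Int.iff | with_reducible apply Int.ne | with_reducible apply Int.eq | with_reducible apply Int.mem | with_reducible apply Int.subset | with_reducible apply Int.ltN | with_reducible apply Int.leN | with_reducible_and_instances apply ZFA.Int.le | with_reducible_and_instances apply ZFA.Int.lt | with_reducible apply Int.all | with_reducible apply Int.ex | with_reducible apply IntF.fst | with_reducible apply IntF.snd | with_reducible apply IntF.app | with_reducible apply IntF.inl | with_reducible apply IntF.inr | with_reducible_and_instances apply IntF.mul | with_reducible_and_instances apply IntF.inv | with_reducible_and_instances apply IntF.add | with_reducible_and_instances apply IntF.sub | with_reducible_and_instances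 apply IntF.neg | with_reducible_and_instances apply IntF.smul | with_reducible apply IntF.succ | (with_reducible refine Int.comp ?_ ?_; assumption) | (with_reducible refine Int.comp₂ ?_ ?_ ?_; assumption) | (with_reducible refine Int.comp₃ ?_ ?_ ?_ ?_; assumption) | (with_reducible refine Int.comp₄ ?_ ?_ ?_ ?_ ?_; assumption) | (with_reducible refine IntF.comp ?_ ?_; assumption) | (with_reducible refine IntF.comp₂ ?_ ?_ ?_; assumption) | (with_reducible refine IntF.comp₃ ?_ ?_ ?_ ?_; assumption) | with_reducible apply IntF.val | with_reducible apply IntF.pair))) (by (repeat' (first | with_reducible exact IntF.id | with_reducible exact IntF.fst' | with_reducible exact IntF.snd' | with_reducible exact IntF.const _ | with_reducible exact Int.const _ | assumption | with_reducible apply ZFA.Int.and | with_reducible apply ZFA.Int.or | with_reducible apply ZFA.Int.not | with_reducible apply Int.imp | with_reducible apply Int.iff | with_reducible apply Int.ne | with_reducible apply Int.eq | with_reducible apply Int.mem | with_reducible apply Int.subset | with_reducible apply Int.ltN | with_reducible apply Int.leN | with_reducible_and_instances apply ZFA.Int.le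 | with_reducible_and_instances apply ZFA.Int.lt | with_reducible apply Int.all | with_reducible apply Int.ex | with_reducible apply IntF.fst | with_reducible apply IntF.snd | with_reducible apply IntF.app | with_reducible apply IntF.inl | with_reducible apply IntF.inr | with_reducible_and_instances apply IntF.mul | with_reducible_and_instances apply IntF.inv | with_reducible_and_instances apply IntF.add | with_reducible_and_instances apply IntF.sub | with_reducible_and_instances apply IntF.neg | with_reducible_and_instances apply IntF.smul | with_reducible apply IntF.succ | (with_reducible refine Int.comp ?_ ?_; assumption) | (with_reducible refine Int.comp₂ ?_ ?_ ?_; assumption) | (with_reducible refine Int.comp₃ ?_ ?_ ?_ ?_; assumption) | (with_reducible refine Int.comp₄ ?_ ?_ ?_ ?_ ?_; assumption) | (with_reducible refine IntF.comp ?_ ?_; assumption) | (with_reducible refine IntF.comp₂ ?_ ?_ ?_; assumption) | (with_reducible refine IntF.comp₃ ?_ ?_ ?_ ?_; assumption) | with_reducible apply IntF.val | with_reducible apply IntF.pair))) (by (repeat' (first | with_reducible exact IntF.id | with_reducible exact IntF.fst' | with_reducible exact IntF.snd'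 | with_reducible exact IntF.const _ | with_reducible exact Int.const _ | assumption | with_reducible apply ZFA.Int.and | with_reducible apply ZFA.Int.or | with_reducible apply ZFA.Int.not | with_reducible apply Int.imp | with_reducible apply Int.iff | with_reducible apply Int.ne | with_reducible apply Int.eq | with_reducible apply Int.mem | with_reducible apply Int.subset | with_reducible apply Int.ltN | with_reducible apply Int.leN | with_reducible_and_instances apply ZFA.Int.le | with_reducible_and_instances apply ZFA.Int.lt | with_reducible apply Int.all | with_reducible apply Int.ex | with_reducible apply IntF.fst | with_reducible apply IntF.snd | with_reducible apply IntF.app | with_reducible apply IntF.inl | with_reducible apply IntF.inr | with_reducible_and_instances apply IntF.mul | with_reducible_and_instances apply IntF.inv | with_reducible_and_instances apply IntF.add | with_reducible_and_instances apply IntF.sub | with_reducible_and_instances apply IntF.neg | with_reducible_and_instances apply IntF.smul | with_reducible apply IntF.succ | (with_reducible refine Int.comp ?_ ?_; assumption) | (with_reducible refine Int.comp₂ ?_ ?_ ?_; assumption)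 | (with_reducible refine Int.comp₃ ?_ ?_ ?_ ?_; assumption) | (with_reducible refine Int.comp₄ ?_ ?_ ?_ ?_ ?_; assumption) | (with_reducible refine IntF.comp ?_ ?_; assumption) | (with_reducible refine IntF.comp₂ ?_ ?_ ?_; assumption) | (with_reducible refine IntF.comp₃ ?_ ?_ ?_ ?_; assumption) | with_reducible apply IntF.val | with_reducible apply IntF.pair)))

theorem kk_inv (m : INat M) (i : Fin 3) : kk n κ m (kk n κ⁻¹ m i) = i := by
  by_cases h : m = n <;> simp [kk, h]

theorem kk_inv' (m : INat M) (i : Fin 3) : kk n κ⁻¹ m (kk n κ m i) = i := by
  by_cases h : m = n <;> simp [kk, h]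

/-- The permutation given by a permutation of the blocks. -/
noncomputable def gf (β : IPerm M (INat M)) (x : AA M) : AA M := (ap β x.1, kk n κ x.1 x.2)

/-- Its inverse. -/
noncomputable def gi (β : IPerm M (INat M)) (x : AA M) : AA M :=
  (ai β x.1, kk n κ⁻¹ (ai β x.1) x.2)

theorem int_gf : IntF M (fun q : IPerm M (INat M) × AA M => gf n κ q.1 q.2) := by
  have h1 : IntF M (fun q : INat M × Fin 3 => kk n κ q.1 q.2) := int_kk n κ
  have h2 : IntF M (fun q : IPerm M (INat M) × INat M => ap q.1 q.2) := int_ap
  unfold gf
  (repeat' (first | with_reducible exact IntF.id | with_reducible exact IntF.fst' | with_reducible exact IntF.snd' | with_reducible exact IntF.const _ | with_reducible exact Int.const _ | assumption | with_reducible apply ZFA.Int.and | with_reducible apply ZFA.Int.or | with_reducible apply ZFA.Int.not | with_reducible apply Int.imp | with_reducible apply Int.iff | with_reducible apply Int.ne | with_reducible apply Int.eq | with_reducible apply Int.mem | with_reducible apply Int.subset | with_reducible apply Int.ltN | with_reducible apply Int.leN | with_reducible_and_instances apply ZFA.Int.le | with_reducible_and_instances apply ZFA.Int.lt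 | with_reducible apply Int.all | with_reducible apply Int.ex | with_reducible apply IntF.fst | with_reducible apply IntF.snd | with_reducible apply IntF.app | with_reducible apply IntF.inl | with_reducible apply IntF.inr | with_reducible_and_instances apply IntF.mul | with_reducible_and_instances apply IntF.inv | with_reducible_and_instances apply IntF.add | with_reducible_and_instances apply IntF.sub | with_reducible_and_instances apply IntF.neg | with_reducible_and_instances apply IntF.smul | with_reducible apply IntF.succ | (with_reducible refine Int.comp ?_ ?_; assumption) | (with_reducible refine Int.comp₂ ?_ ?_ ?_; assumption) | (with_reducible refine Int.comp₃ ?_ ?_ ?_ ?_; assumption) | (with_reducible refine Int.comp₄ ?_ ?_ ?_ ?_ ?_; assumption) | (with_reducible refine IntF.comp ?_ ?_; assumption) | (with_reducible refine IntF.comp₂ ?_ ?_ ?_; assumption) | (with_reducible refine IntF.comp₃ ?_ ?_ ?_ ?_; assumption) | with_reducible apply IntF.val | with_reducible apply IntF.pair))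

theorem int_gi : IntF M (fun q : IPerm M (INat M) × AA M => gi n κ q.1 q.2) := by
  have h1 : IntF M (fun q : INat M × Fin 3 => kk n κ⁻¹ q.1 q.2) := int_kk n κ⁻¹
  have h2 : IntF M (fun q : IPerm M (INat M) × INat M => ai q.1 q.2) := int_ai
  unfold gi
  (repeat' (first | with_reducible exact IntF.id | with_reducible exact IntF.fst' | with_reducible exact IntF.snd' | with_reducible exact IntF.const _ | with_reducible exact Int.const _ | assumption | with_reducible apply ZFA.Int.and | with_reducible apply ZFA.Int.or | with_reducible apply ZFA.Int.not | with_reducible apply Int.imp | with_reducible apply Int.iff | with_reducible apply Int.ne | with_reducible apply Int.eq | with_reducible apply Int.mem | with_reducible apply Int.subset | with_reducible apply Int.ltN | with_reducible apply Int.leN | with_reducible_and_instances apply ZFA.Int.le | with_reducible_and_instances apply ZFA.Int.lt | with_reducible apply Int.all | with_reducible apply Int.ex | with_reducible apply IntF.fst | with_reducible apply IntF.snd | with_reducible apply IntF.app | with_reducible apply IntF.inl | with_reducible apply IntF.inr | with_reducible_and_instances apply IntF.mul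 | with_reducible_and_instances apply IntF.inv | with_reducible_and_instances apply IntF.add | with_reducible_and_instances apply IntF.sub | with_reducible_and_instances apply IntF.neg | with_reducible_and_instances apply IntF.smul | with_reducible apply IntF.succ | (with_reducible refine Int.comp ?_ ?_; assumption) | (with_reducible refine Int.comp₂ ?_ ?_ ?_; assumption) | (with_reducible refine Int.comp₃ ?_ ?_ ?_ ?_; assumption) | (with_reducible refine Int.comp₄ ?_ ?_ ?_ ?_ ?_; assumption) | (with_reducible refine IntF.comp ?_ ?_; assumption) | (with_reducible refine IntF.comp₂ ?_ ?_ ?_; assumption) | (with_reducible refine IntF.comp₃ ?_ ?_ ?_ ?_; assumption) | with_reducible apply IntF.val | with_reducible apply IntF.pair))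

theorem gf_gi (β : IPerm M (INat M)) (x : AA M) : gf n κ β (gi n κ β x) = x := by
  simp [gf, gi, kk_inv]

theorem gi_gf (β : IPerm M (INat M)) (x : AA M) : gi n κ β (gf n κ β x) = x := by
  simp [gf, gi, kk_inv']

/-- The permutation. -/
noncomputable def gp (β : IPerm M (INat M)) : GA M :=
  mkP (gf n κ β) (gi n κ β) (IntF.slice (f := fun β x => gf n κ β x) (int_gf n κ) β)
    (IntF.slice (f := fun β x => gi n κ β x) (int_gi n κ) β) (gf_gi n κ β) (gi_gf n κ β)

theorem ap_gp (β : IPerm M (INat M)) (x : AA M) : ap (gp n κ β) x = gf n κ β x := ap_mkP x

theorem int_gp : IntF M (gp n κ) := by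
  have h1 : IntF M (fun q : IPerm M (INat M) × AA M => gf n κ q.1 q.2) := int_gf n κ
  have h3 : IntF M (fun q : GA M × AA M => ap q.1 q.2) := int_ap
  refine IntF.of_rel (r := fun (β : IPerm M (INat M)) (σ : GA M) => ∀ x, ap σ x = gf n κ β x)
    (by (repeat' (first | with_reducible exact IntF.id | with_reducible exact IntF.fst' | with_reducible exact IntF.snd' | with_reducible exact IntF.const _ | with_reducible exact Int.const _ | assumption | with_reducible apply ZFA.Int.and | with_reducible apply ZFA.Int.or | with_reducible apply ZFA.Int.not | with_reducible apply Int.imp | with_reducible apply Int.iff | with_reducible apply Int.ne | with_reducible apply Int.eq | with_reducible apply Int.mem | with_reducible apply Int.subset | with_reducible apply Int.ltN | with_reducible apply Int.leN | with_reducible_and_instances apply ZFA.Int.le | with_reducible_and_instances apply ZFA.Int.lt | with_reducible apply Int.all | with_reducible apply Int.ex | with_reducible apply IntF.fst | with_reducible apply IntF.snd | with_reducible apply IntF.app | with_reducible apply IntF.inl | with_reducible apply IntF.inr | with_reducible_and_instances apply IntF.mul |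 with_reducible_and_instances apply IntF.inv | with_reducible_and_instances apply IntF.add | with_reducible_and_instances apply IntF.sub | with_reducible_and_instances apply IntF.neg | with_reducible_and_instances apply IntF.smul | with_reducible apply IntF.succ | (with_reducible refine Int.comp ?_ ?_; assumption) | (with_reducible refine Int.comp₂ ?_ ?_ ?_; assumption) | (with_reducible refine Int.comp₃ ?_ ?_ ?_ ?_; assumption) | (with_reducible refine Int.comp₄ ?_ ?_ ?_ ?_ ?_; assumption) | (with_reducible refine IntF.comp ?_ ?_; assumption) | (with_reducible refine IntF.comp₂ ?_ ?_ ?_; assumption) | (with_reducible refine IntF.comp₃ ?_ ?_ ?_ ?_; assumption) | with_reducible apply IntF.val | with_reducible apply IntF.pair))) ?_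
  intro β σ
  constructor
  · intro h
    exact ext_ap fun x => by rw [ap_gp, h]
  · rintro rfl x
    exact ap_gp _ _ _ _

theorem bp_gp (β : IPerm M (INat M)) : BP (gp n κ β) := by
  intro x y
  rw [ap_gp, ap_gp]
  exact ⟨fun h => ap_inj β h, fun h => congrArg (ap β) h⟩

theorem gp_congr {β β' : IPerm M (INat M)} {m : INat M} (h : ∀ k, k < m → ap β k = ap β' k)
    (a : AA M) (ha : a.1 < m) : ap (gp n κ β) a = ap (gp n κ β') a := by
  rw [ap_gp, ap_gp, gf, gf, h _ ha]

/-- The target. -/
noncomputable def tgt (β : IPerm M (INat M)) (k : INat M) : INat M :=
  the (fun l => en M l = gp n κ β * en M k * (gp n κ β)⁻¹) 0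

theorem tgt_spec (β : IPerm M (INat M)) (k : INat M) :
    en M (tgt n κ β k) = gp n κ β * en M k * (gp n κ β)⁻¹ := by
  obtain ⟨l, hl⟩ := nc_iff.1 (nc_conj (bp_gp n κ β) (nc_iff.2 ⟨k, rfl⟩))
  exact the_spec (p := fun l => en M l = gp n κ β * en M k * (gp n κ β)⁻¹)
    ⟨l, hl, fun l' hl' => en_inj (hl'.trans hl.symm)⟩

theorem int_tgt : IntF M (fun q : IPerm M (INat M) × INat M => tgt n κ q.1 q.2) := by
  have h1 : IntF M (gp n κ) := int_gp n κ
  have h2 : IntF M (en M) := int_en
  unfold tgt
  refine IntF.the (p := fun (q : IPerm M (INat M) × INat M) l =>
    en M l = gp n κ q.1 * en M q.2 * (gp n κ q.1)⁻¹) ?_ (IntF.const _)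
  (repeat' (first | with_reducible exact IntF.id | with_reducible exact IntF.fst' | with_reducible exact IntF.snd' | with_reducible exact IntF.const _ | with_reducible exact Int.const _ | assumption | with_reducible apply ZFA.Int.and | with_reducible apply ZFA.Int.or | with_reducible apply ZFA.Int.not | with_reducible apply Int.imp | with_reducible apply Int.iff | with_reducible apply Int.ne | with_reducible apply Int.eq | with_reducible apply Int.mem | with_reducible apply Int.subset | with_reducible apply Int.ltN | with_reducible apply Int.leN | with_reducible_and_instances apply ZFA.Int.le | with_reducible_and_instances apply ZFA.Int.lt | with_reducible apply Int.all | with_reducible apply Int.ex | with_reducible apply IntF.fst | with_reducible apply IntF.snd | with_reducible apply IntF.app | with_reducible apply IntF.inl | with_reducible apply IntF.inr | with_reducible_and_instances apply IntF.mul | with_reducible_and_instances apply IntF.inv | with_reducible_and_instances apply IntF.add | with_reducible_and_instances apply IntF.sub | with_reducible_and_instances apply IntF.neg | with_reducible_and_instances apply IntF.smul | with_reducible apply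 IntF.succ | (with_reducible refine Int.comp ?_ ?_; assumption) | (with_reducible refine Int.comp₂ ?_ ?_ ?_; assumption) | (with_reducible refine Int.comp₃ ?_ ?_ ?_ ?_; assumption) | (with_reducible refine Int.comp₄ ?_ ?_ ?_ ?_ ?_; assumption) | (with_reducible refine IntF.comp ?_ ?_; assumption) | (with_reducible refine IntF.comp₂ ?_ ?_ ?_; assumption) | (with_reducible refine IntF.comp₃ ?_ ?_ ?_ ?_; assumption) | with_reducible apply IntF.val | with_reducible apply IntF.pair))

open Classical in
/-- One step. -/
noncomputable def stp (k : INat M) (β : IPerm M (INat M)) : IPerm M (INat M) :=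
  if k ≤ n then β else isw (ap β k) (tgt n κ β k) * β

theorem int_stp : IntF M (fun q : INat M × IPerm M (INat M) => stp n κ q.1 q.2) := by
  have h1 : IntF M (fun q : IPerm M (INat M) × INat M => tgt n κ q.1 q.2) := int_tgt n κ
  have h2 : IntF M (fun q : INat M × INat M => isw (M := M) q.1 q.2) := int_isw
  have h3 : IntF M (fun q : IPerm M (INat M) × INat M => ap q.1 q.2) := int_ap
  unfold stp
  refine IntF.ite (by (repeat' (first | with_reducible exact IntF.id | with_reducible exact IntF.fst' | with_reducible exact IntF.snd' | with_reducible exact IntF.const _ | with_reducible exact Int.const _ | assumption | with_reducible apply ZFA.Int.and | with_reducible apply ZFA.Int.or | with_reducible apply ZFA.Int.not | with_reducible apply Int.imp | with_reducible apply Int.iff | with_reducible apply Int.ne | with_reducible apply Int.eq | with_reducible apply Int.mem | with_reducible apply Int.subset | with_reducible apply Int.ltN | with_reducible apply Int.leN | with_reducible_and_instances apply ZFA.Int.le | with_reducible_and_instances apply ZFA.Int.lt | with_reducible apply Int.all | with_reducible apply Int.ex | with_reducible apply IntF.fst | with_reducible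 apply IntF.snd | with_reducible apply IntF.app | with_reducible apply IntF.inl | with_reducible apply IntF.inr | with_reducible_and_instances apply IntF.mul | with_reducible_and_instances apply IntF.inv | with_reducible_and_instances apply IntF.add | with_reducible_and_instances apply IntF.sub | with_reducible_and_instances apply IntF.neg | with_reducible_and_instances apply IntF.smul | with_reducible apply IntF.succ | (with_reducible refine Int.comp ?_ ?_; assumption) | (with_reducible refine Int.comp₂ ?_ ?_ ?_; assumption) | (with_reducible refine Int.comp₃ ?_ ?_ ?_ ?_; assumption) | (with_reducible refine Int.comp₄ ?_ ?_ ?_ ?_ ?_; assumption) | (with_reducible refine IntF.comp ?_ ?_; assumption) | (with_reducible refine IntF.comp₂ ?_ ?_ ?_; assumption) | (with_reducible refine IntF.comp₃ ?_ ?_ ?_ ?_; assumption) | with_reducible apply IntF.val | with_reducible apply IntF.pair))) (by (repeat' (first | with_reducible exact IntF.id | with_reducible exact IntF.fst' | with_reducible exact IntF.snd' | with_reducible exact IntF.const _ | with_reducible exact Int.const _ | assumption | with_reducible apply ZFA.Int.and | with_reducible apply ZFA.Int.or |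 with_reducible apply ZFA.Int.not | with_reducible apply Int.imp | with_reducible apply Int.iff | with_reducible apply Int.ne | with_reducible apply Int.eq | with_reducible apply Int.mem | with_reducible apply Int.subset | with_reducible apply Int.ltN | with_reducible apply Int.leN | with_reducible_and_instances apply ZFA.Int.le | with_reducible_and_instances apply ZFA.Int.lt | with_reducible apply Int.all | with_reducible apply Int.ex | with_reducible apply IntF.fst | with_reducible apply IntF.snd | with_reducible apply IntF.app | with_reducible apply IntF.inl | with_reducible apply IntF.inr | with_reducible_and_instances apply IntF.mul | with_reducible_and_instances apply IntF.inv | with_reducible_and_instances apply IntF.add | with_reducible_and_instances apply IntF.sub | with_reducible_and_instances apply IntF.neg | with_reducible_and_instances apply IntF.smul | with_reducible apply IntF.succ | (with_reducible refine Int.comp ?_ ?_; assumption) | (with_reducible refine Int.comp₂ ?_ ?_ ?_; assumption) | (with_reducible refine Int.comp₃ ?_ ?_ ?_ ?_; assumption) | (with_reducible refine Int.comp₄ ?_ ?_ ?_ ?_ ?_; assumption) | (with_reducible refine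 IntF.comp ?_ ?_; assumption) | (with_reducible refine IntF.comp₂ ?_ ?_ ?_; assumption) | (with_reducible refine IntF.comp₃ ?_ ?_ ?_ ?_; assumption) | with_reducible apply IntF.val | with_reducible apply IntF.pair))) ?_
  (repeat' (first | with_reducible exact IntF.id | with_reducible exact IntF.fst' | with_reducible exact IntF.snd' | with_reducible exact IntF.const _ | with_reducible exact Int.const _ | assumption | with_reducible apply ZFA.Int.and | with_reducible apply ZFA.Int.or | with_reducible apply ZFA.Int.not | with_reducible apply Int.imp | with_reducible apply Int.iff | with_reducible apply Int.ne | with_reducible apply Int.eq | with_reducible apply Int.mem | with_reducible apply Int.subset | with_reducible apply Int.ltN | with_reducible apply Int.leN | with_reducible_and_instances apply ZFA.Int.le | with_reducible_and_instances apply ZFA.Int.lt | with_reducible apply Int.all | with_reducible apply Int.ex | with_reducible apply IntF.fst | with_reducible apply IntF.snd | with_reducible apply IntF.app | with_reducible apply IntF.inl | with_reducible apply IntF.inr | with_reducible_and_instances apply IntF.mul | with_reducible_and_instances apply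 IntF.inv | with_reducible_and_instances apply IntF.add | with_reducible_and_instances apply IntF.sub | with_reducible_and_instances apply IntF.neg | with_reducible_and_instances apply IntF.smul | with_reducible apply IntF.succ | (with_reducible refine Int.comp ?_ ?_; assumption) | (with_reducible refine Int.comp₂ ?_ ?_ ?_; assumption) | (with_reducible refine Int.comp₃ ?_ ?_ ?_ ?_; assumption) | (with_reducible refine Int.comp₄ ?_ ?_ ?_ ?_ ?_; assumption) | (with_reducible refine IntF.comp ?_ ?_; assumption) | (with_reducible refine IntF.comp₂ ?_ ?_ ?_; assumption) | (with_reducible refine IntF.comp₃ ?_ ?_ ?_ ?_; assumption) | with_reducible apply IntF.val | with_reducible apply IntF.pair))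

/-- The invariant. -/
def InvB (k : INat M) (β : IPerm M (INat M)) : Prop :=
  (∀ m, m < k → en M (ap β m) = gp n κ β * en M m * (gp n κ β)⁻¹) ∧ ∀ m, m ≤ n → ap β m = m

theorem int_inv : Int M (fun q : INat M × IPerm M (INat M) => InvB n κ q.1 q.2) := by
  have h1 : IntF M (gp n κ) := int_gp n κ
  have h2 : IntF M (en M) := int_en
  have h3 : IntF M (fun q : IPerm M (INat M) × INat M => ap q.1 q.2) := int_ap
  unfold InvB
  (repeat' (first | with_reducible exact IntF.id | with_reducible exact IntF.fst' | with_reducible exact IntF.snd' | with_reducible exact IntF.const _ | with_reducible exact Int.const _ | assumption | with_reducible apply ZFA.Int.and | with_reducible apply ZFA.Int.or | with_reducible apply ZFA.Int.not | with_reducible apply Int.imp | with_reducible apply Int.iff | with_reducible apply Int.ne | with_reducible apply Int.eq | with_reducible apply Int.mem | with_reducible apply Int.subset | with_reducible apply Int.ltN | with_reducible apply Int.leN | with_reducible_and_instances apply ZFA.Int.le | with_reducible_and_instances apply ZFA.Int.lt | with_reducible apply Int.all | with_reducible apply Int.ex | with_reducible apply IntF.fst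 | with_reducible apply IntF.snd | with_reducible apply IntF.app | with_reducible apply IntF.inl | with_reducible apply IntF.inr | with_reducible_and_instances apply IntF.mul | with_reducible_and_instances apply IntF.inv | with_reducible_and_instances apply IntF.add | with_reducible_and_instances apply IntF.sub | with_reducible_and_instances apply IntF.neg | with_reducible_and_instances apply IntF.smul | with_reducible apply IntF.succ | (with_reducible refine Int.comp ?_ ?_; assumption) | (with_reducible refine Int.comp₂ ?_ ?_ ?_; assumption) | (with_reducible refine Int.comp₃ ?_ ?_ ?_ ?_; assumption) | (with_reducible refine Int.comp₄ ?_ ?_ ?_ ?_ ?_; assumption) | (with_reducible refine IntF.comp ?_ ?_; assumption) | (with_reducible refine IntF.comp₂ ?_ ?_ ?_; assumption) | (with_reducible refine IntF.comp₃ ?_ ?_ ?_ ?_; assumption) | with_reducible apply IntF.val | with_reducible apply IntF.pair))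

variable {n κ}

theorem inv_one : InvB n κ 0 1 :=
  ⟨fun m hm => absurd hm INat.not_lt_zero, fun m _ => ap_one m⟩

theorem inv_agree {k : INat M} {β : IPerm M (INat M)} (h : InvB n κ k β) (m : INat M)
    (hm : m < k) : ap (stp n κ k β) m = ap β m := by
  unfold stp
  split_ifs with hk
  · rfl
  · rw [ap_mul, ap_isw]
    refine swf_of_ne (fun e => hm.ne (ap_inj β e)) (fun e => hm.ne ?_)
    have h1 := h.1 m hm
    rw [e, tgt_spec] at h1
    exact (en_inj (mul_left_cancel (mul_right_cancel h1))).symm

theorem inv_step {k : INat M} {β : IPerm M (INat M)} (h : InvB n κ k β) :
    InvB n κ k.succ (stp n κ k β) := by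
  have hag := inv_agree h
  by_cases hk : k ≤ n
  · have e : stp n κ k β = β := by
      unfold stp
      rw [if_pos hk]
    rw [e]
    refine ⟨fun m hm => ?_, h.2⟩
    rcases INat.lt_succ_iff'.1 hm with h1 | rfl
    · exact h.1 m h1
    · rw [h.2 m hk]
      refine (conj_one (m := m) ?_ (bd_en m)).symm
      rintro ⟨a, i⟩ ha
      have ha' : a < m := ha
      have h3 : a ≠ n := (ha'.trans_le hk).ne
      simp only [ap_gp, gf, kk]
      rw [if_neg h3, h.2 a (ha'.le.trans hk)]
  · have e : ap (stp n κ k β) k = tgt n κ β k := by
      unfold stp
      rw [if_neg hk, ap_mul, ap_isw, swf_left]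
    refine ⟨fun m hm => ?_, fun m hm => ?_⟩
    · have h4 : gp n κ (stp n κ k β) * en M m * (gp n κ (stp n κ k β))⁻¹ =
          gp n κ β * en M m * (gp n κ β)⁻¹ := by
        refine conj_congr (m := m) (gp_congr n κ fun j hj => hag j ?_) (bd_en m)
        exact hj.trans_le (INat.lt_succ_iff.1 hm)
      rw [h4]
      rcases INat.lt_succ_iff'.1 hm with h1 | rfl
      · rw [hag m h1]
        exact h.1 m h1
      · rw [e, tgt_spec]
    · rw [hag m (hm.trans_lt (not_le.1 hk))]
      exact h.2 m hm

variable (n κ)

/-- The approximations. -/
noncomputable def bt (k : INat M) : IPerm M (INat M) := irec 1 (stp n κ) k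

theorem int_bt : IntF M (bt n κ) := by
  unfold bt
  refine IntF.irec (a := fun _ : INat M => (1 : IPerm M (INat M)))
    (f := fun (_ : INat M) k β => stp n κ k β) (IntF.const _) ?_ IntF.id
  have h1 : IntF M (fun q : INat M × IPerm M (INat M) => stp n κ q.1 q.2) := int_stp n κ
  exact h1.comp (IntF.pair (IntF.snd IntF.fst') IntF.snd')

theorem bt_succ (k : INat M) : bt n κ k.succ = stp n κ k (bt n κ k) := irec_succ (int_stp n κ) k

theorem inv_bt (k : INat M) : InvB n κ k (bt n κ k) := by
  have h1 : Int M (fun q : INat M × IPerm M (INat M) => InvB n κ q.1 q.2) := int_inv n κ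
  have h2 : IntF M (bt n κ) := int_bt n κ
  refine INat.ind (p := fun k => InvB n κ k (bt n κ k)) (by (repeat' (first | with_reducible exact IntF.id | with_reducible exact IntF.fst' | with_reducible exact IntF.snd' | with_reducible exact IntF.const _ | with_reducible exact Int.const _ | assumption | with_reducible apply ZFA.Int.and | with_reducible apply ZFA.Int.or | with_reducible apply ZFA.Int.not | with_reducible apply Int.imp | with_reducible apply Int.iff | with_reducible apply Int.ne | with_reducible apply Int.eq | with_reducible apply Int.mem | with_reducible apply Int.subset | with_reducible apply Int.ltN | with_reducible apply Int.leN | with_reducible_and_instances apply ZFA.Int.le | with_reducible_and_instances apply ZFA.Int.lt | with_reducible apply Int.all | with_reducible apply Int.ex | with_reducible apply IntF.fst | with_reducible apply IntF.snd | with_reducible apply IntF.app | with_reducible apply IntF.inl | with_reducible apply IntF.inr | with_reducible_and_instances apply IntF.mul | with_reducible_and_instances apply IntF.inv | with_reducible_and_instances apply IntF.add | with_reducible_and_instances apply IntF.sub | with_reducible_and_instances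 apply IntF.neg | with_reducible_and_instances apply IntF.smul | with_reducible apply IntF.succ | (with_reducible refine Int.comp ?_ ?_; assumption) | (with_reducible refine Int.comp₂ ?_ ?_ ?_; assumption) | (with_reducible refine Int.comp₃ ?_ ?_ ?_ ?_; assumption) | (with_reducible refine Int.comp₄ ?_ ?_ ?_ ?_ ?_; assumption) | (with_reducible refine IntF.comp ?_ ?_; assumption) | (with_reducible refine IntF.comp₂ ?_ ?_ ?_; assumption) | (with_reducible refine IntF.comp₃ ?_ ?_ ?_ ?_; assumption) | with_reducible apply IntF.val | with_reducible apply IntF.pair))) ?_ ?_ k
  · have h3 : bt n κ 0 = 1 := irec_zero (int_stp n κ)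
    rw [h3]
    exact inv_one
  · intro k hk
    rw [bt_succ]
    exact inv_step hk

/-- The limit. -/
noncomputable def bi (m : INat M) : INat M := ap (bt n κ m.succ) m

theorem int_bi : IntF M (bi n κ) := by
  have h2 : IntF M (bt n κ) := int_bt n κ
  have h3 : IntF M (fun q : IPerm M (INat M) × INat M => ap q.1 q.2) := int_ap
  unfold bi
  (repeat' (first | with_reducible exact IntF.id | with_reducible exact IntF.fst' | with_reducible exact IntF.snd' | with_reducible exact IntF.const _ | with_reducible exact Int.const _ | assumption | with_reducible apply ZFA.Int.and | with_reducible apply ZFA.Int.or | with_reducible apply ZFA.Int.not | with_reducible apply Int.imp | with_reducible apply Int.iff | with_reducible apply Int.ne | with_reducible apply Int.eq | with_reducible apply Int.mem | with_reducible apply Int.subset | with_reducible apply Int.ltN | with_reducible apply Int.leN | with_reducible_and_instances apply ZFA.Int.le | with_reducible_and_instances apply ZFA.Int.lt | with_reducible apply Int.all | with_reducible apply Int.ex | with_reducible apply IntF.fst | with_reducible apply IntF.snd | with_reducible apply IntF.app | with_reducible apply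 IntF.inl | with_reducible apply IntF.inr | with_reducible_and_instances apply IntF.mul | with_reducible_and_instances apply IntF.inv | with_reducible_and_instances apply IntF.add | with_reducible_and_instances apply IntF.sub | with_reducible_and_instances apply IntF.neg | with_reducible_and_instances apply IntF.smul | with_reducible apply IntF.succ | (with_reducible refine Int.comp ?_ ?_; assumption) | (with_reducible refine Int.comp₂ ?_ ?_ ?_; assumption) | (with_reducible refine Int.comp₃ ?_ ?_ ?_ ?_; assumption) | (with_reducible refine Int.comp₄ ?_ ?_ ?_ ?_ ?_; assumption) | (with_reducible refine IntF.comp ?_ ?_; assumption) | (with_reducible refine IntF.comp₂ ?_ ?_ ?_; assumption) | (with_reducible refine IntF.comp₃ ?_ ?_ ?_ ?_; assumption) | with_reducible apply IntF.val | with_reducible apply IntF.pair))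

theorem bt_stable (k : INat M) : ∀ m, m < k → ap (bt n κ k) m = bi n κ m := by
  have h1 : IntF M (bi n κ) := int_bi n κ
  have h2 : IntF M (bt n κ) := int_bt n κ
  have h3 : IntF M (fun q : IPerm M (INat M) × INat M => ap q.1 q.2) := int_ap
  refine INat.ind (p := fun k => ∀ m, m < k → ap (bt n κ k) m = bi n κ m) (by (repeat' (first | with_reducible exact IntF.id | with_reducible exact IntF.fst' | with_reducible exact IntF.snd' | with_reducible exact IntF.const _ | with_reducible exact Int.const _ | assumption | with_reducible apply ZFA.Int.and | with_reducible apply ZFA.Int.or | with_reducible apply ZFA.Int.not | with_reducible apply Int.imp | with_reducible apply Int.iff | with_reducible apply Int.ne | with_reducible apply Int.eq | with_reducible apply Int.mem | with_reducible apply Int.subset | with_reducible apply Int.ltN | with_reducible apply Int.leN | with_reducible_and_instances apply ZFA.Int.le | with_reducible_and_instances apply ZFA.Int.lt | with_reducible apply Int.all | with_reducible apply Int.ex | with_reducible apply IntF.fst | with_reducible apply IntF.snd | with_reducible apply IntF.app | with_reducible apply IntF.inl | with_reducible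 apply IntF.inr | with_reducible_and_instances apply IntF.mul | with_reducible_and_instances apply IntF.inv | with_reducible_and_instances apply IntF.add | with_reducible_and_instances apply IntF.sub | with_reducible_and_instances apply IntF.neg | with_reducible_and_instances apply IntF.smul | with_reducible apply IntF.succ | (with_reducible refine Int.comp ?_ ?_; assumption) | (with_reducible refine Int.comp₂ ?_ ?_ ?_; assumption) | (with_reducible refine Int.comp₃ ?_ ?_ ?_ ?_; assumption) | (with_reducible refine Int.comp₄ ?_ ?_ ?_ ?_ ?_; assumption) | (with_reducible refine IntF.comp ?_ ?_; assumption) | (with_reducible refine IntF.comp₂ ?_ ?_ ?_; assumption) | (with_reducible refine IntF.comp₃ ?_ ?_ ?_ ?_; assumption) | with_reducible apply IntF.val | with_reducible apply IntF.pair)))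
    (fun m hm => absurd hm INat.not_lt_zero) ?_ k
  intro k ih m hm
  rcases INat.lt_succ_iff'.1 hm with h1 | rfl
  · rw [bt_succ, inv_agree (inv_bt n κ k) m h1, ih m h1]
  · rfl

theorem bi_inj {m m' : INat M} (h : bi n κ m = bi n κ m') : m = m' := by
  have h1 : m < INat.succ (max m m') := INat.lt_succ_iff.2 (le_max_left _ _)
  have h2 : m' < INat.succ (max m m') := INat.lt_succ_iff.2 (le_max_right _ _)
  rw [← bt_stable n κ _ m h1, ← bt_stable n κ _ m' h2] at h
  exact ap_inj _ h

theorem bi_step {l k : INat M} (h : ∀ l', l' < l → ∃ m, m < k ∧ bi n κ m = l') :
    ∃ m, bi n κ m = l := by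
  have hB : BP (gp n κ (bt n κ k))⁻¹ := (bp_gp n κ _).inv
  obtain ⟨m, hm⟩ := nc_iff.1 (nc_conj hB (nc_iff.2 ⟨l, rfl⟩))
  rw [inv_inv] at hm
  have h1 : Bd k (en M m) := by
    rw [hm]
    intro x hx
    rw [ap_mul, ap_mul, ap_inv]
    have h2 : l ≤ (ap (gp n κ (bt n κ k)) x).1 := by
      by_contra hn
      obtain ⟨m', h3, h4⟩ := h _ (not_le.1 hn)
      rw [← bt_stable n κ k m' h3, ap_gp] at h4
      have h5 : m' = x.1 := ap_inj (bt n κ k) h4
      rw [h5] at h3
      exact absurd h3 (not_lt.2 hx)
    rw [bd_en l _ h2, ai_ap]
  refine ⟨m, en_inj ?_⟩
  have h3 : m < max (INat.succ m) k := lt_of_lt_of_le (INat.lt_succ_self _) (le_max_left _ _)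
  rw [← bt_stable n κ _ m h3, (inv_bt n κ _).1 m h3]
  rw [conj_congr (g' := gp n κ (bt n κ k)) (m := k) (gp_congr n κ ?_) h1, hm]
  · group
  · intro j hj
    rw [bt_stable n κ _ j (lt_of_lt_of_le hj (le_max_right _ _)), bt_stable n κ _ j hj]

theorem bi_surj (l : INat M) : ∃ m, bi n κ m = l := by
  have h1 : IntF M (bi n κ) := int_bi n κ
  have key : ∀ l : INat M, ∃ k, ∀ l', l' < l → ∃ m, m < k ∧ bi n κ m = l' := by
    refine fun l => INat.ind (p := fun l => ∃ k, ∀ l', l' < l → ∃ m, m < k ∧ bi n κ m = l')
      (by (repeat' (first | with_reducible exact IntF.id | with_reducible exact IntF.fst' | with_reducible exact IntF.snd' | with_reducible exact IntF.const _ | with_reducible exact Int.const _ | assumption | with_reducible apply ZFA.Int.and | with_reducible apply ZFA.Int.or | with_reducible apply ZFA.Int.not | with_reducible apply Int.imp | with_reducible apply Int.iff | with_reducible apply Int.ne | with_reducible apply Int.eq | with_reducible apply Int.mem | with_reducible apply Int.subset | with_reducible apply Int.ltN | with_reducible apply Int.leN | with_reducible_and_instances apply ZFA.Int.le | with_reducible_and_instances apply ZFA.Int.lt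 | with_reducible apply Int.all | with_reducible apply Int.ex | with_reducible apply IntF.fst | with_reducible apply IntF.snd | with_reducible apply IntF.app | with_reducible apply IntF.inl | with_reducible apply IntF.inr | with_reducible_and_instances apply IntF.mul | with_reducible_and_instances apply IntF.inv | with_reducible_and_instances apply IntF.add | with_reducible_and_instances apply IntF.sub | with_reducible_and_instances apply IntF.neg | with_reducible_and_instances apply IntF.smul | with_reducible apply IntF.succ | (with_reducible refine Int.comp ?_ ?_; assumption) | (with_reducible refine Int.comp₂ ?_ ?_ ?_; assumption) | (with_reducible refine Int.comp₃ ?_ ?_ ?_ ?_; assumption) | (with_reducible refine Int.comp₄ ?_ ?_ ?_ ?_ ?_; assumption) | (with_reducible refine IntF.comp ?_ ?_; assumption) | (with_reducible refine IntF.comp₂ ?_ ?_ ?_; assumption) | (with_reducible refine IntF.comp₃ ?_ ?_ ?_ ?_; assumption) | with_reducible apply IntF.val | with_reducible apply IntF.pair))) ⟨0, fun l' hl' => absurd hl' INat.not_lt_zero⟩ ?_ l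
    rintro l ⟨k, hk⟩
    obtain ⟨m, hm⟩ := bi_step n κ hk
    refine ⟨max k (INat.succ m), fun l' hl' => ?_⟩
    rcases INat.lt_succ_iff'.1 hl' with h2 | rfl
    · obtain ⟨m', h3, h4⟩ := hk l' h2
      exact ⟨m', lt_of_lt_of_le h3 (le_max_left _ _), h4⟩
    · exact ⟨m, lt_of_lt_of_le (INat.lt_succ_self _) (le_max_right _ _), hm⟩
  obtain ⟨k, hk⟩ := key l
  exact bi_step n κ hk

theorem exists_bi : ∃ β : IPerm M (INat M), ∀ m, ap β m = bi n κ m := by
  have h1 : IntF M (bi n κ) := int_bi n κ
  choose g hg using bi_surj n κ
  have h2 : IntF M g := IntF.of_unique (p := fun l m => bi n κ m = l) (by (repeat' (first | with_reducible exact IntF.id | with_reducible exact IntF.fst' | with_reducible exact IntF.snd' | with_reducible exact IntF.const _ | with_reducible exact Int.const _ | assumption | with_reducible apply ZFA.Int.and | with_reducible apply ZFA.Int.or | with_reducible apply ZFA.Int.not | with_reducible apply Int.imp | with_reducible apply Int.iff | with_reducible apply Int.ne | with_reducible apply Int.eq | with_reducible apply Int.mem | with_reducible apply Int.subset | with_reducible apply Int.ltN | with_reducible apply Int.leN | with_reducible_and_instances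 apply ZFA.Int.le | with_reducible_and_instances apply ZFA.Int.lt | with_reducible apply Int.all | with_reducible apply Int.ex | with_reducible apply IntF.fst | with_reducible apply IntF.snd | with_reducible apply IntF.app | with_reducible apply IntF.inl | with_reducible apply IntF.inr | with_reducible_and_instances apply IntF.mul | with_reducible_and_instances apply IntF.inv | with_reducible_and_instances apply IntF.add | with_reducible_and_instances apply IntF.sub | with_reducible_and_instances apply IntF.neg | with_reducible_and_instances apply IntF.smul | with_reducible apply IntF.succ | (with_reducible refine Int.comp ?_ ?_; assumption) | (with_reducible refine Int.comp₂ ?_ ?_ ?_; assumption) | (with_reducible refine Int.comp₃ ?_ ?_ ?_ ?_; assumption) | (with_reducible refine Int.comp₄ ?_ ?_ ?_ ?_ ?_; assumption) | (with_reducible refine IntF.comp ?_ ?_; assumption) | (with_reducible refine IntF.comp₂ ?_ ?_ ?_; assumption) | (with_reducible refine IntF.comp₃ ?_ ?_ ?_ ?_; assumption) | with_reducible apply IntF.val | with_reducible apply IntF.pair))) hg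
    (fun l a b ha hb => bi_inj n κ (ha.trans hb.symm))
  exact ⟨mkP (bi n κ) g h1 h2 hg (fun m => bi_inj n κ (hg _)), fun m => ap_mkP m⟩

theorem exists_aut : ∃ γ : GA M, IsA γ ∧ (∀ a : AA M, a.1 < n → ap γ a = a) ∧
    ∀ i, ap γ (n, i) = (n, κ i) := by
  obtain ⟨β, hβ⟩ := exists_bi n κ
  have hfix : ∀ m, m ≤ n → ap β m = m := by
    intro m hm
    rw [hβ, ← bt_stable n κ (INat.succ n) m (INat.lt_succ_iff.2 hm)]
    exact (inv_bt n κ _).2 m hm
  refine ⟨gp n κ β, ?_, ?_, ?_⟩
  · intro a
    have h1 : (ap (gp n κ β) a).1 = ap (bt n κ (INat.succ a.1)) a.1 := by
      rw [ap_gp]
      exact hβ a.1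
    rw [h1, (inv_bt n κ _).1 a.1 (INat.lt_succ_self _)]
    refine conj_congr (m := a.1) (gp_congr n κ fun j hj => ?_) (bd_en a.1)
    rw [hβ, bt_stable n κ _ j (hj.trans (INat.lt_succ_self _))]
  · rintro ⟨m, i⟩ hm
    have hm' : m < n := hm
    simp only [ap_gp, gf, kk]
    rw [if_neg hm'.ne, hfix m hm'.le]
  · intro i
    simp only [ap_gp, gf, kk, if_true]
    rw [hfix n le_rfl]

end

end Pool.Agent.H525P
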