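import Pool.Agent.H525R3.PNod

/-!
# Families of sets; the bijection as an element of the model
-/

namespace Pool.Agent.H525P

open FirstOrder FirstOrder.Language
open Pool.Agent.Helper672 Pool.Agent.Helper672.ZFA Pool.Agent.Helper672.ZFA.H635
open Pool.Agent.Helper672.Plain (LSet)

universe u

set_option synthInstance.maxSize 2000
set_option linter.unusedSectionVars false

section

variable {M : Type u} [L.Structure M] [hM : IsModel M]
variable {P Γ : Type u} [ITy M P] [Preorder P] [ILE M P] [ITy M Γ] [Group Γ] [IMul M Γ]
  [IInv M Γ] [MulAction Γ P] [ISMul M Γ P]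
variable {Λ : Type u} [ITy M Λ] {S : SymSys M P Γ Λ}
variable {δ ε : Type u} [ITy M δ] [ITy M ε]
variable {G : Set P} {hG : IsGen M G}

theorem exists_setFam {act : Γ → δ → δ} {act' : Γ → ε → ε} {g : δ → NN S hG}
    (hg : EqFam hG act g) (hact' : ∀ π b, act' π⁻¹ (act' π b) = b) {Z : δ → ε → Prop}
    (hZ : Int M (fun q : δ × ε => Z q.1 q.2))
    (hs : ∀ c, ∃ l, ∀ π, S.U l π → ∀ d, Z d c → Z (act π d) c)
    (hE : ∀ π d c, Z d c → Z (act π d) (act' π c)) :
    ∃ f : ε → NN S hG, EqFam hG act' f ∧ ∀ c w, Plain.Mem w (f c) ↔ ∃ d, Z d c ∧ w = g d := by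
  obtain ⟨α, _, E, h, gg, hgg, h1, h2⟩ := hg
  have hQ : Int M (fun q : (α × P) × ε => ∃ d, Z d q.2 ∧ q.1.1 = gg d) := by (repeat' (first | with_reducible exact IntF.id | with_reducible exact IntF.fst' | with_reducible exact IntF.snd' | with_reducible exact IntF.const _ | with_reducible exact Int.const _ | assumption | with_reducible apply ZFA.Int.and | with_reducible apply ZFA.Int.or | with_reducible apply ZFA.Int.not | with_reducible apply Int.imp | with_reducible apply Int.iff | with_reducible apply Int.ne | with_reducible apply Int.eq | with_reducible apply Int.mem | with_reducible apply Int.subset | with_reducible apply Int.ltN | with_reducible apply Int.leN | with_reducible_and_instances apply ZFA.Int.le | with_reducible_and_instances apply ZFA.Int.lt | with_reducible apply Int.all | with_reducible apply Int.ex | with_reducible apply IntF.fst | with_reducible apply IntF.snd | with_reducible apply IntF.app | with_reducible apply IntF.inl | with_reducible apply IntF.inr | with_reducible_and_instances apply IntF.mul | with_reducible_and_instances apply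 IntF.inv | with_reducible_and_instances apply IntF.add | with_reducible_and_instances apply IntF.sub | with_reducible_and_instances apply IntF.neg | with_reducible_and_instances apply IntF.smul | with_reducible apply IntF.succ | (with_reducible refine Int.comp ?_ ?_; assumption) | (with_reducible refine Int.comp₂ ?_ ?_ ?_; assumption) | (with_reducible refine Int.comp₃ ?_ ?_ ?_ ?_; assumption) | (with_reducible refine Int.comp₄ ?_ ?_ ?_ ?_ ?_; assumption) | (with_reducible refine IntF.comp ?_ ?_; assumption) | (with_reducible refine IntF.comp₂ ?_ ?_ ?_; assumption) | (with_reducible refine IntF.comp₃ ?_ ?_ ?_ ?_; assumption) | with_reducible apply IntF.val | with_reducible apply IntF.pair))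
  have hext : Good S (extG E (fun x _ c => ∃ d, Z d c ∧ x = gg d)) := by
    refine good_extG h hQ fun c => ?_
    obtain ⟨l, hl⟩ := hs c
    refine ⟨l, ?_⟩
    rintro π hπ x r ⟨d, hd, rfl⟩ q hq
    exact ⟨q, le_rfl, _, q, ⟨_, hl π hπ d hd, rfl⟩, le_rfl, h2 π q d⟩
  refine ⟨fun c => nd hG hext (Sum.inr c), ⟨_, _, _, hext, fun c => Sum.inr c, by (repeat' (first | with_reducible exact IntF.id | with_reducible exact IntF.fst' | with_reducible exact IntF.snd' | with_reducible exact IntF.const _ | with_reducible exact Int.const _ | assumption | with_reducible apply ZFA.Int.and | with_reducible apply ZFA.Int.or | with_reducible apply ZFA.Int.not | with_reducible apply Int.imp | with_reducible apply Int.iff | with_reducible apply Int.ne | with_reducible apply Int.eq | with_reducible apply Int.mem | with_reducible apply Int.subset | with_reducible apply Int.ltN | with_reducible apply Int.leN | with_reducible_and_instances apply ZFA.Int.le | with_reducible_and_instances apply ZFA.Int.lt | with_reducible apply Int.all | with_reducible apply Int.ex | with_reducible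 apply IntF.fst | with_reducible apply IntF.snd | with_reducible apply IntF.app | with_reducible apply IntF.inl | with_reducible apply IntF.inr | with_reducible_and_instances apply IntF.mul | with_reducible_and_instances apply IntF.inv | with_reducible_and_instances apply IntF.add | with_reducible_and_instances apply IntF.sub | with_reducible_and_instances apply IntF.neg | with_reducible_and_instances apply IntF.smul | with_reducible apply IntF.succ | (with_reducible refine Int.comp ?_ ?_; assumption) | (with_reducible refine Int.comp₂ ?_ ?_ ?_; assumption) | (with_reducible refine Int.comp₃ ?_ ?_ ?_ ?_; assumption) | (with_reducible refine Int.comp₄ ?_ ?_ ?_ ?_ ?_; assumption) | (with_reducible refine IntF.comp ?_ ?_; assumption) | (with_reducible refine IntF.comp₂ ?_ ?_ ?_; assumption) | (with_reducible refine IntF.comp₃ ?_ ?_ ?_ ?_; assumption) | with_reducible apply IntF.val | with_reducible apply IntF.pair)),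
    fun _ => rfl, fun π p c => ?_⟩, fun c w => ?_⟩
  · refine feq_equivQ (S := S) h.int hQ hact' ?_ π p c
    rintro π b x r ⟨d, hd, rfl⟩ q hq
    exact ⟨q, le_rfl, _, q, ⟨_, hE π d b hd, rfl⟩, le_rfl, h2 π q d⟩
  · rw [mem_nd_inr hG h hext]
    constructor
    · rintro ⟨a, s, -, ⟨d, hd, rfl⟩, rfl⟩
      exact ⟨d, hd, (h1 d).symm⟩
    · rintro ⟨d, hd, rfl⟩
      obtain ⟨s, hs⟩ := hG.ne
      exact ⟨gg d, s, hs, ⟨d, hd, rfl⟩, h1 d⟩

end

section

variable {M : Type u} [L.Structure M] [hM : IsModel M]
variable {G : Set (PP M)} (hG : IsGen M G)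

theorem actA_inv (π : GT M) (a : AA M) : actA π⁻¹ (actA π a) = a := by
  unfold actA
  rw [ga_inv, ap_inv, ai_ap]

/-- The action on pairs of indices. -/
noncomputable def actAA (π : GT M) (x : AA M × AA M) : AA M × AA M :=
  (actA π x.1, actA π x.2)

theorem actAA_inv (π : GT M) (x : AA M × AA M) : actAA π⁻¹ (actAA π x) = x := by
  unfold actAA
  rw [actA_inv, actA_inv]

/-- The action on permutations. -/
noncomputable def actG (π : GT M) (σ : GA M) : GA M := ga π * σ * (ga π)⁻¹

theorem actG_inv (π : GT M) (σ : GA M) : actG π⁻¹ (actG π σ) = σ := by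
  unfold actG
  rw [ga_inv]
  group

/-- The action on sets. -/
noncomputable def actT (π : GT M) (t : TT M) : TT M := imt (ga π) t

theorem actT_inv (π : GT M) (t : TT M) : actT π⁻¹ (actT π t) = t := by
  unfold actT
  rw [ga_inv, ← imt_mul, inv_mul_cancel, imt_one]

/-- The action on pairs. -/
noncomputable def actF (π : GT M) (x : GA M × TT M) : GA M × TT M := (actG π x.1, actT π x.2)

theorem actF_inv (π : GT M) (x : GA M × TT M) : actF π⁻¹ (actF π x) = x := by
  unfold actF
  rw [actG_inv, actT_inv]

/-- The ordered pairs. -/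
noncomputable def pX (x : AA M × AA M) : NN (SP M) hG := ZFA.op (xX hG x.1) (xX hG x.2)

theorem fam_pX : EqFam hG actAA (pX hG) :=
  ((fam_xX hG).comp IntF.fst' (act' := actAA) fun _ _ => rfl).op actAA_inv
    ((fam_xX hG).comp IntF.snd' (act' := actAA) fun _ _ => rfl)

theorem ga_ge {n : INat M} {π : GT M} (h : (SP M).U n π) {a : AA M} (ha : n ≤ a.1) :
    n ≤ (ap (ga π) a).1 := by
  by_contra hn
  have h1 := ga_fix h (not_le.1 hn)
  have h2 := ap_inj _ h1
  rw [h2] at hn
  exact hn ha

/-- Membership in the graph. -/
def ZG (x : AA M × AA M) (σ : GA M) : Prop := Fy σ ∧ ap σ x.1 = x.2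

theorem int_zg : Int M (fun q : (AA M × AA M) × GA M => ZG q.1 q.2) := by
  have h1 : Int M (Fy (M := M)) := int_fy
  have h2 : IntF M (fun q : GA M × AA M => ap q.1 q.2) := int_ap
  unfold ZG
  (repeat' (first | with_reducible exact IntF.id | with_reducible exact IntF.fst' | with_reducible exact IntF.snd' | with_reducible exact IntF.const _ | with_reducible exact Int.const _ | assumption | with_reducible apply ZFA.Int.and | with_reducible apply ZFA.Int.or | with_reducible apply ZFA.Int.not | with_reducible apply Int.imp | with_reducible apply Int.iff | with_reducible apply Int.ne | with_reducible apply Int.eq | with_reducible apply Int.mem | with_reducible apply Int.subset | with_reducible apply Int.ltN | with_reducible apply Int.leN | with_reducible_and_instances apply ZFA.Int.le | with_reducible_and_instances apply ZFA.Int.lt | with_reducible apply Int.all | with_reducible apply Int.ex | with_reducible apply IntF.fst | with_reducible apply IntF.snd | with_reducible apply IntF.app | with_reducible apply IntF.inl | with_reducible apply IntF.inr | with_reducible_and_instances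 apply IntF.mul | with_reducible_and_instances apply IntF.inv | with_reducible_and_instances apply IntF.add | with_reducible_and_instances apply IntF.sub | with_reducible_and_instances apply IntF.neg | with_reducible_and_instances apply IntF.smul | with_reducible apply IntF.succ | (with_reducible refine Int.comp ?_ ?_; assumption) | (with_reducible refine Int.comp₂ ?_ ?_ ?_; assumption) | (with_reducible refine Int.comp₃ ?_ ?_ ?_ ?_; assumption) | (with_reducible refine Int.comp₄ ?_ ?_ ?_ ?_ ?_; assumption) | (with_reducible refine IntF.comp ?_ ?_; assumption) | (with_reducible refine IntF.comp₂ ?_ ?_ ?_; assumption) | (with_reducible refine IntF.comp₃ ?_ ?_ ?_ ?_; assumption) | with_reducible apply IntF.val | with_reducible apply IntF.pair))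

theorem exists_gr : ∃ f : GA M → NN (SP M) hG, EqFam hG actG f ∧ ∀ σ w, Plain.Mem w (f σ) ↔
    ∃ x : AA M × AA M, ZG x σ ∧ w = pX hG x := by
  refine exists_setFam (fam_pX hG) actG_inv int_zg ?_ ?_
  · intro σ
    by_cases hσ : Fy σ
    · obtain ⟨n, hn⟩ := hσ
      refine ⟨n, ?_⟩
      rintro π hπ ⟨a, b⟩ ⟨h1, h2⟩
      refine ⟨h1, ?_⟩
      simp only at h2
      subst h2
      simp only [actAA, actA]
      rcases lt_or_ge a.1 n with h3 | h3
      · rw [ga_fix hπ h3, ga_fix hπ (hn.maps h3)]
      · rw [hn a h3, hn _ (ga_ge hπ h3)]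
    · exact ⟨0, fun π _ d hd => absurd hd.1 hσ⟩
  · rintro π ⟨a, b⟩ σ ⟨h1, h2⟩
    refine ⟨fy_conj _ h1, ?_⟩
    simp only at h2
    subst h2
    simp only [actAA, actA, actG]
    rw [ap_mul, ap_mul, ap_inv, ai_ap]

/-- The graph of a finitary permutation. -/
noncomputable def gR (σ : GA M) : NN (SP M) hG := (exists_gr hG).choose σ

theorem fam_gR : EqFam hG actG (gR hG) := (exists_gr hG).choose_spec.1

theorem mem_gR {σ : GA M} {w : NN (SP M) hG} : Plain.Mem w (gR hG σ) ↔
    ∃ x : AA M × AA M, ZG x σ ∧ w = pX hG x := (exists_gr hG).choose_spec.2 σ w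

/-- Membership in a three element set. -/
def ZT (a : AA M) (t : TT M) : Prop := Is3 t ∧ a ∈ t

theorem int_zt : Int M (fun q : AA M × TT M => ZT q.1 q.2) := by
  have h1 : Int M (Is3 (M := M)) := int_is3
  unfold ZT
  (repeat' (first | with_reducible exact IntF.id | with_reducible exact IntF.fst' | with_reducible exact IntF.snd' | with_reducible exact IntF.const _ | with_reducible exact Int.const _ | assumption | with_reducible apply ZFA.Int.and | with_reducible apply ZFA.Int.or | with_reducible apply ZFA.Int.not | with_reducible apply Int.imp | with_reducible apply Int.iff | with_reducible apply Int.ne | with_reducible apply Int.eq | with_reducible apply Int.mem | with_reducible apply Int.subset | with_reducible apply Int.ltN | with_reducible apply Int.leN | with_reducible_and_instances apply ZFA.Int.le | with_reducible_and_instances apply ZFA.Int.lt | with_reducible apply Int.all | with_reducible apply Int.ex | with_reducible apply IntF.fst | with_reducible apply IntF.snd | with_reducible apply IntF.app | with_reducible apply IntF.inl | with_reducible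 apply IntF.inr | with_reducible_and_instances apply IntF.mul | with_reducible_and_instances apply IntF.inv | with_reducible_and_instances apply IntF.add | with_reducible_and_instances apply IntF.sub | with_reducible_and_instances apply IntF.neg | with_reducible_and_instances apply IntF.smul | with_reducible apply IntF.succ | (with_reducible refine Int.comp ?_ ?_; assumption) | (with_reducible refine Int.comp₂ ?_ ?_ ?_; assumption) | (with_reducible refine Int.comp₃ ?_ ?_ ?_ ?_; assumption) | (with_reducible refine Int.comp₄ ?_ ?_ ?_ ?_ ?_; assumption) | (with_reducible refine IntF.comp ?_ ?_; assumption) | (with_reducible refine IntF.comp₂ ?_ ?_ ?_; assumption) | (with_reducible refine IntF.comp₃ ?_ ?_ ?_ ?_; assumption) | with_reducible apply IntF.val | with_reducible apply IntF.pair))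

theorem is3_bound {t : TT M} (h : Is3 t) : ∃ n, ∀ a : AA M, a ∈ t → a.1 < n := by
  obtain ⟨p, q, r, -, -, -, h4⟩ := h
  refine ⟨INat.succ (max p.1 (max q.1 r.1)), fun a ha => INat.lt_succ_iff.2 ?_⟩
  rcases (h4 a).1 ha with rfl | rfl | rfl
  · exact le_max_left _ _
  · exact (le_max_left _ _).trans (le_max_right _ _)
  · exact (le_max_right _ _).trans (le_max_right _ _)

theorem exists_st : ∃ f : TT M → NN (SP M) hG, EqFam hG actT f ∧ ∀ t w, Plain.Mem w (f t) ↔
    ∃ a : AA M, ZT a t ∧ w = xX hG a := by
  refine exists_setFam (fam_xX hG) actT_inv int_zt ?_ ?_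
  · intro t
    by_cases ht : Is3 t
    · obtain ⟨n, hn⟩ := is3_bound ht
      refine ⟨n, fun π hπ a ha => ⟨ht, ?_⟩⟩
      unfold actA
      rw [ga_fix hπ (hn a ha.2)]
      exact ha.2
    · exact ⟨0, fun π _ d hd => absurd hd.1 ht⟩
  · rintro π a t ⟨h1, h2⟩
    refine ⟨is3_imt h1, ?_⟩
    unfold actA actT
    rw [mem_imt, ai_ap]
    exact h2

/-- The set given by a three element set of indices. -/
noncomputable def sT (t : TT M) : NN (SP M) hG := (exists_st hG).choose t

theorem fam_sT : EqFam hG actT (sT hG) := (exists_st hG).choose_spec.1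

theorem mem_sT {t : TT M} {w : NN (SP M) hG} : Plain.Mem w (sT hG t) ↔
    ∃ a : AA M, ZT a t ∧ w = xX hG a := (exists_st hG).choose_spec.2 t w

theorem exists_A : ∃ A : NN (SP M) hG, ∀ w, Plain.Mem w A ↔ ∃ a, w = xX hG a := by
  obtain ⟨z, hz⟩ := (fam_xX hG).set (Z := fun _ => True) (Int.const _)
    ⟨0, fun _ _ _ _ => trivial⟩
  exact ⟨z, fun w => by rw [hz]; simp⟩

theorem exists_Sy : ∃ s : NN (SP M) hG, ∀ w, Plain.Mem w s ↔ ∃ σ, Fy σ ∧ w = gR hG σ :=
  (fam_gR hG).set int_fy ⟨0, fun _ _ _ h => fy_conj _ h⟩

theorem exists_Tr : ∃ t : NN (SP M) hG, ∀ w, Plain.Mem w t ↔ ∃ σ, Is3 σ ∧ w = sT hG σ :=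
  (fam_sT hG).set int_is3 ⟨0, fun _ _ _ h => is3_imt h⟩

theorem exists_F : ∃ F : NN (SP M) hG, ∀ w, Plain.Mem w F ↔
    ∃ σ t, FF σ t ∧ w = ZFA.op (gR hG σ) (sT hG t) := by
  have h := (((fam_gR hG).comp IntF.fst' (act' := actF) fun _ _ => rfl).op actF_inv
    ((fam_sT hG).comp IntF.snd' (act' := actF) fun _ _ => rfl))
  obtain ⟨z, hz⟩ := h.set (Z := fun x : GA M × TT M => FF x.1 x.2) int_ff
    ⟨0, fun π _ c hc => ff_imt (isA_ga π) hc⟩
  refine ⟨z, fun w => (hz w).trans ?_⟩
  constructor
  · rintro ⟨⟨σ, t⟩, h1, h2⟩
    exact ⟨σ, t, h1, h2⟩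
  · rintro ⟨σ, t, h1, h2⟩
    exact ⟨(σ, t), h1, h2⟩

end

end Pool.Agent.H525P
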