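import Pool.Agent.H635R2.Statement

/-!
# Bijections, permutations and three element subsets in a model of set theory
-/

namespace Pool.Agent.H525Sym

open FirstOrder FirstOrder.Language
open Pool.Agent.Helper672.Plain (LSet Mem IsOrdPair)

universe u

variable {N : Type u} [LSet.Structure N]

/-- The ordered pair `(x, y)` is an element of `f`. -/
def PairIn (x y f : N) : Prop := ∃ p, IsOrdPair p x y ∧ Mem p f

/-- The element `f` is a set of ordered pairs, the graph of a bijection from `a` onto `b`. -/
structure IsBijection (f a b : N) : Prop where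
  rel : ∀ p, Mem p f → ∃ x y, Mem x a ∧ Mem y b ∧ IsOrdPair p x y
  total : ∀ x, Mem x a → ∃ y, PairIn x y f
  single : ∀ x y z, PairIn x y f → PairIn x z f → y = z
  inj : ∀ x y z, PairIn x z f → PairIn y z f → x = y
  onto : ∀ y, Mem y b → ∃ x, PairIn x y f

/-- The element `s` is the set of all bijections from `a` onto `a`. -/
def IsSym (s a : N) : Prop := ∀ f, Mem f s ↔ IsBijection f a a

/-- The element `u` is a subset of `a` with exactly three elements. -/
def IsTriple (u a : N) : Prop :=
  ∃ x y z, Mem x a ∧ Mem y a ∧ Mem z a ∧ x ≠ y ∧ x ≠ z ∧ y ≠ z ∧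
    ∀ w, Mem w u ↔ w = x ∨ w = y ∨ w = z

/-- The element `t` is the set of all subsets of `a` with exactly three elements. -/
def IsTriples (t a : N) : Prop := ∀ u, Mem u t ↔ IsTriple u a

end Pool.Agent.H525Sym
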