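import Pool.Agent.H525R3.PRig
import Pool.Agent.H525R3.PLang
import Pool.Agent.H635R2.Ext

/-!
# The conclusion
-/

namespace Pool.Agent.H525P

open FirstOrder FirstOrder.Language
open Pool.Agent.Helper672 Pool.Agent.Helper672.ZFA Pool.Agent.Helper672.ZFA.H635
open Pool.Agent.Helper672.Plain (LSet)
open Pool.Agent.H525C (nn_isOrdPair)
open Pool.Agent.H525Sym
open Pool.Agent.H635Amen (ZF)

universe u

set_option synthInstance.maxSize 2000
set_option linter.unusedSectionVars false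

section

variable {M : Type u} [L.Structure M] [hM : IsModel M]
variable {G : Set (PP M)} (hG : IsGen M G)

theorem pairIn_iff {x y f : NN (SP M) hG} : PairIn x y f ↔ Plain.Mem (ZFA.op x y) f := by
  constructor
  · rintro ⟨p, h1, h2⟩
    rwa [(nn_isOrdPair hG).1 h1] at h2
  · exact fun h => ⟨_, (nn_isOrdPair hG).2 rfl, h⟩

theorem pX_inj {x y : AA M × AA M} (h : pX hG x = pX hG y) : x = y := by
  obtain ⟨h1, h2⟩ := op_inj h
  exact Prod.ext (xX_inj hG h1) (xX_inj hG h2)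

theorem mem_gR' {σ : GA M} (hσ : Fy σ) {a b : AA M} :
    Plain.Mem (pX hG (a, b)) (gR hG σ) ↔ ap σ a = b := by
  rw [mem_gR]
  constructor
  · rintro ⟨x, ⟨-, h1⟩, h2⟩
    obtain rfl := pX_inj hG h2
    exact h1
  · intro h
    exact ⟨(a, b), ⟨hσ, h⟩, rfl⟩

theorem gR_inj {σ τ : GA M} (hσ : Fy σ) (hτ : Fy τ) (h : gR hG σ = gR hG τ) : σ = τ := by
  refine ext_ap fun a => ?_
  have h1 := (mem_gR' hG hσ (a := a)).2 rfl
  rw [h, mem_gR' hG hτ] at h1
  exact h1.symm

theorem mem_sT' {t : TT M} (ht : Is3 t) {a : AA M} : Plain.Mem (xX hG a) (sT hG t) ↔ a ∈ t := by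
  rw [mem_sT]
  constructor
  · rintro ⟨x, ⟨-, h1⟩, h2⟩
    obtain rfl := xX_inj hG h2
    exact h1
  · intro h
    exact ⟨a, ⟨ht, h⟩, rfl⟩

theorem sT_inj {t t' : TT M} (ht : Is3 t) (ht' : Is3 t') (h : sT hG t = sT hG t') : t = t' := by
  refine IPow.ext' fun a => ?_
  rw [← mem_sT' hG ht, h, mem_sT' hG ht']

theorem isPm_of {f A : NN (SP M) hG} (hA : ∀ w, Plain.Mem w A ↔ ∃ a, w = xX hG a)
    (hf : IsBijection f A A) : IsPm hG f := by
  have h1 : ∀ a b, PM hG f a b ↔ PairIn (xX hG a) (xX hG b) f := fun a b => (pairIn_iff hG).symm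
  have h2 : ∀ x y, PairIn x y f → ∃ a b, x = xX hG a ∧ y = xX hG b := by
    rintro x y ⟨p, h2, h3⟩
    obtain ⟨x', y', h4, h5, h6⟩ := hf.rel p h3
    rw [nn_isOrdPair] at h2 h6
    obtain ⟨e1, e2⟩ := op_inj (h2.symm.trans h6)
    obtain ⟨a, ha⟩ := (hA _).1 h4
    obtain ⟨b, hb⟩ := (hA _).1 h5
    exact ⟨a, b, e1.trans ha, e2.trans hb⟩
  refine ⟨?_, ?_, ?_, ?_, ?_⟩
  · intro w hw
    obtain ⟨x, y, h3, h4, h5⟩ := hf.rel w hw
    obtain ⟨a, rfl⟩ := (hA _).1 h3
    obtain ⟨b, rfl⟩ := (hA _).1 h4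
    exact ⟨a, b, (nn_isOrdPair hG).1 h5⟩
  · intro a
    obtain ⟨y, hy⟩ := hf.total _ ((hA _).2 ⟨a, rfl⟩)
    obtain ⟨a', b, e1, rfl⟩ := h2 _ _ hy
    exact ⟨b, (h1 _ _).2 hy⟩
  · intro a b b' hb hb'
    exact xX_inj hG (hf.single _ _ _ ((h1 _ _).1 hb) ((h1 _ _).1 hb'))
  · intro a b b' hb hb'
    exact xX_inj hG (hf.inj _ _ _ ((h1 _ _).1 hb) ((h1 _ _).1 hb'))
  · intro b
    obtain ⟨x, hx⟩ := hf.onto _ ((hA _).2 ⟨b, rfl⟩)
    obtain ⟨a, b', rfl, e1⟩ := h2 _ _ hx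
    exact ⟨a, (h1 _ _).2 hx⟩

theorem isBijection_gR {A : NN (SP M) hG} (hA : ∀ w, Plain.Mem w A ↔ ∃ a, w = xX hG a)
    {σ : GA M} (hσ : Fy σ) : IsBijection (gR hG σ) A A := by
  have h2 : ∀ x y, PairIn x y (gR hG σ) → ∃ a, x = xX hG a ∧ y = xX hG (ap σ a) := by
    intro x y h
    rw [pairIn_iff, mem_gR] at h
    obtain ⟨⟨a, b⟩, ⟨-, h3⟩, h4⟩ := h
    obtain ⟨rfl, rfl⟩ := op_inj h4
    exact ⟨a, rfl, by rw [← h3]⟩
  refine ⟨?_, ?_, ?_, ?_, ?_⟩
  · intro p hp
    obtain ⟨⟨a, b⟩, -, rfl⟩ := (mem_gR hG).1 hp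
    exact ⟨xX hG a, xX hG b, (hA _).2 ⟨a, rfl⟩, (hA _).2 ⟨b, rfl⟩, (nn_isOrdPair hG).2 rfl⟩
  · intro x hx
    obtain ⟨a, rfl⟩ := (hA _).1 hx
    exact ⟨xX hG (ap σ a), (pairIn_iff hG).2 ((mem_gR' hG hσ).2 rfl)⟩
  · intro x y z hy hz
    obtain ⟨a, rfl, rfl⟩ := h2 _ _ hy
    obtain ⟨b, e1, rfl⟩ := h2 _ _ hz
    rw [xX_inj hG e1]
  · intro x y z hx hy
    obtain ⟨a, rfl, rfl⟩ := h2 _ _ hx
    obtain ⟨b, rfl, e1⟩ := h2 _ _ hy
    rw [ap_inj σ (xX_inj hG e1)]
  · intro y hy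
    obtain ⟨b, rfl⟩ := (hA _).1 hy
    exact ⟨xX hG (ai σ b), (pairIn_iff hG).2 ((mem_gR' hG hσ).2 (ap_ai σ b))⟩

theorem exists_bijection : ∃ a s t F : NN (SP M) hG, IsSym s a ∧ IsTriples t a ∧
    IsBijection F s t := by
  obtain ⟨A, hA⟩ := exists_A hG
  obtain ⟨s, hs⟩ := exists_Sy hG
  obtain ⟨t, ht⟩ := exists_Tr hG
  obtain ⟨F, hF⟩ := exists_F hG
  refine ⟨A, s, t, F, ?_, ?_, ?_⟩
  · intro f
    rw [hs]
    constructor
    · rintro ⟨σ, hσ, rfl⟩
      exact isBijection_gR hG hA hσ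
    · intro h
      exact rigid (isPm_of hG hA h)
  · intro w
    rw [ht]
    constructor
    · rintro ⟨c, hc, rfl⟩
      obtain ⟨p, q, r, h1, h2, h3, h4⟩ := id hc
      refine ⟨xX hG p, xX hG q, xX hG r, (hA _).2 ⟨p, rfl⟩, (hA _).2 ⟨q, rfl⟩,
        (hA _).2 ⟨r, rfl⟩, fun e => h1 (xX_inj hG e), fun e => h2 (xX_inj hG e),
        fun e => h3 (xX_inj hG e), fun w => ?_⟩
      rw [mem_sT]
      constructor
      · rintro ⟨a, ⟨-, ha⟩, rfl⟩
        rcases (h4 a).1 ha with rfl | rfl | rfl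
        · exact Or.inl rfl
        · exact Or.inr (Or.inl rfl)
        · exact Or.inr (Or.inr rfl)
      · rintro (rfl | rfl | rfl)
        · exact ⟨p, ⟨hc, (h4 p).2 (Or.inl rfl)⟩, rfl⟩
        · exact ⟨q, ⟨hc, (h4 q).2 (Or.inr (Or.inl rfl))⟩, rfl⟩
        · exact ⟨r, ⟨hc, (h4 r).2 (Or.inr (Or.inr rfl))⟩, rfl⟩
    · rintro ⟨x, y, z, hx, hy, hz, h1, h2, h3, h4⟩
      obtain ⟨p, rfl⟩ := (hA _).1 hx
      obtain ⟨q, rfl⟩ := (hA _).1 hy
      obtain ⟨r, rfl⟩ := (hA _).1 hz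
      have hI : Int M (fun x : AA M => x = p ∨ x = q ∨ x = r) := by (repeat' (first | with_reducible exact IntF.id | with_reducible exact IntF.fst' | with_reducible exact IntF.snd' | with_reducible exact IntF.const _ | with_reducible exact Int.const _ | assumption | with_reducible apply ZFA.Int.and | with_reducible apply ZFA.Int.or | with_reducible apply ZFA.Int.not | with_reducible apply Int.imp | with_reducible apply Int.iff | with_reducible apply Int.ne | with_reducible apply Int.eq | with_reducible apply Int.mem | with_reducible apply Int.subset | with_reducible apply Int.ltN | with_reducible apply Int.leN | with_reducible_and_instances apply ZFA.Int.le | with_reducible_and_instances apply ZFA.Int.lt | with_reducible apply Int.all | with_reducible apply Int.ex | with_reducible apply IntF.fst | with_reducible apply IntF.snd | with_reducible apply IntF.app | with_reducible apply IntF.inl | with_reducible apply IntF.inr |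 with_reducible_and_instances apply IntF.mul | with_reducible_and_instances apply IntF.inv | with_reducible_and_instances apply IntF.add | with_reducible_and_instances apply IntF.sub | with_reducible_and_instances apply IntF.neg | with_reducible_and_instances apply IntF.smul | with_reducible apply IntF.succ | (with_reducible refine Int.comp ?_ ?_; assumption) | (with_reducible refine Int.comp₂ ?_ ?_ ?_; assumption) | (with_reducible refine Int.comp₃ ?_ ?_ ?_ ?_; assumption) | (with_reducible refine Int.comp₄ ?_ ?_ ?_ ?_ ?_; assumption) | (with_reducible refine IntF.comp ?_ ?_; assumption) | (with_reducible refine IntF.comp₂ ?_ ?_ ?_; assumption) | (with_reducible refine IntF.comp₃ ?_ ?_ ?_ ?_; assumption) | with_reducible apply IntF.val | with_reducible apply IntF.pair))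
      have h5 : ∀ x, x ∈ sep M (fun x : AA M => x = p ∨ x = q ∨ x = r) ↔
          x = p ∨ x = q ∨ x = r := fun x => mem_sep hI
      have h6 : Is3 (sep M fun x : AA M => x = p ∨ x = q ∨ x = r) :=
        ⟨p, q, r, fun e => h1 (by rw [e]), fun e => h2 (by rw [e]), fun e => h3 (by rw [e]), h5⟩
      refine ⟨_, h6, nn_ext hG fun v => ?_⟩
      rw [h4, mem_sT]
      constructor
      · rintro (rfl | rfl | rfl)
        · exact ⟨p, ⟨h6, (h5 p).2 (Or.inl rfl)⟩, rfl⟩
        · exact ⟨q, ⟨h6, (h5 q).2 (Or.inr (Or.inl rfl))⟩, rfl⟩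
        · exact ⟨r, ⟨h6, (h5 r).2 (Or.inr (Or.inr rfl))⟩, rfl⟩
      · rintro ⟨a, ⟨-, ha⟩, rfl⟩
        rcases (h5 a).1 ha with rfl | rfl | rfl
        · exact Or.inl rfl
        · exact Or.inr (Or.inl rfl)
        · exact Or.inr (Or.inr rfl)
  · have h2 : ∀ x y, PairIn x y F → ∃ σ c, FF σ c ∧ x = gR hG σ ∧ y = sT hG c := by
      intro x y h
      rw [pairIn_iff, hF] at h
      obtain ⟨σ, c, h3, h4⟩ := h
      obtain ⟨e1, e2⟩ := op_inj h4
      exact ⟨σ, c, h3, e1, e2⟩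
    have h3 : ∀ σ c, FF σ c → PairIn (gR hG σ) (sT hG c) F := fun σ c h =>
      (pairIn_iff hG).2 ((hF _).2 ⟨σ, c, h, rfl⟩)
    refine ⟨?_, ?_, ?_, ?_, ?_⟩
    · intro p hp
      obtain ⟨σ, c, h, rfl⟩ := (hF _).1 hp
      exact ⟨gR hG σ, sT hG c, (hs _).2 ⟨σ, ff_fy h, rfl⟩, (ht _).2 ⟨c, ff_is3 h, rfl⟩,
        (nn_isOrdPair hG).2 rfl⟩
    · intro x hx
      obtain ⟨σ, hσ, rfl⟩ := (hs _).1 hx
      obtain ⟨c, hc⟩ := ff_total hσ
      exact ⟨sT hG c, h3 σ c hc⟩
    · intro x y z hy hz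
      obtain ⟨σ, c, h, rfl, rfl⟩ := h2 _ _ hy
      obtain ⟨σ', c', h', e1, rfl⟩ := h2 _ _ hz
      obtain rfl := gR_inj hG (ff_fy h) (ff_fy h') e1
      rw [ff_fun h h']
    · intro x y z hx hy
      obtain ⟨σ, c, h, rfl, rfl⟩ := h2 _ _ hx
      obtain ⟨σ', c', h', rfl, e1⟩ := h2 _ _ hy
      obtain rfl := sT_inj hG (ff_is3 h) (ff_is3 h') e1
      rw [ff_inj h h']
    · intro y hy
      obtain ⟨c, hc, rfl⟩ := (ht _).1 hy
      obtain ⟨σ, hσ⟩ := ff_onto hc
      exact ⟨gR hG σ, h3 σ c hσ⟩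

/-- The trivial condition. -/
noncomputable def topP : PP M := mkC (fun _ => False) (fun _ => False) (Int.const _)
  (Int.const _) (fun _ h => h.elim) ⟨0, fun _ h => (h.elim id id).elim⟩

end

/-- The conclusion for countable models of Collection. -/
theorem conclusion_coll (M : Type u) [L.Structure M] [IsModel M] [Countable M] (hC : CollL M) :
    ∃ (N : Type u) (_ : LSet.Structure N), ZF N ∧ ∃ a s t F : N, IsSym s a ∧ IsTriples t a ∧
      IsBijection F s t := by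
  obtain ⟨G, hG⟩ := exists_gen (M := M) (topP : PP M)
  exact ⟨NN (SP M) hG, inferInstance, nn_zf hG hC, exists_bijection hG⟩

section

attribute [local instance] toL

/-- The conclusion for countable models of ZF. -/
theorem conclusion_countable (M : Type u) [LSet.Structure M] [Countable M] (h : ZF M) :
    ∃ (N : Type u) (_ : LSet.Structure N), ZF N ∧ ∃ a s t F : N, IsSym s a ∧ IsTriples t a ∧
      IsBijection F s t := by
  have hM : IsModel M := isModel_of_zermelo h.toZermelo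
  exact conclusion_coll M (coll_of_zf h)

/-- The conclusion. -/
theorem conclusion (M : Type u) [LSet.Structure M] (h : ZF M) :
    ∃ (N : Type u) (_ : LSet.Structure N), ZF N ∧ ∃ a s t F : N, IsSym s a ∧ IsTriples t a ∧
      IsBijection F s t := by
  obtain ⟨M₀, _, h₀⟩ := exists_countable_sub M h
  exact conclusion_countable M₀ h₀

end

end Pool.Agent.H525P
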