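import Pool.Agent.H525R3.PSys
import Pool.Agent.H525R3.FamU

/-!
# Names for the generic sets
-/

namespace Pool.Agent.H525P

open FirstOrder FirstOrder.Language
open Pool.Agent.Helper672 Pool.Agent.Helper672.ZFA Pool.Agent.Helper672.ZFA.H635
open Pool.Agent.Helper672.Plain (LSet)

universe u

set_option synthInstance.maxSize 2000
set_option linter.unusedSectionVars false

section

variable {M : Type u} [L.Structure M] [hM : IsModel M]

variable (M) in
/-- The nodes: natural numbers, columns, indices. -/
abbrev NX : Type u := INat M ⊕ (Col M ⊕ AA M)

/-- Natural numbers. -/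
def xN (n : INat M) : NX M := Sum.inl n
/-- Generic reals. -/
def xC (c : Col M) : NX M := Sum.inr (Sum.inl c)
/-- Generic sets of reals. -/
def xA (a : AA M) : NX M := Sum.inr (Sum.inr a)

theorem int_xN : IntF M (xN (M := M)) := by unfold xN; (repeat' (first | with_reducible exact IntF.id | with_reducible exact IntF.fst' | with_reducible exact IntF.snd' | with_reducible exact IntF.const _ | with_reducible exact Int.const _ | assumption | with_reducible apply ZFA.Int.and | with_reducible apply ZFA.Int.or | with_reducible apply ZFA.Int.not | with_reducible apply Int.imp | with_reducible apply Int.iff | with_reducible apply Int.ne | with_reducible apply Int.eq | with_reducible apply Int.mem | with_reducible apply Int.subset | with_reducible apply Int.ltN | with_reducible apply Int.leN | with_reducible_and_instances apply ZFA.Int.le | with_reducible_and_instances apply ZFA.Int.lt | with_reducible apply Int.all | with_reducible apply Int.ex | with_reducible apply IntF.fst | with_reducible apply IntF.snd | with_reducible apply IntF.app | with_reducible apply IntF.inl | with_reducible apply IntF.inr | with_reducible_and_instances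 apply IntF.mul | with_reducible_and_instances apply IntF.inv | with_reducible_and_instances apply IntF.add | with_reducible_and_instances apply IntF.sub | with_reducible_and_instances apply IntF.neg | with_reducible_and_instances apply IntF.smul | with_reducible apply IntF.succ | (with_reducible refine Int.comp ?_ ?_; assumption) | (with_reducible refine Int.comp₂ ?_ ?_ ?_; assumption) | (with_reducible refine Int.comp₃ ?_ ?_ ?_ ?_; assumption) | (with_reducible refine Int.comp₄ ?_ ?_ ?_ ?_ ?_; assumption) | (with_reducible refine IntF.comp ?_ ?_; assumption) | (with_reducible refine IntF.comp₂ ?_ ?_ ?_; assumption) | (with_reducible refine IntF.comp₃ ?_ ?_ ?_ ?_; assumption) | with_reducible apply IntF.val | with_reducible apply IntF.pair))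
theorem int_xC : IntF M (xC (M := M)) := by unfold xC; (repeat' (first | with_reducible exact IntF.id | with_reducible exact IntF.fst' | with_reducible exact IntF.snd' | with_reducible exact IntF.const _ | with_reducible exact Int.const _ | assumption | with_reducible apply ZFA.Int.and | with_reducible apply ZFA.Int.or | with_reducible apply ZFA.Int.not | with_reducible apply Int.imp | with_reducible apply Int.iff | with_reducible apply Int.ne | with_reducible apply Int.eq | with_reducible apply Int.mem | with_reducible apply Int.subset | with_reducible apply Int.ltN | with_reducible apply Int.leN | with_reducible_and_instances apply ZFA.Int.le | with_reducible_and_instances apply ZFA.Int.lt | with_reducible apply Int.all | with_reducible apply Int.ex | with_reducible apply IntF.fst | with_reducible apply IntF.snd | with_reducible apply IntF.app | with_reducible apply IntF.inl | with_reducible apply IntF.inr | with_reducible_and_instances apply IntF.mul | with_reducible_and_instances apply IntF.inv | with_reducible_and_instances apply IntF.add | with_reducible_and_instances apply IntF.sub | with_reducible_and_instances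 apply IntF.neg | with_reducible_and_instances apply IntF.smul | with_reducible apply IntF.succ | (with_reducible refine Int.comp ?_ ?_; assumption) | (with_reducible refine Int.comp₂ ?_ ?_ ?_; assumption) | (with_reducible refine Int.comp₃ ?_ ?_ ?_ ?_; assumption) | (with_reducible refine Int.comp₄ ?_ ?_ ?_ ?_ ?_; assumption) | (with_reducible refine IntF.comp ?_ ?_; assumption) | (with_reducible refine IntF.comp₂ ?_ ?_ ?_; assumption) | (with_reducible refine IntF.comp₃ ?_ ?_ ?_ ?_; assumption) | with_reducible apply IntF.val | with_reducible apply IntF.pair))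
theorem int_xA : IntF M (xA (M := M)) := by unfold xA; (repeat' (first | with_reducible exact IntF.id | with_reducible exact IntF.fst' | with_reducible exact IntF.snd' | with_reducible exact IntF.const _ | with_reducible exact Int.const _ | assumption | with_reducible apply ZFA.Int.and | with_reducible apply ZFA.Int.or | with_reducible apply ZFA.Int.not | with_reducible apply Int.imp | with_reducible apply Int.iff | with_reducible apply Int.ne | with_reducible apply Int.eq | with_reducible apply Int.mem | with_reducible apply Int.subset | with_reducible apply Int.ltN | with_reducible apply Int.leN | with_reducible_and_instances apply ZFA.Int.le | with_reducible_and_instances apply ZFA.Int.lt | with_reducible apply Int.all | with_reducible apply Int.ex | with_reducible apply IntF.fst | with_reducible apply IntF.snd | with_reducible apply IntF.app | with_reducible apply IntF.inl | with_reducible apply IntF.inr | with_reducible_and_instances apply IntF.mul | with_reducible_and_instances apply IntF.inv | with_reducible_and_instances apply IntF.add | with_reducible_and_instances apply IntF.sub | with_reducible_and_instances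 apply IntF.neg | with_reducible_and_instances apply IntF.smul | with_reducible apply IntF.succ | (with_reducible refine Int.comp ?_ ?_; assumption) | (with_reducible refine Int.comp₂ ?_ ?_ ?_; assumption) | (with_reducible refine Int.comp₃ ?_ ?_ ?_ ?_; assumption) | (with_reducible refine Int.comp₄ ?_ ?_ ?_ ?_ ?_; assumption) | (with_reducible refine IntF.comp ?_ ?_; assumption) | (with_reducible refine IntF.comp₂ ?_ ?_ ?_; assumption) | (with_reducible refine IntF.comp₃ ?_ ?_ ?_ ?_; assumption) | with_reducible apply IntF.val | with_reducible apply IntF.pair))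

/-- The graph. -/
def cE (u : NX M) (p : PP M) (v : NX M) : Prop :=
  (∃ m n, u = xN m ∧ v = xN n ∧ m < n) ∨
  (∃ m, ∃ c : Col M, u = xN m ∧ v = xC c ∧ (c, m) ∈ p.1.1) ∨
  (∃ a : AA M, ∃ i, u = xC (a, i) ∧ v = xA a)

theorem ig_cE : IG M (cE (M := M)) := by
  have h1 : IntF M (xN (M := M)) := int_xN
  have h2 : IntF M (xC (M := M)) := int_xC
  have h3 : IntF M (xA (M := M)) := int_xA
  unfold IG cE
  (repeat' (first | with_reducible exact IntF.id | with_reducible exact IntF.fst' | with_reducible exact IntF.snd' | with_reducible exact IntF.const _ | with_reducible exact Int.const _ | assumption | with_reducible apply ZFA.Int.and | with_reducible apply ZFA.Int.or | with_reducible apply ZFA.Int.not | with_reducible apply Int.imp | with_reducible apply Int.iff | with_reducible apply Int.ne | with_reducible apply Int.eq | with_reducible apply Int.mem | with_reducible apply Int.subset | with_reducible apply Int.ltN | with_reducible apply Int.leN | with_reducible_and_instances apply ZFA.Int.le | with_reducible_and_instances apply ZFA.Int.lt | with_reducible apply Int.all | with_reducible apply Int.ex | with_reducible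 apply IntF.fst | with_reducible apply IntF.snd | with_reducible apply IntF.app | with_reducible apply IntF.inl | with_reducible apply IntF.inr | with_reducible_and_instances apply IntF.mul | with_reducible_and_instances apply IntF.inv | with_reducible_and_instances apply IntF.add | with_reducible_and_instances apply IntF.sub | with_reducible_and_instances apply IntF.neg | with_reducible_and_instances apply IntF.smul | with_reducible apply IntF.succ | (with_reducible refine Int.comp ?_ ?_; assumption) | (with_reducible refine Int.comp₂ ?_ ?_ ?_; assumption) | (with_reducible refine Int.comp₃ ?_ ?_ ?_ ?_; assumption) | (with_reducible refine Int.comp₄ ?_ ?_ ?_ ?_ ?_; assumption) | (with_reducible refine IntF.comp ?_ ?_; assumption) | (with_reducible refine IntF.comp₂ ?_ ?_ ?_; assumption) | (with_reducible refine IntF.comp₃ ?_ ?_ ?_ ?_; assumption) | with_reducible apply IntF.val | with_reducible apply IntF.pair))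

variable {u v : NX M} {p : PP M} {m n : INat M} {c d : Col M} {a b : AA M}

theorem cE_N : cE u p (xN n) ↔ ∃ m, u = xN m ∧ m < n := by
  constructor
  · rintro (⟨m, n', h1, h2, h3⟩ | ⟨m, c, h1, h2, h3⟩ | ⟨a, i, h1, h2⟩)
    · obtain rfl : n = n' := Sum.inl.inj h2
      exact ⟨m, h1, h3⟩
    · cases h2
    · cases h2
  · rintro ⟨m, h1, h2⟩
    exact Or.inl ⟨m, n, h1, rfl, h2⟩

theorem cE_C : cE u p (xC c) ↔ ∃ m, u = xN m ∧ (c, m) ∈ p.1.1 := by
  constructor
  · rintro (⟨m, n', h1, h2, h3⟩ | ⟨m, c', h1, h2, h3⟩ | ⟨a, i, h1, h2⟩)
    · cases h2
    · obtain rfl : c = c' := Sum.inl.inj (Sum.inr.inj h2)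
      exact ⟨m, h1, h3⟩
    · cases h2
  · rintro ⟨m, h1, h2⟩
    exact Or.inr (Or.inl ⟨m, c, h1, rfl, h2⟩)

theorem cE_A : cE u p (xA a) ↔ ∃ i, u = xC (a, i) := by
  constructor
  · rintro (⟨m, n', h1, h2, h3⟩ | ⟨m, c', h1, h2, h3⟩ | ⟨a', i, h1, h2⟩)
    · cases h2
    · cases h2
    · obtain rfl : a = a' := Sum.inr.inj (Sum.inr.inj h2)
      exact ⟨i, h1⟩
  · rintro ⟨i, h1⟩
    exact Or.inr (Or.inr ⟨a, i, h1, rfl⟩)

theorem wf_cE : WFI M (cE (M := M)) := by
  have h1 : IntF M (xN (M := M)) := int_xN
  intro s hs
  by_cases h : ∃ n, xN n ∈ s
  · obtain ⟨n, h2, h3⟩ := INat.exists_least (p := fun n => xN n ∈ s) (by (repeat' (first | with_reducible exact IntF.id | with_reducible exact IntF.fst' | with_reducible exact IntF.snd' | with_reducible exact IntF.const _ | with_reducible exact Int.const _ | assumption | with_reducible apply ZFA.Int.and | with_reducible apply ZFA.Int.or | with_reducible apply ZFA.Int.not | with_reducible apply Int.imp | with_reducible apply Int.iff | with_reducible apply Int.ne | with_reducible apply Int.eq | with_reducible apply Int.mem | with_reducible apply Int.subset | with_reducible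 apply Int.ltN | with_reducible apply Int.leN | with_reducible_and_instances apply ZFA.Int.le | with_reducible_and_instances apply ZFA.Int.lt | with_reducible apply Int.all | with_reducible apply Int.ex | with_reducible apply IntF.fst | with_reducible apply IntF.snd | with_reducible apply IntF.app | with_reducible apply IntF.inl | with_reducible apply IntF.inr | with_reducible_and_instances apply IntF.mul | with_reducible_and_instances apply IntF.inv | with_reducible_and_instances apply IntF.add | with_reducible_and_instances apply IntF.sub | with_reducible_and_instances apply IntF.neg | with_reducible_and_instances apply IntF.smul | with_reducible apply IntF.succ | (with_reducible refine Int.comp ?_ ?_; assumption) | (with_reducible refine Int.comp₂ ?_ ?_ ?_; assumption) | (with_reducible refine Int.comp₃ ?_ ?_ ?_ ?_; assumption) | (with_reducible refine Int.comp₄ ?_ ?_ ?_ ?_ ?_; assumption) | (with_reducible refine IntF.comp ?_ ?_; assumption) | (with_reducible refine IntF.comp₂ ?_ ?_ ?_; assumption) | (with_reducible refine IntF.comp₃ ?_ ?_ ?_ ?_; assumption) | with_reducible apply IntF.val | with_reducible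 apply IntF.pair))) h
    refine ⟨xN n, h2, fun a' q ha' he => ?_⟩
    obtain ⟨m, rfl, hm⟩ := cE_N.1 he
    exact absurd (h3 m ha') (not_le.2 hm)
  by_cases h' : ∃ c, xC c ∈ s
  · obtain ⟨c, hc⟩ := h'
    refine ⟨xC c, hc, fun a' q ha' he => ?_⟩
    obtain ⟨m, rfl, -⟩ := cE_C.1 he
    exact h ⟨m, ha'⟩
  · obtain ⟨x, hx⟩ := hs
    refine ⟨x, hx, fun a' q ha' he => ?_⟩
    rcases x with n | c | a
    · exact h ⟨n, hx⟩
    · exact h' ⟨c, hx⟩
    · obtain ⟨i, rfl⟩ := cE_A.1 he
      exact h' ⟨_, ha'⟩

/-- The action on nodes. -/
noncomputable def actX (π : GT M) : NX M → NX M := Sum.map id (Sum.map (pa π) (ap (ga π)))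

theorem actX_N (π : GT M) : actX π (xN n) = xN n := rfl
theorem actX_C (π : GT M) : actX π (xC c) = xC (pa π c) := rfl
theorem actX_A (π : GT M) : actX π (xA a) = xA (ap (ga π) a) := rfl

theorem int_actX (π : GT M) : IntF M (actX π) := by
  have h1 : IntF M (xN (M := M)) := int_xN
  have h2 : IntF M (xC (M := M)) := int_xC
  have h3 : IntF M (xA (M := M)) := int_xA
  have h4 : IntF M (fun q : GT M × Col M => pa q.1 q.2) := int_pa
  have h5 : IntF M (fun q : GA M × AA M => ap q.1 q.2) := int_ap
  refine IntF.of_rel (r := fun u v => (∃ n, u = xN n ∧ v = xN n) ∨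
    (∃ c, u = xC c ∧ v = xC (pa π c)) ∨ ∃ a, u = xA a ∧ v = xA (ap (ga π) a)) (by (repeat' (first | with_reducible exact IntF.id | with_reducible exact IntF.fst' | with_reducible exact IntF.snd' | with_reducible exact IntF.const _ | with_reducible exact Int.const _ | assumption | with_reducible apply ZFA.Int.and | with_reducible apply ZFA.Int.or | with_reducible apply ZFA.Int.not | with_reducible apply Int.imp | with_reducible apply Int.iff | with_reducible apply Int.ne | with_reducible apply Int.eq | with_reducible apply Int.mem | with_reducible apply Int.subset | with_reducible apply Int.ltN | with_reducible apply Int.leN | with_reducible_and_instances apply ZFA.Int.le | with_reducible_and_instances apply ZFA.Int.lt | with_reducible apply Int.all | with_reducible apply Int.ex | with_reducible apply IntF.fst | with_reducible apply IntF.snd | with_reducible apply IntF.app | with_reducible apply IntF.inl | with_reducible apply IntF.inr | with_reducible_and_instances apply IntF.mul | with_reducible_and_instances apply IntF.inv | with_reducible_and_instances apply IntF.add | with_reducible_and_instances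 apply IntF.sub | with_reducible_and_instances apply IntF.neg | with_reducible_and_instances apply IntF.smul | with_reducible apply IntF.succ | (with_reducible refine Int.comp ?_ ?_; assumption) | (with_reducible refine Int.comp₂ ?_ ?_ ?_; assumption) | (with_reducible refine Int.comp₃ ?_ ?_ ?_ ?_; assumption) | (with_reducible refine Int.comp₄ ?_ ?_ ?_ ?_ ?_; assumption) | (with_reducible refine IntF.comp ?_ ?_; assumption) | (with_reducible refine IntF.comp₂ ?_ ?_ ?_; assumption) | (with_reducible refine IntF.comp₃ ?_ ?_ ?_ ?_; assumption) | with_reducible apply IntF.val | with_reducible apply IntF.pair))) ?_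
  intro u v
  constructor
  · rintro (⟨n, rfl, rfl⟩ | ⟨n, rfl, rfl⟩ | ⟨n, rfl, rfl⟩) <;> rfl
  · rintro rfl
    rcases u with n | c | a
    · exact Or.inl ⟨n, rfl, rfl⟩
    · exact Or.inr (Or.inl ⟨c, rfl, rfl⟩)
    · exact Or.inr (Or.inr ⟨a, rfl, rfl⟩)

theorem feq_actX (π : GT M) (p : PP M) (u : NX M) :
    FEq M (tw π (cE (M := M))) cE p u (actX π u) := by
  refine feq_of_map (int_actX π) ?_ p u
  intro u v s
  rcases u with n | c | a
  · change cE v s (xN n) ↔ ∃ a', actX π a' = v ∧ cE a' (π⁻¹ • s) (xN n)
    rw [cE_N]
    constructor
    · rintro ⟨m, rfl, hm⟩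
      exact ⟨xN m, rfl, cE_N.2 ⟨m, rfl, hm⟩⟩
    · rintro ⟨a', rfl, h⟩
      obtain ⟨m, rfl, hm⟩ := cE_N.1 h
      exact ⟨m, rfl, hm⟩
  · change cE v s (xC (pa π c)) ↔ ∃ a', actX π a' = v ∧ cE a' (π⁻¹ • s) (xC c)
    rw [cE_C]
    constructor
    · rintro ⟨m, rfl, hm⟩
      refine ⟨xN m, rfl, cE_C.2 ⟨m, rfl, ?_⟩⟩
      rw [mem_smul1, pi'_inv]
      exact hm
    · rintro ⟨a', rfl, h⟩
      obtain ⟨m, rfl, hm⟩ := cE_C.1 h
      refine ⟨m, rfl, ?_⟩
      rw [mem_smul1, pi'_inv] at hm
      exact hm
  · change cE v s (xA (ap (ga π) a)) ↔ ∃ a', actX π a' = v ∧ cE a' (π⁻¹ • s) (xA a)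
    rw [cE_A]
    constructor
    · rintro ⟨i, rfl⟩
      refine ⟨xC (pi' π (ap (ga π) a, i)), ?_, cE_A.2 ⟨(pi' π (ap (ga π) a, i)).2, ?_⟩⟩
      · rw [actX_C, pa_pi']
      · have h := pi'_fst π (ap (ga π) a, i)
        rw [ai_ap] at h
        exact congrArg xC (Prod.ext h rfl)
    · rintro ⟨a', rfl, h⟩
      obtain ⟨i, rfl⟩ := cE_A.1 h
      refine ⟨(pa π (a, i)).2, ?_⟩
      have h := pa_fst π (a, i)
      rw [actX_C, ← h]

theorem good_cE : Good (SP M) (cE (M := M)) := by
  refine ⟨ig_cE, wf_cE, fun u => ?_⟩
  rcases u with n | c | a
  · refine ⟨0, fun π _ p => ?_⟩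
    exact feq_actX π p (xN n)
  · refine ⟨INat.succ c.1.1, fun π hπ p => ?_⟩
    have h := feq_actX π p (xC c)
    rw [actX_C, SP_U.1 hπ c (INat.lt_succ_self _)] at h
    exact h
  · refine ⟨INat.succ a.1, fun π hπ p => ?_⟩
    have h := feq_actX π p (xA a)
    rw [actX_A, ga_fix hπ (INat.lt_succ_self _)] at h
    exact h

theorem not_fmem_nat (n : INat M) (p : PP M) : ¬ FMem M cE cE p (xN n) (xN n) := by
  have h1 : IntF M (xN (M := M)) := int_xN
  have h2 : Int M (fun q : (PP M × NX M) × NX M => FMem M cE cE q.1.1 q.1.2 q.2) :=
    IG.fmem ig_cE ig_cE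
  refine INat.ind (p := fun n => ∀ m, m < n → ∀ p : PP M, ¬ FMem M cE cE p (xN m) (xN m)) ?_
    (fun m hm => absurd hm INat.not_lt_zero) ?_ n.succ n (INat.lt_succ_self _) p
  · refine Int.all (Int.imp (by (repeat' (first | with_reducible exact IntF.id | with_reducible exact IntF.fst' | with_reducible exact IntF.snd' | with_reducible exact IntF.const _ | with_reducible exact Int.const _ | assumption | with_reducible apply ZFA.Int.and | with_reducible apply ZFA.Int.or | with_reducible apply ZFA.Int.not | with_reducible apply Int.imp | with_reducible apply Int.iff | with_reducible apply Int.ne | with_reducible apply Int.eq | with_reducible apply Int.mem | with_reducible apply Int.subset | with_reducible apply Int.ltN | with_reducible apply Int.leN | with_reducible_and_instances apply ZFA.Int.le | with_reducible_and_instances apply ZFA.Int.lt | with_reducible apply Int.all | with_reducible apply Int.ex | with_reducible apply IntF.fst | with_reducible apply IntF.snd | with_reducible apply IntF.app | with_reducible apply IntF.inl | with_reducible apply IntF.inr | with_reducible_and_instances apply IntF.mul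 | with_reducible_and_instances apply IntF.inv | with_reducible_and_instances apply IntF.add | with_reducible_and_instances apply IntF.sub | with_reducible_and_instances apply IntF.neg | with_reducible_and_instances apply IntF.smul | with_reducible apply IntF.succ | (with_reducible refine Int.comp ?_ ?_; assumption) | (with_reducible refine Int.comp₂ ?_ ?_ ?_; assumption) | (with_reducible refine Int.comp₃ ?_ ?_ ?_ ?_; assumption) | (with_reducible refine Int.comp₄ ?_ ?_ ?_ ?_ ?_; assumption) | (with_reducible refine IntF.comp ?_ ?_; assumption) | (with_reducible refine IntF.comp₂ ?_ ?_ ?_; assumption) | (with_reducible refine IntF.comp₃ ?_ ?_ ?_ ?_; assumption) | with_reducible apply IntF.val | with_reducible apply IntF.pair))) (Int.all (ZFA.Int.not ?_)))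
    refine Int.comp₃ (p := fun p a b => FMem M (cE (M := M)) cE p a b) h2 ?_ ?_ ?_
    all_goals (repeat' (first | with_reducible exact IntF.id | with_reducible exact IntF.fst' | with_reducible exact IntF.snd' | with_reducible exact IntF.const _ | with_reducible exact Int.const _ | assumption | with_reducible apply ZFA.Int.and | with_reducible apply ZFA.Int.or | with_reducible apply ZFA.Int.not | with_reducible apply Int.imp | with_reducible apply Int.iff | with_reducible apply Int.ne | with_reducible apply Int.eq | with_reducible apply Int.mem | with_reducible apply Int.subset | with_reducible apply Int.ltN | with_reducible apply Int.leN | with_reducible_and_instances apply ZFA.Int.le | with_reducible_and_instances apply ZFA.Int.lt | with_reducible apply Int.all | with_reducible apply Int.ex | with_reducible apply IntF.fst | with_reducible apply IntF.snd | with_reducible apply IntF.app | with_reducible apply IntF.inl | with_reducible apply IntF.inr | with_reducible_and_instances apply IntF.mul | with_reducible_and_instances apply IntF.inv | with_reducible_and_instances apply IntF.add | with_reducible_and_instances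 apply IntF.sub | with_reducible_and_instances apply IntF.neg | with_reducible_and_instances apply IntF.smul | with_reducible apply IntF.succ | (with_reducible refine Int.comp ?_ ?_; assumption) | (with_reducible refine Int.comp₂ ?_ ?_ ?_; assumption) | (with_reducible refine Int.comp₃ ?_ ?_ ?_ ?_; assumption) | (with_reducible refine Int.comp₄ ?_ ?_ ?_ ?_ ?_; assumption) | (with_reducible refine IntF.comp ?_ ?_; assumption) | (with_reducible refine IntF.comp₂ ?_ ?_ ?_; assumption) | (with_reducible refine IntF.comp₃ ?_ ?_ ?_ ?_; assumption) | with_reducible apply IntF.val | with_reducible apply IntF.pair))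
  · intro n ih m hm p hp
    rcases INat.lt_succ_iff'.1 hm with h | rfl
    · exact ih m h p hp
    · obtain ⟨q, h3, b, s, h4, h5, h6⟩ := hp p le_rfl
      obtain ⟨k, rfl, hk⟩ := cE_N.1 h4
      have h7 : FMem M cE cE q (xN k) (xN m) := FMem.of_edge (cE_N.2 ⟨k, rfl, hk⟩) (le_refl q)
      exact ih k hk q (h7.congr_right ig_cE ig_cE ig_cE h6)

theorem feq_nat (h : FEq M cE cE p (xN m) (xN n)) : m = n := by
  have key : ∀ m n : INat M, FEq M cE cE p (xN m) (xN n) → ¬ m < n := by
    intro m n h hmn
    have h1 : FMem M cE cE p (xN m) (xN n) := FMem.of_edge (cE_N.2 ⟨m, rfl, hmn⟩) (le_refl p)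
    exact not_fmem_nat m p (h1.congr_right ig_cE ig_cE ig_cE (h.symm ig_cE ig_cE))
  exact le_antisymm (not_lt.1 (key n m (h.symm ig_cE ig_cE))) (not_lt.1 (key m n h))

variable {G : Set (PP M)} (hG : IsGen M G)

/-- Natural numbers. -/
noncomputable def nN (n : INat M) : NN (SP M) hG := nd hG good_cE (xN n)
/-- Generic reals. -/
noncomputable def rR (c : Col M) : NN (SP M) hG := nd hG good_cE (xC c)
/-- Generic sets. -/
noncomputable def xX (a : AA M) : NN (SP M) hG := nd hG good_cE (xA a)

theorem nN_inj (h : nN hG m = nN hG n) : m = n := by
  obtain ⟨p, -, h1⟩ := (nd_eq hG _ _).1 h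
  exact feq_nat h1

theorem mem_rR {w : NN (SP M) hG} : Plain.Mem w (rR hG c) ↔
    ∃ m s, s ∈ G ∧ (c, m) ∈ s.1.1 ∧ w = nN hG m := by
  unfold rR
  rw [mem_nd]
  constructor
  · rintro ⟨a, s, h1, h2, rfl⟩
    obtain ⟨m, rfl, h3⟩ := cE_C.1 h2
    exact ⟨m, s, h1, h3, rfl⟩
  · rintro ⟨m, s, h1, h2, rfl⟩
    exact ⟨xN m, s, h1, cE_C.2 ⟨m, rfl, h2⟩, rfl⟩

theorem mem_xX {w : NN (SP M) hG} : Plain.Mem w (xX hG a) ↔ ∃ i, w = rR hG (a, i) := by
  unfold xX
  rw [mem_nd]
  constructor
  · rintro ⟨b, s, h1, h2, rfl⟩
    obtain ⟨i, rfl⟩ := cE_A.1 h2
    exact ⟨i, rfl⟩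
  · rintro ⟨i, rfl⟩
    obtain ⟨s, hs⟩ := hG.ne
    exact ⟨xC (a, i), s, hs, cE_A.2 ⟨i, rfl⟩, rfl⟩

theorem dense_sep {c d : Col M} (hcd : c ≠ d) (p : PP M) :
    ∃ q, q ≤ p ∧ ∃ n, (c, n) ∈ q.1.1 ∧ (d, n) ∈ q.1.2 := by
  obtain ⟨h0, n, hn⟩ := p.2
  refine ⟨mkC (fun x => x ∈ p.1.1 ∨ x = (c, n)) (fun x => x ∈ p.1.2 ∨ x = (d, n)) (by (repeat' (first | with_reducible exact IntF.id | with_reducible exact IntF.fst' | with_reducible exact IntF.snd' | with_reducible exact IntF.const _ | with_reducible exact Int.const _ | assumption | with_reducible apply ZFA.Int.and | with_reducible apply ZFA.Int.or | with_reducible apply ZFA.Int.not | with_reducible apply Int.imp | with_reducible apply Int.iff | with_reducible apply Int.ne | with_reducible apply Int.eq | with_reducible apply Int.mem | with_reducible apply Int.subset | with_reducible apply Int.ltN | with_reducible apply Int.leN | with_reducible_and_instances apply ZFA.Int.le | with_reducible_and_instances apply ZFA.Int.lt | with_reducible apply Int.all | with_reducible apply Int.ex | with_reducible apply IntF.fst | with_reducible apply IntF.snd | with_reducible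 apply IntF.app | with_reducible apply IntF.inl | with_reducible apply IntF.inr | with_reducible_and_instances apply IntF.mul | with_reducible_and_instances apply IntF.inv | with_reducible_and_instances apply IntF.add | with_reducible_and_instances apply IntF.sub | with_reducible_and_instances apply IntF.neg | with_reducible_and_instances apply IntF.smul | with_reducible apply IntF.succ | (with_reducible refine Int.comp ?_ ?_; assumption) | (with_reducible refine Int.comp₂ ?_ ?_ ?_; assumption) | (with_reducible refine Int.comp₃ ?_ ?_ ?_ ?_; assumption) | (with_reducible refine Int.comp₄ ?_ ?_ ?_ ?_ ?_; assumption) | (with_reducible refine IntF.comp ?_ ?_; assumption) | (with_reducible refine IntF.comp₂ ?_ ?_ ?_; assumption) | (with_reducible refine IntF.comp₃ ?_ ?_ ?_ ?_; assumption) | with_reducible apply IntF.val | with_reducible apply IntF.pair)))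
    (by (repeat' (first | with_reducible exact IntF.id | with_reducible exact IntF.fst' | with_reducible exact IntF.snd' | with_reducible exact IntF.const _ | with_reducible exact Int.const _ | assumption | with_reducible apply ZFA.Int.and | with_reducible apply ZFA.Int.or | with_reducible apply ZFA.Int.not | with_reducible apply Int.imp | with_reducible apply Int.iff | with_reducible apply Int.ne | with_reducible apply Int.eq | with_reducible apply Int.mem | with_reducible apply Int.subset | with_reducible apply Int.ltN | with_reducible apply Int.leN | with_reducible_and_instances apply ZFA.Int.le | with_reducible_and_instances apply ZFA.Int.lt | with_reducible apply Int.all | with_reducible apply Int.ex | with_reducible apply IntF.fst | with_reducible apply IntF.snd | with_reducible apply IntF.app | with_reducible apply IntF.inl | with_reducible apply IntF.inr | with_reducible_and_instances apply IntF.mul | with_reducible_and_instances apply IntF.inv | with_reducible_and_instances apply IntF.add | with_reducible_and_instances apply IntF.sub | with_reducible_and_instances apply IntF.neg | with_reducible_and_instances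 apply IntF.smul | with_reducible apply IntF.succ | (with_reducible refine Int.comp ?_ ?_; assumption) | (with_reducible refine Int.comp₂ ?_ ?_ ?_; assumption) | (with_reducible refine Int.comp₃ ?_ ?_ ?_ ?_; assumption) | (with_reducible refine Int.comp₄ ?_ ?_ ?_ ?_ ?_; assumption) | (with_reducible refine IntF.comp ?_ ?_; assumption) | (with_reducible refine IntF.comp₂ ?_ ?_ ?_; assumption) | (with_reducible refine IntF.comp₃ ?_ ?_ ?_ ?_; assumption) | with_reducible apply IntF.val | with_reducible apply IntF.pair))) ?_ ?_, ?_, n, mem_mkC_fst.2 (Or.inr rfl), mem_mkC_snd.2 (Or.inr rfl)⟩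
  · rintro x (h1 | rfl) (h2 | h2)
    · exact h0 x h1 h2
    · subst h2
      exact absurd (hn _ (Or.inl h1)).2.2 (lt_irrefl _)
    · exact absurd (hn _ (Or.inr h2)).2.2 (lt_irrefl _)
    · exact hcd (Prod.mk.inj h2).1
  · refine ⟨INat.succ (max n (max (max c.1.1 c.2) (max d.1.1 d.2))), fun x hx => ?_⟩
    simp only [INat.lt_succ_iff]
    rcases hx with (h | rfl) | (h | rfl)
    · obtain ⟨e1, e2, e3⟩ := hn _ (Or.inl h)
      exact ⟨e1.le.trans (le_max_left _ _), e2.le.trans (le_max_left _ _),
        e3.le.trans (le_max_left _ _)⟩
    · exact ⟨((le_max_left _ _).trans (le_max_left _ _)).trans (le_max_right _ _),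
        ((le_max_right _ _).trans (le_max_left _ _)).trans (le_max_right _ _), le_max_left _ _⟩
    · obtain ⟨e1, e2, e3⟩ := hn _ (Or.inr h)
      exact ⟨e1.le.trans (le_max_left _ _), e2.le.trans (le_max_left _ _),
        e3.le.trans (le_max_left _ _)⟩
    · exact ⟨((le_max_left _ _).trans (le_max_right _ _)).trans (le_max_right _ _),
        ((le_max_right _ _).trans (le_max_right _ _)).trans (le_max_right _ _), le_max_left _ _⟩
  · intro x
    exact ⟨fun h => mem_mkC_fst.2 (Or.inl h), fun h => mem_mkC_snd.2 (Or.inl h)⟩

theorem rR_inj (h : rR hG c = rR hG d) : c = d := by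
  by_contra hcd
  obtain ⟨p, hp, n, h1, h2⟩ := hG.dense (fun p => ∃ n, (c, n) ∈ p.1.1 ∧ (d, n) ∈ p.1.2)
    (by (repeat' (first | with_reducible exact IntF.id | with_reducible exact IntF.fst' | with_reducible exact IntF.snd' | with_reducible exact IntF.const _ | with_reducible exact Int.const _ | assumption | with_reducible apply ZFA.Int.and | with_reducible apply ZFA.Int.or | with_reducible apply ZFA.Int.not | with_reducible apply Int.imp | with_reducible apply Int.iff | with_reducible apply Int.ne | with_reducible apply Int.eq | with_reducible apply Int.mem | with_reducible apply Int.subset | with_reducible apply Int.ltN | with_reducible apply Int.leN | with_reducible_and_instances apply ZFA.Int.le | with_reducible_and_instances apply ZFA.Int.lt | with_reducible apply Int.all | with_reducible apply Int.ex | with_reducible apply IntF.fst | with_reducible apply IntF.snd | with_reducible apply IntF.app | with_reducible apply IntF.inl | with_reducible apply IntF.inr | with_reducible_and_instances apply IntF.mul | with_reducible_and_instances apply IntF.inv | with_reducible_and_instances apply IntF.add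 | with_reducible_and_instances apply IntF.sub | with_reducible_and_instances apply IntF.neg | with_reducible_and_instances apply IntF.smul | with_reducible apply IntF.succ | (with_reducible refine Int.comp ?_ ?_; assumption) | (with_reducible refine Int.comp₂ ?_ ?_ ?_; assumption) | (with_reducible refine Int.comp₃ ?_ ?_ ?_ ?_; assumption) | (with_reducible refine Int.comp₄ ?_ ?_ ?_ ?_ ?_; assumption) | (with_reducible refine IntF.comp ?_ ?_; assumption) | (with_reducible refine IntF.comp₂ ?_ ?_ ?_; assumption) | (with_reducible refine IntF.comp₃ ?_ ?_ ?_ ?_; assumption) | with_reducible apply IntF.val | with_reducible apply IntF.pair))) (fun p => dense_sep hcd p)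
  have h3 : Plain.Mem (nN hG n) (rR hG c) := (mem_rR hG).2 ⟨n, p, hp, h1, rfl⟩
  rw [h] at h3
  obtain ⟨m, s, hs, h4, h5⟩ := (mem_rR hG).1 h3
  obtain rfl := nN_inj hG h5
  obtain ⟨r, -, hr1, hr2⟩ := hG.dir p s hp hs
  exact r.2.1 _ ((hr2 _).1 h4) ((hr1 _).2 h2)

theorem xX_inj (h : xX hG a = xX hG b) : a = b := by
  have h1 : Plain.Mem (rR hG (a, 0)) (xX hG a) := (mem_xX hG).2 ⟨0, rfl⟩
  rw [h] at h1
  obtain ⟨i, hi⟩ := (mem_xX hG).1 h1
  exact (Prod.mk.inj (rR_inj hG hi)).1

/-- The action on indices. -/
noncomputable def actA (π : GT M) (a : AA M) : AA M := ap (ga π) a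

theorem fam_xX : EqFam hG actA (xX hG) :=
  ⟨NX M, inferInstance, cE, good_cE, xA, int_xA, fun _ => rfl, fun π p a => feq_actX π p (xA a)⟩

end

end Pool.Agent.H525P
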