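import Pool.Agent.H525R3.PFam

/-!
# Rigidity: every permutation of the generic set is finitary
-/

namespace Pool.Agent.H525P

open FirstOrder FirstOrder.Language
open Pool.Agent.Helper672 Pool.Agent.Helper672.ZFA Pool.Agent.Helper672.ZFA.H635
open Pool.Agent.Helper672.Plain (LSet)

universe u

set_option synthInstance.maxSize 2000
set_option linter.unusedSectionVars false

section

variable {M : Type u} [L.Structure M] [hM : IsModel M]

theorem add_lt_add' {a b : INat M} (c : INat M) (h : a < b) : c + a < c + b := by
  refine INat.ind (p := fun c => c + a < c + b) (by (repeat' (first | with_reducible exact IntF.id | with_reducible exact IntF.fst' | with_reducible exact IntF.snd' | with_reducible exact IntF.const _ | with_reducible exact Int.const _ | assumption | with_reducible apply ZFA.Int.and | with_reducible apply ZFA.Int.or | with_reducible apply ZFA.Int.not | with_reducible apply Int.imp | with_reducible apply Int.iff | with_reducible apply Int.ne | with_reducible apply Int.eq | with_reducible apply Int.mem | with_reducible apply Int.subset | with_reducible apply Int.ltN | with_reducible apply Int.leN | with_reducible_and_instances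 apply ZFA.Int.le | with_reducible_and_instances apply ZFA.Int.lt | with_reducible apply Int.all | with_reducible apply Int.ex | with_reducible apply IntF.fst | with_reducible apply IntF.snd | with_reducible apply IntF.app | with_reducible apply IntF.inl | with_reducible apply IntF.inr | with_reducible_and_instances apply IntF.mul | with_reducible_and_instances apply IntF.inv | with_reducible_and_instances apply IntF.add | with_reducible_and_instances apply IntF.sub | with_reducible_and_instances apply IntF.neg | with_reducible_and_instances apply IntF.smul | with_reducible apply IntF.succ | (with_reducible refine Int.comp ?_ ?_; assumption) | (with_reducible refine Int.comp₂ ?_ ?_ ?_; assumption) | (with_reducible refine Int.comp₃ ?_ ?_ ?_ ?_; assumption) | (with_reducible refine Int.comp₄ ?_ ?_ ?_ ?_ ?_; assumption) | (with_reducible refine IntF.comp ?_ ?_; assumption) | (with_reducible refine IntF.comp₂ ?_ ?_ ?_; assumption) | (with_reducible refine IntF.comp₃ ?_ ?_ ?_ ?_; assumption) | with_reducible apply IntF.val | with_reducible apply IntF.pair))) (by rwa [zero_add, zero_add]) ?_ c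
  intro n hn
  rw [INat.succ_add', INat.succ_add', INat.lt_succ_iff, INat.succ_le_iff]
  exact hn

/-- The relation that defines the shift. -/
def Rsh (N i j : INat M) : Prop :=
  (i < N ∧ j = N + i) ∨ (j < N ∧ i = N + j) ∨ (N + N ≤ i ∧ j = i)

theorem le_add_self' (a b : INat M) : a ≤ a + b := by
  rw [add_comm]
  exact le_add_left' a b

theorem exists_shift (N : INat M) : ∃ f : INat M → INat M, IntF M f ∧ (∀ i, f (f i) = i) ∧
    ∀ i, i < N → N ≤ f i := by
  have h1 : ∀ i, ∃ j, Rsh N i j := by
    intro i
    rcases lt_or_ge i N with h | h
    · exact ⟨N + i, Or.inl ⟨h, rfl⟩⟩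
    · rcases INat.total N i with ⟨c, rfl⟩ | ⟨c, hc⟩
      · rcases lt_or_ge c N with h' | h'
        · exact ⟨c, Or.inr (Or.inl ⟨h', rfl⟩)⟩
        · refine ⟨N + c, Or.inr (Or.inr ⟨?_, rfl⟩)⟩
          rcases h'.lt_or_eq with h2 | h2
          · exact (add_lt_add' N h2).le
          · rw [← h2]
      · have h2 : i = N := by
          refine le_antisymm ?_ h
          rw [hc]
          exact le_add_self' _ _
        refine ⟨0, ?_⟩
        rcases INat.zero_le' N with h3 | h3
        · exact Or.inr (Or.inl ⟨h3, by rw [add_zero, h2]⟩)
        · refine Or.inr (Or.inr ⟨?_, ?_⟩)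
          · rw [h2, ← h3, add_zero]
          · rw [h2, ← h3]
  have h2 : ∀ i j k, Rsh N i j → Rsh N i k → j = k := by
    rintro i j k (⟨e1, e2⟩ | ⟨e1, e2⟩ | ⟨e1, e2⟩) (⟨e3, e4⟩ | ⟨e3, e4⟩ | ⟨e3, e4⟩)
    · rw [e2, e4]
    · exact absurd e1 (not_lt.2 (by rw [e4]; exact le_add_self' _ _))
    · exact absurd e1 (not_lt.2 ((le_add_self' _ _).trans e3))
    · exact absurd e3 (not_lt.2 (by rw [e2]; exact le_add_self' _ _))
    · exact INat.add_left_cancel' (e2.symm.trans e4)
    · rw [e2] at e3
      exact absurd (add_lt_add' N e1) (not_lt.2 e3)
    · exact absurd e3 (not_lt.2 ((le_add_self' _ _).trans e1))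
    · rw [e4] at e1
      exact absurd (add_lt_add' N e3) (not_lt.2 e1)
    · rw [e2, e4]
  have h3 : ∀ i j, Rsh N i j → Rsh N j i := by
    rintro i j (⟨e1, e2⟩ | ⟨e1, e2⟩ | ⟨e1, e2⟩)
    · exact Or.inr (Or.inl ⟨e1, e2⟩)
    · exact Or.inl ⟨e1, e2⟩
    · exact Or.inr (Or.inr ⟨by rwa [e2], e2.symm⟩)
  have hI : Int M (fun q : INat M × INat M => Rsh N q.1 q.2) := by
    unfold Rsh
    (repeat' (first | with_reducible exact IntF.id | with_reducible exact IntF.fst' | with_reducible exact IntF.snd' | with_reducible exact IntF.const _ | with_reducible exact Int.const _ | assumption | with_reducible apply ZFA.Int.and | with_reducible apply ZFA.Int.or | with_reducible apply ZFA.Int.not | with_reducible apply Int.imp | with_reducible apply Int.iff | with_reducible apply Int.ne | with_reducible apply Int.eq | with_reducible apply Int.mem | with_reducible apply Int.subset | with_reducible apply Int.ltN | with_reducible apply Int.leN | with_reducible_and_instances apply ZFA.Int.le | with_reducible_and_instances apply ZFA.Int.lt | with_reducible apply Int.all | with_reducible apply Int.ex | with_reducible apply IntF.fst | with_reducible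 apply IntF.snd | with_reducible apply IntF.app | with_reducible apply IntF.inl | with_reducible apply IntF.inr | with_reducible_and_instances apply IntF.mul | with_reducible_and_instances apply IntF.inv | with_reducible_and_instances apply IntF.add | with_reducible_and_instances apply IntF.sub | with_reducible_and_instances apply IntF.neg | with_reducible_and_instances apply IntF.smul | with_reducible apply IntF.succ | (with_reducible refine Int.comp ?_ ?_; assumption) | (with_reducible refine Int.comp₂ ?_ ?_ ?_; assumption) | (with_reducible refine Int.comp₃ ?_ ?_ ?_ ?_; assumption) | (with_reducible refine Int.comp₄ ?_ ?_ ?_ ?_ ?_; assumption) | (with_reducible refine IntF.comp ?_ ?_; assumption) | (with_reducible refine IntF.comp₂ ?_ ?_ ?_; assumption) | (with_reducible refine IntF.comp₃ ?_ ?_ ?_ ?_; assumption) | with_reducible apply IntF.val | with_reducible apply IntF.pair))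
  choose f hf using h1
  refine ⟨f, IntF.of_unique hI hf h2, fun i => h2 _ _ _ (hf _) (h3 _ _ (hf i)), fun i hi => ?_⟩
  rcases hf i with ⟨-, e2⟩ | ⟨-, e2⟩ | ⟨e1, -⟩
  · rw [e2]
    exact le_add_self' _ _
  · exact absurd hi (not_lt.2 (by rw [e2]; exact le_add_self' _ _))
  · exact absurd hi (not_lt.2 ((le_add_self' _ _).trans e1))

theorem exists_union {p q : PP M} (h1 : ∀ c, c ∈ p.1.1 → ¬ c ∈ q.1.2)
    (h2 : ∀ c, c ∈ p.1.2 → ¬ c ∈ q.1.1) : ∃ r, r ≤ p ∧ r ≤ q := by
  obtain ⟨hp, n, hn⟩ := p.2
  obtain ⟨hq, m, hm⟩ := q.2
  refine ⟨mkC (fun c => c ∈ p.1.1 ∨ c ∈ q.1.1) (fun c => c ∈ p.1.2 ∨ c ∈ q.1.2) (by (repeat' (first | with_reducible exact IntF.id | with_reducible exact IntF.fst' | with_reducible exact IntF.snd' | with_reducible exact IntF.const _ | with_reducible exact Int.const _ | assumption | with_reducible apply ZFA.Int.and | with_reducible apply ZFA.Int.or | with_reducible apply ZFA.Int.not | with_reducible apply Int.imp | with_reducible apply Int.iff | with_reducible apply Int.ne | with_reducible apply Int.eq | with_reducible apply Int.mem | with_reducible apply Int.subset | with_reducible apply Int.ltN | with_reducible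 apply Int.leN | with_reducible_and_instances apply ZFA.Int.le | with_reducible_and_instances apply ZFA.Int.lt | with_reducible apply Int.all | with_reducible apply Int.ex | with_reducible apply IntF.fst | with_reducible apply IntF.snd | with_reducible apply IntF.app | with_reducible apply IntF.inl | with_reducible apply IntF.inr | with_reducible_and_instances apply IntF.mul | with_reducible_and_instances apply IntF.inv | with_reducible_and_instances apply IntF.add | with_reducible_and_instances apply IntF.sub | with_reducible_and_instances apply IntF.neg | with_reducible_and_instances apply IntF.smul | with_reducible apply IntF.succ | (with_reducible refine Int.comp ?_ ?_; assumption) | (with_reducible refine Int.comp₂ ?_ ?_ ?_; assumption) | (with_reducible refine Int.comp₃ ?_ ?_ ?_ ?_; assumption) | (with_reducible refine Int.comp₄ ?_ ?_ ?_ ?_ ?_; assumption) | (with_reducible refine IntF.comp ?_ ?_; assumption) | (with_reducible refine IntF.comp₂ ?_ ?_ ?_; assumption) | (with_reducible refine IntF.comp₃ ?_ ?_ ?_ ?_; assumption) | with_reducible apply IntF.val | with_reducible apply IntF.pair)))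
    (by (repeat' (first | with_reducible exact IntF.id | with_reducible exact IntF.fst' | with_reducible exact IntF.snd' | with_reducible exact IntF.const _ | with_reducible exact Int.const _ | assumption | with_reducible apply ZFA.Int.and | with_reducible apply ZFA.Int.or | with_reducible apply ZFA.Int.not | with_reducible apply Int.imp | with_reducible apply Int.iff | with_reducible apply Int.ne | with_reducible apply Int.eq | with_reducible apply Int.mem | with_reducible apply Int.subset | with_reducible apply Int.ltN | with_reducible apply Int.leN | with_reducible_and_instances apply ZFA.Int.le | with_reducible_and_instances apply ZFA.Int.lt | with_reducible apply Int.all | with_reducible apply Int.ex | with_reducible apply IntF.fst | with_reducible apply IntF.snd | with_reducible apply IntF.app | with_reducible apply IntF.inl | with_reducible apply IntF.inr | with_reducible_and_instances apply IntF.mul | with_reducible_and_instances apply IntF.inv | with_reducible_and_instances apply IntF.add | with_reducible_and_instances apply IntF.sub | with_reducible_and_instances apply IntF.neg | with_reducible_and_instances apply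 IntF.smul | with_reducible apply IntF.succ | (with_reducible refine Int.comp ?_ ?_; assumption) | (with_reducible refine Int.comp₂ ?_ ?_ ?_; assumption) | (with_reducible refine Int.comp₃ ?_ ?_ ?_ ?_; assumption) | (with_reducible refine Int.comp₄ ?_ ?_ ?_ ?_ ?_; assumption) | (with_reducible refine IntF.comp ?_ ?_; assumption) | (with_reducible refine IntF.comp₂ ?_ ?_ ?_; assumption) | (with_reducible refine IntF.comp₃ ?_ ?_ ?_ ?_; assumption) | with_reducible apply IntF.val | with_reducible apply IntF.pair))) ?_ ?_, ?_, ?_⟩
  · rintro c (h | h) (h' | h')
    · exact hp c h h'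
    · exact h1 c h h'
    · exact h2 c h' h
    · exact hq c h h'
  · refine ⟨max n m, fun c hc => ?_⟩
    have e1 : (c ∈ p.1.1 ∨ c ∈ p.1.2) ∨ (c ∈ q.1.1 ∨ c ∈ q.1.2) := by tauto
    rcases e1 with e1 | e1
    · obtain ⟨k1, k2, k3⟩ := hn c e1
      exact ⟨lt_of_lt_of_le k1 (le_max_left _ _), lt_of_lt_of_le k2 (le_max_left _ _),
        lt_of_lt_of_le k3 (le_max_left _ _)⟩
    · obtain ⟨k1, k2, k3⟩ := hm c e1
      exact ⟨lt_of_lt_of_le k1 (le_max_right _ _), lt_of_lt_of_le k2 (le_max_right _ _),
        lt_of_lt_of_le k3 (le_max_right _ _)⟩
  · exact fun c => ⟨fun h => mem_mkC_fst.2 (Or.inl h), fun h => mem_mkC_snd.2 (Or.inl h)⟩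
  · exact fun c => ⟨fun h => mem_mkC_fst.2 (Or.inr h), fun h => mem_mkC_snd.2 (Or.inr h)⟩

open Classical in
/-- Permutation of the columns. -/
noncomputable def cf (n : INat M) (f : INat M → INat M) (γ : GA M) (c : Col M) : Col M :=
  (ap γ c.1, if c.1.1 < n then c.2 else f c.2)

open Classical in
/-- Its inverse. -/
noncomputable def cg (n : INat M) (f : INat M → INat M) (γ : GA M) (c : Col M) : Col M :=
  (ai γ c.1, if (ai γ c.1).1 < n then c.2 else f c.2)

theorem int_cf {n : INat M} {f : INat M → INat M} (hf : IntF M f) (γ : GA M) :
    IntF M (cf n f γ) := by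
  have h2 : IntF M (fun q : GA M × AA M => ap q.1 q.2) := int_ap
  unfold cf
  exact IntF.pair (by (repeat' (first | with_reducible exact IntF.id | with_reducible exact IntF.fst' | with_reducible exact IntF.snd' | with_reducible exact IntF.const _ | with_reducible exact Int.const _ | assumption | with_reducible apply ZFA.Int.and | with_reducible apply ZFA.Int.or | with_reducible apply ZFA.Int.not | with_reducible apply Int.imp | with_reducible apply Int.iff | with_reducible apply Int.ne | with_reducible apply Int.eq | with_reducible apply Int.mem | with_reducible apply Int.subset | with_reducible apply Int.ltN | with_reducible apply Int.leN | with_reducible_and_instances apply ZFA.Int.le | with_reducible_and_instances apply ZFA.Int.lt | with_reducible apply Int.all | with_reducible apply Int.ex | with_reducible apply IntF.fst | with_reducible apply IntF.snd | with_reducible apply IntF.app | with_reducible apply IntF.inl | with_reducible apply IntF.inr | with_reducible_and_instances apply IntF.mul | with_reducible_and_instances apply IntF.inv | with_reducible_and_instances apply IntF.add | with_reducible_and_instances apply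 IntF.sub | with_reducible_and_instances apply IntF.neg | with_reducible_and_instances apply IntF.smul | with_reducible apply IntF.succ | (with_reducible refine Int.comp ?_ ?_; assumption) | (with_reducible refine Int.comp₂ ?_ ?_ ?_; assumption) | (with_reducible refine Int.comp₃ ?_ ?_ ?_ ?_; assumption) | (with_reducible refine Int.comp₄ ?_ ?_ ?_ ?_ ?_; assumption) | (with_reducible refine IntF.comp ?_ ?_; assumption) | (with_reducible refine IntF.comp₂ ?_ ?_ ?_; assumption) | (with_reducible refine IntF.comp₃ ?_ ?_ ?_ ?_; assumption) | with_reducible apply IntF.val | with_reducible apply IntF.pair))) (IntF.ite (by (repeat' (first | with_reducible exact IntF.id | with_reducible exact IntF.fst' | with_reducible exact IntF.snd' | with_reducible exact IntF.const _ | with_reducible exact Int.const _ | assumption | with_reducible apply ZFA.Int.and | with_reducible apply ZFA.Int.or | with_reducible apply ZFA.Int.not | with_reducible apply Int.imp | with_reducible apply Int.iff | with_reducible apply Int.ne | with_reducible apply Int.eq | with_reducible apply Int.mem | with_reducible apply Int.subset | with_reducible apply Int.ltN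 | with_reducible apply Int.leN | with_reducible_and_instances apply ZFA.Int.le | with_reducible_and_instances apply ZFA.Int.lt | with_reducible apply Int.all | with_reducible apply Int.ex | with_reducible apply IntF.fst | with_reducible apply IntF.snd | with_reducible apply IntF.app | with_reducible apply IntF.inl | with_reducible apply IntF.inr | with_reducible_and_instances apply IntF.mul | with_reducible_and_instances apply IntF.inv | with_reducible_and_instances apply IntF.add | with_reducible_and_instances apply IntF.sub | with_reducible_and_instances apply IntF.neg | with_reducible_and_instances apply IntF.smul | with_reducible apply IntF.succ | (with_reducible refine Int.comp ?_ ?_; assumption) | (with_reducible refine Int.comp₂ ?_ ?_ ?_; assumption) | (with_reducible refine Int.comp₃ ?_ ?_ ?_ ?_; assumption) | (with_reducible refine Int.comp₄ ?_ ?_ ?_ ?_ ?_; assumption) | (with_reducible refine IntF.comp ?_ ?_; assumption) | (with_reducible refine IntF.comp₂ ?_ ?_ ?_; assumption) | (with_reducible refine IntF.comp₃ ?_ ?_ ?_ ?_; assumption) | with_reducible apply IntF.val | with_reducible apply IntF.pair))) (by (repeat'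 (first | with_reducible exact IntF.id | with_reducible exact IntF.fst' | with_reducible exact IntF.snd' | with_reducible exact IntF.const _ | with_reducible exact Int.const _ | assumption | with_reducible apply ZFA.Int.and | with_reducible apply ZFA.Int.or | with_reducible apply ZFA.Int.not | with_reducible apply Int.imp | with_reducible apply Int.iff | with_reducible apply Int.ne | with_reducible apply Int.eq | with_reducible apply Int.mem | with_reducible apply Int.subset | with_reducible apply Int.ltN | with_reducible apply Int.leN | with_reducible_and_instances apply ZFA.Int.le | with_reducible_and_instances apply ZFA.Int.lt | with_reducible apply Int.all | with_reducible apply Int.ex | with_reducible apply IntF.fst | with_reducible apply IntF.snd | with_reducible apply IntF.app | with_reducible apply IntF.inl | with_reducible apply IntF.inr | with_reducible_and_instances apply IntF.mul | with_reducible_and_instances apply IntF.inv | with_reducible_and_instances apply IntF.add | with_reducible_and_instances apply IntF.sub | with_reducible_and_instances apply IntF.neg | with_reducible_and_instances apply IntF.smul | with_reducible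 apply IntF.succ | (with_reducible refine Int.comp ?_ ?_; assumption) | (with_reducible refine Int.comp₂ ?_ ?_ ?_; assumption) | (with_reducible refine Int.comp₃ ?_ ?_ ?_ ?_; assumption) | (with_reducible refine Int.comp₄ ?_ ?_ ?_ ?_ ?_; assumption) | (with_reducible refine IntF.comp ?_ ?_; assumption) | (with_reducible refine IntF.comp₂ ?_ ?_ ?_; assumption) | (with_reducible refine IntF.comp₃ ?_ ?_ ?_ ?_; assumption) | with_reducible apply IntF.val | with_reducible apply IntF.pair))) (by (repeat' (first | with_reducible exact IntF.id | with_reducible exact IntF.fst' | with_reducible exact IntF.snd' | with_reducible exact IntF.const _ | with_reducible exact Int.const _ | assumption | with_reducible apply ZFA.Int.and | with_reducible apply ZFA.Int.or | with_reducible apply ZFA.Int.not | with_reducible apply Int.imp | with_reducible apply Int.iff | with_reducible apply Int.ne | with_reducible apply Int.eq | with_reducible apply Int.mem | with_reducible apply Int.subset | with_reducible apply Int.ltN | with_reducible apply Int.leN | with_reducible_and_instances apply ZFA.Int.le | with_reducible_and_instances apply ZFA.Int.lt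 | with_reducible apply Int.all | with_reducible apply Int.ex | with_reducible apply IntF.fst | with_reducible apply IntF.snd | with_reducible apply IntF.app | with_reducible apply IntF.inl | with_reducible apply IntF.inr | with_reducible_and_instances apply IntF.mul | with_reducible_and_instances apply IntF.inv | with_reducible_and_instances apply IntF.add | with_reducible_and_instances apply IntF.sub | with_reducible_and_instances apply IntF.neg | with_reducible_and_instances apply IntF.smul | with_reducible apply IntF.succ | (with_reducible refine Int.comp ?_ ?_; assumption) | (with_reducible refine Int.comp₂ ?_ ?_ ?_; assumption) | (with_reducible refine Int.comp₃ ?_ ?_ ?_ ?_; assumption) | (with_reducible refine Int.comp₄ ?_ ?_ ?_ ?_ ?_; assumption) | (with_reducible refine IntF.comp ?_ ?_; assumption) | (with_reducible refine IntF.comp₂ ?_ ?_ ?_; assumption) | (with_reducible refine IntF.comp₃ ?_ ?_ ?_ ?_; assumption) | with_reducible apply IntF.val | with_reducible apply IntF.pair))))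

theorem int_cg {n : INat M} {f : INat M → INat M} (hf : IntF M f) (γ : GA M) :
    IntF M (cg n f γ) := by
  have h2 : IntF M (fun q : GA M × AA M => ai q.1 q.2) := int_ai
  unfold cg
  exact IntF.pair (by (repeat' (first | with_reducible exact IntF.id | with_reducible exact IntF.fst' | with_reducible exact IntF.snd' | with_reducible exact IntF.const _ | with_reducible exact Int.const _ | assumption | with_reducible apply ZFA.Int.and | with_reducible apply ZFA.Int.or | with_reducible apply ZFA.Int.not | with_reducible apply Int.imp | with_reducible apply Int.iff | with_reducible apply Int.ne | with_reducible apply Int.eq | with_reducible apply Int.mem | with_reducible apply Int.subset | with_reducible apply Int.ltN | with_reducible apply Int.leN | with_reducible_and_instances apply ZFA.Int.le | with_reducible_and_instances apply ZFA.Int.lt | with_reducible apply Int.all | with_reducible apply Int.ex | with_reducible apply IntF.fst | with_reducible apply IntF.snd | with_reducible apply IntF.app | with_reducible apply IntF.inl | with_reducible apply IntF.inr | with_reducible_and_instances apply IntF.mul | with_reducible_and_instances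 apply IntF.inv | with_reducible_and_instances apply IntF.add | with_reducible_and_instances apply IntF.sub | with_reducible_and_instances apply IntF.neg | with_reducible_and_instances apply IntF.smul | with_reducible apply IntF.succ | (with_reducible refine Int.comp ?_ ?_; assumption) | (with_reducible refine Int.comp₂ ?_ ?_ ?_; assumption) | (with_reducible refine Int.comp₃ ?_ ?_ ?_ ?_; assumption) | (with_reducible refine Int.comp₄ ?_ ?_ ?_ ?_ ?_; assumption) | (with_reducible refine IntF.comp ?_ ?_; assumption) | (with_reducible refine IntF.comp₂ ?_ ?_ ?_; assumption) | (with_reducible refine IntF.comp₃ ?_ ?_ ?_ ?_; assumption) | with_reducible apply IntF.val | with_reducible apply IntF.pair))) (IntF.ite (by (repeat' (first | with_reducible exact IntF.id | with_reducible exact IntF.fst' | with_reducible exact IntF.snd' | with_reducible exact IntF.const _ | with_reducible exact Int.const _ | assumption | with_reducible apply ZFA.Int.and | with_reducible apply ZFA.Int.or | with_reducible apply ZFA.Int.not | with_reducible apply Int.imp | with_reducible apply Int.iff | with_reducible apply Int.ne | with_reducible apply Int.eq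 | with_reducible apply Int.mem | with_reducible apply Int.subset | with_reducible apply Int.ltN | with_reducible apply Int.leN | with_reducible_and_instances apply ZFA.Int.le | with_reducible_and_instances apply ZFA.Int.lt | with_reducible apply Int.all | with_reducible apply Int.ex | with_reducible apply IntF.fst | with_reducible apply IntF.snd | with_reducible apply IntF.app | with_reducible apply IntF.inl | with_reducible apply IntF.inr | with_reducible_and_instances apply IntF.mul | with_reducible_and_instances apply IntF.inv | with_reducible_and_instances apply IntF.add | with_reducible_and_instances apply IntF.sub | with_reducible_and_instances apply IntF.neg | with_reducible_and_instances apply IntF.smul | with_reducible apply IntF.succ | (with_reducible refine Int.comp ?_ ?_; assumption) | (with_reducible refine Int.comp₂ ?_ ?_ ?_; assumption) | (with_reducible refine Int.comp₃ ?_ ?_ ?_ ?_; assumption) | (with_reducible refine Int.comp₄ ?_ ?_ ?_ ?_ ?_; assumption) | (with_reducible refine IntF.comp ?_ ?_; assumption) | (with_reducible refine IntF.comp₂ ?_ ?_ ?_; assumption) | (with_reducible refine IntF.comp₃ ?_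 ?_ ?_ ?_; assumption) | with_reducible apply IntF.val | with_reducible apply IntF.pair))) (by (repeat' (first | with_reducible exact IntF.id | with_reducible exact IntF.fst' | with_reducible exact IntF.snd' | with_reducible exact IntF.const _ | with_reducible exact Int.const _ | assumption | with_reducible apply ZFA.Int.and | with_reducible apply ZFA.Int.or | with_reducible apply ZFA.Int.not | with_reducible apply Int.imp | with_reducible apply Int.iff | with_reducible apply Int.ne | with_reducible apply Int.eq | with_reducible apply Int.mem | with_reducible apply Int.subset | with_reducible apply Int.ltN | with_reducible apply Int.leN | with_reducible_and_instances apply ZFA.Int.le | with_reducible_and_instances apply ZFA.Int.lt | with_reducible apply Int.all | with_reducible apply Int.ex | with_reducible apply IntF.fst | with_reducible apply IntF.snd | with_reducible apply IntF.app | with_reducible apply IntF.inl | with_reducible apply IntF.inr | with_reducible_and_instances apply IntF.mul | with_reducible_and_instances apply IntF.inv | with_reducible_and_instances apply IntF.add | with_reducible_and_instances apply IntF.sub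 | with_reducible_and_instances apply IntF.neg | with_reducible_and_instances apply IntF.smul | with_reducible apply IntF.succ | (with_reducible refine Int.comp ?_ ?_; assumption) | (with_reducible refine Int.comp₂ ?_ ?_ ?_; assumption) | (with_reducible refine Int.comp₃ ?_ ?_ ?_ ?_; assumption) | (with_reducible refine Int.comp₄ ?_ ?_ ?_ ?_ ?_; assumption) | (with_reducible refine IntF.comp ?_ ?_; assumption) | (with_reducible refine IntF.comp₂ ?_ ?_ ?_; assumption) | (with_reducible refine IntF.comp₃ ?_ ?_ ?_ ?_; assumption) | with_reducible apply IntF.val | with_reducible apply IntF.pair))) (by (repeat' (first | with_reducible exact IntF.id | with_reducible exact IntF.fst' | with_reducible exact IntF.snd' | with_reducible exact IntF.const _ | with_reducible exact Int.const _ | assumption | with_reducible apply ZFA.Int.and | with_reducible apply ZFA.Int.or | with_reducible apply ZFA.Int.not | with_reducible apply Int.imp | with_reducible apply Int.iff | with_reducible apply Int.ne | with_reducible apply Int.eq | with_reducible apply Int.mem | with_reducible apply Int.subset | with_reducible apply Int.ltN | with_reducible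 apply Int.leN | with_reducible_and_instances apply ZFA.Int.le | with_reducible_and_instances apply ZFA.Int.lt | with_reducible apply Int.all | with_reducible apply Int.ex | with_reducible apply IntF.fst | with_reducible apply IntF.snd | with_reducible apply IntF.app | with_reducible apply IntF.inl | with_reducible apply IntF.inr | with_reducible_and_instances apply IntF.mul | with_reducible_and_instances apply IntF.inv | with_reducible_and_instances apply IntF.add | with_reducible_and_instances apply IntF.sub | with_reducible_and_instances apply IntF.neg | with_reducible_and_instances apply IntF.smul | with_reducible apply IntF.succ | (with_reducible refine Int.comp ?_ ?_; assumption) | (with_reducible refine Int.comp₂ ?_ ?_ ?_; assumption) | (with_reducible refine Int.comp₃ ?_ ?_ ?_ ?_; assumption) | (with_reducible refine Int.comp₄ ?_ ?_ ?_ ?_ ?_; assumption) | (with_reducible refine IntF.comp ?_ ?_; assumption) | (with_reducible refine IntF.comp₂ ?_ ?_ ?_; assumption) | (with_reducible refine IntF.comp₃ ?_ ?_ ?_ ?_; assumption) | with_reducible apply IntF.val | with_reducible apply IntF.pair))))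

theorem cf_cg {n : INat M} {f : INat M → INat M} (hf : ∀ i, f (f i) = i) (γ : GA M)
    (c : Col M) : cf n f γ (cg n f γ c) = c := by
  unfold cf cg
  refine Prod.ext (ap_ai _ _) ?_
  by_cases h : (ai γ c.1).1 < n
  · simp [h]
  · simp [h, hf]

theorem cg_cf {n : INat M} {f : INat M → INat M} (hf : ∀ i, f (f i) = i) (γ : GA M)
    (c : Col M) : cg n f γ (cf n f γ c) = c := by
  unfold cf cg
  refine Prod.ext (ai_ap _ _) ?_
  by_cases h : c.1.1 < n
  · simp [h]
  · simp [h, hf]

theorem exists_theta {n : INat M} {γ : GA M} (hγ : IsA γ)
    (hfix : ∀ a : AA M, a.1 < n → ap γ a = a) {p r : PP M} (hrp : r ≤ p) :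
    ∃ θ : GT M, (SP M).U n θ ∧ ga θ = γ ∧ ∃ r', r' ≤ r ∧ r' ≤ θ • p := by
  obtain ⟨-, N, hN⟩ := r.2
  obtain ⟨f, hf, hff, hfN⟩ := exists_shift N
  obtain ⟨θ, hpa⟩ : ∃ θ : GT M, ∀ c, pa θ c = cf n f γ c := by
    have hm : ∀ c, ap (mkP (cf n f γ) (cg n f γ) (int_cf hf γ) (int_cg hf γ) (cf_cg hff γ)
      (cg_cf hff γ)) c = cf n f γ c := fun c => ap_mkP (hf := int_cf hf γ) (hg := int_cg hf γ)
        (h1 := cf_cg hff γ) (h2 := cg_cf hff γ) c
    exact ⟨⟨mkP (cf n f γ) (cg n f γ) (int_cf hf γ) (int_cg hf γ) (cf_cg hff γ)
      (cg_cf hff γ), γ, hγ, fun c => by rw [hm]; rfl⟩, hm⟩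
  refine ⟨θ, ?_, ?_, ?_⟩
  · intro c hc
    rw [hpa]
    refine Prod.ext (hfix _ hc) ?_
    simp [cf, hc]
  · refine ext_ap fun a => ?_
    rw [← pa_fst θ (a, 0), hpa]
    rfl
  · have key : ∀ c : Cell M, (c ∈ r.1.1 ∨ c ∈ r.1.2) → ∀ d : Col M,
        pi' θ c.1 = d → ((d, c.2) ∈ r.1.1 ∨ (d, c.2) ∈ r.1.2) → d = c.1 := by
      intro c hc d hd hd'
      have h1 : cf n f γ d = c.1 := by
        rw [← hpa, ← hd, pa_pi']
      by_cases h2 : d.1.1 < n
      · rw [← h1]
        refine Prod.ext (hfix _ h2).symm ?_
        simp [cf, h2]
      · exfalso
        have h3 : (cf n f γ d).2 = f d.2 := by simp [cf, h2]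
        have h4 := hfN d.2 (hN _ hd').2.1
        have h5 := (hN c hc).2.1
        rw [← h1, h3] at h5
        exact absurd h5 (not_lt.2 h4)
    refine exists_union ?_ ?_
    · intro c h1 h2
      rw [mem_smul2] at h2
      have h3 := (hrp _).2 h2
      have h4 := key c (Or.inl h1) _ rfl (Or.inr h3)
      rw [h4] at h3
      exact r.2.1 _ h1 h3
    · intro c h1 h2
      rw [mem_smul1] at h2
      have h3 := (hrp _).1 h2
      have h4 := key c (Or.inr h1) _ rfl (Or.inl h3)
      rw [h4] at h3
      exact r.2.1 _ h3 h1

theorem fin3_move : ∀ i j : Fin 3, i ≠ j → ∃ κ : Equiv.Perm (Fin 3), κ i = i ∧ κ j ≠ j := by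
  decide

theorem fin3_move1 : ∀ i : Fin 3, ∃ κ : Equiv.Perm (Fin 3), κ i ≠ i := by
  decide

theorem exists_move {n : INat M} {a b : AA M} (hab : a ≠ b) (h : n ≤ a.1 ∨ n ≤ b.1) :
    ∃ γ : GA M, IsA γ ∧ (∀ x : AA M, x.1 < n → ap γ x = x) ∧
      ((ap γ a = a ∧ ap γ b ≠ b) ∨ (ap γ a ≠ a ∧ ap γ b = b)) := by
  obtain ⟨k, i⟩ := a
  obtain ⟨l, j⟩ := b
  simp only at h
  rcases lt_trichotomy k l with h1 | h1 | h1
  · have hl : n ≤ l := h.elim (fun h => h.trans h1.le) id
    obtain ⟨κ, hκ⟩ := fin3_move1 j
    obtain ⟨γ, e1, e2, e3⟩ := exists_aut l κ
    refine ⟨γ, e1, fun x hx => e2 x (lt_of_lt_of_le hx hl), Or.inl ⟨e2 _ h1, ?_⟩⟩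
    rw [e3]
    exact fun e => hκ (Prod.mk.inj e).2
  · subst h1
    have hl : n ≤ k := h.elim id id
    have hij : i ≠ j := fun e => hab (by rw [e])
    obtain ⟨κ, h2, h3⟩ := fin3_move i j hij
    obtain ⟨γ, e1, e2, e3⟩ := exists_aut k κ
    refine ⟨γ, e1, fun x hx => e2 x (lt_of_lt_of_le hx hl), Or.inl ⟨?_, ?_⟩⟩
    · rw [e3, h2]
    · rw [e3]
      exact fun e => h3 (Prod.mk.inj e).2
  · have hl : n ≤ k := h.elim id (fun h => h.trans h1.le)
    obtain ⟨κ, hκ⟩ := fin3_move1 i
    obtain ⟨γ, e1, e2, e3⟩ := exists_aut k κ
    refine ⟨γ, e1, fun x hx => e2 x (lt_of_lt_of_le hx hl), Or.inr ⟨?_, e2 _ h1⟩⟩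
    rw [e3]
    exact fun e => hκ (Prod.mk.inj e).2

variable {G : Set (PP M)} (hG : IsGen M G)

/-- The ordered pair of two generic sets is an element. -/
def PM (f : NN (SP M) hG) (a b : AA M) : Prop := Plain.Mem (pX hG (a, b)) f

/-- The hypotheses on a permutation. -/
structure IsPm (f : NN (SP M) hG) : Prop where
  dom : ∀ w, Plain.Mem w f → ∃ a b, w = pX hG (a, b)
  total : ∀ a, ∃ b, PM hG f a b
  single : ∀ a b b', PM hG f a b → PM hG f a b' → b = b'
  inj : ∀ a a' b, PM hG f a b → PM hG f a' b → a = a'
  onto : ∀ b, ∃ a, PM hG f a b

variable {hG}

theorem exists_Q (f : NN (SP M) hG) : ∃ (Q : PP M → AA M × AA M → Prop) (n : INat M),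
    Int M (fun q : PP M × (AA M × AA M) => Q q.1 q.2) ∧
    (∀ a b, PM hG f a b ↔ ∃ p, p ∈ G ∧ Q p (a, b)) ∧ (∀ p q x, q ≤ p → Q p x → Q q x) ∧
    ∀ θ : GT M, (SP M).U n θ → ∀ p x, Q p x → Q (θ • p) (actAA θ x) := by
  obtain ⟨y, rfl⟩ := exists_mk hG f
  obtain ⟨α, _, E, h, g, hg, h1, h2⟩ := fam_pX hG
  obtain ⟨n, hn⟩ := y.good.sym y.root
  have hf : Int M (fun q : (PP M × α) × El (Tn y.1) => FMem M E y.E q.1.1 q.1.2 q.2) :=
    IG.fmem h.int y.good.int
  refine ⟨fun p x => FMem M E y.E p (g x) y.root, n, ?_, ?_, ?_, ?_⟩
  · refine Int.comp₃ (p := fun p a b => FMem M E y.E p a b) hf ?_ ?_ ?_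
    all_goals (repeat' (first | with_reducible exact IntF.id | with_reducible exact IntF.fst' | with_reducible exact IntF.snd' | with_reducible exact IntF.const _ | with_reducible exact Int.const _ | assumption | with_reducible apply ZFA.Int.and | with_reducible apply ZFA.Int.or | with_reducible apply ZFA.Int.not | with_reducible apply Int.imp | with_reducible apply Int.iff | with_reducible apply Int.ne | with_reducible apply Int.eq | with_reducible apply Int.mem | with_reducible apply Int.subset | with_reducible apply Int.ltN | with_reducible apply Int.leN | with_reducible_and_instances apply ZFA.Int.le | with_reducible_and_instances apply ZFA.Int.lt | with_reducible apply Int.all | with_reducible apply Int.ex | with_reducible apply IntF.fst | with_reducible apply IntF.snd | with_reducible apply IntF.app | with_reducible apply IntF.inl | with_reducible apply IntF.inr | with_reducible_and_instances apply IntF.mul | with_reducible_and_instances apply IntF.inv | with_reducible_and_instances apply IntF.add | with_reducible_and_instances apply IntF.sub | with_reducible_and_instances apply IntF.neg | with_reducible_and_instances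 apply IntF.smul | with_reducible apply IntF.succ | (with_reducible refine Int.comp ?_ ?_; assumption) | (with_reducible refine Int.comp₂ ?_ ?_ ?_; assumption) | (with_reducible refine Int.comp₃ ?_ ?_ ?_ ?_; assumption) | (with_reducible refine Int.comp₄ ?_ ?_ ?_ ?_ ?_; assumption) | (with_reducible refine IntF.comp ?_ ?_; assumption) | (with_reducible refine IntF.comp₂ ?_ ?_ ?_; assumption) | (with_reducible refine IntF.comp₃ ?_ ?_ ?_ ?_; assumption) | with_reducible apply IntF.val | with_reducible apply IntF.pair))
  · intro a b
    unfold PM
    rw [h1, mk_eq_nd]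
    exact mem_nd_nd hG h y.good
  · intro p q x hq h
    exact h.mono hq
  · intro θ hθ p x hp
    have e1 := fmem_tw (SP M) θ hp
    have e2 := hn θ hθ (θ • p)
    have e3 := h2 θ (θ • p) x
    exact (e1.congr_right (h.int.tw θ) (y.good.int.tw θ) y.good.int e2).congr_left h.int
      (h.int.tw θ) y.good.int (e3.symm (h.int.tw θ) h.int)

theorem no_move {f : NN (SP M) hG} (hf : IsPm hG f) {Q : PP M → AA M × AA M → Prop} {n : INat M}
    (h2 : ∀ a b, PM hG f a b ↔ ∃ p, p ∈ G ∧ Q p (a, b))
    (h3 : ∀ p q x, q ≤ p → Q p x → Q q x)
    (h4 : ∀ θ : GT M, (SP M).U n θ → ∀ p x, Q p x → Q (θ • p) (actAA θ x))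
    {a b : AA M} (hab : PM hG f a b) (hn : n ≤ a.1 ∨ n ≤ b.1) : a = b := by
  by_contra hne
  obtain ⟨γ, hγ, hfix, hmv⟩ := exists_move hne hn
  obtain ⟨p, hp, hQ⟩ := (h2 a b).1 hab
  have i1 : IntF M (ga (M := M)) := int_ga
  have i2 : Int M (fun q : INat M × GT M => (SP M).U q.1 q.2) := (SP M).int_U
  obtain ⟨r, hr, -, θ, h5, h6, h7⟩ := hG.dense_below
    (s := fun r => ∃ θ : GT M, (SP M).U n θ ∧ ga θ = γ ∧ r ≤ θ • p) (by (repeat' (first | with_reducible exact IntF.id | with_reducible exact IntF.fst' | with_reducible exact IntF.snd' | with_reducible exact IntF.const _ | with_reducible exact Int.const _ | assumption | with_reducible apply ZFA.Int.and | with_reducible apply ZFA.Int.or | with_reducible apply ZFA.Int.not | with_reducible apply Int.imp | with_reducible apply Int.iff | with_reducible apply Int.ne | with_reducible apply Int.eq | with_reducible apply Int.mem | with_reducible apply Int.subset | with_reducible apply Int.ltN | with_reducible apply Int.leN | with_reducible_and_instances apply ZFA.Int.le | with_reducible_and_instances apply ZFA.Int.lt | with_reducible apply Int.all | with_reducible apply Int.ex | with_reducible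 apply IntF.fst | with_reducible apply IntF.snd | with_reducible apply IntF.app | with_reducible apply IntF.inl | with_reducible apply IntF.inr | with_reducible_and_instances apply IntF.mul | with_reducible_and_instances apply IntF.inv | with_reducible_and_instances apply IntF.add | with_reducible_and_instances apply IntF.sub | with_reducible_and_instances apply IntF.neg | with_reducible_and_instances apply IntF.smul | with_reducible apply IntF.succ | (with_reducible refine Int.comp ?_ ?_; assumption) | (with_reducible refine Int.comp₂ ?_ ?_ ?_; assumption) | (with_reducible refine Int.comp₃ ?_ ?_ ?_ ?_; assumption) | (with_reducible refine Int.comp₄ ?_ ?_ ?_ ?_ ?_; assumption) | (with_reducible refine IntF.comp ?_ ?_; assumption) | (with_reducible refine IntF.comp₂ ?_ ?_ ?_; assumption) | (with_reducible refine IntF.comp₃ ?_ ?_ ?_ ?_; assumption) | with_reducible apply IntF.val | with_reducible apply IntF.pair))) hp (by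
      intro r hr
      obtain ⟨θ, e1, e2, r', e3, e4⟩ := exists_theta hγ hfix hr
      exact ⟨r', e3, θ, e1, e2, e4⟩)
  have h8 := h3 _ _ _ h7 (h4 θ h5 p _ hQ)
  have h9 : PM hG f (ap γ a) (ap γ b) := by
    refine (h2 _ _).2 ⟨r, hr, ?_⟩
    rw [← h6]
    exact h8
  rcases hmv with ⟨e1, e2⟩ | ⟨e1, e2⟩
  · rw [e1] at h9
    exact e2 (hf.single _ _ _ h9 hab)
  · rw [e2] at h9
    exact e1 (hf.inj _ _ _ h9 hab)

theorem exists_dec {Q : PP M → AA M × AA M → Prop}
    (h1 : Int M (fun q : PP M × (AA M × AA M) => Q q.1 q.2))
    (h3 : ∀ p q x, q ≤ p → Q p x → Q q x) (n : INat M) (hG : IsGen M G) :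
    ∃ p, p ∈ G ∧ ∀ a b : AA M, a.1 < n → b.1 < n → (Q p (a, b) ∨ ∀ q, q ≤ p → ¬ Q q (a, b)) := by
  have key : ∀ s : IPow M (AA M × AA M), IFin s → ∀ p : PP M, ∃ q, q ≤ p ∧ ∀ x, x ∈ s →
      (Q q x ∨ ∀ q', q' ≤ q → ¬ Q q' x) := by
    refine IFin.ind (p := fun s => ∀ p : PP M, ∃ q, q ≤ p ∧ ∀ x, x ∈ s →
      (Q q x ∨ ∀ q', q' ≤ q → ¬ Q q' x)) (by (repeat' (first | with_reducible exact IntF.id | with_reducible exact IntF.fst' | with_reducible exact IntF.snd' | with_reducible exact IntF.const _ | with_reducible exact Int.const _ | assumption | with_reducible apply ZFA.Int.and | with_reducible apply ZFA.Int.or | with_reducible apply ZFA.Int.not | with_reducible apply Int.imp | with_reducible apply Int.iff | with_reducible apply Int.ne | with_reducible apply Int.eq | with_reducible apply Int.mem | with_reducible apply Int.subset | with_reducible apply Int.ltN | with_reducible apply Int.leN | with_reducible_and_instances apply ZFA.Int.le | with_reducible_and_instances apply ZFA.Int.lt | with_reducible apply Int.all | with_reducible apply Int.ex | with_reducible apply IntF.fst | with_reducible apply IntF.snd | with_reducible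 apply IntF.app | with_reducible apply IntF.inl | with_reducible apply IntF.inr | with_reducible_and_instances apply IntF.mul | with_reducible_and_instances apply IntF.inv | with_reducible_and_instances apply IntF.add | with_reducible_and_instances apply IntF.sub | with_reducible_and_instances apply IntF.neg | with_reducible_and_instances apply IntF.smul | with_reducible apply IntF.succ | (with_reducible refine Int.comp ?_ ?_; assumption) | (with_reducible refine Int.comp₂ ?_ ?_ ?_; assumption) | (with_reducible refine Int.comp₃ ?_ ?_ ?_ ?_; assumption) | (with_reducible refine Int.comp₄ ?_ ?_ ?_ ?_ ?_; assumption) | (with_reducible refine IntF.comp ?_ ?_; assumption) | (with_reducible refine IntF.comp₂ ?_ ?_ ?_; assumption) | (with_reducible refine IntF.comp₃ ?_ ?_ ?_ ?_; assumption) | with_reducible apply IntF.val | with_reducible apply IntF.pair))) ?_ ?_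
    · intro p
      exact ⟨p, le_refl p, fun x hx => (mem_empty.1 hx).elim⟩
    · intro s x _ _ ih p
      obtain ⟨q, hq, h⟩ := ih p
      by_cases hx : ∃ q', q' ≤ q ∧ Q q' x
      · obtain ⟨q', h4, h5⟩ := hx
        refine ⟨q', h4.trans hq, fun y hy => ?_⟩
        rcases mem_insert.1 hy with rfl | hy
        · exact Or.inl h5
        · exact (h y hy).imp (h3 _ _ _ h4) fun e q'' hq'' => e q'' (hq''.trans h4)
      · push Not at hx
        refine ⟨q, hq, fun y hy => ?_⟩
        rcases mem_insert.1 hy with rfl | hy
        · exact Or.inr hx
        · exact h y hy
  have hs := (fin_AA n).prod (fin_AA n)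
  obtain ⟨p, hp, h⟩ := hG.dense (fun q => ∀ x, x ∈ iprod (sep M fun a : AA M => a.1 < n)
    (sep M fun a : AA M => a.1 < n) → (Q q x ∨ ∀ q', q' ≤ q → ¬ Q q' x)) (by (repeat' (first | with_reducible exact IntF.id | with_reducible exact IntF.fst' | with_reducible exact IntF.snd' | with_reducible exact IntF.const _ | with_reducible exact Int.const _ | assumption | with_reducible apply ZFA.Int.and | with_reducible apply ZFA.Int.or | with_reducible apply ZFA.Int.not | with_reducible apply Int.imp | with_reducible apply Int.iff | with_reducible apply Int.ne | with_reducible apply Int.eq | with_reducible apply Int.mem | with_reducible apply Int.subset | with_reducible apply Int.ltN | with_reducible apply Int.leN | with_reducible_and_instances apply ZFA.Int.le | with_reducible_and_instances apply ZFA.Int.lt | with_reducible apply Int.all | with_reducible apply Int.ex | with_reducible apply IntF.fst | with_reducible apply IntF.snd | with_reducible apply IntF.app | with_reducible apply IntF.inl | with_reducible apply IntF.inr | with_reducible_and_instances apply IntF.mul | with_reducible_and_instances apply IntF.inv | with_reducible_and_instances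 apply IntF.add | with_reducible_and_instances apply IntF.sub | with_reducible_and_instances apply IntF.neg | with_reducible_and_instances apply IntF.smul | with_reducible apply IntF.succ | (with_reducible refine Int.comp ?_ ?_; assumption) | (with_reducible refine Int.comp₂ ?_ ?_ ?_; assumption) | (with_reducible refine Int.comp₃ ?_ ?_ ?_ ?_; assumption) | (with_reducible refine Int.comp₄ ?_ ?_ ?_ ?_ ?_; assumption) | (with_reducible refine IntF.comp ?_ ?_; assumption) | (with_reducible refine IntF.comp₂ ?_ ?_ ?_; assumption) | (with_reducible refine IntF.comp₃ ?_ ?_ ?_ ?_; assumption) | with_reducible apply IntF.val | with_reducible apply IntF.pair)))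
    (fun p => key _ hs p)
  exact ⟨p, hp, fun a b ha hb => h _ (mem_iprod.2 ⟨(mem_sep (by (repeat' (first | with_reducible exact IntF.id | with_reducible exact IntF.fst' | with_reducible exact IntF.snd' | with_reducible exact IntF.const _ | with_reducible exact Int.const _ | assumption | with_reducible apply ZFA.Int.and | with_reducible apply ZFA.Int.or | with_reducible apply ZFA.Int.not | with_reducible apply Int.imp | with_reducible apply Int.iff | with_reducible apply Int.ne | with_reducible apply Int.eq | with_reducible apply Int.mem | with_reducible apply Int.subset | with_reducible apply Int.ltN | with_reducible apply Int.leN | with_reducible_and_instances apply ZFA.Int.le | with_reducible_and_instances apply ZFA.Int.lt | with_reducible apply Int.all | with_reducible apply Int.ex | with_reducible apply IntF.fst | with_reducible apply IntF.snd | with_reducible apply IntF.app | with_reducible apply IntF.inl | with_reducible apply IntF.inr | with_reducible_and_instances apply IntF.mul | with_reducible_and_instances apply IntF.inv | with_reducible_and_instances apply IntF.add | with_reducible_and_instances apply IntF.sub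 | with_reducible_and_instances apply IntF.neg | with_reducible_and_instances apply IntF.smul | with_reducible apply IntF.succ | (with_reducible refine Int.comp ?_ ?_; assumption) | (with_reducible refine Int.comp₂ ?_ ?_ ?_; assumption) | (with_reducible refine Int.comp₃ ?_ ?_ ?_ ?_; assumption) | (with_reducible refine Int.comp₄ ?_ ?_ ?_ ?_ ?_; assumption) | (with_reducible refine IntF.comp ?_ ?_; assumption) | (with_reducible refine IntF.comp₂ ?_ ?_ ?_; assumption) | (with_reducible refine IntF.comp₃ ?_ ?_ ?_ ?_; assumption) | with_reducible apply IntF.val | with_reducible apply IntF.pair)))).2 ha,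
    (mem_sep (by (repeat' (first | with_reducible exact IntF.id | with_reducible exact IntF.fst' | with_reducible exact IntF.snd' | with_reducible exact IntF.const _ | with_reducible exact Int.const _ | assumption | with_reducible apply ZFA.Int.and | with_reducible apply ZFA.Int.or | with_reducible apply ZFA.Int.not | with_reducible apply Int.imp | with_reducible apply Int.iff | with_reducible apply Int.ne | with_reducible apply Int.eq | with_reducible apply Int.mem | with_reducible apply Int.subset | with_reducible apply Int.ltN | with_reducible apply Int.leN | with_reducible_and_instances apply ZFA.Int.le | with_reducible_and_instances apply ZFA.Int.lt | with_reducible apply Int.all | with_reducible apply Int.ex | with_reducible apply IntF.fst | with_reducible apply IntF.snd | with_reducible apply IntF.app | with_reducible apply IntF.inl | with_reducible apply IntF.inr | with_reducible_and_instances apply IntF.mul | with_reducible_and_instances apply IntF.inv | with_reducible_and_instances apply IntF.add | with_reducible_and_instances apply IntF.sub | with_reducible_and_instances apply IntF.neg | with_reducible_and_instances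 apply IntF.smul | with_reducible apply IntF.succ | (with_reducible refine Int.comp ?_ ?_; assumption) | (with_reducible refine Int.comp₂ ?_ ?_ ?_; assumption) | (with_reducible refine Int.comp₃ ?_ ?_ ?_ ?_; assumption) | (with_reducible refine Int.comp₄ ?_ ?_ ?_ ?_ ?_; assumption) | (with_reducible refine IntF.comp ?_ ?_; assumption) | (with_reducible refine IntF.comp₂ ?_ ?_ ?_; assumption) | (with_reducible refine IntF.comp₃ ?_ ?_ ?_ ?_; assumption) | with_reducible apply IntF.val | with_reducible apply IntF.pair)))).2 hb⟩)⟩

theorem rigid {f : NN (SP M) hG} (hf : IsPm hG f) : ∃ σ, Fy σ ∧ f = gR hG σ := by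
  obtain ⟨Q, n, h1, h2, h3, h4⟩ := exists_Q f
  obtain ⟨p, hp, hdec⟩ := exists_dec h1 h3 n hG
  have hR : ∀ a b, PM hG f a b ↔ ((a.1 < n ∧ b.1 < n ∧ Q p (a, b)) ∨ (n ≤ a.1 ∧ a = b)) := by
    intro a b
    constructor
    · intro h
      by_cases ha : n ≤ a.1
      · exact Or.inr ⟨ha, no_move hf h2 h3 h4 h (Or.inl ha)⟩
      by_cases hb : n ≤ b.1
      · have h5 := no_move hf h2 h3 h4 h (Or.inr hb)
        exact Or.inr ⟨by rw [h5]; exact hb, h5⟩
      · rw [not_le] at ha hb
        refine Or.inl ⟨ha, hb, ?_⟩
        obtain ⟨p', hp', h5⟩ := (h2 a b).1 h
        obtain ⟨r, -, hr1, hr2⟩ := hG.dir p p' hp hp'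
        exact (hdec a b ha hb).resolve_right fun h6 => h6 r hr1 (h3 _ _ _ hr2 h5)
    · rintro (⟨-, -, h⟩ | ⟨h, rfl⟩)
      · exact (h2 a b).2 ⟨p, hp, h⟩
      · obtain ⟨b, hb⟩ := hf.total a
        obtain rfl := no_move hf h2 h3 h4 hb (Or.inl h)
        exact hb
  have hI : Int M (fun q : AA M × AA M => ((q.1.1 < n ∧ q.2.1 < n ∧ Q p (q.1, q.2)) ∨
      (n ≤ q.1.1 ∧ q.1 = q.2))) := by (repeat' (first | with_reducible exact IntF.id | with_reducible exact IntF.fst' | with_reducible exact IntF.snd' | with_reducible exact IntF.const _ | with_reducible exact Int.const _ | assumption | with_reducible apply ZFA.Int.and | with_reducible apply ZFA.Int.or | with_reducible apply ZFA.Int.not | with_reducible apply Int.imp | with_reducible apply Int.iff | with_reducible apply Int.ne | with_reducible apply Int.eq | with_reducible apply Int.mem | with_reducible apply Int.subset | with_reducible apply Int.ltN | with_reducible apply Int.leN | with_reducible_and_instances apply ZFA.Int.le | with_reducible_and_instances apply ZFA.Int.lt | with_reducible apply Int.all | with_reducible apply Int.ex | with_reducible apply IntF.fst | with_reducible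 apply IntF.snd | with_reducible apply IntF.app | with_reducible apply IntF.inl | with_reducible apply IntF.inr | with_reducible_and_instances apply IntF.mul | with_reducible_and_instances apply IntF.inv | with_reducible_and_instances apply IntF.add | with_reducible_and_instances apply IntF.sub | with_reducible_and_instances apply IntF.neg | with_reducible_and_instances apply IntF.smul | with_reducible apply IntF.succ | (with_reducible refine Int.comp ?_ ?_; assumption) | (with_reducible refine Int.comp₂ ?_ ?_ ?_; assumption) | (with_reducible refine Int.comp₃ ?_ ?_ ?_ ?_; assumption) | (with_reducible refine Int.comp₄ ?_ ?_ ?_ ?_ ?_; assumption) | (with_reducible refine IntF.comp ?_ ?_; assumption) | (with_reducible refine IntF.comp₂ ?_ ?_ ?_; assumption) | (with_reducible refine IntF.comp₃ ?_ ?_ ?_ ?_; assumption) | with_reducible apply IntF.val | with_reducible apply IntF.pair))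
  have hI' : Int M (fun q : AA M × AA M => ((q.2.1 < n ∧ q.1.1 < n ∧ Q p (q.2, q.1)) ∨
      (n ≤ q.2.1 ∧ q.2 = q.1))) := by (repeat' (first | with_reducible exact IntF.id | with_reducible exact IntF.fst' | with_reducible exact IntF.snd' | with_reducible exact IntF.const _ | with_reducible exact Int.const _ | assumption | with_reducible apply ZFA.Int.and | with_reducible apply ZFA.Int.or | with_reducible apply ZFA.Int.not | with_reducible apply Int.imp | with_reducible apply Int.iff | with_reducible apply Int.ne | with_reducible apply Int.eq | with_reducible apply Int.mem | with_reducible apply Int.subset | with_reducible apply Int.ltN | with_reducible apply Int.leN | with_reducible_and_instances apply ZFA.Int.le | with_reducible_and_instances apply ZFA.Int.lt | with_reducible apply Int.all | with_reducible apply Int.ex | with_reducible apply IntF.fst | with_reducible apply IntF.snd | with_reducible apply IntF.app | with_reducible apply IntF.inl | with_reducible apply IntF.inr | with_reducible_and_instances apply IntF.mul | with_reducible_and_instances apply IntF.inv | with_reducible_and_instances apply IntF.add | with_reducible_and_instances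 apply IntF.sub | with_reducible_and_instances apply IntF.neg | with_reducible_and_instances apply IntF.smul | with_reducible apply IntF.succ | (with_reducible refine Int.comp ?_ ?_; assumption) | (with_reducible refine Int.comp₂ ?_ ?_ ?_; assumption) | (with_reducible refine Int.comp₃ ?_ ?_ ?_ ?_; assumption) | (with_reducible refine Int.comp₄ ?_ ?_ ?_ ?_ ?_; assumption) | (with_reducible refine IntF.comp ?_ ?_; assumption) | (with_reducible refine IntF.comp₂ ?_ ?_ ?_; assumption) | (with_reducible refine IntF.comp₃ ?_ ?_ ?_ ?_; assumption) | with_reducible apply IntF.val | with_reducible apply IntF.pair))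
  choose F hF using hf.total
  choose F' hF' using hf.onto
  have iF : IntF M F := IntF.of_unique (p := fun a b => (a.1 < n ∧ b.1 < n ∧ Q p (a, b)) ∨
    (n ≤ a.1 ∧ a = b)) hI (fun a => (hR _ _).1 (hF a))
    (fun a b c hb hc => hf.single a b c ((hR _ _).2 hb) ((hR _ _).2 hc))
  have iF' : IntF M F' := IntF.of_unique (p := fun b a => (a.1 < n ∧ b.1 < n ∧ Q p (a, b)) ∨
    (n ≤ a.1 ∧ a = b)) hI' (fun a => (hR _ _).1 (hF' a))
    (fun b a a' hb hc => hf.inj a a' b ((hR _ _).2 hb) ((hR _ _).2 hc))
  refine ⟨mkP F F' iF iF' (fun x => hf.single _ _ _ (hF _) (hF' x))
    (fun x => hf.inj _ _ _ (hF' _) (hF x)), ⟨n, fun x hx => ?_⟩, ?_⟩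
  · rw [ap_mkP]
    exact hf.single _ _ _ (hF x) ((hR x x).2 (Or.inr ⟨hx, rfl⟩))
  · refine nn_ext hG fun w => ?_
    rw [mem_gR]
    constructor
    · intro hw
      obtain ⟨a, b, rfl⟩ := hf.dom w hw
      refine ⟨(a, b), ⟨⟨n, fun x hx => ?_⟩, ?_⟩, rfl⟩
      · rw [ap_mkP]
        exact hf.single _ _ _ (hF x) ((hR x x).2 (Or.inr ⟨hx, rfl⟩))
      · rw [ap_mkP]
        exact hf.single _ _ _ (hF a) hw
    · rintro ⟨⟨a, b⟩, ⟨-, h⟩, rfl⟩
      rw [ap_mkP] at h
      simp only at h
      rw [← h]
      exact hF a

end

end Pool.Agent.H525P
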