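import Pool.Agent.H525R3.PThr

/-!
# Enumerations by the Schröder–Bernstein argument
-/

namespace Pool.Agent.H525P

open FirstOrder FirstOrder.Language
open Pool.Agent.Helper672 Pool.Agent.Helper672.ZFA Pool.Agent.Helper672.ZFA.H635

universe u

set_option synthInstance.maxSize 2000
set_option linter.unusedSectionVars false

section

variable {M : Type u} [L.Structure M] [hM : IsModel M]
variable {X : Type u} [ITy M X]

/-- Closed sets. -/
def SBC (S : X → Prop) (c : X → INat M) (ρ : INat M → X) (T : IPow M X) : Prop :=
  (∀ y, S y → (∀ n, ρ n ≠ y) → y ∈ T) ∧ ∀ y, y ∈ T → S y → ρ (c y) ∈ T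

/-- The least closed set. -/
def SBD (S : X → Prop) (c : X → INat M) (ρ : INat M → X) (x : X) : Prop :=
  S x ∧ ∀ T : IPow M X, SBC S c ρ T → x ∈ T

variable {S : X → Prop} {c : X → INat M} {ρ : INat M → X}

theorem int_sbc (hS : Int M S) (hc : IntF M c) (hρ : IntF M ρ) : Int M (SBC S c ρ) := by
  unfold SBC
  (repeat' (first | with_reducible exact IntF.id | with_reducible exact IntF.fst' | with_reducible exact IntF.snd' | with_reducible exact IntF.const _ | with_reducible exact Int.const _ | assumption | with_reducible apply ZFA.Int.and | with_reducible apply ZFA.Int.or | with_reducible apply ZFA.Int.not | with_reducible apply Int.imp | with_reducible apply Int.iff | with_reducible apply Int.ne | with_reducible apply Int.eq | with_reducible apply Int.mem | with_reducible apply Int.subset | with_reducible apply Int.ltN | with_reducible apply Int.leN | with_reducible_and_instances apply ZFA.Int.le | with_reducible_and_instances apply ZFA.Int.lt | with_reducible apply Int.all | with_reducible apply Int.ex | with_reducible apply IntF.fst | with_reducible apply IntF.snd | with_reducible apply IntF.app | with_reducible apply IntF.inl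 | with_reducible apply IntF.inr | with_reducible_and_instances apply IntF.mul | with_reducible_and_instances apply IntF.inv | with_reducible_and_instances apply IntF.add | with_reducible_and_instances apply IntF.sub | with_reducible_and_instances apply IntF.neg | with_reducible_and_instances apply IntF.smul | with_reducible apply IntF.succ | with_reducible apply IntF.val | with_reducible apply IntF.mk | (with_reducible refine Int.comp ?_ ?_; assumption) | (with_reducible refine Int.comp₂ ?_ ?_ ?_; assumption) | (with_reducible refine Int.comp₃ ?_ ?_ ?_ ?_; assumption) | (with_reducible refine Int.comp₄ ?_ ?_ ?_ ?_ ?_; assumption) | (with_reducible refine IntF.comp ?_ ?_; assumption) | (with_reducible refine IntF.comp₂ ?_ ?_ ?_; assumption) | (with_reducible refine IntF.comp₃ ?_ ?_ ?_ ?_; assumption) | with_reducible apply IntF.pair))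

theorem int_sbd (hS : Int M S) (hc : IntF M c) (hρ : IntF M ρ) : Int M (SBD S c ρ) := by
  have h := int_sbc hS hc hρ
  unfold SBD
  (repeat' (first | with_reducible exact IntF.id | with_reducible exact IntF.fst' | with_reducible exact IntF.snd' | with_reducible exact IntF.const _ | with_reducible exact Int.const _ | assumption | with_reducible apply ZFA.Int.and | with_reducible apply ZFA.Int.or | with_reducible apply ZFA.Int.not | with_reducible apply Int.imp | with_reducible apply Int.iff | with_reducible apply Int.ne | with_reducible apply Int.eq | with_reducible apply Int.mem | with_reducible apply Int.subset | with_reducible apply Int.ltN | with_reducible apply Int.leN | with_reducible_and_instances apply ZFA.Int.le | with_reducible_and_instances apply ZFA.Int.lt | with_reducible apply Int.all | with_reducible apply Int.ex | with_reducible apply IntF.fst | with_reducible apply IntF.snd | with_reducible apply IntF.app | with_reducible apply IntF.inl | with_reducible apply IntF.inr | with_reducible_and_instances apply IntF.mul | with_reducible_and_instances apply IntF.inv | with_reducible_and_instances apply IntF.add | with_reducible_and_instances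 apply IntF.sub | with_reducible_and_instances apply IntF.neg | with_reducible_and_instances apply IntF.smul | with_reducible apply IntF.succ | with_reducible apply IntF.val | with_reducible apply IntF.mk | (with_reducible refine Int.comp ?_ ?_; assumption) | (with_reducible refine Int.comp₂ ?_ ?_ ?_; assumption) | (with_reducible refine Int.comp₃ ?_ ?_ ?_ ?_; assumption) | (with_reducible refine Int.comp₄ ?_ ?_ ?_ ?_ ?_; assumption) | (with_reducible refine IntF.comp ?_ ?_; assumption) | (with_reducible refine IntF.comp₂ ?_ ?_ ?_; assumption) | (with_reducible refine IntF.comp₃ ?_ ?_ ?_ ?_; assumption) | with_reducible apply IntF.pair))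

theorem sbd_range {y : X} (hy : S y) (h : ∀ n, ρ n ≠ y) : SBD S c ρ y :=
  ⟨hy, fun _ hT => hT.1 y hy h⟩

theorem sbd_step (hρS : ∀ n, S (ρ n)) {y : X} (hy : SBD S c ρ y) : SBD S c ρ (ρ (c y)) :=
  ⟨hρS _, fun T hT => hT.2 y (hy.2 T hT) hy.1⟩

theorem sbd_inv (hS : Int M S) (hc : IntF M c) (hρ : IntF M ρ) (hρS : ∀ n, S (ρ n))
    (hρi : Function.Injective ρ) {n : INat M} (h : SBD S c ρ (ρ n)) :
    ∃ y, SBD S c ρ y ∧ c y = n := by
  by_contra hn
  have hD := int_sbd hS hc hρ
  have hI : Int M (fun y => SBD S c ρ y ∧ y ≠ ρ n) := by (repeat' (first | with_reducible exact IntF.id | with_reducible exact IntF.fst' | with_reducible exact IntF.snd' | with_reducible exact IntF.const _ | with_reducible exact Int.const _ | assumption | with_reducible apply ZFA.Int.and | with_reducible apply ZFA.Int.or | with_reducible apply ZFA.Int.not | with_reducible apply Int.imp | with_reducible apply Int.iff | with_reducible apply Int.ne | with_reducible apply Int.eq | with_reducible apply Int.mem | with_reducible apply Int.subset | with_reducible apply Int.ltN | with_reducible apply Int.leN | with_reducible_and_instances apply ZFA.Int.le | with_reducible_and_instances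 apply ZFA.Int.lt | with_reducible apply Int.all | with_reducible apply Int.ex | with_reducible apply IntF.fst | with_reducible apply IntF.snd | with_reducible apply IntF.app | with_reducible apply IntF.inl | with_reducible apply IntF.inr | with_reducible_and_instances apply IntF.mul | with_reducible_and_instances apply IntF.inv | with_reducible_and_instances apply IntF.add | with_reducible_and_instances apply IntF.sub | with_reducible_and_instances apply IntF.neg | with_reducible_and_instances apply IntF.smul | with_reducible apply IntF.succ | with_reducible apply IntF.val | with_reducible apply IntF.mk | (with_reducible refine Int.comp ?_ ?_; assumption) | (with_reducible refine Int.comp₂ ?_ ?_ ?_; assumption) | (with_reducible refine Int.comp₃ ?_ ?_ ?_ ?_; assumption) | (with_reducible refine Int.comp₄ ?_ ?_ ?_ ?_ ?_; assumption) | (with_reducible refine IntF.comp ?_ ?_; assumption) | (with_reducible refine IntF.comp₂ ?_ ?_ ?_; assumption) | (with_reducible refine IntF.comp₃ ?_ ?_ ?_ ?_; assumption) | with_reducible apply IntF.pair))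
  have h1 : SBC S c ρ (sep M fun y => SBD S c ρ y ∧ y ≠ ρ n) := by
    refine ⟨fun y hy h => (mem_sep hI).2 ⟨sbd_range hy h, fun h' => h n h'.symm⟩, ?_⟩
    intro y hy _
    obtain ⟨h2, -⟩ := (mem_sep hI).1 hy
    exact (mem_sep hI).2 ⟨sbd_step hρS h2, fun h3 => hn ⟨y, h2, hρi h3⟩⟩
  exact ((mem_sep hI).1 (h.2 _ h1)).2 rfl

/-- The relation that defines the enumeration. -/
def SBR (S : X → Prop) (c : X → INat M) (ρ : INat M → X) (n : INat M) (x : X) : Prop :=
  (¬ SBD S c ρ (ρ n) ∧ ρ n = x) ∨ (SBD S c ρ (ρ n) ∧ SBD S c ρ x ∧ c x = n)

theorem int_sbr (hS : Int M S) (hc : IntF M c) (hρ : IntF M ρ) :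
    Int M (fun q : INat M × X => SBR S c ρ q.1 q.2) := by
  have hD := int_sbd hS hc hρ
  unfold SBR
  (repeat' (first | with_reducible exact IntF.id | with_reducible exact IntF.fst' | with_reducible exact IntF.snd' | with_reducible exact IntF.const _ | with_reducible exact Int.const _ | assumption | with_reducible apply ZFA.Int.and | with_reducible apply ZFA.Int.or | with_reducible apply ZFA.Int.not | with_reducible apply Int.imp | with_reducible apply Int.iff | with_reducible apply Int.ne | with_reducible apply Int.eq | with_reducible apply Int.mem | with_reducible apply Int.subset | with_reducible apply Int.ltN | with_reducible apply Int.leN | with_reducible_and_instances apply ZFA.Int.le | with_reducible_and_instances apply ZFA.Int.lt | with_reducible apply Int.all | with_reducible apply Int.ex | with_reducible apply IntF.fst | with_reducible apply IntF.snd | with_reducible apply IntF.app | with_reducible apply IntF.inl | with_reducible apply IntF.inr | with_reducible_and_instances apply IntF.mul | with_reducible_and_instances apply IntF.inv | with_reducible_and_instances apply IntF.add | with_reducible_and_instances apply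 IntF.sub | with_reducible_and_instances apply IntF.neg | with_reducible_and_instances apply IntF.smul | with_reducible apply IntF.succ | with_reducible apply IntF.val | with_reducible apply IntF.mk | (with_reducible refine Int.comp ?_ ?_; assumption) | (with_reducible refine Int.comp₂ ?_ ?_ ?_; assumption) | (with_reducible refine Int.comp₃ ?_ ?_ ?_ ?_; assumption) | (with_reducible refine Int.comp₄ ?_ ?_ ?_ ?_ ?_; assumption) | (with_reducible refine IntF.comp ?_ ?_; assumption) | (with_reducible refine IntF.comp₂ ?_ ?_ ?_; assumption) | (with_reducible refine IntF.comp₃ ?_ ?_ ?_ ?_; assumption) | with_reducible apply IntF.pair))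

theorem sb_exists (hS : Int M S) (hc : IntF M c) (hρ : IntF M ρ) (hρS : ∀ n, S (ρ n))
    (hρi : Function.Injective ρ) (hci : ∀ x y, S x → S y → c x = c y → x = y) :
    ∃ e : INat M → X, IntF M e ∧ Function.Injective e ∧ (∀ x, S x ↔ ∃ n, e n = x) ∧
      ∀ n, ρ n = e n ∨ c (e n) = n := by
  have h1 : ∀ n, ∃ x, SBR S c ρ n x := by
    intro n
    by_cases h : SBD S c ρ (ρ n)
    · obtain ⟨y, h2, h3⟩ := sbd_inv hS hc hρ hρS hρi h
      exact ⟨y, Or.inr ⟨h, h2, h3⟩⟩
    · exact ⟨_, Or.inl ⟨h, rfl⟩⟩
  have h2 : ∀ n x y, SBR S c ρ n x → SBR S c ρ n y → x = y := by
    rintro n x y (⟨h, rfl⟩ | ⟨h, h3, h4⟩) (⟨h', rfl⟩ | ⟨h', h3', h4'⟩)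
    · rfl
    · exact absurd h' h
    · exact absurd h h'
    · exact hci x y h3.1 h3'.1 (h4.trans h4'.symm)
  choose e he using h1
  refine ⟨e, IntF.of_unique (int_sbr hS hc hρ) he h2, ?_, ?_, ?_⟩
  · intro n m hnm
    have k1 := he n
    have k2 := he m
    rw [← hnm] at k2
    rcases k1 with ⟨h, h3⟩ | ⟨h, h3, h4⟩ <;> rcases k2 with ⟨h', h3'⟩ | ⟨h', h3', h4'⟩
    · exact hρi (h3.trans h3'.symm)
    · exact absurd (h3 ▸ h3') h
    · exact absurd (h3' ▸ h3) h'
    · exact h4.symm.trans h4'
  · intro x
    constructor
    · intro hx
      by_cases h : SBD S c ρ x
      · exact ⟨c x, h2 _ _ _ (he _) (Or.inr ⟨sbd_step hρS h, h, rfl⟩)⟩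
      · have h3 : ∃ n, ρ n = x := by
          by_contra h3
          push Not at h3
          exact h (sbd_range hx h3)
        obtain ⟨n, rfl⟩ := h3
        exact ⟨n, h2 _ _ _ (he _) (Or.inl ⟨h, rfl⟩)⟩
    · rintro ⟨n, rfl⟩
      rcases he n with ⟨-, h3⟩ | ⟨-, h3, -⟩
      · exact h3 ▸ hρS n
      · exact h3.1
  · intro n
    rcases he n with ⟨-, h3⟩ | ⟨-, -, h3⟩
    · exact Or.inl h3
    · exact Or.inr h3

end

/-! ### Pairing of natural numbers -/

section

variable {M : Type u} [L.Structure M] [hM : IsModel M]

/-- An injective function of two arguments. -/
noncomputable def pr (a b : INat M) : INat M := (a + b) * (a + b) + a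

theorem int_pr : IntF M (fun q : INat M × INat M => pr q.1 q.2) := by
  unfold pr
  (repeat' (first | with_reducible exact IntF.id | with_reducible exact IntF.fst' | with_reducible exact IntF.snd' | with_reducible exact IntF.const _ | with_reducible exact Int.const _ | assumption | with_reducible apply ZFA.Int.and | with_reducible apply ZFA.Int.or | with_reducible apply ZFA.Int.not | with_reducible apply Int.imp | with_reducible apply Int.iff | with_reducible apply Int.ne | with_reducible apply Int.eq | with_reducible apply Int.mem | with_reducible apply Int.subset | with_reducible apply Int.ltN | with_reducible apply Int.leN | with_reducible_and_instances apply ZFA.Int.le | with_reducible_and_instances apply ZFA.Int.lt | with_reducible apply Int.all | with_reducible apply Int.ex | with_reducible apply IntF.fst | with_reducible apply IntF.snd | with_reducible apply IntF.app | with_reducible apply IntF.inl | with_reducible apply IntF.inr | with_reducible_and_instances apply IntF.mul | with_reducible_and_instances apply IntF.inv | with_reducible_and_instances apply IntF.add | with_reducible_and_instances apply IntF.sub | with_reducible_and_instances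 apply IntF.neg | with_reducible_and_instances apply IntF.smul | with_reducible apply IntF.succ | with_reducible apply IntF.val | with_reducible apply IntF.mk | (with_reducible refine Int.comp ?_ ?_; assumption) | (with_reducible refine Int.comp₂ ?_ ?_ ?_; assumption) | (with_reducible refine Int.comp₃ ?_ ?_ ?_ ?_; assumption) | (with_reducible refine Int.comp₄ ?_ ?_ ?_ ?_ ?_; assumption) | (with_reducible refine IntF.comp ?_ ?_; assumption) | (with_reducible refine IntF.comp₂ ?_ ?_ ?_; assumption) | (with_reducible refine IntF.comp₃ ?_ ?_ ?_ ?_; assumption) | with_reducible apply IntF.pair))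

theorem eq_zero_of_add_eq {a x : INat M} (h : a + x = a) : x = 0 :=
  INat.add_left_cancel' (h.trans (add_zero a).symm)

theorem pr_aux {a b c u : INat M} (h : (a + b + u) * (a + b + u) + c = (a + b) * (a + b) + a) :
    u = 0 := by
  have h1 : a = (a + b + u) * u + (a + b) * u + c := by
    refine (INat.add_left_cancel' (c := (a + b) * (a + b)) ?_).symm
    rw [← h]
    ring
  rcases INat.eq_zero_or_succ u with h2 | ⟨v, rfl⟩
  · exact h2
  · rw [INat.succ_eq] at h1 ⊢
    have h3 : a + ((a + b + (v + 1)) * v + (b + v) + (a + b) * (v + 1) + c + 1) = a := by
      conv_rhs => rw [h1]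
      ring
    have h4 := eq_zero_of_add_eq h3
    rw [← INat.succ_eq] at h4
    exact absurd h4 (INat.succ_ne_zero _)

theorem pr_inj {a b c d : INat M} (h : pr a b = pr c d) : a = c ∧ b = d := by
  have key : ∀ a b c d u : INat M, c + d = a + b + u → pr a b = pr c d → a = c ∧ b = d := by
    intro a b c d u h1 h
    unfold pr at h
    rw [h1] at h
    have h2 := pr_aux h.symm
    subst h2
    rw [add_zero] at h h1
    have h3 := INat.add_left_cancel' h
    refine ⟨h3, ?_⟩
    subst h3
    exact (INat.add_left_cancel' h1).symm
  rcases INat.total (a + b) (c + d) with ⟨u, hu⟩ | ⟨u, hu⟩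
  · exact key a b c d u hu h
  · obtain ⟨h1, h2⟩ := key c d a b u hu h.symm
    exact ⟨h1.symm, h2.symm⟩

theorem le_add_left' (a b : INat M) : a ≤ b + a := by
  refine INat.ind (p := fun b => a ≤ b + a) (by (repeat' (first | with_reducible exact IntF.id | with_reducible exact IntF.fst' | with_reducible exact IntF.snd' | with_reducible exact IntF.const _ | with_reducible exact Int.const _ | assumption | with_reducible apply ZFA.Int.and | with_reducible apply ZFA.Int.or | with_reducible apply ZFA.Int.not | with_reducible apply Int.imp | with_reducible apply Int.iff | with_reducible apply Int.ne | with_reducible apply Int.eq | with_reducible apply Int.mem | with_reducible apply Int.subset | with_reducible apply Int.ltN | with_reducible apply Int.leN | with_reducible_and_instances apply ZFA.Int.le | with_reducible_and_instances apply ZFA.Int.lt | with_reducible apply Int.all | with_reducible apply Int.ex | with_reducible apply IntF.fst | with_reducible apply IntF.snd | with_reducible apply IntF.app | with_reducible apply IntF.inl | with_reducible apply IntF.inr | with_reducible_and_instances apply IntF.mul | with_reducible_and_instances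 apply IntF.inv | with_reducible_and_instances apply IntF.add | with_reducible_and_instances apply IntF.sub | with_reducible_and_instances apply IntF.neg | with_reducible_and_instances apply IntF.smul | with_reducible apply IntF.succ | with_reducible apply IntF.val | with_reducible apply IntF.mk | (with_reducible refine Int.comp ?_ ?_; assumption) | (with_reducible refine Int.comp₂ ?_ ?_ ?_; assumption) | (with_reducible refine Int.comp₃ ?_ ?_ ?_ ?_; assumption) | (with_reducible refine Int.comp₄ ?_ ?_ ?_ ?_ ?_; assumption) | (with_reducible refine IntF.comp ?_ ?_; assumption) | (with_reducible refine IntF.comp₂ ?_ ?_ ?_; assumption) | (with_reducible refine IntF.comp₃ ?_ ?_ ?_ ?_; assumption) | with_reducible apply IntF.pair))) (by rw [zero_add]) ?_ b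
  intro n hn
  rw [INat.succ_add']
  exact hn.trans (INat.le_succ_self _)

theorem le_pr (a b : INat M) : a ≤ pr a b := le_add_left' _ _

end

end Pool.Agent.H525P
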