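import Pool.Agent.H635R2.Perm

/-!
# The three element type, application of permutations, transpositions
-/

namespace Pool.Agent.H525P

open FirstOrder FirstOrder.Language
open Pool.Agent.Helper672 Pool.Agent.Helper672.ZFA Pool.Agent.Helper672.ZFA.H635

universe u

set_option synthInstance.maxSize 2000
set_option linter.unusedSectionVars false

section

variable {M : Type u} [L.Structure M] [hM : IsModel M]

variable (M) in
/-- The numbers 0, 1, 2 in the model. -/
noncomputable def three (i : Fin 3) : INat M :=
  if i = 0 then 0 else if i = 1 then INat.succ 0 else INat.succ (INat.succ 0)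

theorem three_inj : Function.Injective (three M) := by
  have h1 : (0 : INat M) ≠ INat.succ 0 := (INat.succ_ne_zero _).symm
  have h2 : (0 : INat M) ≠ INat.succ (INat.succ 0) := (INat.succ_ne_zero _).symm
  have h3 : INat.succ (0 : INat M) ≠ INat.succ (INat.succ 0) := fun h => h1 (INat.succ_inj h)
  intro i j h
  unfold three at h
  fin_cases i <;> fin_cases j <;> simp_all

theorem int_three_range : Int M (fun a : INat M => ∃ c, three M c = a) := by
  refine Int.congr (p := fun a => a = three M 0 ∨ a = three M 1 ∨ a = three M 2) (by (repeat' (first | with_reducible exact IntF.id | with_reducible exact IntF.fst' | with_reducible exact IntF.snd' | with_reducible exact IntF.const _ | with_reducible exact Int.const _ | assumption | with_reducible apply ZFA.Int.and | with_reducible apply ZFA.Int.or | with_reducible apply ZFA.Int.not | with_reducible apply Int.imp | with_reducible apply Int.iff | with_reducible apply Int.ne | with_reducible apply Int.eq | with_reducible apply Int.mem | with_reducible apply Int.subset | with_reducible apply Int.ltN | with_reducible apply Int.leN | with_reducible_and_instances apply ZFA.Int.le | with_reducible_and_instances apply ZFA.Int.lt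 | with_reducible apply Int.all | with_reducible apply Int.ex | with_reducible apply IntF.fst | with_reducible apply IntF.snd | with_reducible apply IntF.app | with_reducible apply IntF.inl | with_reducible apply IntF.inr | with_reducible_and_instances apply IntF.mul | with_reducible_and_instances apply IntF.inv | with_reducible_and_instances apply IntF.add | with_reducible_and_instances apply IntF.sub | with_reducible_and_instances apply IntF.neg | with_reducible_and_instances apply IntF.smul | with_reducible apply IntF.succ | with_reducible apply IntF.val | with_reducible apply IntF.mk | (with_reducible refine Int.comp ?_ ?_; assumption) | (with_reducible refine Int.comp₂ ?_ ?_ ?_; assumption) | (with_reducible refine Int.comp₃ ?_ ?_ ?_ ?_; assumption) | (with_reducible refine Int.comp₄ ?_ ?_ ?_ ?_ ?_; assumption) | (with_reducible refine IntF.comp ?_ ?_; assumption) | (with_reducible refine IntF.comp₂ ?_ ?_ ?_; assumption) | (with_reducible refine IntF.comp₃ ?_ ?_ ?_ ?_; assumption) | with_reducible apply IntF.pair))) ?_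
  intro a
  constructor
  · rintro (rfl | rfl | rfl)
    · exact ⟨0, rfl⟩
    · exact ⟨1, rfl⟩
    · exact ⟨2, rfl⟩
  · rintro ⟨c, rfl⟩
    fin_cases c
    · exact Or.inl rfl
    · exact Or.inr (Or.inl rfl)
    · exact Or.inr (Or.inr rfl)

noncomputable instance instITyFin3 : ITy M (Fin 3) :=
  ITy.ofInj (three M) three_inj int_three_range

theorem int_three : IntF M (three M) := IntF.ofInj (three M) three_inj int_three_range

section

universe v w

variable {γ : Type v} {δ : Type w} [ITy M γ] [ITy M δ]

theorem Int.fin3 {p : γ → Fin 3 → Prop} (h : ∀ i, Int M (fun c => p c i)) :
    Int M (fun q : γ × Fin 3 => p q.1 q.2) := by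
  have h0 := h 0
  have h1 := h 1
  have h2 := h 2
  have k0 : Int M (fun q : γ × Fin 3 => p q.1 0) := h0.comp IntF.fst'
  have k1 : Int M (fun q : γ × Fin 3 => p q.1 1) := h1.comp IntF.fst'
  have k2 : Int M (fun q : γ × Fin 3 => p q.1 2) := h2.comp IntF.fst'
  refine Int.congr (p := fun q : γ × Fin 3 => (q.2 = 0 ∧ p q.1 0) ∨ (q.2 = 1 ∧ p q.1 1) ∨
    (q.2 = 2 ∧ p q.1 2)) (by (repeat' (first | with_reducible exact IntF.id | with_reducible exact IntF.fst' | with_reducible exact IntF.snd' | with_reducible exact IntF.const _ | with_reducible exact Int.const _ | assumption | with_reducible apply ZFA.Int.and | with_reducible apply ZFA.Int.or | with_reducible apply ZFA.Int.not | with_reducible apply Int.imp | with_reducible apply Int.iff | with_reducible apply Int.ne | with_reducible apply Int.eq | with_reducible apply Int.mem | with_reducible apply Int.subset | with_reducible apply Int.ltN | with_reducible apply Int.leN | with_reducible_and_instances apply ZFA.Int.le | with_reducible_and_instances apply ZFA.Int.lt | with_reducible apply Int.all | with_reducible apply Int.ex | with_reducible apply IntF.fst | with_reducible apply IntF.snd | with_reducible apply IntF.app | with_reducible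 apply IntF.inl | with_reducible apply IntF.inr | with_reducible_and_instances apply IntF.mul | with_reducible_and_instances apply IntF.inv | with_reducible_and_instances apply IntF.add | with_reducible_and_instances apply IntF.sub | with_reducible_and_instances apply IntF.neg | with_reducible_and_instances apply IntF.smul | with_reducible apply IntF.succ | with_reducible apply IntF.val | with_reducible apply IntF.mk | (with_reducible refine Int.comp ?_ ?_; assumption) | (with_reducible refine Int.comp₂ ?_ ?_ ?_; assumption) | (with_reducible refine Int.comp₃ ?_ ?_ ?_ ?_; assumption) | (with_reducible refine Int.comp₄ ?_ ?_ ?_ ?_ ?_; assumption) | (with_reducible refine IntF.comp ?_ ?_; assumption) | (with_reducible refine IntF.comp₂ ?_ ?_ ?_; assumption) | (with_reducible refine IntF.comp₃ ?_ ?_ ?_ ?_; assumption) | with_reducible apply IntF.pair))) ?_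
  rintro ⟨c, i⟩
  fin_cases i <;> simp

theorem IntF.fin3 {f : γ → Fin 3 → δ} (h : ∀ i, IntF M (fun c => f c i)) :
    IntF M (fun q : γ × Fin 3 => f q.1 q.2) := by
  have h0 := h 0
  have h1 := h 1
  have h2 := h 2
  have k0 : IntF M (fun q : γ × Fin 3 => f q.1 0) := h0.comp IntF.fst'
  have k1 : IntF M (fun q : γ × Fin 3 => f q.1 1) := h1.comp IntF.fst'
  have k2 : IntF M (fun q : γ × Fin 3 => f q.1 2) := h2.comp IntF.fst'
  refine IntF.of_rel (r := fun (q : γ × Fin 3) d => (q.2 = 0 ∧ f q.1 0 = d) ∨
    (q.2 = 1 ∧ f q.1 1 = d) ∨ (q.2 = 2 ∧ f q.1 2 = d)) ?_ ?_
  · have e0 : IntF M (fun z : (γ × Fin 3) × δ => f z.1.1 0) := k0.comp IntF.fst'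
    have e1 : IntF M (fun z : (γ × Fin 3) × δ => f z.1.1 1) := k1.comp IntF.fst'
    have e2 : IntF M (fun z : (γ × Fin 3) × δ => f z.1.1 2) := k2.comp IntF.fst'
    (repeat' (first | with_reducible exact IntF.id | with_reducible exact IntF.fst' | with_reducible exact IntF.snd' | with_reducible exact IntF.const _ | with_reducible exact Int.const _ | assumption | with_reducible apply ZFA.Int.and | with_reducible apply ZFA.Int.or | with_reducible apply ZFA.Int.not | with_reducible apply Int.imp | with_reducible apply Int.iff | with_reducible apply Int.ne | with_reducible apply Int.eq | with_reducible apply Int.mem | with_reducible apply Int.subset | with_reducible apply Int.ltN | with_reducible apply Int.leN | with_reducible_and_instances apply ZFA.Int.le | with_reducible_and_instances apply ZFA.Int.lt | with_reducible apply Int.all | with_reducible apply Int.ex | with_reducible apply IntF.fst | with_reducible apply IntF.snd | with_reducible apply IntF.app | with_reducible apply IntF.inl | with_reducible apply IntF.inr | with_reducible_and_instances apply IntF.mul | with_reducible_and_instances apply IntF.inv | with_reducible_and_instances apply IntF.add | with_reducible_and_instances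 apply IntF.sub | with_reducible_and_instances apply IntF.neg | with_reducible_and_instances apply IntF.smul | with_reducible apply IntF.succ | with_reducible apply IntF.val | with_reducible apply IntF.mk | (with_reducible refine Int.comp ?_ ?_; assumption) | (with_reducible refine Int.comp₂ ?_ ?_ ?_; assumption) | (with_reducible refine Int.comp₃ ?_ ?_ ?_ ?_; assumption) | (with_reducible refine Int.comp₄ ?_ ?_ ?_ ?_ ?_; assumption) | (with_reducible refine IntF.comp ?_ ?_; assumption) | (with_reducible refine IntF.comp₂ ?_ ?_ ?_; assumption) | (with_reducible refine IntF.comp₃ ?_ ?_ ?_ ?_; assumption) | with_reducible apply IntF.pair))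
  · rintro ⟨c, i⟩ d
    fin_cases i <;> simp

theorem IntF.of_fin3 (f : Fin 3 → δ) : IntF M f := by
  have h : IntF M (fun q : PUnit.{1} × Fin 3 => f q.2) :=
    IntF.fin3 (γ := PUnit.{1}) (f := fun _ i => f i) (fun i => IntF.const _)
  exact h.comp (IntF.pair (IntF.const PUnit.unit) IntF.id)

end

/-! ### Application of permutations -/

section

variable {X : Type u} [ITy M X]

/-- Application. -/
def ap (σ : IPerm M X) (x : X) : X := σ.1.1 x

/-- Application of the inverse. -/
def ai (σ : IPerm M X) (x : X) : X := σ.1.2 x

theorem int_ap : IntF M (fun q : IPerm M X × X => ap q.1 q.2) := by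
  unfold ap
  (repeat' (first | with_reducible exact IntF.id | with_reducible exact IntF.fst' | with_reducible exact IntF.snd' | with_reducible exact IntF.const _ | with_reducible exact Int.const _ | assumption | with_reducible apply ZFA.Int.and | with_reducible apply ZFA.Int.or | with_reducible apply ZFA.Int.not | with_reducible apply Int.imp | with_reducible apply Int.iff | with_reducible apply Int.ne | with_reducible apply Int.eq | with_reducible apply Int.mem | with_reducible apply Int.subset | with_reducible apply Int.ltN | with_reducible apply Int.leN | with_reducible_and_instances apply ZFA.Int.le | with_reducible_and_instances apply ZFA.Int.lt | with_reducible apply Int.all | with_reducible apply Int.ex | with_reducible apply IntF.fst | with_reducible apply IntF.snd | with_reducible apply IntF.app | with_reducible apply IntF.inl | with_reducible apply IntF.inr | with_reducible_and_instances apply IntF.mul | with_reducible_and_instances apply IntF.inv | with_reducible_and_instances apply IntF.add | with_reducible_and_instances apply IntF.sub | with_reducible_and_instances apply IntF.neg | with_reducible_and_instances apply IntF.smul | with_reducible apply IntF.succ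 | with_reducible apply IntF.val | with_reducible apply IntF.mk | (with_reducible refine Int.comp ?_ ?_; assumption) | (with_reducible refine Int.comp₂ ?_ ?_ ?_; assumption) | (with_reducible refine Int.comp₃ ?_ ?_ ?_ ?_; assumption) | (with_reducible refine Int.comp₄ ?_ ?_ ?_ ?_ ?_; assumption) | (with_reducible refine IntF.comp ?_ ?_; assumption) | (with_reducible refine IntF.comp₂ ?_ ?_ ?_; assumption) | (with_reducible refine IntF.comp₃ ?_ ?_ ?_ ?_; assumption) | with_reducible apply IntF.pair))

theorem int_ai : IntF M (fun q : IPerm M X × X => ai q.1 q.2) := by
  unfold ai
  (repeat' (first | with_reducible exact IntF.id | with_reducible exact IntF.fst' | with_reducible exact IntF.snd' | with_reducible exact IntF.const _ | with_reducible exact Int.const _ | assumption | with_reducible apply ZFA.Int.and | with_reducible apply ZFA.Int.or | with_reducible apply ZFA.Int.not | with_reducible apply Int.imp | with_reducible apply Int.iff | with_reducible apply Int.ne | with_reducible apply Int.eq | with_reducible apply Int.mem | with_reducible apply Int.subset | with_reducible apply Int.ltN | with_reducible apply Int.leN | with_reducible_and_instances apply ZFA.Int.le |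 with_reducible_and_instances apply ZFA.Int.lt | with_reducible apply Int.all | with_reducible apply Int.ex | with_reducible apply IntF.fst | with_reducible apply IntF.snd | with_reducible apply IntF.app | with_reducible apply IntF.inl | with_reducible apply IntF.inr | with_reducible_and_instances apply IntF.mul | with_reducible_and_instances apply IntF.inv | with_reducible_and_instances apply IntF.add | with_reducible_and_instances apply IntF.sub | with_reducible_and_instances apply IntF.neg | with_reducible_and_instances apply IntF.smul | with_reducible apply IntF.succ | with_reducible apply IntF.val | with_reducible apply IntF.mk | (with_reducible refine Int.comp ?_ ?_; assumption) | (with_reducible refine Int.comp₂ ?_ ?_ ?_; assumption) | (with_reducible refine Int.comp₃ ?_ ?_ ?_ ?_; assumption) | (with_reducible refine Int.comp₄ ?_ ?_ ?_ ?_ ?_; assumption) | (with_reducible refine IntF.comp ?_ ?_; assumption) | (with_reducible refine IntF.comp₂ ?_ ?_ ?_; assumption) | (with_reducible refine IntF.comp₃ ?_ ?_ ?_ ?_; assumption) | with_reducible apply IntF.pair))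

@[simp] theorem ap_ai (σ : IPerm M X) (x : X) : ap σ (ai σ x) = x := σ.2.1 x
@[simp] theorem ai_ap (σ : IPerm M X) (x : X) : ai σ (ap σ x) = x := σ.2.2 x
@[simp] theorem ap_inv (σ : IPerm M X) (x : X) : ap σ⁻¹ x = ai σ x := rfl
@[simp] theorem ai_inv (σ : IPerm M X) (x : X) : ai σ⁻¹ x = ap σ x := rfl
@[simp] theorem ap_mul (σ τ : IPerm M X) (x : X) : ap (σ * τ) x = ap σ (ap τ x) :=
  IPerm.mul_apply _ _ _
@[simp] theorem ai_mul (σ τ : IPerm M X) (x : X) : ai (σ * τ) x = ai τ (ai σ x) :=
  IPerm.mul_apply₂ _ _ _
@[simp] theorem ap_one (x : X) : ap (1 : IPerm M X) x = x := IPerm.one_apply _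
@[simp] theorem ai_one (x : X) : ai (1 : IPerm M X) x = x := IPerm.one_apply₂ _
theorem ap_inj (σ : IPerm M X) {x y : X} (h : ap σ x = ap σ y) : x = y := by
  rw [← ai_ap σ x, h, ai_ap]
theorem ai_inj (σ : IPerm M X) {x y : X} (h : ai σ x = ai σ y) : x = y := by
  rw [← ap_ai σ x, h, ap_ai]
theorem ap_eq_iff (σ : IPerm M X) {x y : X} : ap σ x = y ↔ x = ai σ y :=
  ⟨fun h => by rw [← h, ai_ap], fun h => by rw [h, ap_ai]⟩
theorem ext_ap {σ τ : IPerm M X} (h : ∀ x, ap σ x = ap τ x) : σ = τ := IPerm.ext' h

/-- Permutations from mutually inverse internal functions. -/
noncomputable def mkP (f g : X → X) (hf : IntF M f) (hg : IntF M g) (h1 : ∀ x, f (g x) = x)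
    (h2 : ∀ x, g (f x) = x) : IPerm M X :=
  ⟨(lam M f, lam M g), by
    constructor
    · intro a
      simp only
      rw [lam_apply hg, lam_apply hf, h1]
    · intro a
      simp only
      rw [lam_apply hf, lam_apply hg, h2]⟩

theorem ap_mkP {f g : X → X} {hf : IntF M f} {hg : IntF M g} {h1 : ∀ x, f (g x) = x}
    {h2 : ∀ x, g (f x) = x} (x : X) : ap (mkP f g hf hg h1 h2) x = f x := lam_apply hf x

theorem ai_mkP {f g : X → X} {hf : IntF M f} {hg : IntF M g} {h1 : ∀ x, f (g x) = x}
    {h2 : ∀ x, g (f x) = x} (x : X) : ai (mkP f g hf hg h1 h2) x = g x := lam_apply hg x

open Classical in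
/-- Exchange of two elements. -/
noncomputable def swf (x y z : X) : X := if z = x then y else if z = y then x else z

theorem int_swf : IntF M (fun q : (X × X) × X => swf q.1.1 q.1.2 q.2) := by
  unfold swf
  refine IntF.ite (by (repeat' (first | with_reducible exact IntF.id | with_reducible exact IntF.fst' | with_reducible exact IntF.snd' | with_reducible exact IntF.const _ | with_reducible exact Int.const _ | assumption | with_reducible apply ZFA.Int.and | with_reducible apply ZFA.Int.or | with_reducible apply ZFA.Int.not | with_reducible apply Int.imp | with_reducible apply Int.iff | with_reducible apply Int.ne | with_reducible apply Int.eq | with_reducible apply Int.mem | with_reducible apply Int.subset | with_reducible apply Int.ltN | with_reducible apply Int.leN | with_reducible_and_instances apply ZFA.Int.le | with_reducible_and_instances apply ZFA.Int.lt | with_reducible apply Int.all | with_reducible apply Int.ex | with_reducible apply IntF.fst | with_reducible apply IntF.snd | with_reducible apply IntF.app | with_reducible apply IntF.inl | with_reducible apply IntF.inr | with_reducible_and_instances apply IntF.mul | with_reducible_and_instances apply IntF.inv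 | with_reducible_and_instances apply IntF.add | with_reducible_and_instances apply IntF.sub | with_reducible_and_instances apply IntF.neg | with_reducible_and_instances apply IntF.smul | with_reducible apply IntF.succ | with_reducible apply IntF.val | with_reducible apply IntF.mk | (with_reducible refine Int.comp ?_ ?_; assumption) | (with_reducible refine Int.comp₂ ?_ ?_ ?_; assumption) | (with_reducible refine Int.comp₃ ?_ ?_ ?_ ?_; assumption) | (with_reducible refine Int.comp₄ ?_ ?_ ?_ ?_ ?_; assumption) | (with_reducible refine IntF.comp ?_ ?_; assumption) | (with_reducible refine IntF.comp₂ ?_ ?_ ?_; assumption) | (with_reducible refine IntF.comp₃ ?_ ?_ ?_ ?_; assumption) | with_reducible apply IntF.pair))) (by (repeat' (first | with_reducible exact IntF.id | with_reducible exact IntF.fst' | with_reducible exact IntF.snd' | with_reducible exact IntF.const _ | with_reducible exact Int.const _ | assumption | with_reducible apply ZFA.Int.and | with_reducible apply ZFA.Int.or | with_reducible apply ZFA.Int.not | with_reducible apply Int.imp | with_reducible apply Int.iff | with_reducible apply Int.ne | with_reducible apply Int.eq | with_reducible apply Int.mem | with_reducible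 apply Int.subset | with_reducible apply Int.ltN | with_reducible apply Int.leN | with_reducible_and_instances apply ZFA.Int.le | with_reducible_and_instances apply ZFA.Int.lt | with_reducible apply Int.all | with_reducible apply Int.ex | with_reducible apply IntF.fst | with_reducible apply IntF.snd | with_reducible apply IntF.app | with_reducible apply IntF.inl | with_reducible apply IntF.inr | with_reducible_and_instances apply IntF.mul | with_reducible_and_instances apply IntF.inv | with_reducible_and_instances apply IntF.add | with_reducible_and_instances apply IntF.sub | with_reducible_and_instances apply IntF.neg | with_reducible_and_instances apply IntF.smul | with_reducible apply IntF.succ | with_reducible apply IntF.val | with_reducible apply IntF.mk | (with_reducible refine Int.comp ?_ ?_; assumption) | (with_reducible refine Int.comp₂ ?_ ?_ ?_; assumption) | (with_reducible refine Int.comp₃ ?_ ?_ ?_ ?_; assumption) | (with_reducible refine Int.comp₄ ?_ ?_ ?_ ?_ ?_; assumption) | (with_reducible refine IntF.comp ?_ ?_; assumption) | (with_reducible refine IntF.comp₂ ?_ ?_ ?_; assumption) | (with_reducible refine IntF.comp₃ ?_ ?_ ?_ ?_; assumption) | with_reducible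 apply IntF.pair))) (IntF.ite (by (repeat' (first | with_reducible exact IntF.id | with_reducible exact IntF.fst' | with_reducible exact IntF.snd' | with_reducible exact IntF.const _ | with_reducible exact Int.const _ | assumption | with_reducible apply ZFA.Int.and | with_reducible apply ZFA.Int.or | with_reducible apply ZFA.Int.not | with_reducible apply Int.imp | with_reducible apply Int.iff | with_reducible apply Int.ne | with_reducible apply Int.eq | with_reducible apply Int.mem | with_reducible apply Int.subset | with_reducible apply Int.ltN | with_reducible apply Int.leN | with_reducible_and_instances apply ZFA.Int.le | with_reducible_and_instances apply ZFA.Int.lt | with_reducible apply Int.all | with_reducible apply Int.ex | with_reducible apply IntF.fst | with_reducible apply IntF.snd | with_reducible apply IntF.app | with_reducible apply IntF.inl | with_reducible apply IntF.inr | with_reducible_and_instances apply IntF.mul | with_reducible_and_instances apply IntF.inv | with_reducible_and_instances apply IntF.add | with_reducible_and_instances apply IntF.sub | with_reducible_and_instances apply IntF.neg | with_reducible_and_instances apply IntF.smul | with_reducible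 apply IntF.succ | with_reducible apply IntF.val | with_reducible apply IntF.mk | (with_reducible refine Int.comp ?_ ?_; assumption) | (with_reducible refine Int.comp₂ ?_ ?_ ?_; assumption) | (with_reducible refine Int.comp₃ ?_ ?_ ?_ ?_; assumption) | (with_reducible refine Int.comp₄ ?_ ?_ ?_ ?_ ?_; assumption) | (with_reducible refine IntF.comp ?_ ?_; assumption) | (with_reducible refine IntF.comp₂ ?_ ?_ ?_; assumption) | (with_reducible refine IntF.comp₃ ?_ ?_ ?_ ?_; assumption) | with_reducible apply IntF.pair))) (by (repeat' (first | with_reducible exact IntF.id | with_reducible exact IntF.fst' | with_reducible exact IntF.snd' | with_reducible exact IntF.const _ | with_reducible exact Int.const _ | assumption | with_reducible apply ZFA.Int.and | with_reducible apply ZFA.Int.or | with_reducible apply ZFA.Int.not | with_reducible apply Int.imp | with_reducible apply Int.iff | with_reducible apply Int.ne | with_reducible apply Int.eq | with_reducible apply Int.mem | with_reducible apply Int.subset | with_reducible apply Int.ltN | with_reducible apply Int.leN | with_reducible_and_instances apply ZFA.Int.le | with_reducible_and_instances apply ZFA.Int.lt | with_reducible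 apply Int.all | with_reducible apply Int.ex | with_reducible apply IntF.fst | with_reducible apply IntF.snd | with_reducible apply IntF.app | with_reducible apply IntF.inl | with_reducible apply IntF.inr | with_reducible_and_instances apply IntF.mul | with_reducible_and_instances apply IntF.inv | with_reducible_and_instances apply IntF.add | with_reducible_and_instances apply IntF.sub | with_reducible_and_instances apply IntF.neg | with_reducible_and_instances apply IntF.smul | with_reducible apply IntF.succ | with_reducible apply IntF.val | with_reducible apply IntF.mk | (with_reducible refine Int.comp ?_ ?_; assumption) | (with_reducible refine Int.comp₂ ?_ ?_ ?_; assumption) | (with_reducible refine Int.comp₃ ?_ ?_ ?_ ?_; assumption) | (with_reducible refine Int.comp₄ ?_ ?_ ?_ ?_ ?_; assumption) | (with_reducible refine IntF.comp ?_ ?_; assumption) | (with_reducible refine IntF.comp₂ ?_ ?_ ?_; assumption) | (with_reducible refine IntF.comp₃ ?_ ?_ ?_ ?_; assumption) | with_reducible apply IntF.pair))) (by (repeat' (first | with_reducible exact IntF.id | with_reducible exact IntF.fst' | with_reducible exact IntF.snd' | with_reducible exact IntF.const _ | with_reducible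 exact Int.const _ | assumption | with_reducible apply ZFA.Int.and | with_reducible apply ZFA.Int.or | with_reducible apply ZFA.Int.not | with_reducible apply Int.imp | with_reducible apply Int.iff | with_reducible apply Int.ne | with_reducible apply Int.eq | with_reducible apply Int.mem | with_reducible apply Int.subset | with_reducible apply Int.ltN | with_reducible apply Int.leN | with_reducible_and_instances apply ZFA.Int.le | with_reducible_and_instances apply ZFA.Int.lt | with_reducible apply Int.all | with_reducible apply Int.ex | with_reducible apply IntF.fst | with_reducible apply IntF.snd | with_reducible apply IntF.app | with_reducible apply IntF.inl | with_reducible apply IntF.inr | with_reducible_and_instances apply IntF.mul | with_reducible_and_instances apply IntF.inv | with_reducible_and_instances apply IntF.add | with_reducible_and_instances apply IntF.sub | with_reducible_and_instances apply IntF.neg | with_reducible_and_instances apply IntF.smul | with_reducible apply IntF.succ | with_reducible apply IntF.val | with_reducible apply IntF.mk | (with_reducible refine Int.comp ?_ ?_; assumption) | (with_reducible refine Int.comp₂ ?_ ?_ ?_; assumption) |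 (with_reducible refine Int.comp₃ ?_ ?_ ?_ ?_; assumption) | (with_reducible refine Int.comp₄ ?_ ?_ ?_ ?_ ?_; assumption) | (with_reducible refine IntF.comp ?_ ?_; assumption) | (with_reducible refine IntF.comp₂ ?_ ?_ ?_; assumption) | (with_reducible refine IntF.comp₃ ?_ ?_ ?_ ?_; assumption) | with_reducible apply IntF.pair))))

theorem swf_left (x y : X) : swf x y x = y := by simp [swf]

theorem swf_right (x y : X) : swf x y y = x := by
  by_cases h : y = x
  · simp [swf, h]
  · simp [swf, h]

theorem swf_of_ne {x y z : X} (h1 : z ≠ x) (h2 : z ≠ y) : swf x y z = z := by simp [swf, h1, h2]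

theorem swf_swf (x y z : X) : swf x y (swf x y z) = z := by
  by_cases h1 : z = x
  · subst h1
    rw [swf_left, swf_right]
  · by_cases h2 : z = y
    · subst h2
      rw [swf_right, swf_left]
    · rw [swf_of_ne h1 h2, swf_of_ne h1 h2]

/-- The transposition of two elements. -/
noncomputable def isw (x y : X) : IPerm M X :=
  mkP (swf x y) (swf x y) (IntF.slice (f := fun q : X × X => swf q.1 q.2) int_swf (x, y))
    (IntF.slice (f := fun q : X × X => swf q.1 q.2) int_swf (x, y)) (swf_swf x y) (swf_swf x y)

theorem ap_isw (x y z : X) : ap (isw (M := M) x y) z = swf x y z := ap_mkP z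

theorem int_isw : IntF M (fun q : X × X => isw (M := M) q.1 q.2) := by
  have h1 : IntF M (fun q : (X × X) × X => swf q.1.1 q.1.2 q.2) := int_swf
  have h2 : IntF M (fun q : IPerm M X × X => ap q.1 q.2) := int_ap
  refine IntF.of_rel (r := fun (q : X × X) (σ : IPerm M X) => ∀ z, ap σ z = swf q.1 q.2 z)
    ?_ ?_
  · refine Int.all (Int.eq ?_ ?_)
    · exact h2.comp (IntF.pair (IntF.snd IntF.fst') IntF.snd')
    · exact h1.comp (IntF.pair (IntF.fst IntF.fst') IntF.snd')
  · intro q σ
    constructor
    · intro h
      exact ext_ap fun z => by rw [ap_isw, h]
    · rintro rfl z
      exact ap_isw _ _ _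

end

end

end Pool.Agent.H525P
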