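import Pool.Agent.H525R3.Sys

/-!
# Splitting off the first column, lifting permutations, cycles
-/

namespace Pool.Agent.H525C

open FirstOrder FirstOrder.Language
open Pool.Agent.Helper672.ZFA Pool.Agent.Helper672.ZFA.H635
open Pool.Agent.Helper672.Plain (LSet)

universe u

set_option synthInstance.maxSize 2000
set_option linter.unusedSectionVars false

section

variable {M : Type u} [L.Structure M] [hM : IsModel M]

/-! ### The first column and the others -/

theorem int_tl1 (p : PC M) : Int M (fun c : INat M × INat M => (c.1.succ, c.2) ∈ p.1.1) := by (repeat' (first | with_reducible exact IntF.id | with_reducible exact IntF.fst' | with_reducible exact IntF.snd' | with_reducible exact IntF.const _ | with_reducible exact Int.const _ | assumption | with_reducible apply Int.and | with_reducible apply Int.or | with_reducible apply Int.not | with_reducible apply Int.imp | with_reducible apply Int.iff | with_reducible apply Int.ne | with_reducible apply Int.eq | with_reducible apply Int.mem | with_reducible apply Int.subset | with_reducible apply Int.ltN | with_reducible apply Int.leN | with_reducible_and_instances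 apply Int.le | with_reducible_and_instances apply Int.lt | with_reducible apply Int.all | with_reducible apply Int.ex | with_reducible apply IntF.fst | with_reducible apply IntF.snd | with_reducible apply IntF.app | with_reducible apply IntF.inl | with_reducible apply IntF.inr | with_reducible_and_instances apply IntF.mul | with_reducible_and_instances apply IntF.inv | with_reducible_and_instances apply IntF.add | with_reducible_and_instances apply IntF.sub | with_reducible_and_instances apply IntF.neg | with_reducible_and_instances apply IntF.smul | with_reducible apply IntF.succ | with_reducible apply IntF.val | with_reducible apply IntF.mk | (with_reducible refine Int.comp ?_ ?_; assumption) | (with_reducible refine Int.comp₂ ?_ ?_ ?_; assumption) | (with_reducible refine Int.comp₃ ?_ ?_ ?_ ?_; assumption) | (with_reducible refine Int.comp₄ ?_ ?_ ?_ ?_ ?_; assumption) | (with_reducible refine IntF.comp ?_ ?_; assumption) | (with_reducible refine IntF.comp₂ ?_ ?_ ?_; assumption) | (with_reducible refine IntF.comp₃ ?_ ?_ ?_ ?_; assumption) | with_reducible apply IntF.pair))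
theorem int_tl2 (p : PC M) : Int M (fun c : INat M × INat M => (c.1.succ, c.2) ∈ p.1.2) := by (repeat' (first | with_reducible exact IntF.id | with_reducible exact IntF.fst' | with_reducible exact IntF.snd' | with_reducible exact IntF.const _ | with_reducible exact Int.const _ | assumption | with_reducible apply Int.and | with_reducible apply Int.or | with_reducible apply Int.not | with_reducible apply Int.imp | with_reducible apply Int.iff | with_reducible apply Int.ne | with_reducible apply Int.eq | with_reducible apply Int.mem | with_reducible apply Int.subset | with_reducible apply Int.ltN | with_reducible apply Int.leN | with_reducible_and_instances apply Int.le | with_reducible_and_instances apply Int.lt | with_reducible apply Int.all | with_reducible apply Int.ex | with_reducible apply IntF.fst | with_reducible apply IntF.snd | with_reducible apply IntF.app | with_reducible apply IntF.inl | with_reducible apply IntF.inr | with_reducible_and_instances apply IntF.mul | with_reducible_and_instances apply IntF.inv | with_reducible_and_instances apply IntF.add | with_reducible_and_instances apply IntF.sub | with_reducible_and_instances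 apply IntF.neg | with_reducible_and_instances apply IntF.smul | with_reducible apply IntF.succ | with_reducible apply IntF.val | with_reducible apply IntF.mk | (with_reducible refine Int.comp ?_ ?_; assumption) | (with_reducible refine Int.comp₂ ?_ ?_ ?_; assumption) | (with_reducible refine Int.comp₃ ?_ ?_ ?_ ?_; assumption) | (with_reducible refine Int.comp₄ ?_ ?_ ?_ ?_ ?_; assumption) | (with_reducible refine IntF.comp ?_ ?_; assumption) | (with_reducible refine IntF.comp₂ ?_ ?_ ?_; assumption) | (with_reducible refine IntF.comp₃ ?_ ?_ ?_ ?_; assumption) | with_reducible apply IntF.pair))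

/-- The columns except the first one, shifted. -/
noncomputable def tl (p : PC M) : PC M :=
  mkC (fun c => (c.1.succ, c.2) ∈ p.1.1) (fun c => (c.1.succ, c.2) ∈ p.1.2) (int_tl1 p) (int_tl2 p)
    (fun _ => p.2.1 _) (by
      obtain ⟨-, n, hn⟩ := p.2
      refine ⟨n, fun c hc => ?_⟩
      obtain ⟨h1, h2⟩ := hn _ hc
      exact ⟨(INat.lt_succ_self _).trans h1, h2⟩)

theorem mem_tl1' {p : PC M} {c : INat M × INat M} :
    c ∈ (tl p).1.1 ↔ (c.1.succ, c.2) ∈ p.1.1 := mem_mkC_fst
theorem mem_tl2' {p : PC M} {c : INat M × INat M} :
    c ∈ (tl p).1.2 ↔ (c.1.succ, c.2) ∈ p.1.2 := mem_mkC_snd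

theorem mem_tl1 {p : PC M} {i k : INat M} : (i, k) ∈ (tl p).1.1 ↔ (i.succ, k) ∈ p.1.1 :=
  mem_mkC_fst
theorem mem_tl2 {p : PC M} {i k : INat M} : (i, k) ∈ (tl p).1.2 ↔ (i.succ, k) ∈ p.1.2 :=
  mem_mkC_snd

theorem int_hd1 (p : PC M) : Int M (fun c : INat M => ((0 : INat M), c) ∈ p.1.1) := by (repeat' (first | with_reducible exact IntF.id | with_reducible exact IntF.fst' | with_reducible exact IntF.snd' | with_reducible exact IntF.const _ | with_reducible exact Int.const _ | assumption | with_reducible apply Int.and | with_reducible apply Int.or | with_reducible apply Int.not | with_reducible apply Int.imp | with_reducible apply Int.iff | with_reducible apply Int.ne | with_reducible apply Int.eq | with_reducible apply Int.mem | with_reducible apply Int.subset | with_reducible apply Int.ltN | with_reducible apply Int.leN | with_reducible_and_instances apply Int.le | with_reducible_and_instances apply Int.lt | with_reducible apply Int.all | with_reducible apply Int.ex | with_reducible apply IntF.fst | with_reducible apply IntF.snd | with_reducible apply IntF.app | with_reducible apply IntF.inl | with_reducible apply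 IntF.inr | with_reducible_and_instances apply IntF.mul | with_reducible_and_instances apply IntF.inv | with_reducible_and_instances apply IntF.add | with_reducible_and_instances apply IntF.sub | with_reducible_and_instances apply IntF.neg | with_reducible_and_instances apply IntF.smul | with_reducible apply IntF.succ | with_reducible apply IntF.val | with_reducible apply IntF.mk | (with_reducible refine Int.comp ?_ ?_; assumption) | (with_reducible refine Int.comp₂ ?_ ?_ ?_; assumption) | (with_reducible refine Int.comp₃ ?_ ?_ ?_ ?_; assumption) | (with_reducible refine Int.comp₄ ?_ ?_ ?_ ?_ ?_; assumption) | (with_reducible refine IntF.comp ?_ ?_; assumption) | (with_reducible refine IntF.comp₂ ?_ ?_ ?_; assumption) | (with_reducible refine IntF.comp₃ ?_ ?_ ?_ ?_; assumption) | with_reducible apply IntF.pair))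
theorem int_hd2 (p : PC M) : Int M (fun c : INat M => ((0 : INat M), c) ∈ p.1.2) := by (repeat' (first | with_reducible exact IntF.id | with_reducible exact IntF.fst' | with_reducible exact IntF.snd' | with_reducible exact IntF.const _ | with_reducible exact Int.const _ | assumption | with_reducible apply Int.and | with_reducible apply Int.or | with_reducible apply Int.not | with_reducible apply Int.imp | with_reducible apply Int.iff | with_reducible apply Int.ne | with_reducible apply Int.eq | with_reducible apply Int.mem | with_reducible apply Int.subset | with_reducible apply Int.ltN | with_reducible apply Int.leN | with_reducible_and_instances apply Int.le | with_reducible_and_instances apply Int.lt | with_reducible apply Int.all | with_reducible apply Int.ex | with_reducible apply IntF.fst | with_reducible apply IntF.snd | with_reducible apply IntF.app | with_reducible apply IntF.inl | with_reducible apply IntF.inr | with_reducible_and_instances apply IntF.mul | with_reducible_and_instances apply IntF.inv | with_reducible_and_instances apply IntF.add | with_reducible_and_instances apply IntF.sub | with_reducible_and_instances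 apply IntF.neg | with_reducible_and_instances apply IntF.smul | with_reducible apply IntF.succ | with_reducible apply IntF.val | with_reducible apply IntF.mk | (with_reducible refine Int.comp ?_ ?_; assumption) | (with_reducible refine Int.comp₂ ?_ ?_ ?_; assumption) | (with_reducible refine Int.comp₃ ?_ ?_ ?_ ?_; assumption) | (with_reducible refine Int.comp₄ ?_ ?_ ?_ ?_ ?_; assumption) | (with_reducible refine IntF.comp ?_ ?_; assumption) | (with_reducible refine IntF.comp₂ ?_ ?_ ?_; assumption) | (with_reducible refine IntF.comp₃ ?_ ?_ ?_ ?_; assumption) | with_reducible apply IntF.pair))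

/-- The first column. -/
noncomputable def hd (p : PC M) : C0 M :=
  mkC0 (fun c => (0, c) ∈ p.1.1) (fun c => (0, c) ∈ p.1.2) (int_hd1 p) (int_hd2 p)
    (fun _ => p.2.1 _) (by
      obtain ⟨-, n, hn⟩ := p.2
      exact ⟨n, fun c hc => (hn _ hc).2⟩)

theorem mem_hd1 {p : PC M} {k : INat M} : k ∈ (hd p).1.1 ↔ (0, k) ∈ p.1.1 := mem_mkC0_fst
theorem mem_hd2 {p : PC M} {k : INat M} : k ∈ (hd p).1.2 ↔ (0, k) ∈ p.1.2 := mem_mkC0_snd

theorem int_am1 (p : PC M) (c : C0 M) : Int M (fun x : INat M × INat M =>
    (∃ j, x.1 = INat.succ j ∧ (j, x.2) ∈ p.1.1) ∨ (x.1 = 0 ∧ x.2 ∈ c.1.1)) := by (repeat' (first | with_reducible exact IntF.id | with_reducible exact IntF.fst' | with_reducible exact IntF.snd' | with_reducible exact IntF.const _ | with_reducible exact Int.const _ | assumption | with_reducible apply Int.and | with_reducible apply Int.or | with_reducible apply Int.not | with_reducible apply Int.imp | with_reducible apply Int.iff | with_reducible apply Int.ne | with_reducible apply Int.eq | with_reducible apply Int.mem | with_reducible apply Int.subset | with_reducible apply Int.ltN | with_reducible apply Int.leN | with_reducible_and_instances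 apply Int.le | with_reducible_and_instances apply Int.lt | with_reducible apply Int.all | with_reducible apply Int.ex | with_reducible apply IntF.fst | with_reducible apply IntF.snd | with_reducible apply IntF.app | with_reducible apply IntF.inl | with_reducible apply IntF.inr | with_reducible_and_instances apply IntF.mul | with_reducible_and_instances apply IntF.inv | with_reducible_and_instances apply IntF.add | with_reducible_and_instances apply IntF.sub | with_reducible_and_instances apply IntF.neg | with_reducible_and_instances apply IntF.smul | with_reducible apply IntF.succ | with_reducible apply IntF.val | with_reducible apply IntF.mk | (with_reducible refine Int.comp ?_ ?_; assumption) | (with_reducible refine Int.comp₂ ?_ ?_ ?_; assumption) | (with_reducible refine Int.comp₃ ?_ ?_ ?_ ?_; assumption) | (with_reducible refine Int.comp₄ ?_ ?_ ?_ ?_ ?_; assumption) | (with_reducible refine IntF.comp ?_ ?_; assumption) | (with_reducible refine IntF.comp₂ ?_ ?_ ?_; assumption) | (with_reducible refine IntF.comp₃ ?_ ?_ ?_ ?_; assumption) | with_reducible apply IntF.pair))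
theorem int_am2 (p : PC M) (c : C0 M) : Int M (fun x : INat M × INat M =>
    (∃ j, x.1 = INat.succ j ∧ (j, x.2) ∈ p.1.2) ∨ (x.1 = 0 ∧ x.2 ∈ c.1.2)) := by (repeat' (first | with_reducible exact IntF.id | with_reducible exact IntF.fst' | with_reducible exact IntF.snd' | with_reducible exact IntF.const _ | with_reducible exact Int.const _ | assumption | with_reducible apply Int.and | with_reducible apply Int.or | with_reducible apply Int.not | with_reducible apply Int.imp | with_reducible apply Int.iff | with_reducible apply Int.ne | with_reducible apply Int.eq | with_reducible apply Int.mem | with_reducible apply Int.subset | with_reducible apply Int.ltN | with_reducible apply Int.leN | with_reducible_and_instances apply Int.le | with_reducible_and_instances apply Int.lt | with_reducible apply Int.all | with_reducible apply Int.ex | with_reducible apply IntF.fst | with_reducible apply IntF.snd | with_reducible apply IntF.app | with_reducible apply IntF.inl | with_reducible apply IntF.inr | with_reducible_and_instances apply IntF.mul | with_reducible_and_instances apply IntF.inv | with_reducible_and_instances apply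 IntF.add | with_reducible_and_instances apply IntF.sub | with_reducible_and_instances apply IntF.neg | with_reducible_and_instances apply IntF.smul | with_reducible apply IntF.succ | with_reducible apply IntF.val | with_reducible apply IntF.mk | (with_reducible refine Int.comp ?_ ?_; assumption) | (with_reducible refine Int.comp₂ ?_ ?_ ?_; assumption) | (with_reducible refine Int.comp₃ ?_ ?_ ?_ ?_; assumption) | (with_reducible refine Int.comp₄ ?_ ?_ ?_ ?_ ?_; assumption) | (with_reducible refine IntF.comp ?_ ?_; assumption) | (with_reducible refine IntF.comp₂ ?_ ?_ ?_; assumption) | (with_reducible refine IntF.comp₃ ?_ ?_ ?_ ?_; assumption) | with_reducible apply IntF.pair))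

/-- The condition with given first column and other columns. -/
noncomputable def am (p : PC M) (c : C0 M) : PC M :=
  mkC (fun x => (∃ j, x.1 = INat.succ j ∧ (j, x.2) ∈ p.1.1) ∨ (x.1 = 0 ∧ x.2 ∈ c.1.1))
    (fun x => (∃ j, x.1 = INat.succ j ∧ (j, x.2) ∈ p.1.2) ∨ (x.1 = 0 ∧ x.2 ∈ c.1.2))
    (int_am1 p c) (int_am2 p c) (by
      rintro x (⟨j, h1, h2⟩ | ⟨h1, h2⟩) (⟨j', h1', h2'⟩ | ⟨h1', h2'⟩)
      · obtain rfl := INat.succ_inj (h1.symm.trans h1')
        exact p.2.1 _ h2 h2'
      · exact INat.succ_ne_zero _ (h1.symm.trans h1')
      · exact INat.succ_ne_zero _ (h1'.symm.trans h1)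
      · exact c.2.1 _ h2 h2') (by
      obtain ⟨-, n, hn⟩ := p.2
      obtain ⟨-, m, hm⟩ := c.2
      refine ⟨(max n m).succ, fun x hx => ?_⟩
      have key : (∃ j, x.1 = INat.succ j ∧ ((j, x.2) ∈ p.1.1 ∨ (j, x.2) ∈ p.1.2)) ∨
          (x.1 = 0 ∧ (x.2 ∈ c.1.1 ∨ x.2 ∈ c.1.2)) := by
        rcases hx with (⟨j, h1, h2⟩ | ⟨h1, h2⟩) | (⟨j, h1, h2⟩ | ⟨h1, h2⟩)
        · exact Or.inl ⟨j, h1, Or.inl h2⟩
        · exact Or.inr ⟨h1, Or.inl h2⟩
        · exact Or.inl ⟨j, h1, Or.inr h2⟩
        · exact Or.inr ⟨h1, Or.inr h2⟩
      rcases key with ⟨j, h1, h2⟩ | ⟨h1, h2⟩
      · obtain ⟨h3, h4⟩ := hn _ h2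
        rw [h1]
        refine ⟨?_, ?_⟩
        · rw [INat.lt_succ_iff, INat.succ_le_iff]
          exact lt_of_lt_of_le h3 (le_max_left _ _)
        · rw [INat.lt_succ_iff]
          exact (lt_of_lt_of_le h4 (le_max_left _ _)).le
      · have h3 := hm _ h2
        rw [h1]
        refine ⟨?_, ?_⟩
        · rw [INat.lt_succ_iff]
          exact INat.zero_le _
        · rw [INat.lt_succ_iff]
          exact (lt_of_lt_of_le h3 (le_max_right _ _)).le)

theorem mem_am1 {p : PC M} {c : C0 M} {x : INat M × INat M} : x ∈ (am p c).1.1 ↔
    (∃ j, x.1 = INat.succ j ∧ (j, x.2) ∈ p.1.1) ∨ (x.1 = 0 ∧ x.2 ∈ c.1.1) := mem_mkC_fst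
theorem mem_am2 {p : PC M} {c : C0 M} {x : INat M × INat M} : x ∈ (am p c).1.2 ↔
    (∃ j, x.1 = INat.succ j ∧ (j, x.2) ∈ p.1.2) ∨ (x.1 = 0 ∧ x.2 ∈ c.1.2) := mem_mkC_snd

theorem mem_am1_succ {p : PC M} {c : C0 M} {i k : INat M} :
    (i.succ, k) ∈ (am p c).1.1 ↔ (i, k) ∈ p.1.1 := by
  rw [mem_am1]
  constructor
  · rintro (⟨j, h1, h2⟩ | ⟨h1, h2⟩)
    · obtain rfl := INat.succ_inj h1
      exact h2
    · exact absurd h1 (INat.succ_ne_zero _)
  · intro h
    exact Or.inl ⟨i, rfl, h⟩

theorem mem_am2_succ {p : PC M} {c : C0 M} {i k : INat M} :
    (i.succ, k) ∈ (am p c).1.2 ↔ (i, k) ∈ p.1.2 := by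
  rw [mem_am2]
  constructor
  · rintro (⟨j, h1, h2⟩ | ⟨h1, h2⟩)
    · obtain rfl := INat.succ_inj h1
      exact h2
    · exact absurd h1 (INat.succ_ne_zero _)
  · intro h
    exact Or.inl ⟨i, rfl, h⟩

theorem mem_am1_zero {p : PC M} {c : C0 M} {k : INat M} :
    ((0 : INat M), k) ∈ (am p c).1.1 ↔ k ∈ c.1.1 := by
  rw [mem_am1]
  constructor
  · rintro (⟨j, h1, h2⟩ | ⟨h1, h2⟩)
    · exact absurd h1.symm (INat.succ_ne_zero _)
    · exact h2
  · intro h
    exact Or.inr ⟨rfl, h⟩

theorem mem_am2_zero {p : PC M} {c : C0 M} {k : INat M} :
    ((0 : INat M), k) ∈ (am p c).1.2 ↔ k ∈ c.1.2 := by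
  rw [mem_am2]
  constructor
  · rintro (⟨j, h1, h2⟩ | ⟨h1, h2⟩)
    · exact absurd h1.symm (INat.succ_ne_zero _)
    · exact h2
  · intro h
    exact Or.inr ⟨rfl, h⟩

/-- Extensionality by columns. -/
theorem le_iff_cases {s s' : PC M} : s ≤ s' ↔ tl s ≤ tl s' ∧ hd s ≤ hd s' := by
  constructor
  · intro h
    refine ⟨?_, ?_⟩
    · rintro ⟨i, k⟩
      simp only [mem_tl1, mem_tl2]
      exact h _
    · intro k
      simp only [mem_hd1, mem_hd2]
      exact h _
  · rintro ⟨h1, h2⟩ ⟨i, k⟩
    rcases INat.eq_zero_or_succ i with rfl | ⟨j, rfl⟩
    · simp only [← mem_hd1, ← mem_hd2]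
      exact h2 k
    · simp only [← mem_tl1, ← mem_tl2]
      exact h1 _

@[simp] theorem tl_am (p : PC M) (c : C0 M) : tl (am p c) = p :=
  PC.ext' (fun x => by obtain ⟨i, k⟩ := x; rw [mem_tl1, mem_am1_succ])
    (fun x => by obtain ⟨i, k⟩ := x; rw [mem_tl2, mem_am2_succ])

@[simp] theorem hd_am (p : PC M) (c : C0 M) : hd (am p c) = c :=
  C0.ext' (fun k => by rw [mem_hd1, mem_am1_zero]) (fun k => by rw [mem_hd2, mem_am2_zero])

@[simp] theorem am_tl_hd (s : PC M) : am (tl s) (hd s) = s :=
  PC.antisymm (le_iff_cases.2 ⟨by rw [tl_am], by rw [hd_am]⟩)
    (le_iff_cases.2 ⟨by rw [tl_am], by rw [hd_am]⟩)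

theorem am_le {p p' : PC M} {c c' : C0 M} : am p c ≤ am p' c' ↔ p ≤ p' ∧ c ≤ c' := by
  rw [le_iff_cases, tl_am, tl_am, hd_am, hd_am]

theorem le_am {s p : PC M} {c : C0 M} : s ≤ am p c ↔ tl s ≤ p ∧ hd s ≤ c := by
  rw [le_iff_cases, tl_am, hd_am]

theorem int_tl : IntF M (tl (M := M)) := by
  refine IntF.of_rel (r := fun (p : PC M) (q : PC M) => ∀ c : INat M × INat M,
    (c ∈ q.1.1 ↔ (c.1.succ, c.2) ∈ p.1.1) ∧ (c ∈ q.1.2 ↔ (c.1.succ, c.2) ∈ p.1.2)) (by (repeat' (first | with_reducible exact IntF.id | with_reducible exact IntF.fst' | with_reducible exact IntF.snd' | with_reducible exact IntF.const _ | with_reducible exact Int.const _ | assumption | with_reducible apply Int.and | with_reducible apply Int.or | with_reducible apply Int.not | with_reducible apply Int.imp | with_reducible apply Int.iff | with_reducible apply Int.ne | with_reducible apply Int.eq | with_reducible apply Int.mem | with_reducible apply Int.subset | with_reducible apply Int.ltN | with_reducible apply Int.leN | with_reducible_and_instances apply Int.le | with_reducible_and_instances apply Int.lt | with_reducible apply Int.all | with_reducible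 apply Int.ex | with_reducible apply IntF.fst | with_reducible apply IntF.snd | with_reducible apply IntF.app | with_reducible apply IntF.inl | with_reducible apply IntF.inr | with_reducible_and_instances apply IntF.mul | with_reducible_and_instances apply IntF.inv | with_reducible_and_instances apply IntF.add | with_reducible_and_instances apply IntF.sub | with_reducible_and_instances apply IntF.neg | with_reducible_and_instances apply IntF.smul | with_reducible apply IntF.succ | with_reducible apply IntF.val | with_reducible apply IntF.mk | (with_reducible refine Int.comp ?_ ?_; assumption) | (with_reducible refine Int.comp₂ ?_ ?_ ?_; assumption) | (with_reducible refine Int.comp₃ ?_ ?_ ?_ ?_; assumption) | (with_reducible refine Int.comp₄ ?_ ?_ ?_ ?_ ?_; assumption) | (with_reducible refine IntF.comp ?_ ?_; assumption) | (with_reducible refine IntF.comp₂ ?_ ?_ ?_; assumption) | (with_reducible refine IntF.comp₃ ?_ ?_ ?_ ?_; assumption) | with_reducible apply IntF.pair)))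
    fun p q => ?_
  constructor
  · intro h
    exact PC.ext' (fun c => mem_tl1'.trans (h c).1.symm)
      (fun c => mem_tl2'.trans (h c).2.symm)
  · rintro rfl c
    exact ⟨mem_tl1', mem_tl2'⟩

theorem int_hd : IntF M (hd (M := M)) := by
  refine IntF.of_rel (r := fun (p : PC M) (q : C0 M) => ∀ c : INat M,
    (c ∈ q.1.1 ↔ ((0 : INat M), c) ∈ p.1.1) ∧ (c ∈ q.1.2 ↔ ((0 : INat M), c) ∈ p.1.2)) (by (repeat' (first | with_reducible exact IntF.id | with_reducible exact IntF.fst' | with_reducible exact IntF.snd' | with_reducible exact IntF.const _ | with_reducible exact Int.const _ | assumption | with_reducible apply Int.and | with_reducible apply Int.or | with_reducible apply Int.not | with_reducible apply Int.imp | with_reducible apply Int.iff | with_reducible apply Int.ne | with_reducible apply Int.eq | with_reducible apply Int.mem | with_reducible apply Int.subset | with_reducible apply Int.ltN | with_reducible apply Int.leN | with_reducible_and_instances apply Int.le | with_reducible_and_instances apply Int.lt | with_reducible apply Int.all | with_reducible apply Int.ex | with_reducible apply IntF.fst | with_reducible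 apply IntF.snd | with_reducible apply IntF.app | with_reducible apply IntF.inl | with_reducible apply IntF.inr | with_reducible_and_instances apply IntF.mul | with_reducible_and_instances apply IntF.inv | with_reducible_and_instances apply IntF.add | with_reducible_and_instances apply IntF.sub | with_reducible_and_instances apply IntF.neg | with_reducible_and_instances apply IntF.smul | with_reducible apply IntF.succ | with_reducible apply IntF.val | with_reducible apply IntF.mk | (with_reducible refine Int.comp ?_ ?_; assumption) | (with_reducible refine Int.comp₂ ?_ ?_ ?_; assumption) | (with_reducible refine Int.comp₃ ?_ ?_ ?_ ?_; assumption) | (with_reducible refine Int.comp₄ ?_ ?_ ?_ ?_ ?_; assumption) | (with_reducible refine IntF.comp ?_ ?_; assumption) | (with_reducible refine IntF.comp₂ ?_ ?_ ?_; assumption) | (with_reducible refine IntF.comp₃ ?_ ?_ ?_ ?_; assumption) | with_reducible apply IntF.pair)))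
    fun p q => ?_
  constructor
  · intro h
    exact C0.ext' (fun c => mem_hd1.trans (h c).1.symm)
      (fun c => mem_hd2.trans (h c).2.symm)
  · rintro rfl c
    exact ⟨mem_hd1, mem_hd2⟩

theorem int_am : IntF M (fun q : PC M × C0 M => am q.1 q.2) := by
  have h1 : IntF M (tl (M := M)) := int_tl
  have h2 : IntF M (hd (M := M)) := int_hd
  refine IntF.of_rel (r := fun (q : PC M × C0 M) (s : PC M) => tl s = q.1 ∧ hd s = q.2)
    (by (repeat' (first | with_reducible exact IntF.id | with_reducible exact IntF.fst' | with_reducible exact IntF.snd' | with_reducible exact IntF.const _ | with_reducible exact Int.const _ | assumption | with_reducible apply Int.and | with_reducible apply Int.or | with_reducible apply Int.not | with_reducible apply Int.imp | with_reducible apply Int.iff | with_reducible apply Int.ne | with_reducible apply Int.eq | with_reducible apply Int.mem | with_reducible apply Int.subset | with_reducible apply Int.ltN | with_reducible apply Int.leN | with_reducible_and_instances apply Int.le | with_reducible_and_instances apply Int.lt | with_reducible apply Int.all | with_reducible apply Int.ex | with_reducible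 apply IntF.fst | with_reducible apply IntF.snd | with_reducible apply IntF.app | with_reducible apply IntF.inl | with_reducible apply IntF.inr | with_reducible_and_instances apply IntF.mul | with_reducible_and_instances apply IntF.inv | with_reducible_and_instances apply IntF.add | with_reducible_and_instances apply IntF.sub | with_reducible_and_instances apply IntF.neg | with_reducible_and_instances apply IntF.smul | with_reducible apply IntF.succ | (with_reducible refine Int.comp ?_ ?_; assumption) | (with_reducible refine Int.comp₂ ?_ ?_ ?_; assumption) | (with_reducible refine Int.comp₃ ?_ ?_ ?_ ?_; assumption) | (with_reducible refine Int.comp₄ ?_ ?_ ?_ ?_ ?_; assumption) | (with_reducible refine IntF.comp ?_ ?_; assumption) | (with_reducible refine IntF.comp₂ ?_ ?_ ?_; assumption) | (with_reducible refine IntF.comp₃ ?_ ?_ ?_ ?_; assumption) | with_reducible apply IntF.val | with_reducible apply IntF.pair))) fun q s => ?_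
  constructor
  · rintro ⟨h3, h4⟩
    rw [← h3, ← h4, am_tl_hd]
  · rintro rfl
    exact ⟨tl_am _ _, hd_am _ _⟩

/-- The empty one column condition. -/
noncomputable def top0 : C0 M :=
  mkC0 (fun _ => False) (fun _ => False) (Int.const _) (Int.const _) (fun _ h => h.elim)
    ⟨0, fun _ h => h.elim (fun h => h.elim) (fun h => h.elim)⟩

theorem not_mem_top0_1 {k : INat M} : ¬ k ∈ (top0 : C0 M).1.1 := fun h => mem_mkC0_fst.1 h
theorem not_mem_top0_2 {k : INat M} : ¬ k ∈ (top0 : C0 M).1.2 := fun h => mem_mkC0_snd.1 h

theorem le_top0 (c : C0 M) : c ≤ top0 := fun _ =>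
  ⟨fun h => absurd h not_mem_top0_1, fun h => absurd h not_mem_top0_2⟩

/-- The empty condition. -/
noncomputable def top1 : PC M :=
  mkC (fun _ => False) (fun _ => False) (Int.const _) (Int.const _) (fun _ h => h.elim)
    ⟨0, fun _ h => h.elim (fun h => h.elim) (fun h => h.elim)⟩

theorem not_mem_top1_1 {k : INat M × INat M} : ¬ k ∈ (top1 : PC M).1.1 := fun h => mem_mkC_fst.1 h
theorem not_mem_top1_2 {k : INat M × INat M} : ¬ k ∈ (top1 : PC M).1.2 := fun h => mem_mkC_snd.1 h

theorem le_top1 (c : PC M) : c ≤ top1 := fun _ =>
  ⟨fun h => absurd h not_mem_top1_1, fun h => absurd h not_mem_top1_2⟩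

/-! ### Restriction to the first `n` columns -/

theorem int_rs1 (n : INat M) (p : PC M) : Int M (fun c : INat M × INat M =>
    c.1 < n ∧ c ∈ p.1.1) := by (repeat' (first | with_reducible exact IntF.id | with_reducible exact IntF.fst' | with_reducible exact IntF.snd' | with_reducible exact IntF.const _ | with_reducible exact Int.const _ | assumption | with_reducible apply Int.and | with_reducible apply Int.or | with_reducible apply Int.not | with_reducible apply Int.imp | with_reducible apply Int.iff | with_reducible apply Int.ne | with_reducible apply Int.eq | with_reducible apply Int.mem | with_reducible apply Int.subset | with_reducible apply Int.ltN | with_reducible apply Int.leN | with_reducible_and_instances apply Int.le | with_reducible_and_instances apply Int.lt | with_reducible apply Int.all | with_reducible apply Int.ex | with_reducible apply IntF.fst | with_reducible apply IntF.snd | with_reducible apply IntF.app | with_reducible apply IntF.inl | with_reducible apply IntF.inr | with_reducible_and_instances apply IntF.mul | with_reducible_and_instances apply IntF.inv | with_reducible_and_instances apply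 IntF.add | with_reducible_and_instances apply IntF.sub | with_reducible_and_instances apply IntF.neg | with_reducible_and_instances apply IntF.smul | with_reducible apply IntF.succ | with_reducible apply IntF.val | with_reducible apply IntF.mk | (with_reducible refine Int.comp ?_ ?_; assumption) | (with_reducible refine Int.comp₂ ?_ ?_ ?_; assumption) | (with_reducible refine Int.comp₃ ?_ ?_ ?_ ?_; assumption) | (with_reducible refine Int.comp₄ ?_ ?_ ?_ ?_ ?_; assumption) | (with_reducible refine IntF.comp ?_ ?_; assumption) | (with_reducible refine IntF.comp₂ ?_ ?_ ?_; assumption) | (with_reducible refine IntF.comp₃ ?_ ?_ ?_ ?_; assumption) | with_reducible apply IntF.pair))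
theorem int_rs2 (n : INat M) (p : PC M) : Int M (fun c : INat M × INat M =>
    c.1 < n ∧ c ∈ p.1.2) := by (repeat' (first | with_reducible exact IntF.id | with_reducible exact IntF.fst' | with_reducible exact IntF.snd' | with_reducible exact IntF.const _ | with_reducible exact Int.const _ | assumption | with_reducible apply Int.and | with_reducible apply Int.or | with_reducible apply Int.not | with_reducible apply Int.imp | with_reducible apply Int.iff | with_reducible apply Int.ne | with_reducible apply Int.eq | with_reducible apply Int.mem | with_reducible apply Int.subset | with_reducible apply Int.ltN | with_reducible apply Int.leN | with_reducible_and_instances apply Int.le | with_reducible_and_instances apply Int.lt | with_reducible apply Int.all | with_reducible apply Int.ex | with_reducible apply IntF.fst | with_reducible apply IntF.snd | with_reducible apply IntF.app | with_reducible apply IntF.inl | with_reducible apply IntF.inr | with_reducible_and_instances apply IntF.mul | with_reducible_and_instances apply IntF.inv | with_reducible_and_instances apply IntF.add | with_reducible_and_instances apply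 IntF.sub | with_reducible_and_instances apply IntF.neg | with_reducible_and_instances apply IntF.smul | with_reducible apply IntF.succ | with_reducible apply IntF.val | with_reducible apply IntF.mk | (with_reducible refine Int.comp ?_ ?_; assumption) | (with_reducible refine Int.comp₂ ?_ ?_ ?_; assumption) | (with_reducible refine Int.comp₃ ?_ ?_ ?_ ?_; assumption) | (with_reducible refine Int.comp₄ ?_ ?_ ?_ ?_ ?_; assumption) | (with_reducible refine IntF.comp ?_ ?_; assumption) | (with_reducible refine IntF.comp₂ ?_ ?_ ?_; assumption) | (with_reducible refine IntF.comp₃ ?_ ?_ ?_ ?_; assumption) | with_reducible apply IntF.pair))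

/-- The restriction to the first `n` columns. -/
noncomputable def rs (n : INat M) (p : PC M) : PC M :=
  mkC (fun c => c.1 < n ∧ c ∈ p.1.1) (fun c => c.1 < n ∧ c ∈ p.1.2) (int_rs1 n p) (int_rs2 n p)
    (fun _ h h' => p.2.1 _ h.2 h'.2) (by
      obtain ⟨-, m, hm⟩ := p.2
      exact ⟨m, fun c hc => hm _ (hc.imp And.right And.right)⟩)

theorem mem_rs1 {n : INat M} {p : PC M} {c : INat M × INat M} :
    c ∈ (rs n p).1.1 ↔ c.1 < n ∧ c ∈ p.1.1 := mem_mkC_fst
theorem mem_rs2 {n : INat M} {p : PC M} {c : INat M × INat M} :
    c ∈ (rs n p).1.2 ↔ c.1 < n ∧ c ∈ p.1.2 := mem_mkC_snd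

theorem int_rs : IntF M (fun q : INat M × PC M => rs q.1 q.2) := by
  refine IntF.of_rel (r := fun (q : INat M × PC M) (p : PC M) => ∀ c : INat M × INat M,
    (c ∈ p.1.1 ↔ c.1 < q.1 ∧ c ∈ q.2.1.1) ∧ (c ∈ p.1.2 ↔ c.1 < q.1 ∧ c ∈ q.2.1.2)) (by (repeat' (first | with_reducible exact IntF.id | with_reducible exact IntF.fst' | with_reducible exact IntF.snd' | with_reducible exact IntF.const _ | with_reducible exact Int.const _ | assumption | with_reducible apply Int.and | with_reducible apply Int.or | with_reducible apply Int.not | with_reducible apply Int.imp | with_reducible apply Int.iff | with_reducible apply Int.ne | with_reducible apply Int.eq | with_reducible apply Int.mem | with_reducible apply Int.subset | with_reducible apply Int.ltN | with_reducible apply Int.leN | with_reducible_and_instances apply Int.le | with_reducible_and_instances apply Int.lt | with_reducible apply Int.all | with_reducible apply Int.ex | with_reducible apply IntF.fst | with_reducible apply IntF.snd | with_reducible apply IntF.app | with_reducible apply IntF.inl | with_reducible apply IntF.inr | with_reducible_and_instances apply IntF.mul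 | with_reducible_and_instances apply IntF.inv | with_reducible_and_instances apply IntF.add | with_reducible_and_instances apply IntF.sub | with_reducible_and_instances apply IntF.neg | with_reducible_and_instances apply IntF.smul | with_reducible apply IntF.succ | with_reducible apply IntF.val | with_reducible apply IntF.mk | (with_reducible refine Int.comp ?_ ?_; assumption) | (with_reducible refine Int.comp₂ ?_ ?_ ?_; assumption) | (with_reducible refine Int.comp₃ ?_ ?_ ?_ ?_; assumption) | (with_reducible refine Int.comp₄ ?_ ?_ ?_ ?_ ?_; assumption) | (with_reducible refine IntF.comp ?_ ?_; assumption) | (with_reducible refine IntF.comp₂ ?_ ?_ ?_; assumption) | (with_reducible refine IntF.comp₃ ?_ ?_ ?_ ?_; assumption) | with_reducible apply IntF.pair)))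
    fun q p => ?_
  constructor
  · intro h
    exact PC.ext' (fun c => (mem_rs1).trans (h c).1.symm) (fun c => (mem_rs2).trans (h c).2.symm)
  · rintro rfl c
    exact ⟨mem_rs1, mem_rs2⟩

theorem le_rs (n : INat M) (p : PC M) : p ≤ rs n p := fun _ =>
  ⟨fun h => (mem_rs1.1 h).2, fun h => (mem_rs2.1 h).2⟩

theorem rs_mono {n : INat M} {p q : PC M} (h : p ≤ q) : rs n p ≤ rs n q := fun c =>
  ⟨fun hc => mem_rs1.2 ⟨(mem_rs1.1 hc).1, (h c).1 (mem_rs1.1 hc).2⟩,
    fun hc => mem_rs2.2 ⟨(mem_rs2.1 hc).1, (h c).2 (mem_rs2.1 hc).2⟩⟩

/-! ### Lifting of permutations -/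

open Classical in
/-- The lift of a function. -/
noncomputable def lfun (f : INat M → INat M) (i : INat M) : INat M :=
  if h : ∃ k, i = INat.succ k then (f h.choose).succ else 0

theorem lfun_zero (f : INat M → INat M) : lfun f 0 = 0 := by
  unfold lfun
  rw [dif_neg]
  rintro ⟨k, hk⟩
  exact INat.succ_ne_zero _ hk.symm

theorem lfun_succ (f : INat M → INat M) (i : INat M) : lfun f i.succ = (f i).succ := by
  unfold lfun
  have h : ∃ k, i.succ = INat.succ k := ⟨i, rfl⟩
  rw [dif_pos h]
  have h1 := INat.succ_inj h.choose_spec
  rw [← h1]

theorem int_lfun {f : INat M → INat M} (hf : IntF M f) : IntF M (lfun f) := by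
  refine IntF.of_rel (r := fun i j => (i = 0 ∧ j = 0) ∨ ∃ k, i = INat.succ k ∧ j = INat.succ (f k))
    (by (repeat' (first | with_reducible exact IntF.id | with_reducible exact IntF.fst' | with_reducible exact IntF.snd' | with_reducible exact IntF.const _ | with_reducible exact Int.const _ | assumption | with_reducible apply Int.and | with_reducible apply Int.or | with_reducible apply Int.not | with_reducible apply Int.imp | with_reducible apply Int.iff | with_reducible apply Int.ne | with_reducible apply Int.eq | with_reducible apply Int.mem | with_reducible apply Int.subset | with_reducible apply Int.ltN | with_reducible apply Int.leN | with_reducible_and_instances apply Int.le | with_reducible_and_instances apply Int.lt | with_reducible apply Int.all | with_reducible apply Int.ex | with_reducible apply IntF.fst | with_reducible apply IntF.snd | with_reducible apply IntF.app | with_reducible apply IntF.inl | with_reducible apply IntF.inr | with_reducible_and_instances apply IntF.mul | with_reducible_and_instances apply IntF.inv | with_reducible_and_instances apply IntF.add | with_reducible_and_instances apply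 IntF.sub | with_reducible_and_instances apply IntF.neg | with_reducible_and_instances apply IntF.smul | with_reducible apply IntF.succ | with_reducible apply IntF.val | with_reducible apply IntF.mk | (with_reducible refine Int.comp ?_ ?_; assumption) | (with_reducible refine Int.comp₂ ?_ ?_ ?_; assumption) | (with_reducible refine Int.comp₃ ?_ ?_ ?_ ?_; assumption) | (with_reducible refine Int.comp₄ ?_ ?_ ?_ ?_ ?_; assumption) | (with_reducible refine IntF.comp ?_ ?_; assumption) | (with_reducible refine IntF.comp₂ ?_ ?_ ?_; assumption) | (with_reducible refine IntF.comp₃ ?_ ?_ ?_ ?_; assumption) | with_reducible apply IntF.pair))) fun i j => ?_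
  constructor
  · rintro (⟨rfl, rfl⟩ | ⟨k, rfl, rfl⟩)
    · exact lfun_zero f
    · exact lfun_succ f k
  · rintro rfl
    rcases INat.eq_zero_or_succ i with rfl | ⟨k, rfl⟩
    · exact Or.inl ⟨rfl, lfun_zero f⟩
    · exact Or.inr ⟨k, rfl, lfun_succ f k⟩

/-- The lift of a permutation: it fixes `0`. -/
noncomputable def lf (π : GC M) : GC M :=
  ⟨(⟨lfun (fun i => π.1.1 i), int_lfun π.1.1.int⟩, ⟨lfun (fun i => π.1.2 i), int_lfun π.1.2.int⟩), by
    constructor
    · intro i
      rcases INat.eq_zero_or_succ i with rfl | ⟨k, rfl⟩
      · change lfun _ (lfun _ 0) = 0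
        rw [lfun_zero, lfun_zero]
      · change lfun _ (lfun _ k.succ) = k.succ
        rw [lfun_succ, lfun_succ, π.2.1]
    · intro i
      rcases INat.eq_zero_or_succ i with rfl | ⟨k, rfl⟩
      · change lfun _ (lfun _ 0) = 0
        rw [lfun_zero, lfun_zero]
      · change lfun _ (lfun _ k.succ) = k.succ
        rw [lfun_succ, lfun_succ, π.2.2]⟩

theorem pa_lf_zero (π : GC M) : pa (lf π) 0 = 0 := lfun_zero _
theorem pa_lf_succ (π : GC M) (i : INat M) : pa (lf π) i.succ = (pa π i).succ := lfun_succ _ _
theorem pi'_lf_zero (π : GC M) : pi' (lf π) 0 = 0 := lfun_zero _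
theorem pi'_lf_succ (π : GC M) (i : INat M) : pi' (lf π) i.succ = (pi' π i).succ := lfun_succ _ _

theorem lf_mul (π σ : GC M) : lf (π * σ) = lf π * lf σ := GC.ext' fun i => by
  rcases INat.eq_zero_or_succ i with rfl | ⟨k, rfl⟩
  · rw [pa_mul, pa_lf_zero, pa_lf_zero, pa_lf_zero]
  · rw [pa_mul, pa_lf_succ, pa_lf_succ, pa_lf_succ, pa_mul]

theorem lf_one : lf (1 : GC M) = 1 := GC.ext' fun i => by
  rcases INat.eq_zero_or_succ i with rfl | ⟨k, rfl⟩
  · rw [pa_lf_zero, pa_one]
  · rw [pa_lf_succ, pa_one, pa_one]

theorem lf_inv (π : GC M) : lf π⁻¹ = (lf π)⁻¹ := by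
  refine eq_inv_of_mul_eq_one_left ?_
  rw [← lf_mul, inv_mul_cancel, lf_one]

theorem int_lf : IntF M (lf (M := M)) := by
  have hI : IntF M (fun q : GC M × INat M => pa q.1 q.2) := int_pa
  refine IntF.of_rel (r := fun (π σ : GC M) => pa σ 0 = 0 ∧ ∀ i, pa σ (INat.succ i) =
    INat.succ (pa π i)) (by (repeat' (first | with_reducible exact IntF.id | with_reducible exact IntF.fst' | with_reducible exact IntF.snd' | with_reducible exact IntF.const _ | with_reducible exact Int.const _ | assumption | with_reducible apply Int.and | with_reducible apply Int.or | with_reducible apply Int.not | with_reducible apply Int.imp | with_reducible apply Int.iff | with_reducible apply Int.ne | with_reducible apply Int.eq | with_reducible apply Int.mem | with_reducible apply Int.subset | with_reducible apply Int.ltN | with_reducible apply Int.leN | with_reducible_and_instances apply Int.le | with_reducible_and_instances apply Int.lt | with_reducible apply Int.all | with_reducible apply Int.ex | with_reducible apply IntF.fst | with_reducible apply IntF.snd | with_reducible apply IntF.app | with_reducible apply IntF.inl | with_reducible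 apply IntF.inr | with_reducible_and_instances apply IntF.mul | with_reducible_and_instances apply IntF.inv | with_reducible_and_instances apply IntF.add | with_reducible_and_instances apply IntF.sub | with_reducible_and_instances apply IntF.neg | with_reducible_and_instances apply IntF.smul | with_reducible apply IntF.succ | with_reducible apply IntF.val | with_reducible apply IntF.mk | (with_reducible refine Int.comp ?_ ?_; assumption) | (with_reducible refine Int.comp₂ ?_ ?_ ?_; assumption) | (with_reducible refine Int.comp₃ ?_ ?_ ?_ ?_; assumption) | (with_reducible refine Int.comp₄ ?_ ?_ ?_ ?_ ?_; assumption) | (with_reducible refine IntF.comp ?_ ?_; assumption) | (with_reducible refine IntF.comp₂ ?_ ?_ ?_; assumption) | (with_reducible refine IntF.comp₃ ?_ ?_ ?_ ?_; assumption) | with_reducible apply IntF.pair))) fun π σ => ?_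
  constructor
  · rintro ⟨h1, h2⟩
    refine GC.ext' fun i => ?_
    rcases INat.eq_zero_or_succ i with rfl | ⟨k, rfl⟩
    · rw [pa_lf_zero, h1]
    · rw [pa_lf_succ, h2]
  · rintro rfl
    exact ⟨pa_lf_zero π, pa_lf_succ π⟩

theorem U_lf {n : INat M} {π : GC M} (h : (SC M).U n π) : (SC M).U n.succ (lf π) := by
  intro i hi
  rcases INat.eq_zero_or_succ i with rfl | ⟨k, rfl⟩
  · exact pa_lf_zero π
  · rw [pa_lf_succ, h k]
    rw [INat.lt_succ_iff, INat.succ_le_iff] at hi
    exact hi

theorem U_mono {n m : INat M} {π : GC M} (h : (SC M).U m π) (hn : n ≤ m) : (SC M).U n π :=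
  fun i hi => h i (lt_of_lt_of_le hi hn)

theorem U_lf' {n : INat M} {π : GC M} (h : (SC M).U n π) : (SC M).U n (lf π) :=
  U_mono (U_lf h) (INat.le_succ_self n)

/-- Permutations that fix `0` are lifts. -/
theorem exists_lf {σ : GC M} (h : pa σ 0 = 0) : ∃ π, lf π = σ := by
  have hI : IntF M (fun q : GC M × INat M => pa q.1 q.2) := int_pa
  have hI' : IntF M (fun q : GC M × INat M => pi' q.1 q.2) := int_pi'
  have h0 : pi' σ 0 = 0 := by
    have := pi'_pa σ 0
    rwa [h] at this
  have h1 : ∀ i : INat M, ∃ j, pa σ i.succ = INat.succ j := fun i => by
    rcases INat.eq_zero_or_succ (pa σ i.succ) with h2 | h2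
    · rw [← h] at h2
      exact absurd (pa_inj σ h2) (INat.succ_ne_zero _)
    · exact h2
  have h2 : ∀ i : INat M, ∃ j, pi' σ i.succ = INat.succ j := fun i => by
    rcases INat.eq_zero_or_succ (pi' σ i.succ) with h2 | h2
    · have h3 := pa_pi' σ i.succ
      rw [h2, h] at h3
      exact absurd h3.symm (INat.succ_ne_zero _)
    · exact h2
  choose f hf using h1
  choose g hg using h2
  have hfI : IntF M f := by
    refine IntF.of_rel (r := fun i j => pa σ (INat.succ i) = INat.succ j) (by (repeat' (first | with_reducible exact IntF.id | with_reducible exact IntF.fst' | with_reducible exact IntF.snd' | with_reducible exact IntF.const _ | with_reducible exact Int.const _ | assumption | with_reducible apply Int.and | with_reducible apply Int.or | with_reducible apply Int.not | with_reducible apply Int.imp | with_reducible apply Int.iff | with_reducible apply Int.ne | with_reducible apply Int.eq | with_reducible apply Int.mem | with_reducible apply Int.subset | with_reducible apply Int.ltN | with_reducible apply Int.leN | with_reducible_and_instances apply Int.le | with_reducible_and_instances apply Int.lt | with_reducible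 apply Int.all | with_reducible apply Int.ex | with_reducible apply IntF.fst | with_reducible apply IntF.snd | with_reducible apply IntF.app | with_reducible apply IntF.inl | with_reducible apply IntF.inr | with_reducible_and_instances apply IntF.mul | with_reducible_and_instances apply IntF.inv | with_reducible_and_instances apply IntF.add | with_reducible_and_instances apply IntF.sub | with_reducible_and_instances apply IntF.neg | with_reducible_and_instances apply IntF.smul | with_reducible apply IntF.succ | with_reducible apply IntF.val | with_reducible apply IntF.mk | (with_reducible refine Int.comp ?_ ?_; assumption) | (with_reducible refine Int.comp₂ ?_ ?_ ?_; assumption) | (with_reducible refine Int.comp₃ ?_ ?_ ?_ ?_; assumption) | (with_reducible refine Int.comp₄ ?_ ?_ ?_ ?_ ?_; assumption) | (with_reducible refine IntF.comp ?_ ?_; assumption) | (with_reducible refine IntF.comp₂ ?_ ?_ ?_; assumption) | (with_reducible refine IntF.comp₃ ?_ ?_ ?_ ?_; assumption) | with_reducible apply IntF.pair))) fun i j => ?_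
    rw [hf]
    exact ⟨fun h => INat.succ_inj h, fun h => by rw [h]⟩
  have hgI : IntF M g := by
    refine IntF.of_rel (r := fun i j => pi' σ (INat.succ i) = INat.succ j) (by (repeat' (first | with_reducible exact IntF.id | with_reducible exact IntF.fst' | with_reducible exact IntF.snd' | with_reducible exact IntF.const _ | with_reducible exact Int.const _ | assumption | with_reducible apply Int.and | with_reducible apply Int.or | with_reducible apply Int.not | with_reducible apply Int.imp | with_reducible apply Int.iff | with_reducible apply Int.ne | with_reducible apply Int.eq | with_reducible apply Int.mem | with_reducible apply Int.subset | with_reducible apply Int.ltN | with_reducible apply Int.leN | with_reducible_and_instances apply Int.le | with_reducible_and_instances apply Int.lt | with_reducible apply Int.all | with_reducible apply Int.ex | with_reducible apply IntF.fst | with_reducible apply IntF.snd | with_reducible apply IntF.app | with_reducible apply IntF.inl | with_reducible apply IntF.inr | with_reducible_and_instances apply IntF.mul | with_reducible_and_instances apply IntF.inv | with_reducible_and_instances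 apply IntF.add | with_reducible_and_instances apply IntF.sub | with_reducible_and_instances apply IntF.neg | with_reducible_and_instances apply IntF.smul | with_reducible apply IntF.succ | with_reducible apply IntF.val | with_reducible apply IntF.mk | (with_reducible refine Int.comp ?_ ?_; assumption) | (with_reducible refine Int.comp₂ ?_ ?_ ?_; assumption) | (with_reducible refine Int.comp₃ ?_ ?_ ?_ ?_; assumption) | (with_reducible refine Int.comp₄ ?_ ?_ ?_ ?_ ?_; assumption) | (with_reducible refine IntF.comp ?_ ?_; assumption) | (with_reducible refine IntF.comp₂ ?_ ?_ ?_; assumption) | (with_reducible refine IntF.comp₃ ?_ ?_ ?_ ?_; assumption) | with_reducible apply IntF.pair))) fun i j => ?_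
    rw [hg]
    exact ⟨fun h => INat.succ_inj h, fun h => by rw [h]⟩
  refine ⟨⟨(⟨f, hfI⟩, ⟨g, hgI⟩), ?_, ?_⟩, ?_⟩
  · intro i
    change f (g i) = i
    refine INat.succ_inj ?_
    rw [← hf, ← hg, pa_pi']
  · intro i
    change g (f i) = i
    refine INat.succ_inj ?_
    rw [← hg, ← hf, pi'_pa]
  · refine GC.ext' fun i => ?_
    rcases INat.eq_zero_or_succ i with rfl | ⟨k, rfl⟩
    · rw [pa_lf_zero, h]
    · rw [pa_lf_succ, hf]
      rfl

theorem exists_lf_U {n : INat M} {σ : GC M} (h : (SC M).U n.succ σ) :
    ∃ π, lf π = σ ∧ (SC M).U n π := by
  obtain ⟨π, rfl⟩ := exists_lf (h 0 (lt_of_le_of_lt (INat.zero_le _) (INat.lt_succ_self _)))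
  refine ⟨π, rfl, fun i hi => ?_⟩
  have h1 := h i.succ (by rw [INat.lt_succ_iff, INat.succ_le_iff]; exact hi)
  rw [pa_lf_succ] at h1
  exact INat.succ_inj h1

theorem tl_lf (π : GC M) (s : PC M) : tl (lf π • s) = π • tl s :=
  PC.ext' (fun x => by obtain ⟨i, k⟩ := x; rw [mem_tl1, mem_smul1, mem_smul1, pi'_lf_succ, mem_tl1])
    (fun x => by obtain ⟨i, k⟩ := x; rw [mem_tl2, mem_smul2, mem_smul2, pi'_lf_succ, mem_tl2])

theorem hd_lf (π : GC M) (s : PC M) : hd (lf π • s) = hd s :=
  C0.ext' (fun k => by rw [mem_hd1, mem_smul1, pi'_lf_zero, mem_hd1])
    (fun k => by rw [mem_hd2, mem_smul2, pi'_lf_zero, mem_hd2])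

theorem am_smul (π : GC M) (p : PC M) (c : C0 M) : am (π • p) c = lf π • am p c := by
  rw [← am_tl_hd (lf π • am p c), tl_lf, hd_lf, tl_am, hd_am]

/-! ### Cycles -/

open Classical in
/-- The cycle. -/
noncomputable def cf (n i : INat M) : INat M := if i < n then i.succ else if i = n then 0 else i

open Classical in
/-- The inverse cycle. -/
noncomputable def cg (n i : INat M) : INat M :=
  if i = 0 then n else if h : ∃ k, i = INat.succ k ∧ k < n then h.choose else i

theorem cf_lt {n i : INat M} (h : i < n) : cf n i = i.succ := if_pos h
theorem cf_self (n : INat M) : cf n n = 0 := by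
  unfold cf
  rw [if_neg (lt_irrefl n), if_pos rfl]
theorem cf_gt {n i : INat M} (h : n < i) : cf n i = i := by
  unfold cf
  rw [if_neg h.asymm, if_neg h.ne']

theorem cg_zero (n : INat M) : cg n 0 = n := if_pos rfl
theorem cg_succ {n i : INat M} (h : i < n) : cg n i.succ = i := by
  unfold cg
  rw [if_neg (INat.succ_ne_zero i)]
  have h1 : ∃ k, i.succ = INat.succ k ∧ k < n := ⟨i, rfl, h⟩
  rw [dif_pos h1]
  exact (INat.succ_inj h1.choose_spec.1).symm
theorem cg_gt {n i : INat M} (h : n < i) : cg n i = i := by
  unfold cg
  rw [if_neg (fun h1 => by rw [h1] at h; exact INat.not_lt_zero h), dif_neg]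
  rintro ⟨k, rfl, hk⟩
  rw [INat.lt_succ_iff] at h
  exact absurd hk h.not_gt

theorem cg_cf (n i : INat M) : cg n (cf n i) = i := by
  rcases lt_trichotomy i n with h | rfl | h
  · rw [cf_lt h, cg_succ h]
  · rw [cf_self, cg_zero]
  · rw [cf_gt h, cg_gt h]

theorem cf_cg (n i : INat M) : cf n (cg n i) = i := by
  rcases INat.eq_zero_or_succ i with rfl | ⟨k, rfl⟩
  · rw [cg_zero, cf_self]
  · rcases lt_or_ge k n with h | h
    · rw [cg_succ h, cf_lt h]
    · have h1 : n < k.succ := INat.lt_succ_iff.2 h
      rw [cg_gt h1, cf_gt h1]

theorem int_cf : IntF M (fun q : INat M × INat M => cf q.1 q.2) := by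
  refine IntF.of_rel (r := fun (q : INat M × INat M) j => (q.2 < q.1 ∧ j = INat.succ q.2) ∨
    (q.2 = q.1 ∧ j = 0) ∨ (q.1 < q.2 ∧ j = q.2)) (by (repeat' (first | with_reducible exact IntF.id | with_reducible exact IntF.fst' | with_reducible exact IntF.snd' | with_reducible exact IntF.const _ | with_reducible exact Int.const _ | assumption | with_reducible apply Int.and | with_reducible apply Int.or | with_reducible apply Int.not | with_reducible apply Int.imp | with_reducible apply Int.iff | with_reducible apply Int.ne | with_reducible apply Int.eq | with_reducible apply Int.mem | with_reducible apply Int.subset | with_reducible apply Int.ltN | with_reducible apply Int.leN | with_reducible_and_instances apply Int.le | with_reducible_and_instances apply Int.lt | with_reducible apply Int.all | with_reducible apply Int.ex | with_reducible apply IntF.fst | with_reducible apply IntF.snd | with_reducible apply IntF.app | with_reducible apply IntF.inl | with_reducible apply IntF.inr | with_reducible_and_instances apply IntF.mul | with_reducible_and_instances apply IntF.inv | with_reducible_and_instances apply IntF.add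 | with_reducible_and_instances apply IntF.sub | with_reducible_and_instances apply IntF.neg | with_reducible_and_instances apply IntF.smul | with_reducible apply IntF.succ | with_reducible apply IntF.val | with_reducible apply IntF.mk | (with_reducible refine Int.comp ?_ ?_; assumption) | (with_reducible refine Int.comp₂ ?_ ?_ ?_; assumption) | (with_reducible refine Int.comp₃ ?_ ?_ ?_ ?_; assumption) | (with_reducible refine Int.comp₄ ?_ ?_ ?_ ?_ ?_; assumption) | (with_reducible refine IntF.comp ?_ ?_; assumption) | (with_reducible refine IntF.comp₂ ?_ ?_ ?_; assumption) | (with_reducible refine IntF.comp₃ ?_ ?_ ?_ ?_; assumption) | with_reducible apply IntF.pair))) fun q j => ?_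
  obtain ⟨n, i⟩ := q
  simp only
  rcases lt_trichotomy i n with h | rfl | h
  · rw [cf_lt h]
    simp only [h, true_and, h.ne, false_and, h.asymm, or_false]
    exact eq_comm
  · rw [cf_self]
    simp only [lt_irrefl, false_and, true_and, false_or, or_false]
    exact eq_comm
  · rw [cf_gt h]
    simp only [h, true_and, h.ne', false_and, h.asymm, false_or]
    exact eq_comm

theorem int_cg : IntF M (fun q : INat M × INat M => cg q.1 q.2) := by
  have h : IntF M (fun q : INat M × INat M => cf q.1 q.2) := int_cf
  refine IntF.of_rel (r := fun (q : INat M × INat M) j => cf q.1 j = q.2) (by (repeat' (first | with_reducible exact IntF.id | with_reducible exact IntF.fst' | with_reducible exact IntF.snd' | with_reducible exact IntF.const _ | with_reducible exact Int.const _ | assumption | with_reducible apply Int.and | with_reducible apply Int.or | with_reducible apply Int.not | with_reducible apply Int.imp | with_reducible apply Int.iff | with_reducible apply Int.ne | with_reducible apply Int.eq | with_reducible apply Int.mem | with_reducible apply Int.subset | with_reducible apply Int.ltN | with_reducible apply Int.leN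 | with_reducible_and_instances apply Int.le | with_reducible_and_instances apply Int.lt | with_reducible apply Int.all | with_reducible apply Int.ex | with_reducible apply IntF.fst | with_reducible apply IntF.snd | with_reducible apply IntF.app | with_reducible apply IntF.inl | with_reducible apply IntF.inr | with_reducible_and_instances apply IntF.mul | with_reducible_and_instances apply IntF.inv | with_reducible_and_instances apply IntF.add | with_reducible_and_instances apply IntF.sub | with_reducible_and_instances apply IntF.neg | with_reducible_and_instances apply IntF.smul | with_reducible apply IntF.succ | with_reducible apply IntF.val | with_reducible apply IntF.mk | (with_reducible refine Int.comp ?_ ?_; assumption) | (with_reducible refine Int.comp₂ ?_ ?_ ?_; assumption) | (with_reducible refine Int.comp₃ ?_ ?_ ?_ ?_; assumption) | (with_reducible refine Int.comp₄ ?_ ?_ ?_ ?_ ?_; assumption) | (with_reducible refine IntF.comp ?_ ?_; assumption) | (with_reducible refine IntF.comp₂ ?_ ?_ ?_; assumption) | (with_reducible refine IntF.comp₃ ?_ ?_ ?_ ?_; assumption) | with_reducible apply IntF.pair))) fun q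 j => ?_
  constructor
  · intro h
    rw [← h, cg_cf]
  · rintro rfl
    exact cf_cg _ _

/-- The cycle `0 ↦ 1 ↦ ... ↦ n ↦ 0`. -/
noncomputable def cyc (n : INat M) : GC M :=
  ⟨(⟨cf n, (int_cf (M := M)).slice n⟩, ⟨cg n, (int_cg (M := M)).slice n⟩), cf_cg n, cg_cf n⟩

theorem pa_cyc (n i : INat M) : pa (cyc n) i = cf n i := rfl
theorem pi'_cyc (n i : INat M) : pi' (cyc n) i = cg n i := rfl

theorem int_cyc : IntF M (cyc (M := M)) := by
  have h : IntF M (fun q : INat M × INat M => cf q.1 q.2) := int_cf
  have h1 : IntF M (fun q : GC M × INat M => pa q.1 q.2) := int_pa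
  refine IntF.of_rel (r := fun (n : INat M) (π : GC M) => ∀ i, pa π i = cf n i) (by (repeat' (first | with_reducible exact IntF.id | with_reducible exact IntF.fst' | with_reducible exact IntF.snd' | with_reducible exact IntF.const _ | with_reducible exact Int.const _ | assumption | with_reducible apply Int.and | with_reducible apply Int.or | with_reducible apply Int.not | with_reducible apply Int.imp | with_reducible apply Int.iff | with_reducible apply Int.ne | with_reducible apply Int.eq | with_reducible apply Int.mem | with_reducible apply Int.subset | with_reducible apply Int.ltN | with_reducible apply Int.leN | with_reducible_and_instances apply Int.le | with_reducible_and_instances apply Int.lt | with_reducible apply Int.all | with_reducible apply Int.ex | with_reducible apply IntF.fst | with_reducible apply IntF.snd | with_reducible apply IntF.app | with_reducible apply IntF.inl | with_reducible apply IntF.inr | with_reducible_and_instances apply IntF.mul | with_reducible_and_instances apply IntF.inv | with_reducible_and_instances apply IntF.add | with_reducible_and_instances apply IntF.sub | with_reducible_and_instances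 apply IntF.neg | with_reducible_and_instances apply IntF.smul | with_reducible apply IntF.succ | with_reducible apply IntF.val | with_reducible apply IntF.mk | (with_reducible refine Int.comp ?_ ?_; assumption) | (with_reducible refine Int.comp₂ ?_ ?_ ?_; assumption) | (with_reducible refine Int.comp₃ ?_ ?_ ?_ ?_; assumption) | (with_reducible refine Int.comp₄ ?_ ?_ ?_ ?_ ?_; assumption) | (with_reducible refine IntF.comp ?_ ?_; assumption) | (with_reducible refine IntF.comp₂ ?_ ?_ ?_; assumption) | (with_reducible refine IntF.comp₃ ?_ ?_ ?_ ?_; assumption) | with_reducible apply IntF.pair)))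
    fun n π => ?_
  constructor
  · intro h
    exact GC.ext' fun i => (h i).symm
  · rintro rfl i
    rfl

/-- Cycles agree on supports. -/
theorem cyc_U {n k l : INat M} (hn : l ≤ n) (hk : l ≤ k) : (SC M).U l ((cyc n)⁻¹ * cyc k) := by
  intro i hi
  rw [pa_mul, pa_cyc, pa_inv, pi'_cyc, cf_lt (lt_of_lt_of_le hi hk), cg_succ (lt_of_lt_of_le hi hn)]

/-- The cycle and a permutation that fixes `0`. -/
theorem cyc_lf_U {n m : INat M} {π : GC M} (hm : ∀ i, i < n → pa π i < m) :
    (SC M).U n (π⁻¹ * (cyc m)⁻¹ * lf π * cyc n) := by
  intro i hi
  rw [pa_mul, pa_cyc, cf_lt hi, pa_mul, pa_lf_succ, pa_mul, pa_inv, pa_inv, pi'_cyc,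
    cg_succ (hm i hi), pi'_pa]

theorem cyc_smul_rs (n : INat M) (p : PC M) : cyc n • rs n p = am (rs n p) top0 := by
  refine PC.ext' ?_ ?_
  · rintro ⟨i, k⟩
    rw [mem_smul1, pi'_cyc]
    rcases INat.eq_zero_or_succ i with rfl | ⟨j, rfl⟩
    · rw [cg_zero, mem_am1_zero, mem_rs1]
      exact ⟨fun h => absurd h.1 (lt_irrefl _), fun h => absurd h not_mem_top0_1⟩
    · rw [mem_am1_succ, mem_rs1, mem_rs1]
      rcases lt_or_ge j n with h | h
      · rw [cg_succ h]
      · have h1 : n < j.succ := INat.lt_succ_iff.2 h
        rw [cg_gt h1]
        exact ⟨fun h2 => absurd h2.1 h1.asymm, fun h2 => absurd h2.1 h.not_gt⟩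
  · rintro ⟨i, k⟩
    rw [mem_smul2, pi'_cyc]
    rcases INat.eq_zero_or_succ i with rfl | ⟨j, rfl⟩
    · rw [cg_zero, mem_am2_zero, mem_rs2]
      exact ⟨fun h => absurd h.1 (lt_irrefl _), fun h => absurd h not_mem_top0_2⟩
    · rw [mem_am2_succ, mem_rs2, mem_rs2]
      rcases lt_or_ge j n with h | h
      · rw [cg_succ h]
      · have h1 : n < j.succ := INat.lt_succ_iff.2 h
        rw [cg_gt h1]
        exact ⟨fun h2 => absurd h2.1 h1.asymm, fun h2 => absurd h2.1 h.not_gt⟩

theorem rs_cyc_inv (n : INat M) (s : PC M) : rs n ((cyc n)⁻¹ • s) = rs n (tl s) := by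
  refine PC.ext' ?_ ?_
  · rintro ⟨i, k⟩
    rw [mem_rs1, mem_rs1, mem_smul1, pi'_inv, pa_cyc, mem_tl1]
    refine and_congr_right fun h => ?_
    rw [cf_lt h]
  · rintro ⟨i, k⟩
    rw [mem_rs2, mem_rs2, mem_smul2, pi'_inv, pa_cyc, mem_tl2]
    refine and_congr_right fun h => ?_
    rw [cf_lt h]

end

end Pool.Agent.H525C
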