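import Pool.Agent.H635R2.Fam
import Pool.Agent.H635R2.Perm
import Pool.Agent.H635R2.Coll
import Pool.Agent.H635R2.LS

/-!
# The symmetric system of the first Cohen model
-/

namespace Pool.Agent.H525C

open FirstOrder FirstOrder.Language
open Pool.Agent.Helper672.ZFA Pool.Agent.Helper672.ZFA.H635
open Pool.Agent.Helper672.Plain (LSet)

universe u

set_option synthInstance.maxSize 2000
set_option linter.unusedSectionVars false

section

variable {M : Type u} [L.Structure M] [hM : IsModel M]

/-- Disjoint bounded pairs of sets of cells. -/
def IsC (p : IPow M (INat M × INat M) × IPow M (INat M × INat M)) : Prop :=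
  (∀ c, c ∈ p.1 → ¬ c ∈ p.2) ∧
    ∃ n, ∀ c : INat M × INat M, (c ∈ p.1 ∨ c ∈ p.2) → c.1 < n ∧ c.2 < n

theorem int_isC : Int M (IsC (M := M)) := by
  unfold IsC
  (repeat' (first | with_reducible exact IntF.id | with_reducible exact IntF.fst' | with_reducible exact IntF.snd' | with_reducible exact IntF.const _ | with_reducible exact Int.const _ | assumption | with_reducible apply Int.and | with_reducible apply Int.or | with_reducible apply Int.not | with_reducible apply Int.imp | with_reducible apply Int.iff | with_reducible apply Int.ne | with_reducible apply Int.eq | with_reducible apply Int.mem | with_reducible apply Int.subset | with_reducible apply Int.ltN | with_reducible apply Int.leN | with_reducible_and_instances apply Int.le | with_reducible_and_instances apply Int.lt | with_reducible apply Int.all | with_reducible apply Int.ex | with_reducible apply IntF.fst | with_reducible apply IntF.snd | with_reducible apply IntF.app | with_reducible apply IntF.inl | with_reducible apply IntF.inr | with_reducible_and_instances apply IntF.mul | with_reducible_and_instances apply IntF.inv | with_reducible_and_instances apply IntF.add |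 with_reducible_and_instances apply IntF.sub | with_reducible_and_instances apply IntF.neg | with_reducible_and_instances apply IntF.smul | with_reducible apply IntF.succ | with_reducible apply IntF.val | with_reducible apply IntF.mk | (with_reducible refine Int.comp ?_ ?_; assumption) | (with_reducible refine Int.comp₂ ?_ ?_ ?_; assumption) | (with_reducible refine Int.comp₃ ?_ ?_ ?_ ?_; assumption) | (with_reducible refine Int.comp₄ ?_ ?_ ?_ ?_ ?_; assumption) | (with_reducible refine IntF.comp ?_ ?_; assumption) | (with_reducible refine IntF.comp₂ ?_ ?_ ?_; assumption) | (with_reducible refine IntF.comp₃ ?_ ?_ ?_ ?_; assumption) | with_reducible apply IntF.pair))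

instance : Fact (Int M (IsC (M := M))) := ⟨int_isC⟩

variable (M) in
/-- The notion of forcing: finite partial functions from pairs of natural numbers to `2`. -/
abbrev PC : Type u := {p : IPow M (INat M × INat M) × IPow M (INat M × INat M) // IsC p}

/-- Disjoint bounded pairs of sets of natural numbers. -/
def IsC0 (p : IPow M (INat M) × IPow M (INat M)) : Prop :=
  (∀ c, c ∈ p.1 → ¬ c ∈ p.2) ∧ ∃ n, ∀ c : INat M, (c ∈ p.1 ∨ c ∈ p.2) → c < n

theorem int_isC0 : Int M (IsC0 (M := M)) := by
  unfold IsC0
  (repeat' (first | with_reducible exact IntF.id | with_reducible exact IntF.fst' | with_reducible exact IntF.snd' | with_reducible exact IntF.const _ | with_reducible exact Int.const _ | assumption | with_reducible apply Int.and | with_reducible apply Int.or | with_reducible apply Int.not | with_reducible apply Int.imp | with_reducible apply Int.iff | with_reducible apply Int.ne | with_reducible apply Int.eq | with_reducible apply Int.mem | with_reducible apply Int.subset | with_reducible apply Int.ltN | with_reducible apply Int.leN | with_reducible_and_instances apply Int.le | with_reducible_and_instances apply Int.lt | with_reducible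 apply Int.all | with_reducible apply Int.ex | with_reducible apply IntF.fst | with_reducible apply IntF.snd | with_reducible apply IntF.app | with_reducible apply IntF.inl | with_reducible apply IntF.inr | with_reducible_and_instances apply IntF.mul | with_reducible_and_instances apply IntF.inv | with_reducible_and_instances apply IntF.add | with_reducible_and_instances apply IntF.sub | with_reducible_and_instances apply IntF.neg | with_reducible_and_instances apply IntF.smul | with_reducible apply IntF.succ | with_reducible apply IntF.val | with_reducible apply IntF.mk | (with_reducible refine Int.comp ?_ ?_; assumption) | (with_reducible refine Int.comp₂ ?_ ?_ ?_; assumption) | (with_reducible refine Int.comp₃ ?_ ?_ ?_ ?_; assumption) | (with_reducible refine Int.comp₄ ?_ ?_ ?_ ?_ ?_; assumption) | (with_reducible refine IntF.comp ?_ ?_; assumption) | (with_reducible refine IntF.comp₂ ?_ ?_ ?_; assumption) | (with_reducible refine IntF.comp₃ ?_ ?_ ?_ ?_; assumption) | with_reducible apply IntF.pair))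

instance : Fact (Int M (IsC0 (M := M))) := ⟨int_isC0⟩

variable (M) in
/-- Cohen forcing: finite partial functions from the natural numbers to `2`. -/
abbrev C0 : Type u := {p : IPow M (INat M) × IPow M (INat M) // IsC0 p}

instance : Preorder (PC M) where
  le p q := ∀ c, (c ∈ q.1.1 → c ∈ p.1.1) ∧ (c ∈ q.1.2 → c ∈ p.1.2)
  le_refl _ _ := ⟨id, id⟩
  le_trans _ _ _ h h' c := ⟨fun hc => (h c).1 ((h' c).1 hc), fun hc => (h c).2 ((h' c).2 hc)⟩

theorem PC.le_def {p q : PC M} :
    p ≤ q ↔ ∀ c, (c ∈ q.1.1 → c ∈ p.1.1) ∧ (c ∈ q.1.2 → c ∈ p.1.2) := Iff.rfl

instance : ILE M (PC M) where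
  out := by
    change Int M (fun q : PC M × PC M => ∀ c, (c ∈ q.2.1.1 → c ∈ q.1.1.1) ∧
      (c ∈ q.2.1.2 → c ∈ q.1.1.2))
    (repeat' (first | with_reducible exact IntF.id | with_reducible exact IntF.fst' | with_reducible exact IntF.snd' | with_reducible exact IntF.const _ | with_reducible exact Int.const _ | assumption | with_reducible apply Int.and | with_reducible apply Int.or | with_reducible apply Int.not | with_reducible apply Int.imp | with_reducible apply Int.iff | with_reducible apply Int.ne | with_reducible apply Int.eq | with_reducible apply Int.mem | with_reducible apply Int.subset | with_reducible apply Int.ltN | with_reducible apply Int.leN | with_reducible_and_instances apply Int.le | with_reducible_and_instances apply Int.lt | with_reducible apply Int.all | with_reducible apply Int.ex | with_reducible apply IntF.fst | with_reducible apply IntF.snd | with_reducible apply IntF.app | with_reducible apply IntF.inl | with_reducible apply IntF.inr | with_reducible_and_instances apply IntF.mul | with_reducible_and_instances apply IntF.inv | with_reducible_and_instances apply IntF.add | with_reducible_and_instances apply IntF.sub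 | with_reducible_and_instances apply IntF.neg | with_reducible_and_instances apply IntF.smul | with_reducible apply IntF.succ | with_reducible apply IntF.val | with_reducible apply IntF.mk | (with_reducible refine Int.comp ?_ ?_; assumption) | (with_reducible refine Int.comp₂ ?_ ?_ ?_; assumption) | (with_reducible refine Int.comp₃ ?_ ?_ ?_ ?_; assumption) | (with_reducible refine Int.comp₄ ?_ ?_ ?_ ?_ ?_; assumption) | (with_reducible refine IntF.comp ?_ ?_; assumption) | (with_reducible refine IntF.comp₂ ?_ ?_ ?_; assumption) | (with_reducible refine IntF.comp₃ ?_ ?_ ?_ ?_; assumption) | with_reducible apply IntF.pair))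

instance : Preorder (C0 M) where
  le p q := ∀ c, (c ∈ q.1.1 → c ∈ p.1.1) ∧ (c ∈ q.1.2 → c ∈ p.1.2)
  le_refl _ _ := ⟨id, id⟩
  le_trans _ _ _ h h' c := ⟨fun hc => (h c).1 ((h' c).1 hc), fun hc => (h c).2 ((h' c).2 hc)⟩

theorem C0.le_def {p q : C0 M} :
    p ≤ q ↔ ∀ c, (c ∈ q.1.1 → c ∈ p.1.1) ∧ (c ∈ q.1.2 → c ∈ p.1.2) := Iff.rfl

instance : ILE M (C0 M) where
  out := by
    change Int M (fun q : C0 M × C0 M => ∀ c, (c ∈ q.2.1.1 → c ∈ q.1.1.1) ∧
      (c ∈ q.2.1.2 → c ∈ q.1.1.2))
    (repeat' (first | with_reducible exact IntF.id | with_reducible exact IntF.fst' | with_reducible exact IntF.snd' | with_reducible exact IntF.const _ | with_reducible exact Int.const _ | assumption | with_reducible apply Int.and | with_reducible apply Int.or | with_reducible apply Int.not | with_reducible apply Int.imp | with_reducible apply Int.iff | with_reducible apply Int.ne | with_reducible apply Int.eq | with_reducible apply Int.mem | with_reducible apply Int.subset | with_reducible apply Int.ltN | with_reducible apply Int.leN | with_reducible_and_instances apply Int.le | with_reducible_and_instances apply Int.lt | with_reducible apply Int.all |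 with_reducible apply Int.ex | with_reducible apply IntF.fst | with_reducible apply IntF.snd | with_reducible apply IntF.app | with_reducible apply IntF.inl | with_reducible apply IntF.inr | with_reducible_and_instances apply IntF.mul | with_reducible_and_instances apply IntF.inv | with_reducible_and_instances apply IntF.add | with_reducible_and_instances apply IntF.sub | with_reducible_and_instances apply IntF.neg | with_reducible_and_instances apply IntF.smul | with_reducible apply IntF.succ | with_reducible apply IntF.val | with_reducible apply IntF.mk | (with_reducible refine Int.comp ?_ ?_; assumption) | (with_reducible refine Int.comp₂ ?_ ?_ ?_; assumption) | (with_reducible refine Int.comp₃ ?_ ?_ ?_ ?_; assumption) | (with_reducible refine Int.comp₄ ?_ ?_ ?_ ?_ ?_; assumption) | (with_reducible refine IntF.comp ?_ ?_; assumption) | (with_reducible refine IntF.comp₂ ?_ ?_ ?_; assumption) | (with_reducible refine IntF.comp₃ ?_ ?_ ?_ ?_; assumption) | with_reducible apply IntF.pair))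

theorem PC.ext' {p q : PC M} (h1 : ∀ c, c ∈ p.1.1 ↔ c ∈ q.1.1)
    (h2 : ∀ c, c ∈ p.1.2 ↔ c ∈ q.1.2) : p = q :=
  Subtype.ext (Prod.ext (IPow.ext' h1) (IPow.ext' h2))

theorem C0.ext' {p q : C0 M} (h1 : ∀ c, c ∈ p.1.1 ↔ c ∈ q.1.1)
    (h2 : ∀ c, c ∈ p.1.2 ↔ c ∈ q.1.2) : p = q :=
  Subtype.ext (Prod.ext (IPow.ext' h1) (IPow.ext' h2))

theorem PC.antisymm {p q : PC M} (h : p ≤ q) (h' : q ≤ p) : p = q :=
  PC.ext' (fun c => ⟨(h' c).1, (h c).1⟩) (fun c => ⟨(h' c).2, (h c).2⟩)

/-- A condition with prescribed parts. -/
noncomputable def mkC (f g : INat M × INat M → Prop) (hf : Int M f) (hg : Int M g)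
    (h : ∀ c, f c → ¬ g c) (hb : ∃ n, ∀ c, (f c ∨ g c) → c.1 < n ∧ c.2 < n) : PC M :=
  ⟨(sep M f, sep M g), fun c h1 h2 => h c ((mem_sep hf).1 h1) ((mem_sep hg).1 h2), by
    obtain ⟨n, hn⟩ := hb
    exact ⟨n, fun c hc => hn c (hc.imp (mem_sep hf).1 (mem_sep hg).1)⟩⟩

/-- A one column condition with prescribed parts. -/
noncomputable def mkC0 (f g : INat M → Prop) (hf : Int M f) (hg : Int M g)
    (h : ∀ c, f c → ¬ g c) (hb : ∃ n, ∀ c, (f c ∨ g c) → c < n) : C0 M :=
  ⟨(sep M f, sep M g), fun c h1 h2 => h c ((mem_sep hf).1 h1) ((mem_sep hg).1 h2), by
    obtain ⟨n, hn⟩ := hb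
    exact ⟨n, fun c hc => hn c (hc.imp (mem_sep hf).1 (mem_sep hg).1)⟩⟩

theorem mem_mkC_fst {f g : INat M × INat M → Prop} {hf : Int M f} {hg : Int M g}
    {h : ∀ c, f c → ¬ g c} {hb : ∃ n, ∀ c, (f c ∨ g c) → c.1 < n ∧ c.2 < n}
    {c : INat M × INat M} : c ∈ (mkC f g hf hg h hb).1.1 ↔ f c := mem_sep hf

theorem mem_mkC_snd {f g : INat M × INat M → Prop} {hf : Int M f} {hg : Int M g}
    {h : ∀ c, f c → ¬ g c} {hb : ∃ n, ∀ c, (f c ∨ g c) → c.1 < n ∧ c.2 < n}
    {c : INat M × INat M} : c ∈ (mkC f g hf hg h hb).1.2 ↔ g c := mem_sep hg

theorem mem_mkC0_fst {f g : INat M → Prop} {hf : Int M f} {hg : Int M g}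
    {h : ∀ c, f c → ¬ g c} {hb : ∃ n, ∀ c, (f c ∨ g c) → c < n}
    {c : INat M} : c ∈ (mkC0 f g hf hg h hb).1.1 ↔ f c := mem_sep hf

theorem mem_mkC0_snd {f g : INat M → Prop} {hf : Int M f} {hg : Int M g}
    {h : ∀ c, f c → ¬ g c} {hb : ∃ n, ∀ c, (f c ∨ g c) → c < n}
    {c : INat M} : c ∈ (mkC0 f g hf hg h hb).1.2 ↔ g c := mem_sep hg

/-! ### The group -/

variable (M) in
/-- The group: all permutations of the natural numbers. -/
abbrev GC : Type u := IPerm M (INat M)

/-- Application. -/
def pa (π : GC M) (i : INat M) : INat M := π.1.1 i

/-- Application of the inverse. -/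
def pi' (π : GC M) (i : INat M) : INat M := π.1.2 i

theorem int_pa : IntF M (fun q : GC M × INat M => pa q.1 q.2) := by
  unfold pa
  (repeat' (first | with_reducible exact IntF.id | with_reducible exact IntF.fst' | with_reducible exact IntF.snd' | with_reducible exact IntF.const _ | with_reducible exact Int.const _ | assumption | with_reducible apply Int.and | with_reducible apply Int.or | with_reducible apply Int.not | with_reducible apply Int.imp | with_reducible apply Int.iff | with_reducible apply Int.ne | with_reducible apply Int.eq | with_reducible apply Int.mem | with_reducible apply Int.subset | with_reducible apply Int.ltN | with_reducible apply Int.leN | with_reducible_and_instances apply Int.le | with_reducible_and_instances apply Int.lt | with_reducible apply Int.all | with_reducible apply Int.ex | with_reducible apply IntF.fst | with_reducible apply IntF.snd | with_reducible apply IntF.app | with_reducible apply IntF.inl | with_reducible apply IntF.inr | with_reducible_and_instances apply IntF.mul | with_reducible_and_instances apply IntF.inv | with_reducible_and_instances apply IntF.add | with_reducible_and_instances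 apply IntF.sub | with_reducible_and_instances apply IntF.neg | with_reducible_and_instances apply IntF.smul | with_reducible apply IntF.succ | with_reducible apply IntF.val | with_reducible apply IntF.mk | (with_reducible refine Int.comp ?_ ?_; assumption) | (with_reducible refine Int.comp₂ ?_ ?_ ?_; assumption) | (with_reducible refine Int.comp₃ ?_ ?_ ?_ ?_; assumption) | (with_reducible refine Int.comp₄ ?_ ?_ ?_ ?_ ?_; assumption) | (with_reducible refine IntF.comp ?_ ?_; assumption) | (with_reducible refine IntF.comp₂ ?_ ?_ ?_; assumption) | (with_reducible refine IntF.comp₃ ?_ ?_ ?_ ?_; assumption) | with_reducible apply IntF.pair))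

theorem int_pi' : IntF M (fun q : GC M × INat M => pi' q.1 q.2) := by
  unfold pi'
  (repeat' (first | with_reducible exact IntF.id | with_reducible exact IntF.fst' | with_reducible exact IntF.snd' | with_reducible exact IntF.const _ | with_reducible exact Int.const _ | assumption | with_reducible apply Int.and | with_reducible apply Int.or | with_reducible apply Int.not | with_reducible apply Int.imp | with_reducible apply Int.iff | with_reducible apply Int.ne | with_reducible apply Int.eq | with_reducible apply Int.mem | with_reducible apply Int.subset | with_reducible apply Int.ltN | with_reducible apply Int.leN | with_reducible_and_instances apply Int.le | with_reducible_and_instances apply Int.lt | with_reducible apply Int.all | with_reducible apply Int.ex | with_reducible apply IntF.fst | with_reducible apply IntF.snd | with_reducible apply IntF.app | with_reducible apply IntF.inl | with_reducible apply IntF.inr | with_reducible_and_instances apply IntF.mul | with_reducible_and_instances apply IntF.inv | with_reducible_and_instances apply IntF.add | with_reducible_and_instances apply IntF.sub | with_reducible_and_instances apply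 IntF.neg | with_reducible_and_instances apply IntF.smul | with_reducible apply IntF.succ | with_reducible apply IntF.val | with_reducible apply IntF.mk | (with_reducible refine Int.comp ?_ ?_; assumption) | (with_reducible refine Int.comp₂ ?_ ?_ ?_; assumption) | (with_reducible refine Int.comp₃ ?_ ?_ ?_ ?_; assumption) | (with_reducible refine Int.comp₄ ?_ ?_ ?_ ?_ ?_; assumption) | (with_reducible refine IntF.comp ?_ ?_; assumption) | (with_reducible refine IntF.comp₂ ?_ ?_ ?_; assumption) | (with_reducible refine IntF.comp₃ ?_ ?_ ?_ ?_; assumption) | with_reducible apply IntF.pair))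

theorem pa_pi' (π : GC M) (i : INat M) : pa π (pi' π i) = i := π.2.1 i
theorem pi'_pa (π : GC M) (i : INat M) : pi' π (pa π i) = i := π.2.2 i
theorem pa_inv (π : GC M) (i : INat M) : pa π⁻¹ i = pi' π i := rfl
theorem pi'_inv (π : GC M) (i : INat M) : pi' π⁻¹ i = pa π i := rfl
theorem pa_mul (π σ : GC M) (i : INat M) : pa (π * σ) i = pa π (pa σ i) := IPerm.mul_apply _ _ _
theorem pi'_mul (π σ : GC M) (i : INat M) : pi' (π * σ) i = pi' σ (pi' π i) :=
  IPerm.mul_apply₂ _ _ _
theorem pa_one (i : INat M) : pa (1 : GC M) i = i := IPerm.one_apply _
theorem pi'_one (i : INat M) : pi' (1 : GC M) i = i := IPerm.one_apply₂ _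
theorem pa_inj (π : GC M) {i j : INat M} (h : pa π i = pa π j) : i = j := by
  rw [← pi'_pa π i, h, pi'_pa]
theorem GC.ext' {π σ : GC M} (h : ∀ i, pa π i = pa σ i) : π = σ := IPerm.ext' h

theorem bound_img (π : GC M) (n : INat M) : ∃ m, ∀ i, i < n → pa π i < m := by
  have hI : IntF M (fun q : GC M × INat M => pa q.1 q.2) := int_pa
  refine INat.ind (p := fun n => ∃ m, ∀ i, i < n → pa π i < m) (by (repeat' (first | with_reducible exact IntF.id | with_reducible exact IntF.fst' | with_reducible exact IntF.snd' | with_reducible exact IntF.const _ | with_reducible exact Int.const _ | assumption | with_reducible apply Int.and | with_reducible apply Int.or | with_reducible apply Int.not | with_reducible apply Int.imp | with_reducible apply Int.iff | with_reducible apply Int.ne | with_reducible apply Int.eq | with_reducible apply Int.mem | with_reducible apply Int.subset | with_reducible apply Int.ltN | with_reducible apply Int.leN | with_reducible_and_instances apply Int.le | with_reducible_and_instances apply Int.lt | with_reducible apply Int.all | with_reducible apply Int.ex | with_reducible apply IntF.fst | with_reducible apply IntF.snd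 | with_reducible apply IntF.app | with_reducible apply IntF.inl | with_reducible apply IntF.inr | with_reducible_and_instances apply IntF.mul | with_reducible_and_instances apply IntF.inv | with_reducible_and_instances apply IntF.add | with_reducible_and_instances apply IntF.sub | with_reducible_and_instances apply IntF.neg | with_reducible_and_instances apply IntF.smul | with_reducible apply IntF.succ | with_reducible apply IntF.val | with_reducible apply IntF.mk | (with_reducible refine Int.comp ?_ ?_; assumption) | (with_reducible refine Int.comp₂ ?_ ?_ ?_; assumption) | (with_reducible refine Int.comp₃ ?_ ?_ ?_ ?_; assumption) | (with_reducible refine Int.comp₄ ?_ ?_ ?_ ?_ ?_; assumption) | (with_reducible refine IntF.comp ?_ ?_; assumption) | (with_reducible refine IntF.comp₂ ?_ ?_ ?_; assumption) | (with_reducible refine IntF.comp₃ ?_ ?_ ?_ ?_; assumption) | with_reducible apply IntF.pair)))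
    ⟨0, fun i hi => absurd hi INat.not_lt_zero⟩ ?_ n
  rintro n ⟨m, hm⟩
  refine ⟨max m (pa π n).succ, fun i hi => ?_⟩
  rcases INat.lt_succ_iff'.1 hi with h | rfl
  · exact lt_of_lt_of_le (hm i h) (le_max_left _ _)
  · exact lt_of_lt_of_le (INat.lt_succ_self _) (le_max_right _ _)

theorem bound_img2 (π : GC M) (n : INat M) : ∃ m, n ≤ m ∧ ∀ i, i < n → pa π i < m := by
  obtain ⟨m, hm⟩ := bound_img π n
  exact ⟨max n m, le_max_left _ _, fun i hi => lt_of_lt_of_le (hm i hi) (le_max_right _ _)⟩

theorem int_smul1 (π : GC M) (p : PC M) : Int M (fun c : INat M × INat M =>
    (pi' π c.1, c.2) ∈ p.1.1) := by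
  have hI : IntF M (fun q : GC M × INat M => pi' q.1 q.2) := int_pi'
  (repeat' (first | with_reducible exact IntF.id | with_reducible exact IntF.fst' | with_reducible exact IntF.snd' | with_reducible exact IntF.const _ | with_reducible exact Int.const _ | assumption | with_reducible apply Int.and | with_reducible apply Int.or | with_reducible apply Int.not | with_reducible apply Int.imp | with_reducible apply Int.iff | with_reducible apply Int.ne | with_reducible apply Int.eq | with_reducible apply Int.mem | with_reducible apply Int.subset | with_reducible apply Int.ltN | with_reducible apply Int.leN | with_reducible_and_instances apply Int.le | with_reducible_and_instances apply Int.lt | with_reducible apply Int.all | with_reducible apply Int.ex | with_reducible apply IntF.fst | with_reducible apply IntF.snd | with_reducible apply IntF.app | with_reducible apply IntF.inl | with_reducible apply IntF.inr | with_reducible_and_instances apply IntF.mul | with_reducible_and_instances apply IntF.inv | with_reducible_and_instances apply IntF.add | with_reducible_and_instances apply IntF.sub | with_reducible_and_instances apply IntF.neg |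 with_reducible_and_instances apply IntF.smul | with_reducible apply IntF.succ | with_reducible apply IntF.val | with_reducible apply IntF.mk | (with_reducible refine Int.comp ?_ ?_; assumption) | (with_reducible refine Int.comp₂ ?_ ?_ ?_; assumption) | (with_reducible refine Int.comp₃ ?_ ?_ ?_ ?_; assumption) | (with_reducible refine Int.comp₄ ?_ ?_ ?_ ?_ ?_; assumption) | (with_reducible refine IntF.comp ?_ ?_; assumption) | (with_reducible refine IntF.comp₂ ?_ ?_ ?_; assumption) | (with_reducible refine IntF.comp₃ ?_ ?_ ?_ ?_; assumption) | with_reducible apply IntF.pair))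

theorem int_smul2 (π : GC M) (p : PC M) : Int M (fun c : INat M × INat M =>
    (pi' π c.1, c.2) ∈ p.1.2) := by
  have hI : IntF M (fun q : GC M × INat M => pi' q.1 q.2) := int_pi'
  (repeat' (first | with_reducible exact IntF.id | with_reducible exact IntF.fst' | with_reducible exact IntF.snd' | with_reducible exact IntF.const _ | with_reducible exact Int.const _ | assumption | with_reducible apply Int.and | with_reducible apply Int.or | with_reducible apply Int.not | with_reducible apply Int.imp | with_reducible apply Int.iff | with_reducible apply Int.ne | with_reducible apply Int.eq | with_reducible apply Int.mem | with_reducible apply Int.subset | with_reducible apply Int.ltN | with_reducible apply Int.leN | with_reducible_and_instances apply Int.le | with_reducible_and_instances apply Int.lt | with_reducible apply Int.all | with_reducible apply Int.ex | with_reducible apply IntF.fst | with_reducible apply IntF.snd | with_reducible apply IntF.app | with_reducible apply IntF.inl | with_reducible apply IntF.inr | with_reducible_and_instances apply IntF.mul | with_reducible_and_instances apply IntF.inv | with_reducible_and_instances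 apply IntF.add | with_reducible_and_instances apply IntF.sub | with_reducible_and_instances apply IntF.neg | with_reducible_and_instances apply IntF.smul | with_reducible apply IntF.succ | with_reducible apply IntF.val | with_reducible apply IntF.mk | (with_reducible refine Int.comp ?_ ?_; assumption) | (with_reducible refine Int.comp₂ ?_ ?_ ?_; assumption) | (with_reducible refine Int.comp₃ ?_ ?_ ?_ ?_; assumption) | (with_reducible refine Int.comp₄ ?_ ?_ ?_ ?_ ?_; assumption) | (with_reducible refine IntF.comp ?_ ?_; assumption) | (with_reducible refine IntF.comp₂ ?_ ?_ ?_; assumption) | (with_reducible refine IntF.comp₃ ?_ ?_ ?_ ?_; assumption) | with_reducible apply IntF.pair))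

noncomputable instance : SMul (GC M) (PC M) :=
  ⟨fun π p => mkC (fun c => (pi' π c.1, c.2) ∈ p.1.1) (fun c => (pi' π c.1, c.2) ∈ p.1.2)
    (int_smul1 π p) (int_smul2 π p) (fun c => p.2.1 _) (by
      obtain ⟨-, n, hn⟩ := p.2
      obtain ⟨m, hnm, hm⟩ := bound_img2 π n
      refine ⟨m, fun c hc => ?_⟩
      obtain ⟨h1, h2⟩ := hn _ hc
      refine ⟨?_, lt_of_lt_of_le h2 hnm⟩
      have h3 := hm _ h1
      rwa [pa_pi'] at h3)⟩

theorem mem_smul1 {π : GC M} {p : PC M} {c : INat M × INat M} :
    c ∈ (π • p).1.1 ↔ (pi' π c.1, c.2) ∈ p.1.1 := mem_mkC_fst

theorem mem_smul2 {π : GC M} {p : PC M} {c : INat M × INat M} :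
    c ∈ (π • p).1.2 ↔ (pi' π c.1, c.2) ∈ p.1.2 := mem_mkC_snd

noncomputable instance : MulAction (GC M) (PC M) where
  one_smul p := PC.ext' (fun c => by rw [mem_smul1, pi'_one]) (fun c => by rw [mem_smul2, pi'_one])
  mul_smul π σ p := PC.ext' (fun c => by rw [mem_smul1, mem_smul1, mem_smul1, pi'_mul])
    (fun c => by rw [mem_smul2, mem_smul2, mem_smul2, pi'_mul])

instance : ISMul M (GC M) (PC M) where
  out := by
    have hI : IntF M (fun q : GC M × INat M => pi' q.1 q.2) := int_pi'
    refine IntF.of_rel (r := fun (q : GC M × PC M) (p : PC M) =>
      ∀ c : INat M × INat M, (c ∈ p.1.1 ↔ (pi' q.1 c.1, c.2) ∈ q.2.1.1) ∧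
        (c ∈ p.1.2 ↔ (pi' q.1 c.1, c.2) ∈ q.2.1.2)) (by (repeat' (first | with_reducible exact IntF.id | with_reducible exact IntF.fst' | with_reducible exact IntF.snd' | with_reducible exact IntF.const _ | with_reducible exact Int.const _ | assumption | with_reducible apply Int.and | with_reducible apply Int.or | with_reducible apply Int.not | with_reducible apply Int.imp | with_reducible apply Int.iff | with_reducible apply Int.ne | with_reducible apply Int.eq | with_reducible apply Int.mem | with_reducible apply Int.subset | with_reducible apply Int.ltN | with_reducible apply Int.leN | with_reducible_and_instances apply Int.le | with_reducible_and_instances apply Int.lt | with_reducible apply Int.all | with_reducible apply Int.ex | with_reducible apply IntF.fst | with_reducible apply IntF.snd | with_reducible apply IntF.app | with_reducible apply IntF.inl | with_reducible apply IntF.inr | with_reducible_and_instances apply IntF.mul | with_reducible_and_instances apply IntF.inv | with_reducible_and_instances apply IntF.add | with_reducible_and_instances apply IntF.sub | with_reducible_and_instances apply IntF.neg | with_reducible_and_instances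 apply IntF.smul | with_reducible apply IntF.succ | with_reducible apply IntF.val | with_reducible apply IntF.mk | (with_reducible refine Int.comp ?_ ?_; assumption) | (with_reducible refine Int.comp₂ ?_ ?_ ?_; assumption) | (with_reducible refine Int.comp₃ ?_ ?_ ?_ ?_; assumption) | (with_reducible refine Int.comp₄ ?_ ?_ ?_ ?_ ?_; assumption) | (with_reducible refine IntF.comp ?_ ?_; assumption) | (with_reducible refine IntF.comp₂ ?_ ?_ ?_; assumption) | (with_reducible refine IntF.comp₃ ?_ ?_ ?_ ?_; assumption) | with_reducible apply IntF.pair))) fun q p => ?_
    constructor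
    · intro h
      exact PC.ext' (fun c => mem_smul1.trans (h c).1.symm) (fun c => mem_smul2.trans (h c).2.symm)
    · rintro rfl c
      exact ⟨mem_smul1, mem_smul2⟩

variable (M) in
/-- The symmetric system. -/
noncomputable def SC : SymSys M (PC M) (GC M) (INat M) where
  smul_le π p q h c := ⟨fun hc => mem_smul1.2 ((h _).1 (mem_smul1.1 hc)),
    fun hc => mem_smul2.2 ((h _).2 (mem_smul2.1 hc))⟩
  U n π := ∀ i, i < n → pa π i = i
  int_U := by
    have hI : IntF M (fun q : GC M × INat M => pa q.1 q.2) := int_pa
    (repeat' (first | with_reducible exact IntF.id | with_reducible exact IntF.fst' | with_reducible exact IntF.snd' | with_reducible exact IntF.const _ | with_reducible exact Int.const _ | assumption | with_reducible apply Int.and | with_reducible apply Int.or | with_reducible apply Int.not | with_reducible apply Int.imp | with_reducible apply Int.iff | with_reducible apply Int.ne | with_reducible apply Int.eq | with_reducible apply Int.mem | with_reducible apply Int.subset | with_reducible apply Int.ltN | with_reducible apply Int.leN | with_reducible_and_instances apply Int.le | with_reducible_and_instances apply Int.lt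 | with_reducible apply Int.all | with_reducible apply Int.ex | with_reducible apply IntF.fst | with_reducible apply IntF.snd | with_reducible apply IntF.app | with_reducible apply IntF.inl | with_reducible apply IntF.inr | with_reducible_and_instances apply IntF.mul | with_reducible_and_instances apply IntF.inv | with_reducible_and_instances apply IntF.add | with_reducible_and_instances apply IntF.sub | with_reducible_and_instances apply IntF.neg | with_reducible_and_instances apply IntF.smul | with_reducible apply IntF.succ | with_reducible apply IntF.val | with_reducible apply IntF.mk | (with_reducible refine Int.comp ?_ ?_; assumption) | (with_reducible refine Int.comp₂ ?_ ?_ ?_; assumption) | (with_reducible refine Int.comp₃ ?_ ?_ ?_ ?_; assumption) | (with_reducible refine Int.comp₄ ?_ ?_ ?_ ?_ ?_; assumption) | (with_reducible refine IntF.comp ?_ ?_; assumption) | (with_reducible refine IntF.comp₂ ?_ ?_ ?_; assumption) | (with_reducible refine IntF.comp₃ ?_ ?_ ?_ ?_; assumption) | with_reducible apply IntF.pair))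
  nonempty := ⟨0⟩
  one _ i _ := pa_one i
  mul _ a b ha hb i hi := by rw [pa_mul, hb i hi, ha i hi]
  inv _ a ha i hi := by
    have h := pi'_pa a i
    rw [ha i hi] at h
    exact h
  dir l l' := ⟨max l l', fun a ha => ⟨fun i hi => ha i (lt_of_lt_of_le hi (le_max_left _ _)),
    fun i hi => ha i (lt_of_lt_of_le hi (le_max_right _ _))⟩⟩
  conj π l := by
    obtain ⟨m, hm⟩ := bound_img π l
    refine ⟨m, fun a ha i hi => ?_⟩
    rw [pa_mul, pa_mul, pa_inv, ha _ (hm i hi), pi'_pa]

theorem SC_U {n : INat M} {π : GC M} : (SC M).U n π ↔ ∀ i, i < n → pa π i = i := Iff.rfl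

end

end Pool.Agent.H525C
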